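import Pool.Agent.RieszSq.Defs
import Pool.Agent.Riesz.PhiProp

set_option autoImplicit false

open Real Finset

namespace Pool.Agent.RieszSq

open Pool.Agent.Riesz (InDom om G)

namespace ParValAux

theorem pos1 {n : ℕ} {q a g w k B t x : ℝ} (h : Par n q a g w k B t x) :
    0 < 1 - ((n : ℝ) - 1) * g := by
  have h1 : 0 < x * (1 - ((n : ℝ) - 1) * g) := by
    rw [← h.r1]
    have := h.a0
    have := h.B0
    positivity
  by_contra h2
  have h3 := mul_nonpos_of_nonneg_of_nonpos h.x0.le (not_lt.1 h2)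
  linarith

theorem rpow_q {y q : ℝ} (hy : 0 < y) : y ^ (-q) = y * y ^ (-(q + 1)) := by
  nth_rewrite 2 [← Real.rpow_one y]
  rw [← Real.rpow_add hy]
  congr 1
  ring

end ParValAux

section

variable {n : ℕ} {q a g w k B t x : ℝ}

/-- MODULE Q10a. `1 - (n-1) g = 4 a B/x > 0` (`r1`), so
`om n a g = n a²/(1 - (n-1) g) = n a x/(4 B) = w` (`r2`). -/
theorem Par.om_eq (h : Par n q a g w k B t x) : om n a g = w := by
  have h1 := ParValAux.pos1 h
  have hB := h.B0
  rw [om, div_eq_iff h1.ne']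
  have h2 : 4 * B * (w * (1 - ((n : ℝ) - 1) * g)) = 4 * B * (n * a ^ 2) := by
    linear_combination (1 - ((n : ℝ) - 1) * g) * h.r2 - (n * a) * h.r1
  have h3 := mul_left_cancel₀ (by positivity : (4 * B) ≠ 0) h2
  exact h3.symm

theorem Par.inDom (h : Par n q a g w k B t x) : InDom n a g := by
  have h1 := ParValAux.pos1 h
  refine ⟨h.a0, h.g0.le, by linarith, ?_⟩
  rw [h.om_eq]
  exact h.w1

/-- `a + ν g = η (1 + g)` (`r1`), `w = ν a` (`r2`). -/
theorem Par.rel (h : Par n q a g w k B t x) :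
    a + nu n B x * g = eta B x * (1 + g) ∧ w = nu n B x * a := by
  have hB := h.B0
  have h4 : (4 * B) ≠ 0 := by positivity
  have e1 : 4 * B * eta B x = x := by
    rw [eta]
    field_simp
  rw [nu]
  constructor
  · apply mul_left_cancel₀ h4
    linear_combination h.r1 + ((n : ℝ) * g - (1 + g)) * e1
  · apply mul_left_cancel₀ h4
    linear_combination h.r2 - (n : ℝ) * a * e1

/-- MODULE Q10b (the value). `G q (-a) = (1+a)^(-q) = (1+a) B x`, `G q (-g) = (1+g) x²`,
`G q w = (1-w) k`, `G q (2 w - 1) = (2 - 2 w)^(-q) = 2 (1-w) ep k` (`G_eq`), so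
`2 Phi = 8 n (1+a) B x + n (n-1) (1+g) x² + 8 (1-w) k (1 + ep)`, `8 k (1+ep) = 16 B²`, and
`-16 B² w + 8 n a B x + n (n-1) g x² - n x² = 0` by `r2` (`16 B² w = 4 n B x a`) and `r1`
(`n x² (1 - (n-1) g) = 4 n a B x`). -/
theorem Par.val (h : Par n q a g w k B t x) :
    2 * Pool.Agent.Riesz.Phi n q a g = (4 * B + n * x) ^ 2 := by
  have ha := h.a0
  have hg := h.g0
  have hw0 := h.w0
  have hw1 := h.w1
  have h1 : G q (-a) = (1 + a) * (B * x) := by
    rw [Pool.Agent.Riesz.G_eq (by linarith), sub_neg_eq_add,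
      ParValAux.rpow_q (by linarith), ← h.eY]
  have h2 : G q (-g) = (1 + g) * x ^ 2 := by
    rw [Pool.Agent.Riesz.G_eq (by linarith), sub_neg_eq_add,
      ParValAux.rpow_q (by linarith), ← h.ex]
  have h3 : G q w = (1 - w) * k := by
    rw [Pool.Agent.Riesz.G_eq hw1, ParValAux.rpow_q (by linarith), ← h.ek]
  have h4 : G q (2 * w - 1) = 2 * (1 - w) * (ep q * k) := by
    rw [Pool.Agent.Riesz.G_eq (by linarith)]
    have e : 1 - (2 * w - 1) = 2 * (1 - w) := by ring
    rw [e, ParValAux.rpow_q (by linarith), Real.mul_rpow (by norm_num) (by linarith), ← h.ek, ep]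
  rw [Pool.Agent.Riesz.Phi, h.om_eq, h1, h2, h3, h4]
  linear_combination (-(8 * (1 - w))) * h.eB + ((n : ℝ) * x) * h.r1 - (4 * B) * h.r2

end

end Pool.Agent.RieszSq
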