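import Pool.Agent.RieszSq.MainC
import Pool.Agent.RieszSq.ParVal
import Pool.Agent.RieszSq.ParEx
import Pool.Agent.RieszSq.ParStat
import Pool.Agent.RieszSq.ParEst2
import Pool.Agent.RieszF.S9Struct
import Pool.Agent.Riesz.Main

set_option autoImplicit false

open Real Finset

namespace Pool.Agent.RieszSq

open Pool.Agent.RieszSmall (En)
open Pool.Agent.RieszF (Conf IsMin Splitting)
open Pool.Agent.Riesz (InDom om G Phi dsum IsSym)

section

variable {ι : Type*} [Fintype ι] [DecidableEq ι] {V : Type*} [NormedAddCommGroup V]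
  [InnerProductSpace ℝ V]

theorem En_eq_dsum {q : ℝ} {x : ι → V} (hx : Conf x) : En q x = dsum q x := by
  unfold En dsum
  refine Finset.sum_congr rfl fun i _ => Finset.sum_congr rfl fun j _ => ?_
  split_ifs with hij
  · rfl
  · rw [Pool.Agent.Riesz.G_eq (hx.inner_lt hij)]

/-- Configurations of energy at most the energy of the optimal lifted square are lifted squares. -/
theorem key_low2 [FiniteDimensional ℝ V] {n : ℕ} (hn : 2 ≤ n) {q : ℝ}
    (hq : ((n : ℝ) + 2) * (log ((n : ℝ) + 2) + 500) ≤ q) (hcard : Fintype.card ι = n + 4)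
    (hfr : Module.finrank ℝ V = n + 2) {x : ι → V} (hx : ∀ i, ‖x i‖ = 1)
    (hlt : ∀ i j, i ≠ j → (inner ℝ (x i) (x j) : ℝ) < 1) {α γ : ℝ} (hdom : InDom n α γ)
    (hmin : ∀ a g, InDom n a g → Phi n q α γ ≤ Phi n q a g)
    (hlow : dsum q x ≤ 2 * Phi n q α γ) :
    ∃ e : Fin 4 ⊕ Fin n ≃ ι, IsSym α γ (x (e (Sum.inl 0))) (x (e (Sum.inl 1)))
      (x (e (Sum.inl 2))) (x (e (Sum.inl 3))) (fun k => x (e (Sum.inr k))) := by
  obtain ⟨hq0, -, -⟩ := range_basic hn hq
  have hq1 : (1 : ℝ) ≤ q := by linarith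
  have hqp : (0 : ℝ) < q := by linarith
  obtain ⟨w, k, B, t, z, hP⟩ := exists_par hn hq1 hdom hmin
  have hE := hP.est hq
  have hval := hP.val
  have hconf : Conf x := Pool.Agent.RieszF.conf_of_inner hx hlt
  obtain ⟨y, hy⟩ := Pool.Agent.RieszF.exists_isMin hqp hconf
  have key : ∀ u : ι → V, IsMin q u → En q u ≤ 2 * Phi n q α γ →
      ∃ e : Fin 4 ⊕ Fin n ≃ ι, IsSym α γ (u (e (Sum.inl 0))) (u (e (Sum.inl 1)))
      (u (e (Sum.inl 2))) (u (e (Sum.inl 3))) (fun k => u (e (Sum.inr k))) := by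
    intro u hu hle
    obtain ⟨al, b, hab⟩ := hu.splitting hqp (by rw [hfr, hcard])
    refine sq_of_splitting hE hcard hu.1 hab ?_
    rw [← hval]; exact hle
  have hyx := hy.2 x hconf
  rw [En_eq_dsum hconf] at hyx
  obtain ⟨e, he⟩ := key y hy (hyx.trans hlow)
  have hyE : En q y = 2 * Phi n q α γ := by
    rw [En_eq_dsum hy.1, ← Pool.Agent.Riesz.dsum_relabel e q y, Pool.Agent.Riesz.dsum_eq,
      Pool.Agent.Riesz.Etot_sym he, Fintype.card_fin]
  refine key x ⟨hconf, fun u hu => ?_⟩ ?_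
  · have h1 := hy.2 u hu
    rw [En_eq_dsum hconf]
    linarith
  · rw [En_eq_dsum hconf]; exact hlow

end

end Pool.Agent.RieszSq
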