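import Pool.Agent.RieszSq.Form
import Pool.Agent.RieszSq.KcVal

set_option autoImplicit false

open Real Finset

namespace Pool.Agent.RieszSq

section

variable {ι : Type*} [Fintype ι] [DecidableEq ι]
variable {n : ℕ} {q a g w k B t x U V : ℝ} {HP HQ L : Finset ι} {wt th : ι → ℝ}

/-- The algebraic identity. -/
theorem raw_eq (h : Par n q a g w k B t x) (hc : Cf n B x HP HQ L wt th U V) (wp wq : ℝ) :
    Raw q a g w k B t x HP HQ L wt th U V wp wq - (q + 1) * (4 * B + n * x) ^ 2
      = 16 * B ^ 2 * (1 + nu n B x) * Form n q a g w B t x HP HQ L wt th U V wp wq := by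
  have hB := h.B0.ne'
  have hx := h.x0.ne'
  have hU := hc.U0.ne'
  have hV := hc.V0.ne'
  obtain ⟨hep0, hep1⟩ := h.ep_pos
  have hn0 : (0 : ℝ) ≤ n := Nat.cast_nonneg n
  set y : ℝ := eta B x with hy
  have hy0 : 0 < y := div_pos h.x0 (by linarith [h.B0])
  have hxy : x = 4 * B * y := by rw [hy, eta]; field_simp
  have hnu : nu n B x = n * y := rfl
  have hnu0 : 0 < 1 + n * y := by positivity
  -- relations
  have r1 : a = y * (1 - ((n : ℝ) - 1) * g) := by
    have := h.r1
    rw [hxy] at this
    have h4 : 4 * B * a = 4 * B * (y * (1 - ((n : ℝ) - 1) * g)) := by linarith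
    exact mul_left_cancel₀ (by linarith [h.B0]) h4
  have r2 : w = n * y * a := by
    have := h.r2
    rw [hxy] at this
    have h4 : 4 * B * w = 4 * B * (n * y * a) := by linarith
    exact mul_left_cancel₀ (by linarith [h.B0]) h4
  have hk : k = 2 * B ^ 2 / (1 + ep q) := by
    rw [h.eB]; field_simp
  have eU := hc.eU
  have eV := hc.eV
  rw [hnu, ← hy] at eU eV
  set e := Se L th with he
  set f := Sf L th with hf
  set eT := Set' L th with heT
  set fT := Sft L th with hfT
  have hUe : U = 1 + n * y - y * e := by linarith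
  have hVe : V = 1 + n * y - y * f := by linarith
  unfold Raw Form ph cc mm jj Th e2
  rw [hnu, ← hy, ← he, ← hf, ← heT, ← hfT, hk]
  generalize hh HP wt = hP
  generalize hh HQ wt = hQ
  generalize (4 * U * V * wp) ^ (q / (q + 1)) = A1
  generalize (4 * U * V * wq) ^ (q / (q + 1)) = A2
  generalize log U = lU
  generalize log V = lV
  generalize del B t = dl
  generalize (L.card : ℝ) = c
  generalize ep q = E at *
  have hE : (1 + E) ≠ 0 := by linarith
  generalize (n : ℝ) = N at *
  have hN : (1 + N * y) ≠ 0 := hnu0.ne'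
  have key : ∀ (l h' X Y W : ℝ), X ≠ 0 → X * (l + h') * (1 - a * (Y - 1) - E / (1 + E) * (1 - w) * Y
      / (1 + N * y) + (1 + a) * dl * (Y - X) / X)
      = (l + h') * (X * (1 - a * (Y - 1) - E / (1 + E) * (1 - w) * Y / (1 + N * y))
        + (1 + a) * dl * (Y - X)) := by
    intro l h' X Y W hX
    field_simp
  rw [key lU hP U V 0 hU, key lV hQ V U 0 hV]
  clear key
  have hxx : x = 4 * B * y := hxy
  rw [hxx]
  have e1 : e = (1 + N * y - U) / y := by field_simp; linarith
  have f1 : f = (1 + N * y - V) / y := by field_simp; linarith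
  rw [e1, f1, r2, r1]
  field_simp
  ring

end

end Pool.Agent.RieszSq
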