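import Pool.Agent.RieszSq.Defs

set_option autoImplicit false

open Real Finset

namespace Pool.Agent.RieszSq

section

variable {ι : Type*} [Fintype ι] [DecidableEq ι]

/-- heavy points of the positive side -/
noncomputable def hp (H : Finset ι) (be : ι → ℝ) : Finset ι := H.filter (fun z => 0 < be z)

/-- heavy points of the negative side -/
noncomputable def hn (H : Finset ι) (be : ι → ℝ) : Finset ι := H.filter (fun z => be z < 0)

/-- the angles -/
noncomputable def ang (x : ℝ) (be : ι → ℝ) (z : ι) : ℝ := arsinh (be z / x)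

/-- `∑_{HP} β` -/
noncomputable def aP (H : Finset ι) (be : ι → ℝ) : ℝ := ∑ z ∈ hp H be, be z

/-- `∑_{HQ} |β|` -/
noncomputable def aQ (H : Finset ι) (be : ι → ℝ) : ℝ := ∑ z ∈ hn H be, -be z

/-- the weights -/
noncomputable def wgt (H : Finset ι) (be : ι → ℝ) (z : ι) : ℝ :=
  if 0 < be z then be z / aP H be else -be z / aQ H be

/-- `U = 1 + ν - η ∑_L exp θ` -/
noncomputable def UU (n : ℕ) (B x : ℝ) (H : Finset ι) (be : ι → ℝ) : ℝ :=
  1 + nu n B x - eta B x * Se Hᶜ (ang x be)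

/-- `V = 1 + ν - η ∑_L exp (-θ)` -/
noncomputable def VV (n : ℕ) (B x : ℝ) (H : Finset ι) (be : ι → ℝ) : ℝ :=
  1 + nu n B x - eta B x * Sf Hᶜ (ang x be)

/-- The scaled coefficient vector `be` with its heavy set `H`; `p1, p2` are the two largest and
`q1, q2` the two smallest coefficients. -/
structure Sc (n : ℕ) (B t x : ℝ) (be : ι → ℝ) (H : Finset ι) (p1 p2 q1 q2 : ι) : Prop where
  card : Fintype.card ι = n + 4
  sum : ∑ i, be i = 0
  pne : p1 ≠ p2
  qne : q1 ≠ q2
  p2pos : 0 < be p2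
  ple : be p2 ≤ be p1
  q2neg : be q2 < 0
  qle : be q1 ≤ be q2
  maxp : ∀ z, z ≠ p1 → be z ≤ be p2
  maxq : ∀ z, z ≠ q1 → be q2 ≤ be z
  mp1 : p1 ∈ H
  mp2 : p2 ∈ H
  mq1 : q1 ∈ H
  mq2 : q2 ∈ H
  norm : (∑ z ∈ H, |be z|) / (4 * t) + x / (4 * B) * ∑ z ∈ Hᶜ, √(1 + (be z / x) ^ 2)
    = 1 + nu n B x
  light : ∀ z, z ∉ H → |be z| ≤ 2 * x
  heavy : ∀ z ∈ H, z ≠ p1 → z ≠ p2 → z ≠ q1 → z ≠ q2 → 2 * x ≤ |be z|

variable {n : ℕ} {q a g w k B t x : ℝ} {be : ι → ℝ} {H : Finset ι} {p1 p2 q1 q2 : ι}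

/-- MODULE Q24a (reflection). -/
theorem Sc.neg (h : Sc n B t x be H p1 p2 q1 q2) :
    Sc n B t x (fun z => -be z) H q1 q2 p1 p2 := by
  have e1 : ∀ z : ι, |(-be z)| = |be z| := fun z => abs_neg _
  refine ⟨h.card, ?_, h.qne, h.pne, ?_, ?_, ?_, ?_, ?_, ?_, h.mq1, h.mq2, h.mp1, h.mp2, ?_, ?_, ?_⟩
  · rw [sum_neg_distrib, h.sum, neg_zero]
  · linarith [h.q2neg]
  · linarith [h.qle]
  · linarith [h.p2pos]
  · linarith [h.ple]
  · intro z hz
    linarith [h.maxq z hz]
  · intro z hz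
    linarith [h.maxp z hz]
  · have e2 : ∀ z : ι, ((-be z) / x) ^ 2 = (be z / x) ^ 2 := fun z => by
      rw [neg_div, neg_sq]
    simp only [e1, e2]
    exact h.norm
  · intro z hz
    rw [e1]
    exact h.light z hz
  · intro z hz h1 h2 h3 h4
    rw [e1]
    exact h.heavy z hz h3 h4 h1 h2

/-- MODULE Q24b. -/
theorem neg_defs (H : Finset ι) (be : ι → ℝ) (n : ℕ) (B x : ℝ) :
    hp H (fun z => -be z) = hn H be ∧ hn H (fun z => -be z) = hp H be ∧
      aP H (fun z => -be z) = aQ H be ∧ aQ H (fun z => -be z) = aP H be ∧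
      (∀ z, ang x (fun z => -be z) z = -ang x be z) ∧
      UU n B x H (fun z => -be z) = VV n B x H be ∧ VV n B x H (fun z => -be z) = UU n B x H be ∧
      (∀ z, be z ≠ 0 → wgt H (fun z => -be z) z = wgt H be z) := by
  have e1 : hp H (fun z => -be z) = hn H be := by
    ext z
    simp [hp, hn]
  have e2 : hn H (fun z => -be z) = hp H be := by
    ext z
    simp [hp, hn]
  have e3 : aP H (fun z => -be z) = aQ H be := by
    rw [aP, aQ, e1]
  have e4 : aQ H (fun z => -be z) = aP H be := by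
    rw [aP, aQ, e2]
    simp
  have e5 : ∀ z, ang x (fun z => -be z) z = -ang x be z := by
    intro z
    simp only [ang]
    rw [neg_div, arsinh_neg]
  refine ⟨e1, e2, e3, e4, e5, ?_, ?_, ?_⟩
  · rw [UU, VV, Se, Sf]
    simp only [e5]
  · rw [UU, VV, Se, Sf]
    simp only [e5, neg_neg]
  · intro z hz
    simp only [wgt, e3, e4]
    rcases lt_or_gt_of_ne hz with h1 | h1
    · rw [if_pos (by linarith), if_neg (by linarith)]
    · rw [if_neg (by linarith), if_pos h1, neg_neg]

/-- MODULE Q24c. `|H| ≥ 4`: the four tops are different. So `|Hᶜ| ≤ n`. -/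
theorem Sc.card_le (h : Sc n B t x be H p1 p2 q1 q2) : (Hᶜ).card ≤ n := by
  have hp1 : 0 < be p1 := lt_of_lt_of_le h.p2pos h.ple
  have hq1 : be q1 < 0 := lt_of_le_of_lt h.qle h.q2neg
  have hp2 := h.p2pos
  have hq2 := h.q2neg
  have n1 : p1 ≠ q1 := by rintro rfl; linarith
  have n2 : p1 ≠ q2 := by rintro rfl; linarith
  have n3 : p2 ≠ q1 := by rintro rfl; linarith
  have n4 : p2 ≠ q2 := by rintro rfl; linarith
  have h4 : ({p1, p2, q1, q2} : Finset ι).card = 4 := by
    rw [card_insert_of_notMem (by simp [h.pne, n1, n2]),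
      card_insert_of_notMem (by simp [n3, n4]), card_insert_of_notMem (by simp [h.qne]),
      card_singleton]
  have h5 : ({p1, p2, q1, q2} : Finset ι) ⊆ H := by
    intro z hz
    simp only [mem_insert, mem_singleton] at hz
    rcases hz with rfl | rfl | rfl | rfl
    · exact h.mp1
    · exact h.mp2
    · exact h.mq1
    · exact h.mq2
  have h6 := card_le_card h5
  have h7 := card_compl H
  have h8 := h.card
  omega

/-- MODULE Q24d. All elements of `H` have `be z ≠ 0` (tops or `|be z| ≥ 2 x > 0`), so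
`∑_H |be| = aP + aQ`. `exp θ + exp (-θ) = 2 cosh θ = 2 √(1 + (be z/x)²)` (`Real.cosh_arsinh`):
`U + V = 2 (1 + ν) - 2 η ∑_L √(1 + (be/x)²) = (aP + aQ)/(2t)` by `norm`;
`V - U = 2 η ∑_L sinh θ = (2/(4B)) ∑_L be = (aQ - aP)/(2B)` by `sum`. -/
theorem Sc.aPQ (h : Sc n B t x be H p1 p2 q1 q2) (hB : 0 < B) (ht : 0 < t) (hx : 0 < x) :
    aP H be = (B + t) * UU n B x H be - (B - t) * VV n B x H be ∧
      aQ H be = (B + t) * VV n B x H be - (B - t) * UU n B x H be := by
  have hp1 : 0 < be p1 := lt_of_lt_of_le h.p2pos h.ple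
  have hq1 : be q1 < 0 := lt_of_le_of_lt h.qle h.q2neg
  have hp2 := h.p2pos
  have hq2 := h.q2neg
  have hne : ∀ z ∈ H, be z ≠ 0 := by
    intro z hz
    by_cases h1 : z = p1
    · rw [h1]; exact hp1.ne'
    by_cases h2 : z = p2
    · rw [h2]; exact hp2.ne'
    by_cases h3 : z = q1
    · rw [h3]; exact hq1.ne
    by_cases h4 : z = q2
    · rw [h4]; exact hq2.ne
    have h5 := h.heavy z hz h1 h2 h3 h4
    intro h6
    rw [h6, abs_zero] at h5
    linarith
  -- the two parts of `H`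
  have hsplit : ∀ f : ι → ℝ, ∑ z ∈ H, f z = ∑ z ∈ hp H be, f z + ∑ z ∈ hn H be, f z := by
    intro f
    have e1 : H.filter (fun z => ¬ 0 < be z) = hn H be := by
      rw [hn]
      refine filter_congr fun z hz => ?_
      have := hne z hz
      constructor
      · intro h1
        exact lt_of_le_of_ne (not_lt.1 h1) this
      · intro h1 h2
        linarith
    rw [← sum_filter_add_sum_filter_not H (fun z => 0 < be z) f, e1]
    rfl
  have hA : ∑ z ∈ H, |be z| = aP H be + aQ H be := by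
    rw [hsplit, aP, aQ]
    congr 1
    · refine sum_congr rfl fun z hz => ?_
      exact abs_of_pos (mem_filter.1 hz).2
    · refine sum_congr rfl fun z hz => ?_
      exact abs_of_neg (mem_filter.1 hz).2
  have hS : ∑ z ∈ H, be z = aP H be - aQ H be := by
    rw [hsplit, aP, aQ, sum_neg_distrib]
    ring
  have hL : ∑ z ∈ Hᶜ, be z = aQ H be - aP H be := by
    have e1 := sum_add_sum_compl H be
    rw [h.sum, hS] at e1
    linarith
  have hEF : Se Hᶜ (ang x be) + Sf Hᶜ (ang x be) = 2 * ∑ z ∈ Hᶜ, √(1 + (be z / x) ^ 2) := by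
    rw [Se, Sf, ← sum_add_distrib, mul_sum]
    refine sum_congr rfl fun z _ => ?_
    have e1 := cosh_arsinh (be z / x)
    rw [cosh_eq] at e1
    simp only [ang]
    linarith
  have hEF' : Se Hᶜ (ang x be) - Sf Hᶜ (ang x be) = 2 / x * ∑ z ∈ Hᶜ, be z := by
    rw [Se, Sf, ← sum_sub_distrib, mul_sum]
    refine sum_congr rfl fun z _ => ?_
    have e1 := sinh_arsinh (be z / x)
    rw [sinh_eq] at e1
    simp only [ang]
    have e2 : 2 / x * be z = 2 * (be z / x) := by ring
    rw [e2]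
    linarith
  have hn := h.norm
  rw [hA] at hn
  have s1 : UU n B x H be + VV n B x H be = (aP H be + aQ H be) / (2 * t) := by
    have e1 : UU n B x H be + VV n B x H be =
        2 * (1 + nu n B x) - eta B x * (Se Hᶜ (ang x be) + Sf Hᶜ (ang x be)) := by
      rw [UU, VV]
      ring
    rw [e1, hEF, ← hn, eta]
    field_simp
    ring
  have s2 : VV n B x H be - UU n B x H be = (aQ H be - aP H be) / (2 * B) := by
    have e1 : VV n B x H be - UU n B x H be =
        eta B x * (Se Hᶜ (ang x be) - Sf Hᶜ (ang x be)) := by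
      rw [UU, VV]
      ring
    rw [e1, hEF', hL, eta]
    field_simp
    ring
  have s3 : aP H be + aQ H be = 2 * t * (UU n B x H be + VV n B x H be) := by
    rw [s1]
    field_simp
  have s4 : aQ H be - aP H be = 2 * B * (VV n B x H be - UU n B x H be) := by
    rw [s2]
    field_simp
  constructor
  · linarith
  · linarith

end

end Pool.Agent.RieszSq
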