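import Pool.Agent.RieszSq.CertD
import Pool.Agent.RieszSq.KcVal

set_option autoImplicit false

open Real Finset

namespace Pool.Agent.RieszSq

section

variable {ι : Type*} [Fintype ι] [DecidableEq ι]
variable {n : ℕ} {q a g w k B t x : ℝ} {be : ι → ℝ} {H : Finset ι} {p1 p2 q1 q2 : ι}

private theorem CertF1_Bt (hP : Par n q a g w k B t x) : t < B := by
  have h1 := hP.eB
  have h2 := hP.et
  have h3 : 0 < ep q := by
    unfold ep
    exact Real.rpow_pos_of_pos (by norm_num) _
  have h4 : 0 < k * ep q := mul_pos hP.k0 h3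
  have h5 : t ^ 2 < B ^ 2 := by nlinarith
  exact lt_of_pow_lt_pow_left₀ 2 hP.B0.le h5

private theorem CertF1_aP (h : Sc n B t x be H p1 p2 q1 q2) : 0 < aP H be := by
  unfold aP
  refine Finset.sum_pos (fun z hz => (Finset.mem_filter.1 hz).2) ⟨p1, ?_⟩
  exact Finset.mem_filter.2 ⟨h.mp1, h.p2pos.trans_le h.ple⟩

private theorem CertF1_aQ (h : Sc n B t x be H p1 p2 q1 q2) : 0 < aQ H be := by
  unfold aQ
  refine Finset.sum_pos (fun z hz => neg_pos.2 (Finset.mem_filter.1 hz).2) ⟨q1, ?_⟩
  exact Finset.mem_filter.2 ⟨h.mq1, h.qle.trans_lt h.q2neg⟩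

private theorem CertF1_ne (h : Sc n B t x be H p1 p2 q1 q2) (hx : 0 < x) {z : ι} (hz : z ∈ H) :
    be z ≠ 0 := by
  intro h0
  have h1 := h.p2pos
  have h2 := h.ple
  have h3 := h.q2neg
  have h4 := h.qle
  have := h.heavy z hz (fun e => by rw [e] at h0; linarith) (fun e => by rw [e] at h0; linarith)
    (fun e => by rw [e] at h0; linarith) (fun e => by rw [e] at h0; linarith)
  rw [h0, abs_zero] at this
  linarith

/-- MODULE Q25a. `p1 ∈ hp`, `q1 ∈ hn`, so `aP, aQ > 0`; `Sc.aPQ`: if `U ≤ 0` then `aP > 0` forces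
`V < 0` (`B > t`), but `aP + aQ = 2 t (U + V) > 0`. `aP ≤ 2 B U` because `V > 0`. -/
theorem Sc.pos (h : Sc n B t x be H p1 p2 q1 q2) (hP : Par n q a g w k B t x) :
    0 < aP H be ∧ 0 < aQ H be ∧ 0 < UU n B x H be ∧ 0 < VV n B x H be ∧
      aP H be ≤ 2 * B * UU n B x H be ∧ aQ H be ≤ 2 * B * VV n B x H be := by
  have hBt := CertF1_Bt hP
  have hB := hP.B0
  have ht := hP.t0
  have ha := CertF1_aP h
  have hq := CertF1_aQ h
  obtain ⟨h1, h2⟩ := h.aPQ hP.B0 hP.t0 hP.x0
  set U := UU n B x H be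
  set V := VV n B x H be
  have hsum : 0 < U + V := by
    have h3 : aP H be + aQ H be = 2 * t * (U + V) := by rw [h1, h2]; ring
    have h4 : 0 < 2 * t * (U + V) := by linarith
    exact (mul_pos_iff_of_pos_left (by linarith : (0:ℝ) < 2 * t)).1 h4
  have hU : 0 < U := by
    by_contra hc
    push Not at hc
    have hV : 0 < V := by linarith
    have h3 : (B + t) * U ≤ 0 := mul_nonpos_of_nonneg_of_nonpos (by linarith) hc
    have h4 : 0 < (B - t) * V := mul_pos (by linarith) hV
    linarith
  have hV : 0 < V := by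
    by_contra hc
    push Not at hc
    have h3 : (B + t) * V ≤ 0 := mul_nonpos_of_nonneg_of_nonpos (by linarith) hc
    have h4 : 0 < (B - t) * U := mul_pos (by linarith) hU
    linarith
  refine ⟨ha, hq, hU, hV, ?_, ?_⟩
  · rw [h1]
    nlinarith [mul_pos (sub_pos.2 hBt) hV, mul_pos (sub_pos.2 hBt) hU]
  · rw [h2]
    nlinarith [mul_pos (sub_pos.2 hBt) hV, mul_pos (sub_pos.2 hBt) hU]

/-- MODULE Q25b (the certificate data). -/
theorem Sc.cf (h : Sc n B t x be H p1 p2 q1 q2) (hP : Par n q a g w k B t x) :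
    Cf n B x (hp H be) (hn H be) Hᶜ (wgt H be) (ang x be) (UU n B x H be) (VV n B x H be) := by
  obtain ⟨ha, hq, hU, hV, -, -⟩ := h.pos hP
  refine ⟨h.card, ?_, ?_, ?_, ?_, ?_, ?_, ?_, ?_, hU, hV, ?_, ?_⟩
  · rw [Finset.disjoint_left]
    intro z h1 h2
    have h3 := (Finset.mem_filter.1 h1).2
    have h4 := (Finset.mem_filter.1 h2).2
    linarith
  · rw [Finset.disjoint_left]
    intro z h1 h2
    exact (Finset.mem_compl.1 h2) (Finset.mem_filter.1 h1).1
  · rw [Finset.disjoint_left]
    intro z h1 h2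
    exact (Finset.mem_compl.1 h2) (Finset.mem_filter.1 h1).1
  · rw [Finset.eq_univ_iff_forall]
    intro z
    by_cases hz : z ∈ H
    · rcases lt_or_gt_of_ne (CertF1_ne h hP.x0 hz) with h1 | h1
      · exact Finset.mem_union_left _ (Finset.mem_union_right _ (Finset.mem_filter.2 ⟨hz, h1⟩))
      · exact Finset.mem_union_left _ (Finset.mem_union_left _ (Finset.mem_filter.2 ⟨hz, h1⟩))
    · exact Finset.mem_union_right _ (Finset.mem_compl.2 hz)
  · intro z hz
    have h1 := (Finset.mem_filter.1 hz).2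
    unfold wgt
    rw [if_pos h1]
    exact div_pos h1 ha
  · intro z hz
    have h1 := (Finset.mem_filter.1 hz).2
    unfold wgt
    rw [if_neg (by linarith)]
    exact div_pos (by linarith) hq
  · have h1 : ∑ i ∈ hp H be, wgt H be i = ∑ i ∈ hp H be, be i / aP H be := by
      refine Finset.sum_congr rfl fun z hz => ?_
      unfold wgt
      rw [if_pos (Finset.mem_filter.1 hz).2]
    rw [h1, ← Finset.sum_div]
    exact div_self ha.ne'
  · have h1 : ∑ i ∈ hn H be, wgt H be i = ∑ i ∈ hn H be, -be i / aQ H be := by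
      refine Finset.sum_congr rfl fun z hz => ?_
      unfold wgt
      have h2 := (Finset.mem_filter.1 hz).2
      rw [if_neg (by linarith)]
    rw [h1, ← Finset.sum_div]
    exact div_self hq.ne'
  · unfold UU
    ring
  · unfold VV
    ring

/-- MODULE Q25c. `u - v = 2 be`: `Sc.aPQ` on the heavy points, `exp θ - exp (-θ) = 2 sinh θ` on the
light points. -/
theorem Sc.uv (h : Sc n B t x be H p1 p2 q1 q2) (hP : Par n q a g w k B t x) (i : ι) :
    uu B t x (UU n B x H be) (hp H be) (hn H be) (wgt H be) (ang x be) i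
      - vv B t x (VV n B x H be) (hp H be) (hn H be) (wgt H be) (ang x be) i = 2 * be i := by
  obtain ⟨ha, hq, hU, hV, -, -⟩ := h.pos hP
  obtain ⟨h1, h2⟩ := h.aPQ hP.B0 hP.t0 hP.x0
  unfold uu vv
  by_cases hi : i ∈ hp H be
  · rw [if_pos hi, if_pos hi]
    have h3 := (Finset.mem_filter.1 hi).2
    have h4 : aP H be * wgt H be i = be i := by
      unfold wgt
      rw [if_pos h3]
      field_simp
    rw [h1] at h4
    linear_combination 2 * h4
  · rw [if_neg hi, if_neg hi]
    by_cases hj : i ∈ hn H be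
    · rw [if_pos hj, if_pos hj]
      have h3 := (Finset.mem_filter.1 hj).2
      have h4 : aQ H be * wgt H be i = -be i := by
        unfold wgt
        rw [if_neg (by linarith)]
        field_simp
      rw [h2] at h4
      linear_combination -2 * h4
    · rw [if_neg hj, if_neg hj]
      have h3 : Real.sinh (ang x be i) = be i / x := by
        unfold ang
        exact Real.sinh_arsinh _
      rw [Real.sinh_eq] at h3
      have h4 := hP.x0
      field_simp at h3
      linarith

end

end Pool.Agent.RieszSq
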