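import Pool.Agent.RieszSq.CertF1

set_option autoImplicit false

open Real Finset

namespace Pool.Agent.RieszSq

namespace CertF2Aux

theorem ep_le {n : ℕ} {q a g w k B t x : ℝ} (hP : Par n q a g w k B t x) : ep q ≤ 1 / 4 := by
  have h1 : ep q ≤ (2 : ℝ) ^ (-(2 : ℝ)) := by
    apply Real.rpow_le_rpow_of_exponent_le (by norm_num)
    have := hP.q1
    linarith
  have h2 : (2 : ℝ) ^ (-(2 : ℝ)) = 1 / 4 := by
    rw [Real.rpow_neg (by norm_num)]
    norm_num
  exact h1.trans h2.le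

theorem ep_pos (q : ℝ) : 0 < ep q := Real.rpow_pos_of_pos (by norm_num) _

theorem B_le {n : ℕ} {q a g w k B t x : ℝ} (hP : Par n q a g w k B t x) : B ≤ 4 * t := by
  have h1 := ep_le hP
  have h2 : B ^ 2 ≤ (4 * t) ^ 2 := by
    have h3 := hP.eB
    have h4 := hP.et
    have h5 := hP.k0
    have h6 : 0 ≤ k * (15 - 17 * ep q) := mul_nonneg h5.le (by linarith)
    nlinarith
  exact (pow_le_pow_iff_left₀ hP.B0.le (by linarith [hP.t0]) (by norm_num)).1 h2

theorem t_le {n : ℕ} {q a g w k B t x : ℝ} (hP : Par n q a g w k B t x) : t ≤ B := by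
  have h1 := ep_pos q
  have h2 : t ^ 2 ≤ B ^ 2 := by
    have h3 := hP.eB
    have h4 := hP.et
    have h5 := mul_pos hP.k0 h1
    nlinarith
  exact (pow_le_pow_iff_left₀ hP.t0.le hP.B0.le (by norm_num)).1 h2

theorem sqrt_le (s : ℝ) : √(1 + s ^ 2) ≤ 1 + |s| := by
  rw [Real.sqrt_le_left (by positivity)]
  have h1 : |s| ^ 2 = s ^ 2 := sq_abs s
  nlinarith [abs_nonneg s]

section

variable {ι : Type*} [Fintype ι] [DecidableEq ι]
variable {n : ℕ} {q a g w k B t x : ℝ} {be : ι → ℝ} {H : Finset ι} {p1 p2 q1 q2 : ι}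

theorem U_ge (h : Sc n B t x be H p1 p2 q1 q2) (hE : Est n q a g w k B t x) :
    1 / (4 * (q + 1)) ≤ UU n B x H be := by
  have hP := hE.par
  have hB := hP.B0
  have ht := hP.t0
  have hx := hP.x0
  have hBt := B_le hP
  have htB := t_le hP
  have hcl := h.card_le
  have hp1 : 0 < be p1 := lt_of_lt_of_le h.p2pos h.ple
  -- total mass
  have e1 : x / (4 * B) * ∑ z ∈ Hᶜ, √(1 + (be z / x) ^ 2) ≤
      nu n B x + (∑ z ∈ Hᶜ, |be z|) / (4 * t) := by
    have h1 : ∑ z ∈ Hᶜ, √(1 + (be z / x) ^ 2) ≤ (Hᶜ).card + (∑ z ∈ Hᶜ, |be z|) / x := by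
      have h2 : ∑ z ∈ Hᶜ, √(1 + (be z / x) ^ 2) ≤ ∑ z ∈ Hᶜ, (1 + |be z| / x) := by
        apply sum_le_sum
        intro z _
        have h3 := sqrt_le (be z / x)
        rwa [abs_div, abs_of_pos hx] at h3
      rw [sum_add_distrib, ← sum_div] at h2
      simpa using h2
    have h2 : (0 : ℝ) < x / (4 * B) := by positivity
    have h3 := mul_le_mul_of_nonneg_left h1 h2.le
    have h4 : x / (4 * B) * ((Hᶜ).card + (∑ z ∈ Hᶜ, |be z|) / x) =
        x / (4 * B) * (Hᶜ).card + (∑ z ∈ Hᶜ, |be z|) / (4 * B) := by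
      field_simp
    have h5 : x / (4 * B) * (Hᶜ).card ≤ nu n B x := by
      rw [nu, eta, mul_comm]
      have h6 : ((Hᶜ).card : ℝ) ≤ n := by exact_mod_cast hcl
      exact mul_le_mul_of_nonneg_right h6 h2.le
    have h6 : (∑ z ∈ Hᶜ, |be z|) / (4 * B) ≤ (∑ z ∈ Hᶜ, |be z|) / (4 * t) :=
      div_le_div_of_nonneg_left (sum_nonneg fun _ _ => abs_nonneg _) (by linarith) (by linarith)
    linarith
  have e2 : 4 * t ≤ ∑ z, |be z| := by
    have h1 := h.norm
    have h2 : (1 : ℝ) ≤ (∑ z ∈ H, |be z|) / (4 * t) + (∑ z ∈ Hᶜ, |be z|) / (4 * t) := by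
      linarith
    rw [← add_div, sum_add_sum_compl, le_div_iff₀ (by linarith)] at h2
    linarith
  have e3 : ∑ z, |be z| ≤ 2 * ((n : ℝ) + 4) * be p1 := by
    have h1 : ∑ z, |be z| = ∑ z, (|be z| + be z) := by
      rw [sum_add_distrib, h.sum, add_zero]
    rw [h1]
    have h2 : ∑ z, (|be z| + be z) ≤ ∑ _z : ι, 2 * be p1 := by
      apply sum_le_sum
      intro z _
      have h3 : be z ≤ be p1 := by
        by_cases hz : z = p1
        · rw [hz]
        · exact (h.maxp z hz).trans h.ple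
      rcases le_total 0 (be z) with h4 | h4
      · rw [abs_of_nonneg h4]
        linarith
      · rw [abs_of_nonpos h4]
        linarith
    rw [sum_const, card_univ, h.card, nsmul_eq_mul] at h2
    push_cast at h2
    linarith
  have e4 : be p1 ≤ aP H be := by
    rw [aP]
    have hm : p1 ∈ hp H be := by
      rw [hp, mem_filter]
      exact ⟨h.mp1, hp1⟩
    apply single_le_sum (f := be) _ hm
    intro z hz
    rw [hp, mem_filter] at hz
    exact hz.2.le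
  have e5 := (h.pos hP).2.2.2.2.1
  have hn := hE.np
  have hn0 : (0 : ℝ) < (n : ℝ) + 4 := by positivity
  rw [div_le_iff₀ (by linarith)]
  have e6 : 2 * t ≤ ((n : ℝ) + 4) * (2 * B * UU n B x H be) := by
    have h1 : be p1 ≤ 2 * B * UU n B x H be := e4.trans e5
    have h2 := mul_le_mul_of_nonneg_left h1 hn0.le
    linarith
  have hU := (h.pos hP).2.2.1
  have e7 : B * (((n : ℝ) + 4) * (UU n B x H be) * 4) ≥ B * 1 := by nlinarith
  have e8 := le_of_mul_le_mul_left e7 hB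
  have e9 := mul_le_mul_of_nonneg_right hn hU.le
  linarith

end

end CertF2Aux

section

variable {ι : Type*} [Fintype ι] [DecidableEq ι]
variable {n : ℕ} {q a g w k B t x : ℝ} {be : ι → ℝ} {H : Finset ι} {p1 p2 q1 q2 : ι}

/-- MODULE Q25d. `A = ∑_{be > 0} be = (∑ |be|)/2 ≥ 2 t`: `√(1+s²) ≤ 1 + |s|` in `norm` gives
`1 + ν ≤ ∑_H |be|/(4t) + η |L| + ∑_L |be|/(4B) ≤ 2A/(4t) + ν` (`t < B`, `Sc.card_le`). As `p1` is
the largest, `be p1 ≥ A/(n+4) ≥ 2t/(n+4)`; `be p1 ≤ aP ≤ 2 B U`, so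
`U ≥ (t/B)/(n+4) ≥ 1/(4 (q+1))` (`4 t ≥ B`, i.e. `16 (1 - ep) ≥ 1 + ep`; `ep ≤ 1/4`). -/
theorem Sc.U_ge (h : Sc n B t x be H p1 p2 q1 q2) (hE : Est n q a g w k B t x) :
    1 / (4 * (q + 1)) ≤ UU n B x H be ∧ 1 / (4 * (q + 1)) ≤ VV n B x H be := by
  refine ⟨CertF2Aux.U_ge h hE, ?_⟩
  have h1 := CertF2Aux.U_ge h.neg hE
  rwa [(neg_defs H be n B x).2.2.2.2.2.1] at h1

/-- MODULE Q25e. `sinh (arsinh (be z/x)) = be z/x`. -/
theorem Sc.sinh_le (h : Sc n B t x be H p1 p2 q1 q2) (hx : 0 < x) :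
    ∀ z ∈ Hᶜ, |sinh (ang x be z)| ≤ 2 := by
  intro z hz
  rw [mem_compl] at hz
  rw [ang, Real.sinh_arsinh, abs_div, abs_of_pos hx, div_le_iff₀ hx]
  exact h.light z hz

end

end Pool.Agent.RieszSq
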