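import Pool.Agent.RieszSq.Defs

set_option autoImplicit false

open Real Finset

namespace Pool.Agent.RieszSq

section

variable {ι : Type*} [Fintype ι] [DecidableEq ι]

/-- the normalisation function of the scale `lam` for the heavy set `H` -/
noncomputable def FH (B t x : ℝ) (al : ι → ℝ) (H : Finset ι) (lam : ℝ) : ℝ :=
  (∑ z ∈ H, lam * |al z|) / (4 * t) + x / (4 * B) * ∑ z ∈ Hᶜ, √(1 + (lam * al z / x) ^ 2)

theorem CertH1Aux.sum_pos {al : ι → ℝ} {Tp H : Finset ι} (hTH : Tp ⊆ H)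
    (hTp : 0 < ∑ z ∈ Tp, |al z|) : 0 < ∑ z ∈ H, |al z| :=
  lt_of_lt_of_le hTp
    (Finset.sum_le_sum_of_subset_of_nonneg hTH (fun _ _ _ => abs_nonneg _))

theorem CertH1Aux.le_of_sq {a b : ℝ} (h : a ^ 2 ≤ b ^ 2) (hb : 0 ≤ b) : a ≤ b :=
  le_of_abs_le ((sq_le_sq.1 h).trans (abs_of_nonneg hb).le)

/-- MODULE Q23a. `FH` is continuous, `FH 0 = x/(4B) |Hᶜ| ≤ x/(4B) |Tpᶜ| < N` and
`FH lam ≥ lam ∑_{Tp} |α|/(4t) → ∞` (intermediate value theorem). -/
theorem exists_scale {al : ι → ℝ} {Tp H : Finset ι} (hTH : Tp ⊆ H)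
    (hTp : 0 < ∑ z ∈ Tp, |al z|) {B t x N : ℝ} (hB : 0 < B) (ht : 0 < t) (hx : 0 < x)
    (hN : x / (4 * B) * ((Tpᶜ).card : ℝ) < N) : ∃ lam : ℝ, 0 < lam ∧ FH B t x al H lam = N := by
  have hS : 0 < ∑ z ∈ H, |al z| := CertH1Aux.sum_pos hTH hTp
  have hN0 : 0 < N := lt_of_le_of_lt (by positivity) hN
  set L : ℝ := 4 * t * N / ∑ z ∈ H, |al z| with hL
  have hL0 : 0 < L := by positivity
  have h0 : FH B t x al H 0 < N := by
    refine lt_of_le_of_lt ?_ hN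
    unfold FH
    have hc : ((Hᶜ).card : ℝ) ≤ ((Tpᶜ).card : ℝ) := by
      exact_mod_cast Finset.card_le_card (Finset.compl_subset_compl.2 hTH)
    have : (∑ z ∈ H, (0 : ℝ) * |al z|) / (4 * t) +
        x / (4 * B) * ∑ z ∈ Hᶜ, √(1 + (0 * al z / x) ^ 2) = x / (4 * B) * ((Hᶜ).card : ℝ) := by
      simp
    rw [this]
    exact mul_le_mul_of_nonneg_left hc (by positivity)
  have h1 : N ≤ FH B t x al H L := by
    unfold FH
    have h2 : (∑ z ∈ H, L * |al z|) / (4 * t) = N := by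
      rw [← Finset.mul_sum, hL]
      field_simp
    have h3 : 0 ≤ x / (4 * B) * ∑ z ∈ Hᶜ, √(1 + (L * al z / x) ^ 2) := by
      have : 0 ≤ ∑ z ∈ Hᶜ, √(1 + (L * al z / x) ^ 2) :=
        Finset.sum_nonneg (fun _ _ => Real.sqrt_nonneg _)
      positivity
    linarith
  have hcont : Continuous (FH B t x al H) := by
    unfold FH
    fun_prop
  obtain ⟨l, hl, hl'⟩ := intermediate_value_Icc hL0.le hcont.continuousOn ⟨h0.le, h1⟩
  refine ⟨l, lt_of_le_of_ne hl.1 ?_, hl'⟩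
  rintro rfl
  linarith

/-- MODULE Q23b. `FH` is strictly increasing in `lam ≥ 0` if `H` contains `Tp`. -/
theorem FH_lt {al : ι → ℝ} {Tp H : Finset ι} (hTH : Tp ⊆ H) (hTp : 0 < ∑ z ∈ Tp, |al z|)
    {B t x l1 l2 : ℝ} (hB : 0 < B) (ht : 0 < t) (hx : 0 < x) (h0 : 0 ≤ l1) (h12 : l1 < l2) :
    FH B t x al H l1 < FH B t x al H l2 := by
  have hS : 0 < ∑ z ∈ H, |al z| := CertH1Aux.sum_pos hTH hTp
  unfold FH
  have h1 : (∑ z ∈ H, l1 * |al z|) / (4 * t) < (∑ z ∈ H, l2 * |al z|) / (4 * t) := by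
    rw [← Finset.mul_sum, ← Finset.mul_sum]
    exact div_lt_div_of_pos_right (mul_lt_mul_of_pos_right h12 hS) (by positivity)
  have h2 : x / (4 * B) * ∑ z ∈ Hᶜ, √(1 + (l1 * al z / x) ^ 2) ≤
      x / (4 * B) * ∑ z ∈ Hᶜ, √(1 + (l2 * al z / x) ^ 2) := by
    refine mul_le_mul_of_nonneg_left (Finset.sum_le_sum fun z _ => ?_) (by positivity)
    apply Real.sqrt_le_sqrt
    have h3 : (l1 * al z / x) ^ 2 ≤ (l2 * al z / x) ^ 2 := by
      rw [div_pow, div_pow, mul_pow, mul_pow]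
      have h4 : l1 ^ 2 ≤ l2 ^ 2 := by nlinarith
      have h5 : 0 ≤ al z ^ 2 := sq_nonneg _
      have h6 : 0 < x ^ 2 := by positivity
      exact div_le_div_of_nonneg_right (mul_le_mul_of_nonneg_right h4 h5) h6.le
    linarith
  linarith

/-- MODULE Q23c. Moving a light point out of the heavy set increases `FH`: with `s = lam |α_z|/x ≤ 2`
the claim is `s x/(4t) ≤ x/(4B) √(1+s²)`, i.e. `B² s² ≤ t² (1 + s²)`. -/
theorem FH_erase {al : ι → ℝ} {H : Finset ι} {z : ι} (hz : z ∈ H) {B t x lam : ℝ} (hB : 0 < B)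
    (ht : 0 < t) (hx : 0 < x) (hr : B ^ 2 ≤ 5 / 4 * t ^ 2) (hl : 0 ≤ lam)
    (hs : lam * |al z| ≤ 2 * x) : FH B t x al H lam ≤ FH B t x al (H.erase z) lam := by
  have hc : (H.erase z)ᶜ = insert z Hᶜ := by
    ext w
    simp only [Finset.mem_compl, Finset.mem_erase, Finset.mem_insert]
    tauto
  have hzn : z ∉ Hᶜ := by simpa using hz
  unfold FH
  rw [hc, Finset.sum_insert hzn, ← Finset.add_sum_erase H _ hz]
  have hk : lam * |al z| / (4 * t) ≤ x / (4 * B) * √(1 + (lam * al z / x) ^ 2) := by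
    set s : ℝ := lam * |al z| / x with hs'
    have hs0 : 0 ≤ s := by positivity
    have hs2 : s ≤ 2 := by rw [hs', div_le_iff₀ hx]; exact hs
    have e1 : (lam * al z / x) ^ 2 = s ^ 2 := by
      rw [hs', div_pow, div_pow, mul_pow, mul_pow, sq_abs]
    have e2 : lam * |al z| = s * x := by rw [hs']; field_simp
    rw [e1, e2]
    have h1 : B * s ≤ t * √(1 + s ^ 2) := by
      have h2 : (B * s) ^ 2 ≤ (t * √(1 + s ^ 2)) ^ 2 := by
        rw [mul_pow, mul_pow, Real.sq_sqrt (by positivity)]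
        have h3 : s ^ 2 ≤ 4 := by nlinarith
        have h4 : 0 < t ^ 2 := by positivity
        have h5 : 0 ≤ s ^ 2 := sq_nonneg s
        nlinarith [mul_le_mul_of_nonneg_right hr h5, mul_nonneg h4.le (sub_nonneg.2 h3)]
      exact CertH1Aux.le_of_sq h2 (by positivity)
    have e3 : s * x / (4 * t) = (x / (4 * B * t)) * (B * s) := by field_simp
    have e4 : x / (4 * B) * √(1 + s ^ 2) = (x / (4 * B * t)) * (t * √(1 + s ^ 2)) := by field_simp
    rw [e3, e4]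
    exact mul_le_mul_of_nonneg_left h1 (by positivity)
  have h7 : (lam * |al z| + ∑ w ∈ H.erase z, lam * |al w|) / (4 * t) =
      lam * |al z| / (4 * t) + (∑ w ∈ H.erase z, lam * |al w|) / (4 * t) := by ring
  rw [h7]
  have h8 : x / (4 * B) * (√(1 + (lam * al z / x) ^ 2) + ∑ w ∈ Hᶜ, √(1 + (lam * al w / x) ^ 2)) =
      x / (4 * B) * √(1 + (lam * al z / x) ^ 2) +
        x / (4 * B) * ∑ w ∈ Hᶜ, √(1 + (lam * al w / x) ^ 2) := by ring
  rw [h8]
  linarith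

end

end Pool.Agent.RieszSq
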