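import Pool.Agent.RieszSq.CertH1

set_option autoImplicit false

open Real Finset

namespace Pool.Agent.RieszSq

section

variable {ι : Type*} [Fintype ι] [DecidableEq ι]

private theorem CertH2_step {al : ι → ℝ} {Tp : Finset ι} (hTp : 0 < ∑ z ∈ Tp, |al z|)
    {B t x N : ℝ} (hB : 0 < B) (ht : 0 < t) (hx : 0 < x) (hr : B ^ 2 ≤ 5 / 4 * t ^ 2)
    (hN : x / (4 * B) * ((Tpᶜ).card : ℝ) < N) (H : Finset ι) :
    ∀ lam : ℝ, 0 < lam → Tp ⊆ H → FH B t x al H lam = N →
      (∀ z, z ∉ H → lam * |al z| ≤ 2 * x) →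
    ∃ (lam : ℝ) (H : Finset ι), 0 < lam ∧ Tp ⊆ H ∧ FH B t x al H lam = N ∧
      (∀ z, z ∉ H → lam * |al z| ≤ 2 * x) ∧ (∀ z ∈ H, z ∉ Tp → 2 * x ≤ lam * |al z|) := by
  induction H using Finset.strongInduction with
  | H H ih =>
    intro lam hlam hTH hF hl
    by_cases hall : ∀ z ∈ H, z ∉ Tp → 2 * x ≤ lam * |al z|
    · exact ⟨lam, H, hlam, hTH, hF, hl, hall⟩
    · push Not at hall
      obtain ⟨z, hz, hzT, hzl⟩ := hall
      have hTH' : Tp ⊆ H.erase z := by
        intro y hy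
        rw [Finset.mem_erase]
        exact ⟨fun h => hzT (h ▸ hy), hTH hy⟩
      obtain ⟨lam', hlam', hF'⟩ := exists_scale (B := B) (t := t) (x := x) (N := N) hTH' hTp hB ht
        hx hN
      have h1 := FH_erase (al := al) hz hB ht hx hr hlam.le hzl.le
      have hle : lam' ≤ lam := by
        by_contra hc
        push Not at hc
        have h2 := FH_lt hTH' hTp hB ht hx hlam.le hc
        linarith
      refine ih (H.erase z) (Finset.erase_ssubset hz) lam' hlam' hTH' hF' ?_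
      intro y hy
      have hy0 : lam' * |al y| ≤ lam * |al y| := mul_le_mul_of_nonneg_right hle (abs_nonneg _)
      by_cases hyz : y = z
      · rw [hyz] at hy0 ⊢
        linarith
      · have : y ∉ H := fun h => hy (Finset.mem_erase.2 ⟨hyz, h⟩)
        linarith [hl y this]

/-- MODULE Q23d (choice of the heavy set and of the scale). Among the sets `H ⊇ Tp` for which there
is `lam > 0` with `FH H lam = N` and `lam |α_z| ≤ 2 x` for all `z ∉ H` (`H = univ` is one,
`exists_scale`) take one of minimal cardinality. If some `z ∈ H \ Tp` had `lam |α_z| < 2 x` then for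
`H' = H.erase z` the scale `lam'` (`exists_scale`) satisfies `lam' ≤ lam` (`FH_erase`, `FH_lt`), so
`lam' |α_y| ≤ 2 x` for all `y ∉ H'`, a contradiction to the minimality. -/
theorem exists_heavy {al : ι → ℝ} {Tp : Finset ι} (hTp : 0 < ∑ z ∈ Tp, |al z|) {B t x N : ℝ}
    (hB : 0 < B) (ht : 0 < t) (hx : 0 < x) (hr : B ^ 2 ≤ 5 / 4 * t ^ 2)
    (hN : x / (4 * B) * ((Tpᶜ).card : ℝ) < N) :
    ∃ (lam : ℝ) (H : Finset ι), 0 < lam ∧ Tp ⊆ H ∧ FH B t x al H lam = N ∧
      (∀ z, z ∉ H → lam * |al z| ≤ 2 * x) ∧ (∀ z ∈ H, z ∉ Tp → 2 * x ≤ lam * |al z|) := by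
  obtain ⟨lam, hlam, hF⟩ := exists_scale (B := B) (t := t) (x := x) (N := N)
    (Finset.subset_univ Tp) hTp hB ht hx hN
  exact CertH2_step hTp hB ht hx hr hN univ lam hlam (Finset.subset_univ Tp) hF
    (fun z hz => absurd (Finset.mem_univ z) hz)

end

end Pool.Agent.RieszSq
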