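import Pool.Agent.RieszSq.StrL

set_option autoImplicit false

open Real Finset

namespace Pool.Agent.RieszSq

open Pool.Agent.RieszSmall (En)
open Pool.Agent.RieszF (Conf IsMin Splitting)

section

variable {ι : Type*} [Fintype ι] [DecidableEq ι] {V : Type*} [NormedAddCommGroup V]
  [InnerProductSpace ℝ V]

/-- MODULE Q22a. One term of the energy: `D^(-q) ≤ En q y ≤ E`, so `-q log D ≤ log E ≤ q/50`,
`log D ≥ -1/50`, `D ≥ exp (-1/50) ≥ 49/50`. -/
theorem dist_ge {q : ℝ} (hq : 0 < q) {y : ι → V} (hy : Conf y) {E : ℝ} (hE : En q y ≤ E)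
    (hl : log E ≤ q / 50) {i j : ι} (hij : i ≠ j) :
    49 / 50 ≤ 1 - (inner ℝ (y i) (y j) : ℝ) := by
  have hD : 0 < 1 - (inner ℝ (y i) (y j) : ℝ) := hy.dd_pos hij
  have hnn : ∀ a b : ι, 0 ≤ (if a = b then (0 : ℝ) else (1 - inner ℝ (y a) (y b)) ^ (-q)) := by
    intro a b
    split_ifs with hab
    · exact le_refl _
    · exact (Real.rpow_pos_of_pos (hy.dd_pos hab) _).le
  have h1 : (1 - (inner ℝ (y i) (y j) : ℝ)) ^ (-q) ≤ En q y := by
    unfold En
    have h2 : (1 - (inner ℝ (y i) (y j) : ℝ)) ^ (-q)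
        ≤ ∑ b, (if i = b then (0 : ℝ) else (1 - inner ℝ (y i) (y b)) ^ (-q)) := by
      have h3 := Finset.single_le_sum (f := fun b => (if i = b then (0 : ℝ) else
        (1 - inner ℝ (y i) (y b)) ^ (-q))) (fun b _ => hnn i b) (mem_univ j)
      simp only [if_neg hij] at h3
      exact h3
    refine h2.trans ?_
    exact Finset.single_le_sum (f := fun a => ∑ b, (if a = b then (0 : ℝ) else
        (1 - inner ℝ (y a) (y b)) ^ (-q)))
      (fun a _ => Finset.sum_nonneg (fun b _ => hnn a b)) (mem_univ i)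
  have h2 : log ((1 - (inner ℝ (y i) (y j) : ℝ)) ^ (-q)) ≤ log E :=
    Real.log_le_log (Real.rpow_pos_of_pos hD _) (h1.trans hE)
  rw [Real.log_rpow hD] at h2
  have h3 : -(1 / 50) ≤ log (1 - (inner ℝ (y i) (y j) : ℝ)) := by
    have h4 : q * (-(1 / 50)) ≤ q * log (1 - (inner ℝ (y i) (y j) : ℝ)) := by linarith
    exact le_of_mul_le_mul_left h4 hq
  have h4 : Real.exp (-(1 / 50)) ≤ 1 - (inner ℝ (y i) (y j) : ℝ) := by
    rw [← Real.exp_log hD]
    exact Real.exp_le_exp.2 h3
  have h5 := Real.add_one_le_exp (-(1 / 50) : ℝ)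
  linarith

namespace StrUAux

omit [DecidableEq ι] in
/-- splitting a sum by the sign of `al`. -/
lemma sum_sign (al F : ι → ℝ) (hF : ∀ j, al j = 0 → F j = 0) :
    ∑ j, F j = ∑ j ∈ univ.filter (fun j => 0 < al j), F j
      + ∑ j ∈ univ.filter (fun j => al j < 0), F j := by
  rw [Finset.sum_filter, Finset.sum_filter, ← Finset.sum_add_distrib]
  refine Finset.sum_congr rfl (fun j _ => ?_)
  rcases lt_trichotomy (al j) 0 with h | h | h
  · rw [if_neg (by linarith), if_pos h, zero_add]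
  · rw [if_neg (by linarith), if_neg (by linarith), hF j h, add_zero]
  · rw [if_pos h, if_neg (by linarith), add_zero]

/-- the positive part, with the index `p1` taken out. -/
lemma sum_pos_erase (al F : ι → ℝ) {p1 : ι} (hp : 0 < al p1) :
    ∑ j ∈ univ.filter (fun j => 0 < al j), F j
      = F p1 + ∑ k ∈ univ.filter (fun k => k ≠ p1 ∧ 0 < al k), F k := by
  have h1 : p1 ∈ univ.filter (fun j => 0 < al j) := by simp [hp]
  rw [← Finset.add_sum_erase _ _ h1]
  congr 1
  refine Finset.sum_congr ?_ (fun _ _ => rfl)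
  ext k
  simp only [mem_erase, mem_filter, mem_univ, true_and]

/-- comparison of distances. -/
lemma dist_cmp {s A B r : ℝ} (hs : 0 < s) (hA : 0 < A) (hB : 0 < B) (hr : 0 < r)
    (h : B ^ (-s) ≤ r * A ^ (-s)) : A ≤ r ^ (1 / s) * B := by
  by_contra hcon
  push Not at hcon
  have h1 : 0 < r ^ (1 / s) * B := mul_pos (Real.rpow_pos_of_pos hr _) hB
  have h2 : A ^ (-s) < (r ^ (1 / s) * B) ^ (-s) :=
    Real.rpow_lt_rpow_of_neg h1 hcon (by linarith)
  rw [Real.mul_rpow (Real.rpow_nonneg hr.le _) hB.le, ← Real.rpow_mul hr.le] at h2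
  have h3 : 1 / s * -s = -1 := by field_simp
  rw [h3, Real.rpow_neg_one] at h2
  have h4 : r * A ^ (-s) < r * (r⁻¹ * B ^ (-s)) := mul_lt_mul_of_pos_left h2 hr
  rw [← mul_assoc, mul_inv_cancel₀ hr.ne', one_mul] at h4
  linarith

end StrUAux

/-- MODULE Q22b. `D i j = 1 - y_i·y_j ≤ 2`. Write `1` for `p1`, `β_j = -α_j ≥ 0` for the others
(`α_j ≤ 0`). `Splitting.sum_a` at `1`: `Σ' := ∑_{k ≠ 1, α_k > 0} D_1k α_k = ∑_{α_j < 0} D_1j β_j`,
and `Σ' ≥ 49/50 ∑_{α_j<0} β_j = 49/50 ∑_{α_k > 0} α_k ≥ 49/50 α_1 > 0` (`Splitting.asum`).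
Let `k ≠ 1`, `α_k > 0`. For `α_j < 0`: `split_M` gives `α_k b_1 ≤ α_1 b_k`, so
`α_1 K_kj = α_1 b_k b_j + α_1 α_k β_j ≥ α_k (b_1 b_j + α_1 β_j) = α_k K_1j`, hence
`D_kj ≤ (α_1/α_k)^(1/(q+1)) D_1j` (`K = D^(-(q+1))`). `Splitting.sum_a` at `k`:
`D_1k α_1 ≤ ∑_{α_j<0} D_kj β_j ≤ (α_1/α_k)^(1/(q+1)) Σ'`; and
`D_1k α_1 ≤ 2 α_1 ≤ (100/49) Σ' ≤ (2041/1000) Σ'`. Multiply by `α_k` and sum over `k`:
`α_1 Σ' ≤ Σ' ∑_k min (…) α_k`. -/
theorem split_U {q : ℝ} (hq : 0 < q) {y : ι → V} (hy : Conf y) {al b : ι → ℝ}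
    (h : Splitting q y al b)
    (hD : ∀ i j, i ≠ j → 49 / 50 ≤ 1 - (inner ℝ (y i) (y j) : ℝ)) {p1 : ι} (hp : 0 < al p1)
    (hmax : ∀ k, al k ≤ al p1) :
    al p1 ≤ ∑ k ∈ univ.filter (fun k => k ≠ p1 ∧ 0 < al k),
      min ((al p1 / al k) ^ (1 / (q + 1))) (2041 / 1000) * al k := by
  classical
  set D : ι → ι → ℝ := fun i j => 1 - inner ℝ (y i) (y j) with hDd
  set P : Finset ι := univ.filter (fun k => k ≠ p1 ∧ 0 < al k) with hP
  set N : Finset ι := univ.filter (fun j => al j < 0) with hN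
  have hDself : ∀ k, D k k = 0 := by
    intro k
    simp only [hDd]
    rw [hy.inner_self, sub_self]
  have hDpos : ∀ i j, i ≠ j → 0 < D i j := fun i j hij => hy.dd_pos hij
  have hDnn : ∀ i j, 0 ≤ D i j := by
    intro i j
    by_cases hij : i = j
    · rw [hij, hDself]
    · exact (hDpos i j hij).le
  have hD2 : ∀ i j, D i j ≤ 2 := by
    intro i j
    have h1 := abs_real_inner_le_norm (y i) (y j)
    rw [hy.unit, hy.unit, one_mul] at h1
    have h2 := (abs_le.1 h1).1
    simp only [hDd]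
    linarith
  -- the sum of the coefficients
  have hB : al p1 + ∑ k ∈ P, al k = ∑ j ∈ N, (-al j) := by
    have h1 := h.asum
    rw [StrUAux.sum_sign al al (fun j hj => hj), StrUAux.sum_pos_erase al al hp] at h1
    rw [Finset.sum_neg_distrib]
    linarith
  have hPnn : 0 ≤ ∑ k ∈ P, al k := by
    refine Finset.sum_nonneg (fun k hk => ?_)
    rw [hP, mem_filter] at hk
    exact hk.2.2.le
  -- the general identity
  have hA : ∀ i, ∑ j ∈ univ.filter (fun j => 0 < al j), D i j * al j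
      = ∑ j ∈ N, D i j * (-al j) := by
    intro i
    have h1 := h.sum_a i
    rw [StrUAux.sum_sign al (fun j => (1 - inner ℝ (y i) (y j)) * al j)
      (fun j hj => by rw [hj, mul_zero])] at h1
    have h2 : ∑ j ∈ N, D i j * (-al j) = -∑ j ∈ N, D i j * al j := by
      rw [← Finset.sum_neg_distrib]
      refine Finset.sum_congr rfl (fun j _ => ?_)
      ring
    rw [h2]
    simp only [hDd]
    linarith
  set S : ℝ := ∑ j ∈ N, D p1 j * (-al j) with hS
  have hA1 : ∑ k ∈ P, D p1 k * al k = S := by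
    have h1 := hA p1
    rw [StrUAux.sum_pos_erase al (fun j => D p1 j * al j) hp, hDself, zero_mul, zero_add] at h1
    exact h1
  have hSge : 49 / 50 * al p1 ≤ S := by
    have h1 : 49 / 50 * ∑ j ∈ N, (-al j) ≤ S := by
      rw [hS, Finset.mul_sum]
      refine Finset.sum_le_sum (fun j hj => ?_)
      rw [hN, mem_filter] at hj
      have h2 : p1 ≠ j := by
        intro hh
        rw [← hh] at hj
        linarith [hj.2]
      exact mul_le_mul_of_nonneg_right (hD p1 j h2) (by linarith [hj.2])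
    rw [← hB] at h1
    nlinarith
  have hSpos : 0 < S := by linarith
  -- the main estimate for each k
  have hkey : ∀ k ∈ P, D p1 k * al p1
      ≤ min ((al p1 / al k) ^ (1 / (q + 1))) (2041 / 1000) * S := by
    intro k hk
    rw [hP, mem_filter] at hk
    obtain ⟨-, hk1, hk2⟩ := hk
    rw [min_mul_of_nonneg _ _ hSpos.le]
    refine le_min ?_ ?_
    · have hr : 0 < al p1 / al k := div_pos hp hk2
      have h1 : D k p1 * al p1 ≤ ∑ j ∈ N, D k j * (-al j) := by
        rw [← hA k]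
        refine Finset.single_le_sum (f := fun j => D k j * al j) (fun j hj => ?_) ?_
        · rw [mem_filter] at hj
          exact mul_nonneg (hDnn k j) hj.2.le
        · simp [hp]
      have h2 : D k p1 = D p1 k := by
        simp only [hDd]
        rw [real_inner_comm]
      rw [h2] at h1
      refine h1.trans ?_
      rw [hS, Finset.mul_sum]
      refine Finset.sum_le_sum (fun j hj => ?_)
      rw [hN, mem_filter] at hj
      have hj2 : al j < 0 := hj.2
      have hp1j : p1 ≠ j := by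
        intro hh
        rw [← hh] at hj2
        linarith
      have hkj : k ≠ j := by
        intro hh
        rw [← hh] at hj2
        linarith
      have h3 : D k j ≤ (al p1 / al k) ^ (1 / (q + 1)) * D p1 j := by
        refine StrUAux.dist_cmp (by linarith) (hDpos k j hkj) (hDpos p1 j hp1j) hr ?_
        have h4 : D k j ^ (-(q + 1)) = b k * b j - al k * al j := h.K k j hkj
        have h5 : D p1 j ^ (-(q + 1)) = b p1 * b j - al p1 * al j := h.K p1 j hp1j
        rw [h4, h5, div_mul_eq_mul_div, le_div_iff₀ hk2]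
        have h6 := split_M hq hy h hk2 (hmax k)
        have h7 := mul_le_mul_of_nonneg_right h6 (h.bpos j).le
        nlinarith
      have h8 := mul_le_mul_of_nonneg_right h3 (by linarith : 0 ≤ -al j)
      rw [mul_assoc] at h8
      exact h8
    · have h1 : D p1 k * al p1 ≤ 2 * al p1 := mul_le_mul_of_nonneg_right (hD2 _ _) hp.le
      nlinarith
  have hfin : al p1 * S ≤ (∑ k ∈ P,
      min ((al p1 / al k) ^ (1 / (q + 1))) (2041 / 1000) * al k) * S := by
    have h1 : al p1 * S = ∑ k ∈ P, (D p1 k * al p1) * al k := by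
      rw [← hA1, Finset.mul_sum]
      refine Finset.sum_congr rfl (fun k _ => ?_)
      ring
    rw [h1, Finset.sum_mul]
    refine Finset.sum_le_sum (fun k hk => ?_)
    have h2 : 0 ≤ al k := by
      have hk' := hk
      rw [hP, mem_filter] at hk'
      exact hk'.2.2.le
    have h3 := mul_le_mul_of_nonneg_right (hkey k hk) h2
    calc (D p1 k * al p1) * al k
        ≤ (min ((al p1 / al k) ^ (1 / (q + 1))) (2041 / 1000) * S) * al k := h3
      _ = min ((al p1 / al k) ^ (1 / (q + 1))) (2041 / 1000) * al k * S := by ring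
  exact le_of_mul_le_mul_right hfin hSpos

end

end Pool.Agent.RieszSq
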