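import Pool.Agent.RieszSq.CertX
import Pool.Agent.RieszSq.CertH
import Pool.Agent.RieszSq.StrU

set_option autoImplicit false

open Real Finset

namespace Pool.Agent.RieszSq

open Pool.Agent.RieszSmall (En)
open Pool.Agent.RieszF (Conf IsMin Splitting)

section

variable {ι : Type*} [Fintype ι] [DecidableEq ι]
variable {n : ℕ} {q a g w k B t x : ℝ}

/-- MODULE Q27a (the two largest). `p1` maximizes `al`, `p2` maximizes it on `univ.erase p1`. -/
theorem two_tops {al : ι → ℝ} (h : ∃ i j, i ≠ j ∧ 0 < al i ∧ 0 < al j) :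
    ∃ p1 p2, p1 ≠ p2 ∧ 0 < al p2 ∧ al p2 ≤ al p1 ∧ ∀ z, z ≠ p1 → al z ≤ al p2 := by
  obtain ⟨i, j, hij, hi, hj⟩ := h
  obtain ⟨p1, -, hp1⟩ := exists_max_image (univ : Finset ι) al ⟨i, mem_univ _⟩
  have hne : ((univ : Finset ι).erase p1).Nonempty := by
    by_cases h1 : i = p1
    · exact ⟨j, mem_erase.2 ⟨fun hc => hij (h1.trans hc.symm), mem_univ _⟩⟩
    · exact ⟨i, mem_erase.2 ⟨h1, mem_univ _⟩⟩
  obtain ⟨p2, hp2m, hp2⟩ := exists_max_image ((univ : Finset ι).erase p1) al hne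
  refine ⟨p1, p2, fun hc => (mem_erase.1 hp2m).1 hc.symm, ?_, hp1 p2 (mem_univ _), ?_⟩
  · by_cases h1 : i = p1
    · exact lt_of_lt_of_le hj (hp2 j (mem_erase.2 ⟨fun hc => hij (h1.trans hc.symm), mem_univ _⟩))
    · exact lt_of_lt_of_le hi (hp2 i (mem_erase.2 ⟨h1, mem_univ _⟩))
  · intro z hz
    exact hp2 z (mem_erase.2 ⟨hz, mem_univ _⟩)

/-- MODULE Q27b. `two_tops` for `al` and for `-al`, `exists_heavy` with `Tp = {p1, p2, q1, q2}`
(`|Tpᶜ| = n`, `x/(4B) n = ν < 1 + ν`; `B² ≤ 5/4 t²` since `ep ≤ 1/10`) and `be = lam al`. The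
four tops are different because of the signs. -/
theorem exists_Sc (hE : Est n q a g w k B t x) (hcard : Fintype.card ι = n + 4) {al : ι → ℝ}
    (hs : ∑ i, al i = 0) (hp : ∃ i j, i ≠ j ∧ 0 < al i ∧ 0 < al j)
    (hn : ∃ i j, i ≠ j ∧ al i < 0 ∧ al j < 0) :
    ∃ (lam : ℝ) (H : Finset ι) (p1 p2 q1 q2 : ι), 0 < lam ∧
      Sc n B t x (fun z => lam * al z) H p1 p2 q1 q2 := by
  obtain ⟨p1, p2, hp12, hp2, hple, hpm⟩ := two_tops hp
  have hn' : ∃ i j, i ≠ j ∧ 0 < (fun z => -al z) i ∧ 0 < (fun z => -al z) j := by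
    obtain ⟨i, j, h1, h2, h3⟩ := hn
    exact ⟨i, j, h1, by simpa using h2, by simpa using h3⟩
  obtain ⟨q1, q2, hq12, hq2, hqle, hqm⟩ := two_tops hn'
  have hP := hE.par
  have hp1 : 0 < al p1 := lt_of_lt_of_le hp2 hple
  have hq2' : al q2 < 0 := by linarith
  have hq1' : al q1 < 0 := by linarith
  have d1 : p1 ≠ q1 := fun hc => by rw [hc] at hp1; linarith
  have d2 : p1 ≠ q2 := fun hc => by rw [hc] at hp1; linarith
  have d3 : p2 ≠ q1 := fun hc => by rw [hc] at hp2; linarith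
  have d4 : p2 ≠ q2 := fun hc => by rw [hc] at hp2; linarith
  obtain ⟨Tp, hTp⟩ : ∃ Tp : Finset ι, Tp = {p1, p2, q1, q2} := ⟨_, rfl⟩
  have hcT : Tp.card = 4 := by
    rw [hTp, card_insert_of_notMem, card_insert_of_notMem, card_insert_of_notMem,
      card_singleton]
    · simpa using hq12
    · simp only [mem_insert, mem_singleton, not_or]
      exact ⟨d3, d4⟩
    · simp only [mem_insert, mem_singleton, not_or]
      exact ⟨hp12, d1, d2⟩
  have hcTc : (Tpᶜ).card = n := by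
    rw [card_compl, hcT, hcard]
    omega
  have hTpos : 0 < ∑ z ∈ Tp, |al z| := by
    have h1 : |al p1| ≤ ∑ z ∈ Tp, |al z| :=
      single_le_sum (f := fun z => |al z|) (fun i _ => abs_nonneg _) (by rw [hTp]; simp)
    exact lt_of_lt_of_le (abs_pos.2 hp1.ne') h1
  have hep0 : 0 < ep q := by
    unfold ep
    positivity
  have hep : ep q ≤ 1 / 10 ^ 9 := by
    have h1 := hE.tiny
    have h2 : (1 : ℝ) ≤ (q + 1) ^ 8 := one_le_pow₀ (by linarith [hE.q2000])
    have h3 : ep q * 1 ≤ ep q * (q + 1) ^ 8 := mul_le_mul_of_nonneg_left h2 hep0.le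
    linarith
  have hr : B ^ 2 ≤ 5 / 4 * t ^ 2 := by
    have h1 := hP.eB
    have h2 := hP.et
    have h3 : k * (1 + ep q) ≤ 5 / 4 * (k * (1 - ep q)) := by
      have h4 : 0 ≤ k * (1 / 4 - 9 / 4 * ep q) := by
        refine mul_nonneg hP.k0.le ?_
        norm_num at hep
        linarith
      nlinarith
    linarith
  have hN : x / (4 * B) * ((Tpᶜ).card : ℝ) < 1 + nu n B x := by
    rw [hcTc]
    unfold nu eta
    linarith [mul_comm (x / (4 * B)) (n : ℝ)]
  obtain ⟨lam, H, hlam, hTH, hFH, hl, hh⟩ := exists_heavy hTpos hP.B0 hP.t0 hP.x0 hr hN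
  have hab : ∀ z, |lam * al z| = lam * |al z| := fun z => by
    rw [abs_mul, abs_of_pos hlam]
  refine ⟨lam, H, p1, p2, q1, q2, hlam, ?_⟩
  refine
    { card := hcard
      sum := by rw [← mul_sum, hs, mul_zero]
      pne := hp12
      qne := hq12
      p2pos := mul_pos hlam hp2
      ple := mul_le_mul_of_nonneg_left hple hlam.le
      q2neg := mul_neg_of_pos_of_neg hlam hq2'
      qle := mul_le_mul_of_nonneg_left (by linarith) hlam.le
      maxp := fun z hz => mul_le_mul_of_nonneg_left (hpm z hz) hlam.le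
      maxq := fun z hz => mul_le_mul_of_nonneg_left (by linarith [hqm z hz]) hlam.le
      mp1 := hTH (by rw [hTp]; simp)
      mp2 := hTH (by rw [hTp]; simp)
      mq1 := hTH (by rw [hTp]; simp)
      mq2 := hTH (by rw [hTp]; simp)
      norm := ?_
      light := fun z hz => by
        show |lam * al z| ≤ 2 * x
        rw [hab]
        exact hl z hz
      heavy := fun z hz h1 h2 h3 h4 => by
        show 2 * x ≤ |lam * al z|
        rw [hab]
        refine hh z hz ?_
        rw [hTp]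
        simp only [mem_insert, mem_singleton, not_or]
        exact ⟨h1, h2, h3, h4⟩ }
  rw [← hFH]
  unfold FH
  congr 2
  exact sum_congr rfl fun z _ => hab z

/-- MODULE Q27c (the scale does not matter in `split_U`). -/
theorem scale_U {al : ι → ℝ} {lam q : ℝ} (hl : 0 < lam) {p1 : ι}
    (h : al p1 ≤ ∑ k ∈ univ.filter (fun k => k ≠ p1 ∧ 0 < al k),
      min ((al p1 / al k) ^ (1 / (q + 1))) (2041 / 1000) * al k) :
    lam * al p1 ≤ ∑ k ∈ univ.filter (fun k => k ≠ p1 ∧ 0 < lam * al k),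
      min ((lam * al p1 / (lam * al k)) ^ (1 / (q + 1))) (2041 / 1000) * (lam * al k) := by
  have h1 : (univ.filter fun k => k ≠ p1 ∧ 0 < lam * al k)
      = univ.filter fun k => k ≠ p1 ∧ 0 < al k := by
    refine filter_congr fun k _ => ?_
    rw [mul_pos_iff_of_pos_left hl]
  rw [h1]
  have h2 : ∑ k ∈ univ.filter (fun k => k ≠ p1 ∧ 0 < al k),
      min ((lam * al p1 / (lam * al k)) ^ (1 / (q + 1))) (2041 / 1000) * (lam * al k)
      = lam * ∑ k ∈ univ.filter (fun k => k ≠ p1 ∧ 0 < al k),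
      min ((al p1 / al k) ^ (1 / (q + 1))) (2041 / 1000) * al k := by
    rw [mul_sum]
    refine sum_congr rfl fun k _ => ?_
    rw [mul_div_mul_left _ _ hl.ne']
    ring
  rw [h2]
  exact mul_le_mul_of_nonneg_left h hl.le

end

end Pool.Agent.RieszSq
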