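import Pool.Agent.RieszSq.CertF
import Pool.Agent.RieszSq.FinB

set_option autoImplicit false

open Real Finset

namespace Pool.Agent.RieszSq

section

variable {ι : Type*} [Fintype ι] [DecidableEq ι]
variable {n : ℕ} {q a g w k B t x : ℝ} {be : ι → ℝ} {H : Finset ι} {p1 p2 q1 q2 : ι}

namespace CertX1Aux

theorem eta_pos (hP : Par n q a g w k B t x) : 0 < eta B x := by
  unfold eta
  have := hP.x0
  have := hP.B0
  positivity

theorem UU_le (hP : Par n q a g w k B t x) : UU n B x H be ≤ 1 + nu n B x := by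
  have h1 := eta_pos hP
  have h2 : 0 ≤ Se Hᶜ (ang x be) := by
    unfold Se
    exact Finset.sum_nonneg fun z _ => (exp_pos _).le
  unfold UU
  nlinarith [mul_nonneg h1.le h2]

theorem VV_le (hP : Par n q a g w k B t x) : VV n B x H be ≤ 1 + nu n B x := by
  have h1 := eta_pos hP
  have h2 : 0 ≤ Sf Hᶜ (ang x be) := by
    unfold Sf
    exact Finset.sum_nonneg fun z _ => (exp_pos _).le
  unfold VV
  nlinarith [mul_nonneg h1.le h2]

theorem exp_hundredth : exp (1 / 100) ≤ 10101 / 10000 := by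
  have h1 : exp (1 / 200) ≤ 200 / 199 := by
    have h2 : 1 - (1 / 200 : ℝ) ≤ exp (-(1 / 200)) := by
      have := Real.add_one_le_exp (-(1 / 200) : ℝ)
      linarith
    rw [Real.exp_neg] at h2
    have h3 : 0 < exp (1 / 200 : ℝ) := exp_pos _
    have h4 : (199 / 200 : ℝ) * exp (1 / 200) ≤ 1 := by
      calc (199 / 200 : ℝ) * exp (1 / 200) ≤ (exp (1 / 200))⁻¹ * exp (1 / 200) := by
            apply mul_le_mul_of_nonneg_right _ h3.le
            linarith
        _ = 1 := inv_mul_cancel₀ h3.ne'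
    linarith
  have h5 : exp (1 / 100 : ℝ) = exp (1 / 200) * exp (1 / 200) := by
    rw [← Real.exp_add]
    norm_num
  rw [h5]
  have h3 : 0 < exp (1 / 200 : ℝ) := exp_pos _
  nlinarith

end CertX1Aux

open CertX1Aux

/-- MODULE Q26a (`U/aP ≤ 1.0001/(2B)`). `aP = (B+t) U - (B-t) V = 2B ((1-δ) U - δ V)` (`del_bd`),
`V ≤ 1 + ν ≤ q + 1 = p` (`VV ≤ 1 + ν`), `1/U ≤ 4p`, `δ ≤ ep`:
`(1-δ) U - δ V ≥ U (1 - ep - 4 ep p²) ≥ U/1.0001` (`ep p^8 ≤ 10^(-9)`). -/
theorem Sc.ratio (h : Sc n B t x be H p1 p2 q1 q2) (hE : Est n q a g w k B t x) :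
    2 * B * UU n B x H be ≤ 10001 / 10000 * aP H be := by
  have hP := hE.par
  obtain ⟨haP, _, hU, hV, _, _⟩ := h.pos hP
  obtain ⟨hUge, _⟩ := h.U_ge hE
  obtain ⟨haPe, _⟩ := h.aPQ hP.B0 hP.t0 hP.x0
  obtain ⟨hd0, hd1, hd2, hd3⟩ := hP.del_bd
  have hVle : VV n B x H be ≤ q + 1 := le_trans (VV_le hP) hE.nuq
  have hq := hE.q2000
  obtain ⟨hep, hep1⟩ := hP.ep_pos
  have he2 : e2 q ≤ ep q := by
    unfold e2
    rw [div_le_iff₀ (by linarith)]
    nlinarith
  have hd : del B t ≤ ep q := le_trans hd1 he2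
  have hB := hP.B0
  set U := UU n B x H be with hUdef
  set V := VV n B x H be with hVdef
  set δ := del B t with hδ
  set p := q + 1 with hp
  have hp1 : 1 ≤ p := by rw [hp]; linarith
  have hp0 : 0 < p := by linarith
  -- `V ≤ 4 p² U`
  have h4 : 1 ≤ 4 * p * U := by
    have := mul_le_mul_of_nonneg_left hUge (by positivity : (0:ℝ) ≤ 4 * p)
    rw [mul_one_div, div_self (by positivity)] at this
    exact this
  have h5 : V ≤ 4 * p ^ 2 * U := by
    calc V ≤ p := hVle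
      _ ≤ p * (4 * p * U) := by nlinarith
      _ = 4 * p ^ 2 * U := by ring
  have hp2 : ep q * p ^ 2 ≤ 1 / 10 ^ 9 := by
    refine le_trans ?_ hE.tiny
    apply mul_le_mul_of_nonneg_left _ hep.le
    exact pow_le_pow_right₀ hp1 (by norm_num)
  have hp3 : ep q ≤ 1 / 10 ^ 9 := by
    refine le_trans ?_ hp2
    have : (1 : ℝ) ≤ p ^ 2 := one_le_pow₀ hp1
    nlinarith
  have h6 : δ * V ≤ 4 / 10 ^ 9 * U := by
    calc δ * V ≤ ep q * V := mul_le_mul_of_nonneg_right hd hV.le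
      _ ≤ ep q * (4 * p ^ 2 * U) := mul_le_mul_of_nonneg_left h5 hep.le
      _ = 4 * (ep q * p ^ 2) * U := by ring
      _ ≤ 4 * (1 / 10 ^ 9) * U := by
          apply mul_le_mul_of_nonneg_right _ hU.le
          linarith
      _ = 4 / 10 ^ 9 * U := by ring
  have h7 : δ * U ≤ 1 / 10 ^ 9 * U := mul_le_mul_of_nonneg_right (le_trans hd hp3) hU.le
  have h8 : U ≤ 10001 / 10000 * ((1 - δ) * U - δ * V) := by
    nlinarith
  rw [haPe, hd2, hd3]
  calc 2 * B * U ≤ 2 * B * (10001 / 10000 * ((1 - δ) * U - δ * V)) :=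
        mul_le_mul_of_nonneg_left h8 (by positivity)
    _ = 10001 / 10000 * (2 * B * (1 - δ) * U - 2 * B * δ * V) := by ring

/-- MODULE Q26b (the heavy tails). `be z ≥ 2 x`, `be p1 ≤ aP ≤ 2 B U ≤ 2 B (1+ν)`, so
`be p1/be z ≤ B (1+ν)/x = (1+ν)/(4η)`, whose logarithm is `≤ p/100` (`Est.rr`, `4η ≥ 2η`), hence
`(be p1/be z)^(1/p) ≤ exp (1/100) ≤ 10101/10000`. -/
theorem Sc.tail_pow (h : Sc n B t x be H p1 p2 q1 q2) (hE : Est n q a g w k B t x) {z : ι}
    (hz : 2 * x ≤ be z) : (be p1 / be z) ^ (1 / (q + 1)) ≤ 10101 / 10000 := by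
  have hP := hE.par
  obtain ⟨haP, _, hU, hV, haPU, _⟩ := h.pos hP
  have hx := hP.x0
  have hB := hP.B0
  have hq := hE.q2000
  have hp0 : 0 < q + 1 := by linarith
  have hbz : 0 < be z := by linarith
  have hb1 : 0 < be p1 := lt_of_lt_of_le h.p2pos h.ple
  have h1 : be p1 ≤ aP H be := by
    unfold aP
    apply Finset.single_le_sum (f := be) (fun i hi => (Finset.mem_filter.mp hi).2.le)
    exact Finset.mem_filter.mpr ⟨h.mp1, hb1⟩
  have hν : 0 ≤ nu n B x := by
    unfold nu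
    exact mul_nonneg (Nat.cast_nonneg _) (eta_pos hP).le
  have h2 : be p1 ≤ 2 * B * (1 + nu n B x) := by
    refine le_trans h1 (le_trans haPU ?_)
    exact mul_le_mul_of_nonneg_left (UU_le hP) (by positivity)
  have hη := eta_pos hP
  have h3 : be p1 / be z ≤ (1 + nu n B x) / (2 * eta B x) := by
    rw [div_le_div_iff₀ hbz (by positivity)]
    have h4 : be p1 * (2 * eta B x) ≤ 2 * B * (1 + nu n B x) * (2 * eta B x) :=
      mul_le_mul_of_nonneg_right h2 (by positivity)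
    have h5 : 2 * B * (1 + nu n B x) * (2 * eta B x) = (1 + nu n B x) * x := by
      unfold eta
      field_simp
      ring
    rw [h5] at h4
    have h6 : (1 + nu n B x) * x ≤ (1 + nu n B x) * be z := by
      apply mul_le_mul_of_nonneg_left _ (by linarith)
      linarith
    linarith
  have h7 : 0 < be p1 / be z := div_pos hb1 hbz
  have h8 : log (be p1 / be z) ≤ (q + 1) / 100 := le_trans (Real.log_le_log h7 h3) hE.rr
  rw [Real.rpow_def_of_pos h7]
  refine le_trans (Real.exp_le_exp.mpr ?_) exp_hundredth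
  calc log (be p1 / be z) * (1 / (q + 1)) ≤ (q + 1) / 100 * (1 / (q + 1)) :=
        mul_le_mul_of_nonneg_right h8 (by positivity)
    _ = 1 / 100 := by field_simp

/-- MODULE Q26c (the second top). `(β1/β2)^(1/p) β2 = β1^(1/p) β2^(1-1/p) ≤ β1/p + (1-1/p) β2`
(weighted AM-GM, or `(1 + y)^(1/p) ≤ 1 + y/p`). -/
theorem second_top {p b1 b2 : ℝ} (hp : 1 ≤ p) (h2 : 0 < b2) (h12 : b2 ≤ b1) :
    (b1 / b2) ^ (1 / p) * b2 ≤ b2 + (b1 - b2) / p := by
  have hp0 : 0 < p := by linarith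
  have h1 : b1 / b2 = 1 + (b1 - b2) / b2 := by
    field_simp
    ring
  have h3 : (1 + (b1 - b2) / b2) ^ (1 / p) ≤ 1 + (1 / p) * ((b1 - b2) / b2) := by
    apply _root_.rpow_one_add_le_one_add_mul_self
    · have : 0 ≤ (b1 - b2) / b2 := div_nonneg (by linarith) h2.le
      linarith
    · positivity
    · rw [div_le_one hp0]
      exact hp
  rw [h1]
  calc (1 + (b1 - b2) / b2) ^ (1 / p) * b2 ≤ (1 + (1 / p) * ((b1 - b2) / b2)) * b2 :=
        mul_le_mul_of_nonneg_right h3 h2.le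
    _ = b2 + (b1 - b2) / p := by
        field_simp

end

end Pool.Agent.RieszSq
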