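import Pool.Agent.RieszSq.CertX1

set_option autoImplicit false

open Real Finset

namespace Pool.Agent.RieszSq

section

variable {ι : Type*} [Fintype ι] [DecidableEq ι]
variable {n : ℕ} {q a g w k B t x : ℝ} {be : ι → ℝ} {H : Finset ι} {p1 p2 q1 q2 : ι}

/-- MODULE Q26d (one side). Let `β = be`. The hypothesis `hX` is split into `k = p2`
(`second_top`), the heavy tails (`tail_pow`) and the light points with `β > 0` (`min ≤ 2041/1000`):
`β1 ≤ β2 + (β1-β2)/p + 1.0101 (aP - β1 - β2) + 2.041 ∑_L max β 0`. Multiply by `U/aP`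
(`U ω = U β/aP`; `U/aP ≤ 1.0001/(2B)` and `max β 0 = x max (sinh θ) 0`, `x = 4 B η`):
`(1 - 1/p) X ≤ 1.0101 T + 4.0825 μ`, `p ≥ 2001`, so `X ≤ 51/50 T + 21/5 μ`.
The tails: `U β/aP ≥ U 2x/(2 B U) = 4 η`. -/
theorem Sc.side (h : Sc n B t x be H p1 p2 q1 q2) (hE : Est n q a g w k B t x)
    (hX : be p1 ≤ ∑ k ∈ univ.filter (fun k => k ≠ p1 ∧ 0 < be k),
      min ((be p1 / be k) ^ (1 / (q + 1))) (2041 / 1000) * be k) :
    SideC (hp H be) (wgt H be) (UU n B x H be) (eta B x)
      (eta B x * ∑ z ∈ Hᶜ, max (sinh (ang x be z)) 0) p1 p2 := by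
  obtain ⟨hA, _, hU, _, hAU, _⟩ := h.pos hE.par
  have hrat := h.ratio hE
  have hB := hE.par.B0
  have hx := hE.par.x0
  have hq : (2000 : ℝ) ≤ q := hE.q2000
  have hp2 : 0 < be p2 := h.p2pos
  have hp1 : 0 < be p1 := lt_of_lt_of_le hp2 h.ple
  have m1 : p1 ∈ hp H be := by
    unfold hp; exact mem_filter.2 ⟨h.mp1, hp1⟩
  have m2 : p2 ∈ hp H be := by
    unfold hp; exact mem_filter.2 ⟨h.mp2, hp2⟩
  have hheavy : ∀ z ∈ hp H be, z ≠ p1 → z ≠ p2 → 2 * x ≤ be z := by
    intro z hz h1 h2
    obtain ⟨hzH, hz0⟩ := mem_filter.1 (show z ∈ H.filter (fun z => 0 < be z) from hz)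
    have hq1 : z ≠ q1 := by
      rintro rfl; linarith [h.q2neg, h.qle]
    have hq2 : z ≠ q2 := by
      rintro rfl; linarith [h.q2neg]
    have := h.heavy z hzH h1 h2 hq1 hq2
    rwa [abs_of_pos hz0] at this
  set A := aP H be with hAdef
  set U := UU n B x H be with hUdef
  have hw : ∀ z, 0 < be z → wgt H be z = be z / A := by
    intro z hz
    unfold wgt
    rw [if_pos hz]
  refine ⟨m1, m2, h.pne, ?_, ?_, ?_⟩
  · rw [hw _ hp1, hw _ hp2]
    exact div_le_div_of_nonneg_right h.ple hA.le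
  · intro z hz h1 h2
    have hz0 : 0 < be z := (mem_filter.1 (show z ∈ H.filter (fun z => 0 < be z) from hz)).2
    have hz2 := hheavy z hz h1 h2
    rw [hw _ hz0, hw _ hp2]
    refine ⟨?_, div_le_div_of_nonneg_right (h.maxp z h1) hA.le⟩
    rw [mul_div_assoc', le_div_iff₀ hA]
    have e1 : 4 * eta B x * A ≤ 4 * eta B x * (2 * B * U) :=
      mul_le_mul_of_nonneg_left hAU (by unfold eta; positivity)
    have e2 : 4 * eta B x * (2 * B * U) = 2 * x * U := by
      unfold eta; field_simp
    nlinarith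
  · -- the main estimate
    have hsplit : univ.filter (fun k => k ≠ p1 ∧ 0 < be k)
        = (hp H be).erase p1 ∪ Hᶜ.filter (fun k => 0 < be k) := by
      ext z
      simp only [hp, mem_filter, mem_univ, true_and, mem_union, mem_erase, mem_compl]
      constructor
      · rintro ⟨h1, h2⟩
        by_cases hz : z ∈ H
        · exact Or.inl ⟨h1, hz, h2⟩
        · exact Or.inr ⟨hz, h2⟩
      · rintro (⟨h1, h2, h3⟩ | ⟨h1, h2⟩)
        · exact ⟨h1, h3⟩
        · refine ⟨?_, h2⟩
          rintro rfl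
          exact h1 h.mp1
    have hdisj : Disjoint ((hp H be).erase p1) (Hᶜ.filter (fun k => 0 < be k)) := by
      rw [Finset.disjoint_left]
      intro z hz hz'
      have h1 : z ∈ H := (mem_filter.1 (show z ∈ H.filter (fun z => 0 < be z) from
        mem_of_mem_erase hz)).1
      exact (mem_compl.1 (mem_filter.1 hz').1) h1
    have m2' : p2 ∈ (hp H be).erase p1 := mem_erase.2 ⟨h.pne.symm, m2⟩
    rw [hsplit, sum_union hdisj, ← add_sum_erase _ _ m2'] at hX
    have b1 : min ((be p1 / be p2) ^ (1 / (q + 1))) (2041 / 1000) * be p2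
        ≤ be p2 + (be p1 - be p2) / (q + 1) :=
      le_trans (mul_le_mul_of_nonneg_right (min_le_left _ _) hp2.le)
        (second_top (by linarith) hp2 h.ple)
    have b2 : ∑ k ∈ ((hp H be).erase p1).erase p2,
        min ((be p1 / be k) ^ (1 / (q + 1))) (2041 / 1000) * be k
        ≤ 10101 / 10000 * (A - be p1 - be p2) := by
      have e1 : A - be p1 - be p2 = ∑ k ∈ ((hp H be).erase p1).erase p2, be k := by
        have s1 : be p1 + ∑ k ∈ (hp H be).erase p1, be k = ∑ k ∈ hp H be, be k :=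
          add_sum_erase _ _ m1
        have s2 : be p2 + ∑ k ∈ ((hp H be).erase p1).erase p2, be k
            = ∑ k ∈ (hp H be).erase p1, be k := add_sum_erase _ _ m2'
        have s3 : A = ∑ k ∈ hp H be, be k := rfl
        linarith
      rw [e1, mul_sum]
      refine sum_le_sum ?_
      intro z hz
      obtain ⟨hz2, hz⟩ := mem_erase.1 hz
      obtain ⟨hz1, hz⟩ := mem_erase.1 hz
      have hz0 : 0 < be z := (mem_filter.1 (show z ∈ H.filter (fun z => 0 < be z) from hz)).2
      refine mul_le_mul_of_nonneg_right ?_ hz0.le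
      exact le_trans (min_le_left _ _) (h.tail_pow hE (hheavy z hz hz1 hz2))
    have b3 : ∑ k ∈ Hᶜ.filter (fun k => 0 < be k),
        min ((be p1 / be k) ^ (1 / (q + 1))) (2041 / 1000) * be k
        ≤ 2041 / 1000 * ∑ z ∈ Hᶜ, max (be z) 0 := by
      rw [sum_filter, mul_sum]
      refine sum_le_sum ?_
      intro z _
      split_ifs with hz
      · rw [max_eq_left hz.le]
        exact mul_le_mul_of_nonneg_right (min_le_right _ _) hz.le
      · exact mul_nonneg (by norm_num) (le_max_right _ _)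
    set M := ∑ z ∈ Hᶜ, max (be z) 0 with hM
    have hM0 : 0 ≤ M := sum_nonneg (fun z _ => le_max_right _ _)
    have hT0 : 0 ≤ A - be p1 - be p2 := by
      have e1 : A - be p1 - be p2 = ∑ k ∈ ((hp H be).erase p1).erase p2, be k := by
        have s1 : be p1 + ∑ k ∈ (hp H be).erase p1, be k = ∑ k ∈ hp H be, be k :=
          add_sum_erase _ _ m1
        have s2 : be p2 + ∑ k ∈ ((hp H be).erase p1).erase p2, be k
            = ∑ k ∈ (hp H be).erase p1, be k := add_sum_erase _ _ m2'
        have s3 : A = ∑ k ∈ hp H be, be k := rfl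
        linarith
      rw [e1]
      refine sum_nonneg ?_
      intro z hz
      have hz0 : 0 < be z := (mem_filter.1 (show z ∈ H.filter (fun z => 0 < be z) from
        mem_of_mem_erase (mem_of_mem_erase hz))).2
      exact hz0.le
    have hmu : eta B x * ∑ z ∈ Hᶜ, max (sinh (ang x be z)) 0 = M / (4 * B) := by
      have e1 : ∀ z, max (sinh (ang x be z)) 0 = max (be z) 0 / x := by
        intro z
        unfold ang
        rw [Real.sinh_arsinh, ← max_div_div_right hx.le, zero_div]
      simp only [e1]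
      rw [← sum_div, ← hM]
      unfold eta
      field_simp
    rw [hmu, hw _ hp1, hw _ hp2]
    have hq1 : 0 < q + 1 := by linarith
    have hd : 0 ≤ be p1 - be p2 := by linarith [h.ple]
    have c1 : (be p1 - be p2) / (q + 1) ≤ (be p1 - be p2) / 2001 :=
      div_le_div_of_nonneg_left hd (by norm_num) (by linarith)
    have c2 : be p1 - be p2 ≤ 1011 / 1000 * (A - be p1 - be p2) + 2043 / 1000 * M := by
      linarith
    have hr0 : 0 < U / A := div_pos hU hA
    have hr1 : U / A * M ≤ 10001 / 10000 * (M / (2 * B)) := by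
      rw [div_mul_eq_mul_div, div_le_iff₀ hA]
      have : M / (2 * B) * (2 * B * U) ≤ M / (2 * B) * (10001 / 10000 * A) :=
        mul_le_mul_of_nonneg_left hrat (by positivity)
      have e : M / (2 * B) * (2 * B * U) = U * M := by field_simp
      linarith
    have hMB : M / (2 * B) = 2 * (M / (4 * B)) := by field_simp; norm_num
    have hMB0 : 0 ≤ M / (4 * B) := by positivity
    have c3 : U / A * (be p1 - be p2)
        ≤ U / A * (1011 / 1000 * (A - be p1 - be p2) + 2043 / 1000 * M) :=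
      mul_le_mul_of_nonneg_left c2 hr0.le
    have c4 : 0 ≤ U / A * (A - be p1 - be p2) := mul_nonneg hr0.le hT0
    have d1 : U * (be p1 / A) - U * (be p2 / A) = U / A * (be p1 - be p2) := by ring
    have d2 : U - U * (be p1 / A) - U * (be p2 / A) = U / A * (A - be p1 - be p2) := by
      field_simp
    rw [d1, d2]
    rw [hMB] at hr1
    nlinarith

/-- MODULE Q26e (the other side): `Sc.side` for `Sc.neg`, `neg_defs`. -/
theorem Sc.side' (h : Sc n B t x be H p1 p2 q1 q2) (hE : Est n q a g w k B t x)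
    (hX : -be q1 ≤ ∑ k ∈ univ.filter (fun k => k ≠ q1 ∧ 0 < -be k),
      min ((-be q1 / -be k) ^ (1 / (q + 1))) (2041 / 1000) * -be k) :
    SideC (hn H be) (wgt H be) (VV n B x H be) (eta B x)
      (eta B x * ∑ z ∈ Hᶜ, max (-sinh (ang x be z)) 0) q1 q2 := by
  have hs := h.neg.side hE hX
  obtain ⟨e1, _, _, _, e5, e6, _, e8⟩ := neg_defs H be n B x
  have e9 : ∀ z, sinh (ang x (fun z => -be z) z) = -sinh (ang x be z) := by
    intro z
    rw [e5 z, Real.sinh_neg]
  rw [e1, e6] at hs
  simp only [e9] at hs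
  obtain ⟨a1, a2, a3, a4, a5, a6⟩ := hs
  have hne : ∀ z ∈ hn H be, be z ≠ 0 := by
    intro z hz
    exact ((mem_filter.1 (show z ∈ H.filter (fun z => be z < 0) from hz)).2).ne
  rw [e8 q1 (hne q1 a1), e8 q2 (hne q2 a2)] at a6
  rw [e8 q1 (hne q1 a1), e8 q2 (hne q2 a2)] at a4
  refine ⟨a1, a2, a3, a4, ?_, a6⟩
  intro z hz h1 h2
  have := a5 z hz h1 h2
  rwa [e8 z (hne z hz), e8 q2 (hne q2 a2)] at this

end

end Pool.Agent.RieszSq
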