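import Mathlib

set_option autoImplicit false

/-!
# Minimizers of `d + 3` points on `S^d` for large `s` (MP_743703_an)

Notation: `q = s/2`, `p = q + 1`, `n = d - 1`, `m = n + 2 = d + 1`, `N = n + 4 = d + 3` points,
`D i j = 1 - x_i·x_j`, energy `En q x = ∑_{i≠j} D^(-q)`, `K = D^(-p)`, so `D^(-q) = K^(q/p)`.

The lifted square with parameters `a, g, w` has `D = 1 + a` between a vertex of the square and a
remaining point, `D = 1 + g` between two remaining points, `D = 1 - w` for two neighbours of the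
square, `D = 2 (1 - w)` for two opposite vertices.  `k = (1 - w)^(-p)`, `x = (1+g)^(-p/2)`,
`B² = (k + 2^(-p) k)/2`, `t² = (k - 2^(-p) k)/2`.  At the critical parameters
`K = b bᵀ - α αᵀ` with `b = B`, `α = ± t` at the vertices of the square and `b = x`, `α = 0` at the
other points; `S = ∑ b = 4 B + n x` and the energy is `S²`.
-/

open Real Finset

namespace Pool.Agent.RieszSq

/-- `2^(-p)` -/
noncomputable def ep (q : ℝ) : ℝ := 2 ^ (-(q + 1))

/-- The exact relations of the critical lifted square. -/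
structure Par (n : ℕ) (q a g w k B t x : ℝ) : Prop where
  n2 : 2 ≤ n
  q1 : 1 ≤ q
  a0 : 0 < a
  g0 : 0 < g
  w0 : 0 < w
  w1 : w < 1
  k0 : 0 < k
  B0 : 0 < B
  t0 : 0 < t
  x0 : 0 < x
  ek : k = (1 - w) ^ (-(q + 1))
  eB : 2 * B ^ 2 = k * (1 + ep q)
  et : 2 * t ^ 2 = k * (1 - ep q)
  ex : x ^ 2 = (1 + g) ^ (-(q + 1))
  eY : B * x = (1 + a) ^ (-(q + 1))
  r1 : 4 * a * B = x * (1 - ((n : ℝ) - 1) * g)
  r2 : 4 * B * w = n * x * a

/-- `η = x/(4B)` -/
noncomputable def eta (B x : ℝ) : ℝ := x / (4 * B)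

/-- `ν = n η` -/
noncomputable def nu (n : ℕ) (B x : ℝ) : ℝ := n * eta B x

/-- `Θ = η p (1+g)/(1+ν)` -/
noncomputable def Th (n : ℕ) (q g B x : ℝ) : ℝ := eta B x * (q + 1) * (1 + g) / (1 + nu n B x)

/-- `δ = (B-t)/(2B)` -/
noncomputable def del (B t : ℝ) : ℝ := (B - t) / (2 * B)

/-- `ε = 2^(-p)/(1 + 2^(-p))` -/
noncomputable def e2 (q : ℝ) : ℝ := ep q / (1 + ep q)

/-- The estimates for the critical lifted square when `q ≥ m (log m + 500)`. -/
structure Est (n : ℕ) (q a g w k B t x : ℝ) : Prop where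
  par : Par n q a g w k B t x
  q2000 : 2000 ≤ q
  a1 : a ≤ 1 / 100
  g1 : g ≤ 1 / 100
  w1 : w ≤ 1 / 100
  ag : a ≤ g
  lam0 : 0 ≤ (q + 1) * (2 * a + w - g)
  lam1 : (q + 1) * (2 * a + w - g) ≤ 1
  th5 : 5 ≤ Th n q g B x
  tp : Th n q g B x - 1 / 50 ≤ -log (2 * eta B x)
  nth : 480 * nu n B x ≤ Th n q g B x
  rr : log ((1 + nu n B x) / (2 * eta B x)) ≤ (q + 1) / 100
  np : (n : ℝ) + 4 ≤ q + 1
  nuq : 1 + nu n B x ≤ q + 1
  etp : 1 ≤ 2 * (q + 1) * eta B x
  tiny : ep q * (q + 1) ^ 8 ≤ 1 / 10 ^ 9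
  logE : log ((4 * B + n * x) ^ 2) ≤ q / 50

section

variable {ι : Type*}

/-- `∑ exp θ` -/
noncomputable def Se (L : Finset ι) (th : ι → ℝ) : ℝ := ∑ z ∈ L, exp (th z)

/-- `∑ exp (-θ)` -/
noncomputable def Sf (L : Finset ι) (th : ι → ℝ) : ℝ := ∑ z ∈ L, exp (-th z)

/-- `∑ θ exp θ` -/
noncomputable def Set' (L : Finset ι) (th : ι → ℝ) : ℝ := ∑ z ∈ L, th z * exp (th z)

/-- `∑ θ exp (-θ)` -/
noncomputable def Sft (L : Finset ι) (th : ι → ℝ) : ℝ := ∑ z ∈ L, th z * exp (-th z)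

/-- `∑ ω log (2 ω)` -/
noncomputable def hh (S : Finset ι) (wt : ι → ℝ) : ℝ := ∑ i ∈ S, wt i * log (2 * wt i)

variable [Fintype ι] [DecidableEq ι]

/-- sum over all ordered pairs of different indices -/
def offs (f : ι → ι → ℝ) : ℝ := ∑ i, ∑ j, if i = j then 0 else f i j

/-- sum over all ordered pairs of different elements of `S` -/
def offS (S : Finset ι) (f : ι → ι → ℝ) : ℝ := ∑ i ∈ S, ∑ j ∈ S, if i = j then 0 else f i j

/-- The vector `u = b + α` of the certificate. -/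
noncomputable def uu (B t x U : ℝ) (HP HQ : Finset ι) (wt th : ι → ℝ) (i : ι) : ℝ :=
  if i ∈ HP then 2 * (B + t) * U * wt i
  else if i ∈ HQ then 2 * (B - t) * U * wt i else x * exp (th i)

/-- The vector `v = b - α` of the certificate. -/
noncomputable def vv (B t x V : ℝ) (HP HQ : Finset ι) (wt th : ι → ℝ) (i : ι) : ℝ :=
  if i ∈ HP then 2 * (B - t) * V * wt i
  else if i ∈ HQ then 2 * (B + t) * V * wt i else x * exp (-th i)

/-- `K = (u vᵀ + v uᵀ)/2` -/
noncomputable def Kc (B t x U V : ℝ) (HP HQ : Finset ι) (wt th : ι → ℝ) (i j : ι) : ℝ :=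
  (uu B t x U HP HQ wt th i * vv B t x V HP HQ wt th j
    + vv B t x V HP HQ wt th i * uu B t x U HP HQ wt th j) / 2

/-- The certificate data: `HP`, `HQ` the heavy points of the two sides with weights `wt`
(each side has total weight 1), `L` the light points with angles `th`. -/
structure Cf (n : ℕ) (B x : ℝ) (HP HQ L : Finset ι) (wt th : ι → ℝ) (U V : ℝ) : Prop where
  card : Fintype.card ι = n + 4
  dPQ : Disjoint HP HQ
  dPL : Disjoint HP L
  dQL : Disjoint HQ L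
  un : HP ∪ HQ ∪ L = univ
  wP : ∀ i ∈ HP, 0 < wt i
  wQ : ∀ i ∈ HQ, 0 < wt i
  sP : ∑ i ∈ HP, wt i = 1
  sQ : ∑ i ∈ HQ, wt i = 1
  U0 : 0 < U
  V0 : 0 < V
  eU : U + eta B x * Se L th = 1 + nu n B x
  eV : V + eta B x * Sf L th = 1 + nu n B x

end

end Pool.Agent.RieszSq
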