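import Pool.Agent.RieszSq.Tan
import Pool.Agent.RieszF.Defs

set_option autoImplicit false

open Real Finset

namespace Pool.Agent.RieszSq

open Pool.Agent.RieszSmall (En)
open Pool.Agent.RieszF (Conf)

section

variable {ι : Type*} [Fintype ι] [DecidableEq ι] {V : Type*} [NormedAddCommGroup V]
  [InnerProductSpace ℝ V]

/-- MODULE Q2a. `K i j = (u i v j + v i u j)/2`, `D i j = 1 - y_i·y_j` (`D i i = 0`). With
`∑ (u - v)_i y_i = 0`, i.e. `∑ u_i y_i = ∑ v_i y_i =: z`:
`∑_{i≠j} K i j D i j = ∑_{i,j} K i j (1 - y_i·y_j) = S² - ‖z‖²`. -/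
theorem sum_KD {y : ι → V} (hy : Conf y) {u v : ι → ℝ} {S : ℝ} (hu : ∑ i, u i = S)
    (hv : ∑ i, v i = S) (huv : ∑ i, (u i - v i) • y i = 0) :
    offs (fun i j => (u i * v j + v i * u j) / 2 * (1 - inner ℝ (y i) (y j)))
      = S ^ 2 - ‖∑ i, u i • y i‖ ^ 2 := by
  have hz : ∑ i, u i • y i = ∑ i, v i • y i := by
    have h1 : ∑ i, (u i - v i) • y i = ∑ i, u i • y i - ∑ i, v i • y i := by
      rw [← Finset.sum_sub_distrib]
      exact Finset.sum_congr rfl fun i _ => sub_smul _ _ _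
    rw [h1] at huv
    exact sub_eq_zero.1 huv
  have h1 : offs (fun i j => (u i * v j + v i * u j) / 2 * (1 - inner ℝ (y i) (y j)))
      = ∑ i, ∑ j, (u i * v j + v i * u j) / 2 * (1 - inner ℝ (y i) (y j)) := by
    unfold offs
    refine Finset.sum_congr rfl fun i _ => Finset.sum_congr rfl fun j _ => ?_
    split_ifs with h
    · subst h
      rw [hy.inner_self]
      ring
    · rfl
  have h2 : ∑ i, ∑ j, (u i * v j + v i * u j) / 2 = S ^ 2 := by
    have e : ∀ i j : ι, (u i * v j + v i * u j) / 2 = u i * (v j / 2) + v i * (u j / 2) := by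
      intro i j; ring
    simp only [e, Finset.sum_add_distrib, ← Finset.mul_sum, ← Finset.sum_mul, ← Finset.sum_div,
      hu, hv]
    ring
  have h3 : ∑ i, ∑ j, (u i * v j + v i * u j) / 2 * inner ℝ (y i) (y j)
      = ‖∑ i, u i • y i‖ ^ 2 := by
    have e1 : ∑ i, ∑ j, u i * v j * inner ℝ (y i) (y j)
        = inner ℝ (∑ i, u i • y i) (∑ j, v j • y j) := by
      rw [sum_inner]
      refine Finset.sum_congr rfl fun i _ => ?_
      rw [inner_sum]
      refine Finset.sum_congr rfl fun j _ => ?_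
      rw [real_inner_smul_left, real_inner_smul_right]
      ring
    have e2 : ∑ i, ∑ j, v i * u j * inner ℝ (y i) (y j)
        = inner ℝ (∑ i, v i • y i) (∑ j, u j • y j) := by
      rw [sum_inner]
      refine Finset.sum_congr rfl fun i _ => ?_
      rw [inner_sum]
      refine Finset.sum_congr rfl fun j _ => ?_
      rw [real_inner_smul_left, real_inner_smul_right]
      ring
    have e3 : ∑ i, ∑ j, (u i * v j + v i * u j) / 2 * inner ℝ (y i) (y j)
        = (∑ i, ∑ j, u i * v j * inner ℝ (y i) (y j)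
          + ∑ i, ∑ j, v i * u j * inner ℝ (y i) (y j)) / 2 := by
      rw [← Finset.sum_add_distrib, Finset.sum_div]
      refine Finset.sum_congr rfl fun i _ => ?_
      rw [← Finset.sum_add_distrib, Finset.sum_div]
      refine Finset.sum_congr rfl fun j _ => ?_
      ring
    rw [e3, e1, e2, ← hz, real_inner_self_eq_norm_sq]
    ring
  rw [h1, ← h2, ← h3, ← Finset.sum_sub_distrib]
  refine Finset.sum_congr rfl fun i _ => ?_
  rw [← Finset.sum_sub_distrib]
  refine Finset.sum_congr rfl fun j _ => ?_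
  ring

/-- The sum of all the tangent inequalities. -/
theorem DualAux.lin {y : ι → V} (hy : Conf y) {q : ℝ} (hq : 0 < q) {u v : ι → ℝ} {S : ℝ}
    (_hu : ∑ i, u i = S) (_hv : ∑ i, v i = S) (_huv : ∑ i, (u i - v i) • y i = 0)
    (hK : ∀ i j, i ≠ j → 0 < (u i * v j + v i * u j) / 2) :
    (q + 1) * offs (fun i j => ((u i * v j + v i * u j) / 2) ^ (q / (q + 1)))
      - q * offs (fun i j => (u i * v j + v i * u j) / 2 * (1 - inner ℝ (y i) (y j)))
      ≤ En q y := by
  unfold offs En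
  rw [Finset.mul_sum, Finset.mul_sum, ← Finset.sum_sub_distrib]
  refine Finset.sum_le_sum fun i _ => ?_
  rw [Finset.mul_sum, Finset.mul_sum, ← Finset.sum_sub_distrib]
  refine Finset.sum_le_sum fun j _ => ?_
  split_ifs with h
  · simp
  · have := tanY hq (hK i j h) (hy.dd_pos h)
    linarith

/-- If one tangent inequality is strict, the sum is strict. -/
theorem DualAux.lin_lt {y : ι → V} (hy : Conf y) {q : ℝ} (hq : 0 < q) {u v : ι → ℝ}
    (hK : ∀ i j, i ≠ j → 0 < (u i * v j + v i * u j) / 2) {i₀ j₀ : ι} (hij : i₀ ≠ j₀)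
    (hlt : (q + 1) * ((u i₀ * v j₀ + v i₀ * u j₀) / 2) ^ (q / (q + 1))
      - q * ((u i₀ * v j₀ + v i₀ * u j₀) / 2) * (1 - inner ℝ (y i₀) (y j₀))
      < (1 - inner ℝ (y i₀) (y j₀)) ^ (-q)) :
    (q + 1) * offs (fun i j => ((u i * v j + v i * u j) / 2) ^ (q / (q + 1)))
      - q * offs (fun i j => (u i * v j + v i * u j) / 2 * (1 - inner ℝ (y i) (y j)))
      < En q y := by
  unfold offs En
  rw [Finset.mul_sum, Finset.mul_sum, ← Finset.sum_sub_distrib]
  have key : ∀ i j : ι, (q + 1) * (if i = j then (0 : ℝ) else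
        ((u i * v j + v i * u j) / 2) ^ (q / (q + 1)))
      - q * (if i = j then (0 : ℝ) else
        (u i * v j + v i * u j) / 2 * (1 - inner ℝ (y i) (y j)))
      ≤ if i = j then 0 else (1 - inner ℝ (y i) (y j)) ^ (-q) := by
    intro i j
    split_ifs with h
    · simp
    · have := tanY hq (hK i j h) (hy.dd_pos h)
      linarith
  refine Finset.sum_lt_sum (fun i _ => ?_) ⟨i₀, Finset.mem_univ _, ?_⟩
  · rw [Finset.mul_sum, Finset.mul_sum, ← Finset.sum_sub_distrib]
    exact Finset.sum_le_sum fun j _ => key i j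
  · rw [Finset.mul_sum, Finset.mul_sum, ← Finset.sum_sub_distrib]
    refine Finset.sum_lt_sum (fun j _ => key i₀ j) ⟨j₀, Finset.mem_univ _, ?_⟩
    rw [if_neg hij, if_neg hij, if_neg hij]
    linarith

/-- MODULE Q2b (the dual bound). Sum `tanY` over all pairs `i ≠ j` and use `sum_KD`. -/
theorem dual {y : ι → V} (hy : Conf y) {q : ℝ} (hq : 0 < q) {u v : ι → ℝ} {S : ℝ}
    (hu : ∑ i, u i = S) (hv : ∑ i, v i = S) (huv : ∑ i, (u i - v i) • y i = 0)
    (hK : ∀ i j, i ≠ j → 0 < (u i * v j + v i * u j) / 2) :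
    (q + 1) * offs (fun i j => ((u i * v j + v i * u j) / 2) ^ (q / (q + 1))) - q * S ^ 2
      ≤ En q y := by
  have h1 := DualAux.lin hy hq hu hv huv hK
  have h2 := sum_KD hy hu hv huv
  have h3 : (0 : ℝ) ≤ q * ‖∑ i, u i • y i‖ ^ 2 := by positivity
  rw [h2] at h1
  nlinarith

/-- MODULE Q2c (equality case). All inequalities `tanY` are equalities, use `tanY_eq`. -/
theorem dual_eq {y : ι → V} (hy : Conf y) {q : ℝ} (hq : 0 < q) {u v : ι → ℝ} {S : ℝ}
    (hu : ∑ i, u i = S) (hv : ∑ i, v i = S) (huv : ∑ i, (u i - v i) • y i = 0)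
    (hK : ∀ i j, i ≠ j → 0 < (u i * v j + v i * u j) / 2)
    (h : En q y ≤ (q + 1) * offs (fun i j => ((u i * v j + v i * u j) / 2) ^ (q / (q + 1)))
      - q * S ^ 2) :
    ∀ i j, i ≠ j → (1 - inner ℝ (y i) (y j)) ^ (-(q + 1)) = (u i * v j + v i * u j) / 2 := by
  have h2 := sum_KD hy hu hv huv
  have h3 : (0 : ℝ) ≤ q * ‖∑ i, u i • y i‖ ^ 2 := by positivity
  intro i j hij
  refine tanY_eq hq (hK i j hij) (hy.dd_pos hij) ?_
  by_contra hlt
  rw [not_le] at hlt
  have h4 := DualAux.lin_lt hy hq hK hij hlt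
  rw [h2] at h4
  nlinarith

end

end Pool.Agent.RieszSq
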