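import Pool.Agent.RieszSq.Defs

set_option autoImplicit false

open Real Finset

namespace Pool.Agent.RieszSq

/-- MODULE Q15a (two weights). `v = u1 + u2`, `y = (u1-u2)/v ∈ [0,1)`, `u1 = v(1+y)/2`,
`u2 = v(1-y)/2`: `u1 log (2 u1) + u2 log (2 u2) = v log v + v ((1+y) log (1+y) + (1-y) log (1-y))/2`
and `log (1+y) ≤ y`, `log (1-y) ≤ -y`, so the last term is `≤ v y² = (u1-u2)²/v`. -/
theorem ent_two {u1 u2 : ℝ} (h2 : 0 < u2) (h1 : u2 ≤ u1) :
    u1 * log (2 * u1) + u2 * log (2 * u2)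
      ≤ (u1 + u2) * log (u1 + u2) + (u1 - u2) ^ 2 / (u1 + u2) := by
  have hu1 : 0 < u1 := h2.trans_le h1
  have hv : 0 < u1 + u2 := by linarith
  have key : ∀ u : ℝ, 0 < u → log (2 * u) ≤ log (u1 + u2) + (2 * u / (u1 + u2) - 1) := by
    intro u hu
    have h3 : 0 < 2 * u / (u1 + u2) := by positivity
    have h4 := Real.log_le_sub_one_of_pos h3
    rw [Real.log_div (by positivity) hv.ne'] at h4
    linarith
  have e1 := mul_le_mul_of_nonneg_left (key u1 hu1) hu1.le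
  have e2 := mul_le_mul_of_nonneg_left (key u2 h2) h2.le
  have e3 : u1 * (log (u1 + u2) + (2 * u1 / (u1 + u2) - 1))
      + u2 * (log (u1 + u2) + (2 * u2 / (u1 + u2) - 1))
      = (u1 + u2) * log (u1 + u2) + (u1 - u2) ^ 2 / (u1 + u2) := by
    field_simp
    ring
  linarith

namespace Ent2Aux

theorem exp_498 : (145 : ℝ) ≤ exp (5 - 1 / 50) := by
  have h1 : (2.7182818283 : ℝ) < exp 1 := Real.exp_one_gt_d9
  have h2 : exp (5 : ℝ) = exp 1 ^ 5 := by
    rw [← Real.exp_nat_mul]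
    norm_num
  have h3 : (148.4 : ℝ) ≤ exp 5 := by
    rw [h2]
    calc (148.4 : ℝ) ≤ 2.7182818283 ^ 5 := by norm_num
      _ ≤ exp 1 ^ 5 := pow_le_pow_left₀ (by norm_num) h1.le 5
  have h4 : (0.98 : ℝ) ≤ exp (-(1 / 50)) := by
    have := Real.add_one_le_exp (-(1 / 50) : ℝ)
    linarith
  have h5 : exp (5 - 1 / 50 : ℝ) = exp 5 * exp (-(1 / 50)) := by
    rw [← Real.exp_add]
    ring_nf
  rw [h5]
  nlinarith

theorem exp_lower {y : ℝ} (hy : 5 - 1 / 50 ≤ y) : 20 * (2 + y + 1 / 50) ≤ exp y := by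
  have h1 : exp y = exp (5 - 1 / 50) * exp (y - (5 - 1 / 50)) := by
    rw [← Real.exp_add]
    ring_nf
  have h2 := Real.add_one_le_exp (y - (5 - 1 / 50))
  have h3 := exp_498
  rw [h1]
  nlinarith

end Ent2Aux

/-- MODULE Q15b (`(2 + y) exp (-y)` is decreasing): for `y ≥ 5 - 1/50`,
`(2 + y + 1/50) exp (-y) ≤ 1/20`: `exp y = exp (4.98) exp (y - 4.98) ≥ 145 (1 + (y - 4.98))` and
`20 (7 + (y - 4.98)) ≤ 145 (1 + (y-4.98))`; (`exp 4.98 ≥ 145`, e.g. `exp 5 ≥ 148.4`,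
`exp (-0.02) ≥ 0.98`). -/
theorem exp_dec {y : ℝ} (hy : 5 - 1 / 50 ≤ y) : (2 + y + 1 / 50) * exp (-y) ≤ 1 / 20 := by
  have h1 := Ent2Aux.exp_lower hy
  rw [Real.exp_neg, ← div_eq_mul_inv, div_le_iff₀ (Real.exp_pos y)]
  linarith

/-- MODULE Q15c (a heavy tail). Put `T = -log (2η) ≥ Θ - 1/50`, so `η = exp(-T)/2`.
If `ℓ = -log (2u) ≥ 0` then `u = exp(-ℓ)/2`, `η/u = exp (ℓ-T)`, `u ≥ 4η` means `ℓ ≤ T - log 4`;
on `[0, T - log 4]` the convex function `exp (ℓ - T)` is at most its chord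
`exp (-T) + (ℓ/(T - log 4)) (1/4)`, so
`6/5 (2+Θ) η/u ≤ 6/5 (2+Θ) exp(-T) + (3/10)(2+Θ) ℓ/(T - log 4) ≤ 3/50 + 3/5 ℓ`
(`exp_dec`, `2 + Θ ≤ 2 + T + 1/50`; `(3/10) (2+T+1/50) ≤ (3/5)(T - 1.3863)` as `T ≥ 4.98`).
If `ℓ ≤ 0` then `u ≥ 1/2` and `6/5 (2+Θ) η ≤ 3/5 (2+T+1/50) exp (-T) ≤ 3/100 ≤ 3/50 u`. -/
theorem heavy_pos {e T u : ℝ} (he : 0 < e) (hT : 5 ≤ T) (hTe : T - 1 / 50 ≤ -log (2 * e))
    (hu : 4 * e ≤ u) (hl : 2 * u ≤ 1) :
    u * (94 / 100 + 2 / 5 * -log (2 * u)) ≤ u * (1 - log (2 * u)) - 6 / 5 * e * (2 + T) := by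
  have hu0 : 0 < u := by linarith
  obtain ⟨l, hldef⟩ : ∃ l : ℝ, l = -log (2 * u) := ⟨_, rfl⟩
  obtain ⟨S, hS⟩ : ∃ S : ℝ, S = -log (2 * e) := ⟨_, rfl⟩
  have hl0 : 0 ≤ l := by
    rw [hldef]
    have := Real.log_nonpos (by positivity : (0 : ℝ) ≤ 2 * u) hl
    linarith
  have hS5 : 5 - 1 / 50 ≤ S := by linarith
  have hlog4 : log 4 ≤ 1.3863 := by
    have h1 : log (4 : ℝ) = 2 * log 2 := by
      rw [show (4 : ℝ) = 2 ^ 2 by norm_num, Real.log_pow]
      norm_num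
    have := Real.log_two_lt_d9
    rw [h1]
    linarith
  have hlog40 : 0 < log (4 : ℝ) := Real.log_pos (by norm_num)
  obtain ⟨R, hR⟩ : ∃ R : ℝ, R = S - log 4 := ⟨_, rfl⟩
  have hR0 : 0 < R := by linarith
  -- `l ≤ R`
  have hlR : l ≤ R := by
    have h1 : log (4 * (2 * e)) ≤ log (2 * u) := Real.log_le_log (by positivity) (by linarith)
    rw [Real.log_mul (by norm_num) (by positivity)] at h1
    linarith
  -- `e = exp (-S)/2`, `u = exp (-l)/2`
  have hee : 2 * e = exp (-S) := by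
    rw [hS, neg_neg, Real.exp_log (by positivity)]
  have huu : 2 * u = exp (-l) := by
    rw [hldef, neg_neg, Real.exp_log (by positivity)]
  -- the chord
  have hchord : exp (l - S) ≤ exp (-S) + l / R * (1 / 4) := by
    have hconv := convexOn_exp
    have h1 : (0 : ℝ) ≤ 1 - l / R := by
      rw [sub_nonneg, div_le_one hR0]
      exact hlR
    have h2 : (0 : ℝ) ≤ l / R := by positivity
    have h3 := hconv.2 (Set.mem_univ (-S)) (Set.mem_univ (R - S)) h1 h2 (by ring)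
    simp only [smul_eq_mul] at h3
    have h4 : (1 - l / R) * -S + l / R * (R - S) = l - S := by
      field_simp
      ring
    rw [h4] at h3
    have h5 : exp (R - S) = 1 / 4 := by
      rw [hR, show S - log 4 - S = -log 4 by ring, Real.exp_neg, Real.exp_log (by norm_num)]
      norm_num
    rw [h5] at h3
    have h6 : (1 - l / R) * exp (-S) ≤ exp (-S) := by
      have := Real.exp_pos (-S)
      nlinarith
    linarith
  have heu : e = u * exp (l - S) := by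
    have h1 : exp (l - S) = exp (-S) / exp (-l) := by
      rw [← Real.exp_sub]
      ring_nf
    rw [h1, ← hee, ← huu]
    field_simp
  have hdec := exp_dec hS5
  have hRS : R ≥ S - 1.3863 := by linarith
  -- main estimate
  have hmain : 6 / 5 * exp (l - S) * (2 + T) ≤ 6 / 100 + 3 / 5 * l := by
    have h0 : (0 : ℝ) < exp (l - S) := Real.exp_pos _
    have h1 : 6 / 5 * exp (l - S) * (2 + T) ≤ 6 / 5 * exp (l - S) * (2 + S + 1 / 50) := by
      apply mul_le_mul_of_nonneg_left _ (by positivity)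
      linarith
    have hpos : 0 < 2 + S + 1 / 50 := by linarith
    have h2 : 6 / 5 * exp (l - S) * (2 + S + 1 / 50)
        ≤ 6 / 5 * (exp (-S) + l / R * (1 / 4)) * (2 + S + 1 / 50) := by
      apply mul_le_mul_of_nonneg_right _ hpos.le
      linarith
    have h3 : l / R * (1 / 4) * (2 + S + 1 / 50) ≤ l / 2 := by
      rw [div_mul_eq_mul_div, div_mul_eq_mul_div, div_le_iff₀ hR0]
      have : 1 / 4 * (2 + S + 1 / 50) ≤ 1 / 2 * R := by linarith
      nlinarith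
    nlinarith
  have hfin : 6 / 5 * e * (2 + T) ≤ u * (6 / 100 + 3 / 5 * l) := by
    have h1 := mul_le_mul_of_nonneg_left hmain hu0.le
    have h2 : u * (6 / 5 * exp (l - S) * (2 + T)) = 6 / 5 * e * (2 + T) := by
      rw [heu]
      ring
    linarith
  rw [show log (2 * u) = -l by rw [hldef]; ring]
  nlinarith

theorem heavy_neg {e T u : ℝ} (he : 0 < e) (hT : 5 ≤ T) (hTe : T - 1 / 50 ≤ -log (2 * e))
    (hl : 1 ≤ 2 * u) :
    u * (94 / 100 - log (2 * u)) ≤ u * (1 - log (2 * u)) - 6 / 5 * e * (2 + T) := by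
  obtain ⟨S, hS⟩ : ∃ S : ℝ, S = -log (2 * e) := ⟨_, rfl⟩
  have hS5 : 5 - 1 / 50 ≤ S := by linarith
  have hee : 2 * e = exp (-S) := by
    rw [hS, neg_neg, Real.exp_log (by positivity)]
  have hdec := exp_dec hS5
  have h1 : e * (2 + T) ≤ 1 / 40 := by
    have h2 : e * (2 + T) ≤ e * (2 + S + 1 / 50) :=
      mul_le_mul_of_nonneg_left (by linarith) he.le
    have h3 : e * (2 + S + 1 / 50) = (2 + S + 1 / 50) * exp (-S) / 2 := by
      rw [← hee]
      ring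
    linarith
  nlinarith

end Pool.Agent.RieszSq
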