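import Pool.Agent.RieszSq.LightB
import Pool.Agent.RieszSq.KcVal

set_option autoImplicit false

open Real Finset

namespace Pool.Agent.RieszSq

section

variable {ι : Type*} [Fintype ι] [DecidableEq ι]
variable {n : ℕ} {q a g w k B t x U V : ℝ} {HP HQ L : Finset ι} {wt th : ι → ℝ}

/-- MODULE Q19a. `U = 1 + j - c - m`, `V = 1 + j - c + m` (`eU`, `eV`); `j = η (|HP| + |HQ| - 4)`
(`|HP| + |HQ| + |L| = n + 4`); `0 ≤ j ≤ ν`; `U, V ≤ 1 + ν`. -/
theorem UV_eq (h : Par n q a g w k B t x) (hc : Cf n B x HP HQ L wt th U V) :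
    U = 1 + (jj n B x L - cc B x L th) - mm B x L th ∧
    V = 1 + (jj n B x L - cc B x L th) + mm B x L th ∧
    jj n B x L = eta B x * (((HP.card : ℝ) - 2) + ((HQ.card : ℝ) - 2)) ∧
    U ≤ 1 + nu n B x ∧ V ≤ 1 + nu n B x := by
  have hB := h.B0
  have hx := h.x0
  have heta : 0 < eta B x := by unfold eta; positivity
  have hSe : 0 ≤ Se L th := Finset.sum_nonneg fun z _ => (exp_pos _).le
  have hSf : 0 ≤ Sf L th := Finset.sum_nonneg fun z _ => (exp_pos _).le
  have hU := hc.eU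
  have hV := hc.eV
  have h1 : 0 ≤ eta B x * Se L th := mul_nonneg heta.le hSe
  have h2 : 0 ≤ eta B x * Sf L th := mul_nonneg heta.le hSf
  refine ⟨?_, ?_, ?_, by linarith, by linarith⟩
  · unfold jj cc mm
    linarith
  · unfold jj cc mm
    linarith
  · have h3 : Disjoint (HP ∪ HQ) L := by
      rw [Finset.disjoint_union_left]
      exact ⟨hc.dPL, hc.dQL⟩
    have h4 : HP.card + HQ.card + L.card = n + 4 := by
      rw [← Finset.card_union_of_disjoint hc.dPQ, ← Finset.card_union_of_disjoint h3, hc.un,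
        Finset.card_univ, hc.card]
    have h5 : (HP.card : ℝ) + HQ.card + L.card = n + 4 := by exact_mod_cast h4
    unfold jj nu
    have h6 : (L.card : ℝ) = n + 4 - HP.card - HQ.card := by linarith
    rw [h6]
    ring

/-- MODULE Q19b (`φ` is close to 1). `-1 ≤ V - 1 ≤ ν`, `a ≤ 1/100` and
`a ν = w ≤ 1/100` (`hw`), so `|a (V - 1)| ≤ 1/100`; the other two terms are
`≤ ep` and `≤ 1.01 ep (2 p) 4 p` in absolute value (`del_bd`, `e2 ≤ ep`, `|V-U| ≤ 1+ν ≤ p`,
`U ≥ 1/(4p)`), and `ep p² ≤ 10^(-9)`. -/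
theorem ph_bd (h : Est n q a g w k B t x) (hU0 : 1 / (4 * (q + 1)) ≤ U) (hV0 : 0 < V)
    (hU : U ≤ 1 + nu n B x) (hV : V ≤ 1 + nu n B x) (hw : w = nu n B x * a) :
    |ph n q a w B t x U V - 1| ≤ 1 / 50 := by
  have hp := h.par
  have hB := hp.B0
  have hx := hp.x0
  have ha := hp.a0
  have hw0 := hp.w0
  have ha1 := h.a1
  have hw1 := h.w1
  have hq := h.q2000
  have hnu : 0 ≤ nu n B x := by unfold nu eta; positivity
  obtain ⟨hd0, hd1, -, -⟩ := hp.del_bd
  obtain ⟨he0, he1⟩ := hp.ep_pos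
  have hU1 : 0 < U := lt_of_lt_of_le (by positivity) hU0
  have he2 : 0 < e2 q ∧ e2 q ≤ ep q := by
    unfold e2
    refine ⟨by positivity, ?_⟩
    rw [div_le_iff₀ (by linarith)]
    nlinarith
  have hs := h.nuq
  have htiny := h.tiny
  -- `ep p² ≤ 10^(-9)`
  have hp1 : (1 : ℝ) ≤ q + 1 := by linarith
  have hep : ep q * (q + 1) ^ 2 ≤ 1 / 10 ^ 9 := by
    refine le_trans ?_ htiny
    exact mul_le_mul_of_nonneg_left (pow_le_pow_right₀ hp1 (by norm_num)) he0.le
  have hep0 : ep q ≤ 1 / 10 ^ 9 := by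
    refine le_trans ?_ hep
    have : (1 : ℝ) ≤ (q + 1) ^ 2 := one_le_pow₀ hp1
    nlinarith
  -- first term
  have t1 : |a * (V - 1)| ≤ 1 / 100 := by
    rw [abs_le]
    constructor
    · nlinarith
    · have : a * (V - 1) ≤ a * nu n B x := mul_le_mul_of_nonneg_left (by linarith) ha.le
      nlinarith
  -- second term
  have t2 : |e2 q * (1 - w) * V / (1 + nu n B x)| ≤ 1 / 10 ^ 9 := by
    have h1 : 0 ≤ e2 q * (1 - w) * V / (1 + nu n B x) := by
      have : 0 ≤ 1 - w := by linarith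
      have := he2.1
      positivity
    rw [abs_of_nonneg h1, div_le_iff₀ (by linarith)]
    have h2 : e2 q * (1 - w) ≤ 1 / 10 ^ 9 := by nlinarith [he2.1, he2.2]
    have h3 : 0 ≤ e2 q * (1 - w) := mul_nonneg he2.1.le (by linarith)
    calc e2 q * (1 - w) * V ≤ e2 q * (1 - w) * (1 + nu n B x) :=
          mul_le_mul_of_nonneg_left hV h3
      _ ≤ 1 / 10 ^ 9 * (1 + nu n B x) := mul_le_mul_of_nonneg_right h2 (by linarith)
  -- third term
  have t3 : |(1 + a) * del B t * (V - U) / U| ≤ 5 / 10 ^ 9 := by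
    rw [abs_div, abs_of_pos hU1, div_le_iff₀ hU1, abs_mul, abs_mul, abs_of_pos hd0,
      abs_of_pos (by linarith : 0 < 1 + a)]
    have h1 : |V - U| ≤ q + 1 := by
      rw [abs_le]
      constructor <;> linarith
    have h2 : (1 + a) * del B t ≤ 101 / 100 * ep q := by
      have : del B t ≤ ep q := hd1.trans he2.2
      calc (1 + a) * del B t ≤ 101 / 100 * del B t := mul_le_mul_of_nonneg_right (by linarith) hd0.le
        _ ≤ 101 / 100 * ep q := by linarith
    have h3 : (1 + a) * del B t * |V - U| ≤ 101 / 100 * ep q * (q + 1) :=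
      mul_le_mul h2 h1 (abs_nonneg _) (by positivity)
    refine h3.trans ?_
    have h4 : 5 / 10 ^ 9 * (1 / (4 * (q + 1))) ≤ 5 / 10 ^ 9 * U :=
      mul_le_mul_of_nonneg_left hU0 (by norm_num)
    refine le_trans ?_ h4
    rw [mul_one_div, le_div_iff₀ (by linarith)]
    calc 101 / 100 * ep q * (q + 1) * (4 * (q + 1)) = 404 / 100 * (ep q * (q + 1) ^ 2) := by ring
      _ ≤ 404 / 100 * (1 / 10 ^ 9) := by linarith
      _ ≤ 5 / 10 ^ 9 := by norm_num
  have e : ph n q a w B t x U V - 1 = -(a * (V - 1)) - e2 q * (1 - w) * V / (1 + nu n B x)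
      + (1 + a) * del B t * (V - U) / U := by
    unfold ph
    ring
  rw [e]
  have b1 := abs_le.1 t1
  have b2 := abs_le.1 t2
  have b3 := abs_le.1 t3
  rw [abs_le]
  constructor
  · linarith [b1.2, b2.2, b3.1]
  · linarith [b1.1, b2.1, b3.2]

end

end Pool.Agent.RieszSq
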