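import Pool.Agent.RieszSq.FinA1

set_option autoImplicit false

open Real Finset

namespace Pool.Agent.RieszSq

section

variable {ι : Type*} [Fintype ι] [DecidableEq ι]
variable {n : ℕ} {q a g w k B t x U V : ℝ} {HP HQ L : Finset ι} {wt th : ι → ℝ}

namespace FinA2Aux

theorem ep_pos' (q : ℝ) : 0 < ep q := by
  unfold ep
  positivity

theorem ep_le {n : ℕ} {q a g w k B t x : ℝ} (h : Est n q a g w k B t x) :
    ep q * (q + 1) ≤ 1 / 10 ^ 9 ∧ ep q ≤ 1 / 10 ^ 9 := by
  have h1 := h.tiny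
  have h2 := ep_pos' q
  have h3 : (1 : ℝ) ≤ q + 1 := by linarith [h.q2000]
  have h4 : (q + 1) ≤ (q + 1) ^ 8 := by
    calc q + 1 = (q + 1) ^ 1 := (pow_one _).symm
      _ ≤ (q + 1) ^ 8 := pow_le_pow_right₀ h3 (by norm_num)
  have h5 : ep q * (q + 1) ≤ ep q * (q + 1) ^ 8 := mul_le_mul_of_nonneg_left h4 h2.le
  have h6 : ep q ≤ ep q * (q + 1) := le_mul_of_one_le_right h2.le h3
  exact ⟨h5.trans h1, (h6.trans h5).trans h1⟩

theorem e2_bd (q : ℝ) : 0 < e2 q ∧ e2 q ≤ ep q := by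
  have h2 := ep_pos' q
  unfold e2
  refine ⟨by positivity, ?_⟩
  rw [div_le_iff₀ (by positivity)]
  nlinarith

theorem nu_nonneg {n : ℕ} {q a g w k B t x : ℝ} (h : Par n q a g w k B t x) :
    0 ≤ nu n B x := by
  have h1 := h.B0
  have h2 := h.x0
  unfold nu eta
  positivity

end FinA2Aux

open FinA2Aux in
/-- MODULE Q19c (first order terms). `z = j - c`, `U = 1 + z - m`, `V = 1 + z + m`;
`φ_P = 1 - a (V-1) + ρ_P`, `ρ_P = -e2 (1-w) V/(1+ν) + (1+a) δ (V-U)/U`, and
`-(U-1) φ_P - (V-1) φ_Q = -2 z + 2 a (z² - m²) + e2 (1-w)/(1+ν) (2 z + 2 z² - 2 m²)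
 + (1+a) δ (V-U)²/(U V)` (the last term is `≥ 0`); `z ≥ -c`; `0 < e2 ≤ ep ≤ 10^(-9)`. -/
theorem first_order (h : Est n q a g w k B t x) {c j m : ℝ} (hc0 : 0 ≤ c) (hj0 : 0 ≤ j)
    (hU : U = 1 + (j - c) - m) (hV : V = 1 + (j - c) + m)
    (hU0 : 1 / (4 * (q + 1)) ≤ U) (hV0 : 1 / (4 * (q + 1)) ≤ V) :
    -2 * (j - c) - 1 / 40 * m ^ 2 - 1 / 1000 * (j - c) ^ 2 - 1 / 1000 * c
      ≤ -(U - 1) * ph n q a w B t x U V - (V - 1) * ph n q a w B t x V U := by
  have hq : 0 < 1 / (4 * (q + 1)) := by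
    have := h.q2000
    positivity
  have hUp : 0 < U := hq.trans_le hU0
  have hVp : 0 < V := hq.trans_le hV0
  obtain ⟨hd0, hd1, -, -⟩ := h.par.del_bd
  have ha0 := h.par.a0
  have hw0 := h.par.w0
  have hw1 := h.par.w1
  have hnu := nu_nonneg h.par
  obtain ⟨he0, he1⟩ := e2_bd q
  obtain ⟨-, hep⟩ := ep_le h
  obtain ⟨E, hE⟩ : ∃ E : ℝ, E = e2 q * (1 - w) / (1 + nu n B x) := ⟨_, rfl⟩
  have hE0 : 0 ≤ E := by
    rw [hE]
    have : 0 ≤ 1 - w := by linarith
    positivity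
  have hE1 : E ≤ 1 / 10 ^ 9 := by
    rw [hE]
    have h1 : e2 q * (1 - w) ≤ e2 q := by nlinarith
    have h2 : e2 q * (1 - w) / (1 + nu n B x) ≤ e2 q * (1 - w) := by
      apply div_le_self
      · have : 0 ≤ 1 - w := by linarith
        positivity
      · linarith
    linarith
  obtain ⟨z, hz⟩ : ∃ z : ℝ, z = j - c := ⟨_, rfl⟩
  rw [← hz] at hU hV ⊢
  have hzc : -c ≤ z := by linarith
  have key : -(U - 1) * ph n q a w B t x U V - (V - 1) * ph n q a w B t x V U
      = -2 * z + 2 * a * (z ^ 2 - m ^ 2) + E * (2 * z + 2 * z ^ 2 - 2 * m ^ 2)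
        + (1 + a) * del B t * ((V - U) ^ 2 / (U * V)) := by
    have e1 : ph n q a w B t x U V = 1 - a * (V - 1) - E * V
        + (1 + a) * del B t * ((V - U) / U) := by
      rw [hE]
      unfold ph
      ring
    have e2 : ph n q a w B t x V U = 1 - a * (U - 1) - E * U
        + (1 + a) * del B t * ((U - V) / V) := by
      rw [hE]
      unfold ph
      ring
    have e3 : (V - U) ^ 2 / (U * V) = -(U - 1) * ((V - U) / U) - (V - 1) * ((U - V) / V) := by
      field_simp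
      ring
    rw [e1, e2, e3]
    have e4 : U - 1 = z - m := by linarith
    have e5 : V - 1 = z + m := by linarith
    have e6 : (U - 1) * (V - 1) = z ^ 2 - m ^ 2 := by
      rw [e4, e5]
      ring
    have e7 : (U - 1) * V + (V - 1) * U = 2 * z + 2 * z ^ 2 - 2 * m ^ 2 := by
      rw [hU, hV]
      ring
    rw [← e6, ← e7]
    have e8 : -2 * z = -(U - 1) - (V - 1) := by
      rw [e4, e5]
      ring
    rw [e8]
    ring
  rw [key]
  have hlast : 0 ≤ (1 + a) * del B t * ((V - U) ^ 2 / (U * V)) := by positivity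
  have h1 : -(1 / 50) * m ^ 2 ≤ 2 * a * (z ^ 2 - m ^ 2) := by
    have := h.a1
    nlinarith [sq_nonneg z, sq_nonneg m]
  have h2 : -(1 / 1000) * c - 1 / 1000 * m ^ 2 ≤ E * (2 * z + 2 * z ^ 2 - 2 * m ^ 2) := by
    have hm := sq_nonneg m
    have hz2 := sq_nonneg z
    have h3 : E * (-(2 * c) - 2 * m ^ 2) ≤ E * (2 * z + 2 * z ^ 2 - 2 * m ^ 2) :=
      mul_le_mul_of_nonneg_left (by linarith) hE0
    have h4 : E * (2 * c) ≤ 1 / 1000 * c := by nlinarith
    have h5 : E * (2 * m ^ 2) ≤ 1 / 1000 * m ^ 2 := by nlinarith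
    linarith
  have hm := sq_nonneg m
  have hz2 := sq_nonneg z
  linarith

open FinA2Aux in
/-- MODULE Q19d. `|log V - log U| ≤ |V - U|/min U V ≤ 2 |m| · 4 p`, `δ ≤ ep`. -/
theorem del_log (h : Est n q a g w k B t x) {z m : ℝ}
    (hU : U = 1 + z - m) (hV : V = 1 + z + m)
    (hU0 : 1 / (4 * (q + 1)) ≤ U) (hV0 : 1 / (4 * (q + 1)) ≤ V) :
    (1 + a) * del B t * (V - U) * (log V - log U) ≤ 1 / 1000 * m ^ 2 := by
  have hq1 : 0 < q + 1 := by linarith [h.q2000]
  have hq : 0 < 1 / (4 * (q + 1)) := by positivity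
  have hUp : 0 < U := hq.trans_le hU0
  have hVp : 0 < V := hq.trans_le hV0
  obtain ⟨hd0, hd1, -, -⟩ := h.par.del_bd
  obtain ⟨-, he1⟩ := e2_bd q
  obtain ⟨hep, -⟩ := ep_le h
  have ha0 := h.par.a0
  have ha1 := h.a1
  have hVU : V - U = 2 * m := by rw [hU, hV]; ring
  have main : (V - U) * (log V - log U) ≤ (V - U) ^ 2 * (4 * (q + 1)) := by
    have aux : ∀ X Y : ℝ, 0 < X → 1 / (4 * (q + 1)) ≤ X → X ≤ Y →
        (Y - X) * (log Y - log X) ≤ (Y - X) ^ 2 * (4 * (q + 1)) := by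
      intro X Y hX hX0 hXY
      have hY : 0 < Y := hX.trans_le hXY
      have h1 : log Y - log X ≤ (Y - X) / X := by
        rw [← Real.log_div hY.ne' hX.ne']
        have h2 := Real.log_le_sub_one_of_pos (div_pos hY hX)
        have h3 : Y / X - 1 = (Y - X) / X := by field_simp
        linarith
      have h4 : 1 / X ≤ 4 * (q + 1) := by
        rw [div_le_iff₀ hX]
        rw [div_le_iff₀ (by positivity)] at hX0
        linarith
      have h5 : (Y - X) / X ≤ (Y - X) * (4 * (q + 1)) := by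
        rw [div_eq_mul_one_div]
        exact mul_le_mul_of_nonneg_left h4 (by linarith)
      have h6 := mul_le_mul_of_nonneg_left (h1.trans h5) (by linarith : 0 ≤ Y - X)
      linarith
    rcases le_total U V with h1 | h1
    · exact aux U V hUp hU0 h1
    · have := aux V U hVp hV0 h1
      have e1 : (V - U) * (log V - log U) = (U - V) * (log U - log V) := by ring
      have e2 : (V - U) ^ 2 = (U - V) ^ 2 := by ring
      rw [e1, e2]
      exact this
  have hdel : del B t * (q + 1) ≤ 1 / 10 ^ 9 := by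
    have := mul_le_mul_of_nonneg_right (hd1.trans he1) hq1.le
    linarith
  have hc : 0 ≤ (1 + a) * del B t := by positivity
  calc (1 + a) * del B t * (V - U) * (log V - log U)
      = (1 + a) * del B t * ((V - U) * (log V - log U)) := by ring
    _ ≤ (1 + a) * del B t * ((V - U) ^ 2 * (4 * (q + 1))) :=
        mul_le_mul_of_nonneg_left main hc
    _ = (1 + a) * (16 * (del B t * (q + 1))) * m ^ 2 := by rw [hVU]; ring
    _ ≤ 1 / 1000 * m ^ 2 := by
        apply mul_le_mul_of_nonneg_right _ (sq_nonneg m)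
        have h7 : 0 ≤ del B t * (q + 1) := by positivity
        nlinarith

end

end Pool.Agent.RieszSq
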