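import Pool.Agent.RieszSq.FinA2

set_option autoImplicit false

open Real Finset

namespace Pool.Agent.RieszSq

section

variable {ι : Type*} [Fintype ι] [DecidableEq ι]
variable {n : ℕ} {q a g w k B t x U V : ℝ} {HP HQ L : Finset ι} {wt th : ι → ℝ}

namespace FinA3Aux

omit [Fintype ι] [DecidableEq ι] in
lemma nu_nonneg (h : Par n q a g w k B t x) : 0 ≤ nu n B x := by
  have h1 := h.B0
  have h2 := h.x0
  unfold nu eta
  positivity

lemma first {p U V w1 w2 μ : ℝ} (hp0 : 0 < p) (hU0 : 1 / (4 * p) ≤ U) (hU : 0 < U) (hV : 0 < V)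
    (hT0 : 0 ≤ U - U * w1 - U * w2) (hTU : U - U * w1 - U * w2 ≤ U) (hw21 : w2 ≤ w1)
    (hX : U * w1 - U * w2 ≤ 51 / 50 * (U - U * w1 - U * w2) + 21 / 5 * μ) :
    U * V * (1 - 4 * (w1 * w2)) ≤ V * (41 / 10 * (U - U * w1 - U * w2) + 144 * p * μ ^ 2) := by
  set T := U - U * w1 - U * w2 with hT
  set D := U * w1 - U * w2 with hD
  have hD0 : 0 ≤ D := by
    have := mul_le_mul_of_nonneg_left hw21 hU.le
    linarith
  have hD2 : D ^ 2 ≤ 21 / 10 * T ^ 2 + 36 * μ ^ 2 := by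
    have h3 : D ^ 2 ≤ (51 / 50 * T + 21 / 5 * μ) ^ 2 := pow_le_pow_left₀ hD0 hX 2
    nlinarith [sq_nonneg (51 / 50 * T - 21 / 5 * μ), sq_nonneg T, sq_nonneg μ]
  have hT2 : T ^ 2 ≤ U * T := by nlinarith
  have e1 : U ^ 2 * (1 - 4 * (w1 * w2)) = T * (2 * U - T) + D ^ 2 := by
    rw [hT, hD]; ring
  have h4 : U ^ 2 * (1 - 4 * (w1 * w2)) ≤ 41 / 10 * (U * T) + 36 * μ ^ 2 := by
    rw [e1]
    nlinarith [sq_nonneg T]
  have h5 : 1 ≤ 4 * p * U := by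
    rw [div_le_iff₀ (by positivity)] at hU0
    linarith
  have h6 : 36 * μ ^ 2 ≤ U * (144 * p * μ ^ 2) := by
    have := mul_le_mul_of_nonneg_left h5 (show 0 ≤ 36 * μ ^ 2 by positivity)
    linarith
  have h7 : U * (U * (1 - 4 * (w1 * w2))) ≤ U * (41 / 10 * T + 144 * p * μ ^ 2) := by
    linarith
  have h8 : U * (1 - 4 * (w1 * w2)) ≤ 41 / 10 * T + 144 * p * μ ^ 2 := le_of_mul_le_mul_left h7 hU
  have := mul_le_mul_of_nonneg_left h8 hV.le
  linarith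

lemma second {p U V c j m : ℝ} (hc0 : 0 ≤ c) (hj0 : 0 ≤ j) (hU : U = 1 + (j - c) - m)
    (hV : V = 1 + (j - c) + m) (hU0 : 0 < U) (hV0 : 0 < V) (hjp : 1 + j ≤ p) (hp : 2001 ≤ p) :
    U * V - 1 ≤ 3 * p * j := by
  have hz : 0 < 1 + (j - c) := by linarith
  have e1 : U * V - 1 ≤ (1 + (j - c)) ^ 2 - 1 := by
    rw [hU, hV]; nlinarith [sq_nonneg m]
  have e2 : (1 + (j - c)) ^ 2 ≤ (1 + j) ^ 2 := pow_le_pow_left₀ hz.le (by linarith) 2
  have e3 : (1 + j) ^ 2 - 1 = (2 + j) * j := by ring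
  have e4 : (2 + j) * j ≤ (3 * p) * j := mul_le_mul_of_nonneg_right (by linarith) hj0
  linarith

lemma final {p e j μ : ℝ} (hp : 2001 ≤ p) (he : 0 ≤ e) (ht : e * p ^ 8 ≤ 1 / 10 ^ 9)
    (hj : 0 ≤ j) :
    e * p / 2 * (p * (41 / 10 * (2 * p ^ 2 * j) + 144 * p * μ ^ 2) + 3 * p ^ 2 * j)
      ≤ 1 / 1000 * j + 1 / 1000 * μ ^ 2 := by
  have h4 : e * p ^ 4 ≤ 1 / 10 ^ 9 := by
    refine le_trans ?_ ht
    exact mul_le_mul_of_nonneg_left (pow_le_pow_right₀ (by linarith) (by norm_num)) he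
  have h3 : e * p ^ 3 ≤ 1 / 10 ^ 9 := by
    refine le_trans ?_ ht
    exact mul_le_mul_of_nonneg_left (pow_le_pow_right₀ (by linarith) (by norm_num)) he
  have e1 : e * p / 2 * (p * (41 / 10 * (2 * p ^ 2 * j) + 144 * p * μ ^ 2) + 3 * p ^ 2 * j)
      = (41 / 10 * (e * p ^ 4) + 3 / 2 * (e * p ^ 3)) * j + 72 * (e * p ^ 3) * μ ^ 2 := by ring
  rw [e1]
  have h5 : (41 / 10 * (e * p ^ 4) + 3 / 2 * (e * p ^ 3)) * j ≤ 1 / 1000 * j :=
    mul_le_mul_of_nonneg_right (by linarith) hj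
  have h6 : 72 * (e * p ^ 3) * μ ^ 2 ≤ 1 / 1000 * μ ^ 2 :=
    mul_le_mul_of_nonneg_right (by linarith) (sq_nonneg μ)
  linarith

lemma assemble {K Z M R N : ℝ} (hK : 0 ≤ K) (hZ : -M ≤ Z) (hKM : K * M ≤ R) (hR : 0 ≤ R)
    (hN : 1 ≤ N) : -R ≤ K * Z / N := by
  rw [le_div_iff₀ (by linarith)]
  have h7 := mul_le_mul_of_nonneg_left hZ hK
  have h9 := mul_le_mul_of_nonneg_left hN hR
  linarith

lemma e2_pos (q : ℝ) : 0 < e2 q := by
  have : 0 < ep q := by unfold ep; positivity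
  unfold e2; positivity

lemma e2_le (q : ℝ) : e2 q ≤ ep q := by
  have : 0 < ep q := by unfold ep; positivity
  unfold e2
  rw [div_le_iff₀ (by linarith)]
  nlinarith

lemma coef {e e' p w : ℝ} (he : e ≤ e') (he0 : 0 ≤ e) (hp : 0 < p) (hw0 : 0 < w)
    (hw1 : w ≤ 1 / 100) : e * (p * (1 - w) / 2) ≤ e' * p / 2 ∧ 0 ≤ e * (p * (1 - w) / 2) := by
  have h1 : 0 ≤ 1 - w := by linarith
  refine ⟨?_, by positivity⟩
  have h3 : e * (p * (1 - w) / 2) ≤ e' * (p * (1 - w) / 2) :=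
    mul_le_mul_of_nonneg_right he (by positivity)
  have h4 : e' * (p * (1 - w) / 2) ≤ e' * (p / 2) :=
    mul_le_mul_of_nonneg_left (by nlinarith) (he0.trans he)
  linarith

lemma four_le {w1 w2 : ℝ} (h1 : 0 < w1) (h2 : 0 < w2) (h12 : w1 + w2 ≤ 1) :
    4 * (w1 * w2) ≤ 1 := by nlinarith [sq_nonneg (w1 - w2)]

lemma T_bd {U w1 w2 : ℝ} (hU : 0 < U) (h1 : 0 < w1) (h2 : 0 < w2) (h12 : w1 + w2 ≤ 1) :
    0 ≤ U - U * w1 - U * w2 ∧ U - U * w1 - U * w2 ≤ U := by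
  constructor
  · have : U - U * w1 - U * w2 = U * (1 - (w1 + w2)) := by ring
    rw [this]
    exact mul_nonneg hU.le (by linarith)
  · have e1 := mul_pos hU h1
    have e2 := mul_pos hU h2
    linarith

end FinA3Aux

/-- MODULE Q19e (the terms of size `2^(-p)` from the heavy points of the same side; one side).
`X = 4 w1 w2 ≤ 1` (`w1 + w2 ≤ 1`). `pow_low` with `Y = U V`:
`(4 U V w1 w2)^(q/p) - U V ≥ -U V (1 - X) - U V max (U V - 1) 0/p`. Put `u1 = U w1`, `u2 = U w2`,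
`T = U - u1 - u2 ≥ 0`: `U² (1 - X) = (U - u1 - u2)(U + u1 + u2) + (u1-u2)² ≤ 2 U T + (u1-u2)²`, and
`(u1 - u2)² ≤ (51/50 T + 21/5 μ)² ≤ 2.1 T² + 36 μ²`, so (`T ≤ U`, `1/U ≤ 4p`)
`U V (1 - X) ≤ V (4.1 T + 144 p μ²)`. Moreover `T ≤ U ≤ p` and `T = 0` unless `j ≥ η ≥ 1/(2p)`, so
`T ≤ 2 p² j`; `V ≤ p`; `max (U V - 1) 0 ≤ 2 j + j² ≤ 3 p j` (`U V = (1+z)² - m²`, `z ≤ j ≤ ν`).
Everything is multiplied by `e2 p/2 ≤ ep p/2` and `ep p^8 ≤ 10^(-9)`. -/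
theorem tiny_side (h : Est n q a g w k B t x) {c j m w1 w2 μ : ℝ} (hc0 : 0 ≤ c) (hj0 : 0 ≤ j)
    (hjn : j ≤ nu n B x) (hU : U = 1 + (j - c) - m) (hV : V = 1 + (j - c) + m)
    (hU0 : 1 / (4 * (q + 1)) ≤ U) (hV0 : 0 < V)
    (hU1 : U ≤ 1 + nu n B x) (hV1 : V ≤ 1 + nu n B x) (h1 : 0 < w1) (h2 : 0 < w2)
    (h12 : w1 + w2 ≤ 1) (hT : w1 + w2 = 1 ∨ eta B x ≤ j) (hμ : 0 ≤ μ) (hw21 : w2 ≤ w1)
    (hX : U * w1 - U * w2 ≤ 51 / 50 * (U - U * w1 - U * w2) + 21 / 5 * μ) :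
    -(1 / 1000 * j) - 1 / 1000 * μ ^ 2
      ≤ e2 q * ((q + 1) * (1 - w) / 2) * ((4 * U * V * (w1 * w2)) ^ (q / (q + 1)) - U * V)
        / (1 + nu n B x) := by
  have hq := h.q2000
  have hw0 := h.par.w0
  have hw1 := h.w1
  have hν := FinA3Aux.nu_nonneg h.par
  have hνp := h.nuq
  have hetp := h.etp
  have htiny := h.tiny
  have hep0 : 0 < ep q := by unfold ep; positivity
  set p := q + 1 with hp
  have hp1 : 2001 ≤ p := by linarith
  have hp0 : 0 < p := by linarith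
  have hU0' : 0 < U := lt_of_lt_of_le (by positivity) hU0
  have hY : 0 < U * V := mul_pos hU0' hV0
  have hX0 : 0 < 4 * (w1 * w2) := by positivity
  have hX1 : 4 * (w1 * w2) ≤ 1 := FinA3Aux.four_le h1 h2 h12
  have hlow := pow_low (q := q) (by linarith) hY hX0 hX1
  rw [← hp] at hlow
  have e1 : U * V * (4 * (w1 * w2)) = 4 * U * V * (w1 * w2) := by ring
  rw [e1] at hlow
  -- the first part of the loss
  obtain ⟨hT0, hTU⟩ := FinA3Aux.T_bd hU0' h1 h2 h12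
  have hA : U * V * (1 - 4 * (w1 * w2))
      ≤ V * (41 / 10 * (U - U * w1 - U * w2) + 144 * p * μ ^ 2) :=
    FinA3Aux.first hp0 hU0 hU0' hV0 hT0 hTU hw21 hX
  have hTj : U - U * w1 - U * w2 ≤ 2 * p ^ 2 * j := by
    rcases hT with h3 | h3
    · have : U - U * w1 - U * w2 = 0 := by linear_combination (-U) * h3
      rw [this]; positivity
    · have h4 : 1 ≤ 2 * p * j := le_trans hetp (by
        have := mul_le_mul_of_nonneg_left h3 (show 0 ≤ 2 * p by positivity)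
        exact this)
      have h5 : p * 1 ≤ p * (2 * p * j) := mul_le_mul_of_nonneg_left h4 hp0.le
      have h6 : p * (2 * p * j) = 2 * p ^ 2 * j := by ring
      linarith only [h5, h6, hTU, hU1, hνp]
  have hVp : V ≤ p := hV1.trans hνp
  have hUp : U ≤ p := hU1.trans hνp
  have hA2 : U * V * (1 - 4 * (w1 * w2)) ≤ p * (41 / 10 * (2 * p ^ 2 * j) + 144 * p * μ ^ 2) := by
    refine hA.trans ?_
    refine mul_le_mul hVp ?_ ?_ hp0.le
    · have := mul_le_mul_of_nonneg_left hTj (show (0 : ℝ) ≤ 41 / 10 by norm_num)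
      exact add_le_add this le_rfl
    · positivity
  -- the second part
  have hYm : max (U * V - 1) 0 ≤ 3 * p * j := by
    refine max_le ?_ (by positivity)
    exact FinA3Aux.second hc0 hj0 hU hV hU0' hV0 (by linarith) hp1
  have hYp : U * V ≤ p ^ 2 := by
    have := mul_le_mul hUp hVp hV0.le hp0.le
    rw [sq]; exact this
  have hB : U * V * max (U * V - 1) 0 / p ≤ 3 * p ^ 2 * j := by
    rw [div_le_iff₀ hp0]
    have := mul_le_mul hYp hYm (le_max_right _ _) (by positivity)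
    rw [show p ^ 2 * (3 * p * j) = 3 * p ^ 2 * j * p by ring] at this
    exact this
  set Z := (4 * U * V * (w1 * w2)) ^ (q / p) - U * V with hZ
  set M := p * (41 / 10 * (2 * p ^ 2 * j) + 144 * p * μ ^ 2) + 3 * p ^ 2 * j with hM
  have hM0 : 0 ≤ M := by positivity
  have hZM : -M ≤ Z := by linarith only [hA2, hB, hlow, hM]
  obtain ⟨hKp, hK0⟩ := FinA3Aux.coef (FinA3Aux.e2_le q) (FinA3Aux.e2_pos q).le hp0 hw0 hw1
  have hKM : e2 q * (p * (1 - w) / 2) * M ≤ 1 / 1000 * j + 1 / 1000 * μ ^ 2 := by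
    refine (mul_le_mul_of_nonneg_right hKp hM0).trans ?_
    exact FinA3Aux.final hp1 hep0.le htiny hj0
  have h8 : 0 ≤ 1 / 1000 * j + 1 / 1000 * μ ^ 2 := by positivity
  have h9 := FinA3Aux.assemble hK0 hZM hKM h8 (show 1 ≤ 1 + nu n B x from by linarith only [hν])
  have h10 : -(1 / 1000 * j) - 1 / 1000 * μ ^ 2 = -(1 / 1000 * j + 1 / 1000 * μ ^ 2) := by ring
  rw [h10]
  exact h9

end

end Pool.Agent.RieszSq
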