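import Pool.Agent.RieszSq.Ent2
import Pool.Agent.RieszSq.SideS

set_option autoImplicit false

open Real Finset

namespace Pool.Agent.RieszSq

section

variable {ι : Type*} [DecidableEq ι]

/-- the two largest elements are split off -/
private theorem sideF_split {H : Finset ι} {p1 p2 : ι} (h1 : p1 ∈ H) (h2 : p2 ∈ H)
    (hne : p1 ≠ p2) (f : ι → ℝ) :
    ∑ z ∈ H, f z = f p1 + f p2 + ∑ z ∈ (H.erase p1).erase p2, f z := by
  have h3 : p2 ∈ H.erase p1 := Finset.mem_erase.2 ⟨fun h => hne h.symm, h2⟩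
  rw [← Finset.add_sum_erase H f h1, ← Finset.add_sum_erase (H.erase p1) f h3]
  ring

/-- the final combination -/
private theorem sideF_comb {H : Finset ι} {u : ι → ℝ} {p1 p2 : ι} {e T μ c : ℝ}
    (h1 : p1 ∈ H) (h2 : p2 ∈ H) (hne : p1 ≠ p2)
    (h21 : u p2 ≤ u p1) (hp : 0 < u p2)
    (ht : ∀ z ∈ (H.erase p1).erase p2,
      u z * c ≤ u z * (1 - log (2 * u z)) - 6 / 5 * e * (2 + T))
    (hs : (u p1 + u p2) * log (u p1 + u p2) + 1 - (u p1 + u p2)
        + (u p1 - u p2) ^ 2 / (u p1 + u p2)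
      ≤ (∑ z ∈ (H.erase p1).erase p2, u z) * c
        + 6 * (u p1 + u p2 + (∑ z ∈ (H.erase p1).erase p2, u z) - 1) ^ 2 + 60 * μ ^ 2) :
    -(∑ z ∈ H, u z - 1) + 6 / 5 * e * (2 + T) * ((H.card : ℝ) - 2)
        - 6 * (∑ z ∈ H, u z - 1) ^ 2 - 60 * μ ^ 2
      ≤ -∑ z ∈ H, u z * log (2 * u z) := by
  have h3 : p2 ∈ H.erase p1 := Finset.mem_erase.2 ⟨fun h => hne h.symm, h2⟩
  have hc : (H.card : ℝ) - 2 = (((H.erase p1).erase p2).card : ℝ) := by
    have c1 := Finset.card_erase_add_one h1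
    have c2 := Finset.card_erase_add_one h3
    have : ((H.erase p1).erase p2).card + 2 = H.card := by omega
    rw [← this]
    push_cast
    ring
  have hsum := Finset.sum_le_sum ht
  rw [← Finset.sum_mul, Finset.sum_sub_distrib, Finset.sum_const, nsmul_eq_mul] at hsum
  have he2 : ∑ z ∈ (H.erase p1).erase p2, u z * (1 - log (2 * u z))
      = ∑ z ∈ (H.erase p1).erase p2, u z
        - ∑ z ∈ (H.erase p1).erase p2, u z * log (2 * u z) := by
    rw [← Finset.sum_sub_distrib]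
    refine Finset.sum_congr rfl fun z _ => by ring
  rw [he2] at hsum
  have hent := ent_two hp h21
  rw [sideF_split h1 h2 hne u, sideF_split h1 h2 hne (fun z => u z * log (2 * u z)), hc]
  linarith

/-- MODULE Q17 (one side). `u_i = U ω_i` for `i ∈ H`; `p1, p2` the two largest, the others (heavy
tails) satisfy `4 η ≤ u_z ≤ u_{p2}`. `v = u1 + u2`, `X = u1 - u2`, `T = ∑ tails`, `b = v + T - 1`
`= U - 1`. `ent_two`: `u1 log (2u1) + u2 log (2u2) ≤ v log v + X²/v`.
If `2 u2 = v - X ≤ 1`: `heavy_pos` for every tail (`-log (2 u_z) ≥ -log (v - X)`), so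
`∑ u_z (1 - log (2 u_z)) ≥ 6/5 η (2+Θ) |tails| + T (94/100 + 2/5 (-log (v-X)))`, and `side`.
If `2 u2 ≥ 1`: every tail has (`heavy_pos` or `heavy_neg`)
`u_z (1 - log (2u_z)) - 6/5 η (2+Θ) ≥ u_z (94/100 - log (v-X))` (`log (v-X) ≥ 0`,
`log (2 u_z) ≤ log (v-X)`), and `side'`.
In total `-∑_H u log (2u) = -v log v… ≥ -b + 6/5 η (2+Θ) |tails| - 6 b² - 60 μ²`
(`T = b + 1 - v`). -/
theorem side_le {H : Finset ι} {u : ι → ℝ} {p1 p2 : ι} {e T μ : ℝ} (he : 0 < e) (hT : 5 ≤ T)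
    (hTe : T - 1 / 50 ≤ -log (2 * e)) (h1 : p1 ∈ H) (h2 : p2 ∈ H) (hne : p1 ≠ p2)
    (h21 : u p2 ≤ u p1) (hp : 0 < u p2)
    (hz : ∀ z ∈ H, z ≠ p1 → z ≠ p2 → 4 * e ≤ u z ∧ u z ≤ u p2) (hμ : 0 ≤ μ)
    (hX : u p1 - u p2 ≤ 51 / 50 * ∑ z ∈ (H.erase p1).erase p2, u z + 21 / 5 * μ) :
    -(∑ z ∈ H, u z - 1) + 6 / 5 * e * (2 + T) * ((H.card : ℝ) - 2)
        - 6 * (∑ z ∈ H, u z - 1) ^ 2 - 60 * μ ^ 2
      ≤ -∑ z ∈ H, u z * log (2 * u z) := by
  have hR : ∀ z ∈ (H.erase p1).erase p2, 4 * e ≤ u z ∧ u z ≤ u p2 := by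
    intro z hzR
    have h3 := Finset.mem_erase.1 hzR
    have h4 := Finset.mem_erase.1 h3.2
    exact hz z h4.2 h4.1 h3.1
  have hT0 : 0 ≤ ∑ z ∈ (H.erase p1).erase p2, u z :=
    Finset.sum_nonneg fun z hzR => by have := (hR z hzR).1; linarith
  have hvX : u p1 + u p2 - (u p1 - u p2) = 2 * u p2 := by ring
  rcases le_total (2 * u p2) 1 with hle | hge
  · refine sideF_comb (c := 94 / 100 + 2 / 5 * -log (2 * u p2)) h1 h2 hne h21 hp ?_ ?_
    · intro z hzR
      obtain ⟨h3, h4⟩ := hR z hzR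
      have hz0 : 0 < u z := by linarith
      have h5 := heavy_pos he hT hTe h3 (by linarith : 2 * u z ≤ 1)
      have h6 : log (2 * u z) ≤ log (2 * u p2) := Real.log_le_log (by linarith) (by linarith)
      have h7 : u z * (94 / 100 + 2 / 5 * -log (2 * u p2))
          ≤ u z * (94 / 100 + 2 / 5 * -log (2 * u z)) :=
        mul_le_mul_of_nonneg_left (by linarith) hz0.le
      exact h7.trans h5
    · have h5 := side (v := u p1 + u p2) (T := ∑ z ∈ (H.erase p1).erase p2, u z)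
        (X := u p1 - u p2) (μ := μ) (by linarith) hT0 (by linarith) (by linarith) hμ hX
        (by rw [hvX]; exact hle)
      rw [hvX] at h5
      exact h5
  · refine sideF_comb (c := 94 / 100 - log (2 * u p2)) h1 h2 hne h21 hp ?_ ?_
    · intro z hzR
      obtain ⟨h3, h4⟩ := hR z hzR
      have hz0 : 0 < u z := by linarith
      have h8 : 0 ≤ log (2 * u p2) := Real.log_nonneg hge
      rcases le_total (2 * u z) 1 with hzl | hzg
      · have h5 := heavy_pos he hT hTe h3 hzl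
        have h6 : log (2 * u z) ≤ 0 := Real.log_nonpos (by linarith) hzl
        have h7 : u z * (94 / 100 - log (2 * u p2))
            ≤ u z * (94 / 100 + 2 / 5 * -log (2 * u z)) :=
          mul_le_mul_of_nonneg_left (by linarith) hz0.le
        exact h7.trans h5
      · have h5 := heavy_neg he hT hTe hzg
        have h6 : log (2 * u z) ≤ log (2 * u p2) := Real.log_le_log (by linarith) (by linarith)
        have h7 : u z * (94 / 100 - log (2 * u p2)) ≤ u z * (94 / 100 - log (2 * u z)) :=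
          mul_le_mul_of_nonneg_left (by linarith) hz0.le
        exact h7.trans h5
    · have h5 := side' (v := u p1 + u p2) (T := ∑ z ∈ (H.erase p1).erase p2, u z)
        (X := u p1 - u p2) (μ := μ) hT0 (by linarith) (by rw [hvX]; exact hge)
      rw [hvX] at h5
      exact h5

end

end Pool.Agent.RieszSq
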