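import Pool.Agent.RieszSq.FinA
import Pool.Agent.RieszSq.SideF
import Pool.Agent.RieszSq.ParVal

set_option autoImplicit false

open Real Finset

namespace Pool.Agent.RieszSq

section

variable {ι : Type*} [Fintype ι] [DecidableEq ι]
variable {n : ℕ} {q a g w k B t x U V : ℝ} {HP HQ L : Finset ι} {wt th : ι → ℝ}

/-- The conditions on one side: `p1`, `p2` the two largest weights, the other heavy weights are
at least `4 η`, and the difference of the two largest is controlled by the tails. -/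
structure SideC (H : Finset ι) (wt : ι → ℝ) (U e μ : ℝ) (p1 p2 : ι) : Prop where
  m1 : p1 ∈ H
  m2 : p2 ∈ H
  ne : p1 ≠ p2
  le : wt p2 ≤ wt p1
  tail : ∀ z ∈ H, z ≠ p1 → z ≠ p2 → 4 * e ≤ U * wt z ∧ wt z ≤ wt p2
  X : U * wt p1 - U * wt p2 ≤ 51 / 50 * (U - U * wt p1 - U * wt p2) + 21 / 5 * μ

/-- MODULE Q20a. `side_le` for `u = U ω` (`∑_H u = U`, `∑_H u log (2u) = U (log U + hh H ω)`,
`∑_{tails} u = U - u1 - u2`). -/
theorem SideC.low {H : Finset ι} {wt : ι → ℝ} {U e μ T : ℝ} {p1 p2 : ι}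
    (h : SideC H wt U e μ p1 p2) (hU : 0 < U) (hw : ∀ i ∈ H, 0 < wt i) (hs : ∑ i ∈ H, wt i = 1)
    (he : 0 < e) (hT : 5 ≤ T) (hTe : T - 1 / 50 ≤ -log (2 * e)) (hμ : 0 ≤ μ) :
    -(U - 1) + 6 / 5 * e * (2 + T) * ((H.card : ℝ) - 2) - 6 * (U - 1) ^ 2 - 60 * μ ^ 2
      ≤ -(U * (log U + hh H wt)) := by
  have hsU : ∑ z ∈ H, U * wt z = U := by rw [← Finset.mul_sum, hs, mul_one]
  have h2m : p2 ∈ H.erase p1 := Finset.mem_erase.2 ⟨h.ne.symm, h.m2⟩
  have e1 : U * wt p1 + ∑ z ∈ H.erase p1, U * wt z = ∑ z ∈ H, U * wt z :=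
    Finset.add_sum_erase H (fun z => U * wt z) h.m1
  have e2 : U * wt p2 + ∑ z ∈ (H.erase p1).erase p2, U * wt z = ∑ z ∈ H.erase p1, U * wt z :=
    Finset.add_sum_erase (H.erase p1) (fun z => U * wt z) h2m
  have e3 : ∑ z ∈ (H.erase p1).erase p2, U * wt z = U - U * wt p1 - U * wt p2 := by
    linarith
  have key := side_le (H := H) (u := fun z => U * wt z) (p1 := p1) (p2 := p2) (e := e) (T := T)
    (μ := μ) he hT hTe h.m1 h.m2 h.ne (mul_le_mul_of_nonneg_left h.le hU.le)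
    (mul_pos hU (hw p2 h.m2))
    (fun z hz h1 h2 => ⟨(h.tail z hz h1 h2).1,
      mul_le_mul_of_nonneg_left (h.tail z hz h1 h2).2 hU.le⟩) hμ
    (by
      show U * wt p1 - U * wt p2 ≤ 51 / 50 * ∑ z ∈ (H.erase p1).erase p2, U * wt z + 21 / 5 * μ
      rw [e3]
      exact h.X)
  have e4 : ∑ z ∈ H, (U * wt z) * log (2 * (U * wt z)) = U * (log U + hh H wt) := by
    have e5 : ∀ z ∈ H, (U * wt z) * log (2 * (U * wt z))
        = U * log U * wt z + U * (wt z * log (2 * wt z)) := by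
      intro z hz
      have hz0 : 0 < wt z := hw z hz
      have : log (2 * (U * wt z)) = log U + log (2 * wt z) := by
        rw [show 2 * (U * wt z) = U * (2 * wt z) by ring]
        exact Real.log_mul hU.ne' (by positivity)
      rw [this]
      ring
    rw [Finset.sum_congr rfl e5, Finset.sum_add_distrib, ← Finset.mul_sum, ← Finset.mul_sum, hs]
    unfold hh
    ring
  rw [hsU, e4] at key
  exact key

end

end Pool.Agent.RieszSq
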