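import Pool.Agent.RieszSq.FinB1

set_option autoImplicit false

open Real Finset

namespace Pool.Agent.RieszSq

section

variable {ι : Type*} [Fintype ι] [DecidableEq ι]
variable {n : ℕ} {q a g w k B t x U V : ℝ} {HP HQ L : Finset ι} {wt th : ι → ℝ}

/-- MODULE Q20b (scalar form of the final inequality). All data are real numbers; `P`, `Q` are
`-U (log U + hh HP)` and `-V (log V + hh HQ)`; `F` and `C` are the sums `η ∑ θ sinh θ`,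
`η ∑ θ cosh θ`; `s = η ∑ |sinh θ| = μP + μQ`.
With `z = j - c`: `φ ∈ [0.98, 1.02]`, so
`P φP + Q φQ ≥ -(U-1) φP - (V-1) φQ + 0.98 · 1.2 (2+Θ) j - 1.02 (6 (U-1)² + 6 (V-1)² + 60 μP²
+ 60 μQ²)`, and `-(U-1) φP - (V-1) φQ ≥ -2 z - …` (`hfo`). So the left side `R` is at least
`2(1+Θ) c - 2 (1+g) F + (1.176 (2+Θ) - (2+Θ)) j - (1 + 12.24 + 0.001) z² - (12.24 + 61.2 + 0.2) s²
 - 0.001 c - 0.002 j`
(`(U-1)² + (V-1)² = 2 z² + 2 m²`, `|m| ≤ s`, `μP² + μQ² ≤ s²`,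
`(g-a)/(1+ν) ((1+z) 2 F + m 2 C) ≥ -0.045 s²` as `1 + z > 0`). Finally
`z² ≤ 2 j² + 2 c²`, `j² ≤ ν j`, `c² ≤ 5/4 ν c`, `s² ≤ 13/4 ν c`, `480 ν ≤ Θ`, `F ≤ 12/5 c`,
`Θ ≥ 5`. The margins are large (the result is about `0.8 Θ c + 0.1 Θ j`). -/
theorem final_scalar {Θ ν a g lam c j m s F C U V P Q φP φQ μP μQ kP kQ e t1 t2 t3 : ℝ}
    (hΘ : 5 ≤ Θ) (hν0 : 0 ≤ ν) (hν : 480 * ν ≤ Θ) (ha0 : 0 ≤ a) (hag : a ≤ g)
    (hg : g ≤ 1 / 100) (hl0 : 0 ≤ lam) (hl1 : lam ≤ 1) (hc0 : 0 ≤ c) (hc1 : c ≤ 5 / 4 * ν)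
    (hj0 : 0 ≤ j) (hj1 : j ≤ ν) (hs0 : 0 ≤ s) (hs : s ^ 2 ≤ 13 / 4 * ν * c) (hm : |m| ≤ s)
    (hF0 : 0 ≤ F) (hF : F ≤ 12 / 5 * c) (hC : |C| ≤ 9 / 4 * s)
    (hU : U = 1 + (j - c) - m) (hV : V = 1 + (j - c) + m) (hU0 : 0 < U) (hV0 : 0 < V)
    (hφP : |φP - 1| ≤ 1 / 50) (hφQ : |φQ - 1| ≤ 1 / 50) (hμP : 0 ≤ μP) (hμQ : 0 ≤ μQ)
    (hμ : μP + μQ = s) (hkP : 0 ≤ kP) (hkQ : 0 ≤ kQ) (he : 0 < e) (hj : j = e * (kP + kQ))
    (hP : -(U - 1) + 6 / 5 * e * (2 + Θ) * kP - 6 * (U - 1) ^ 2 - 60 * μP ^ 2 ≤ P)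
    (hQ : -(V - 1) + 6 / 5 * e * (2 + Θ) * kQ - 6 * (V - 1) ^ 2 - 60 * μQ ^ 2 ≤ Q)
    (hfo : -2 * (j - c) - 1 / 40 * m ^ 2 - 1 / 1000 * (j - c) ^ 2 - 1 / 1000 * c
      ≤ -(U - 1) * φP - (V - 1) * φQ)
    (ht1 : t1 ≤ 1 / 1000 * m ^ 2) (ht2 : -(1 / 1000 * j) - 1 / 1000 * μP ^ 2 ≤ t2)
    (ht3 : -(1 / 1000 * j) - 1 / 1000 * μQ ^ 2 ≤ t3) :
    (j + c) / 10 ≤ Θ * (2 * c - j) - lam / (1 + ν) * ((j - c) ^ 2 - m ^ 2) + P * φP + Q * φQ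
      - (1 + g) * (2 * F) + (g - a) / (1 + ν) * ((1 + (j - c)) * (2 * F) + m * (2 * C))
      - t1 + t2 + t3 := by
  have hφP1 := (abs_le.mp hφP).1
  have hφP2 := (abs_le.mp hφP).2
  have hφQ1 := (abs_le.mp hφQ).1
  have hφQ2 := (abs_le.mp hφQ).2
  have hΘ2 : 0 ≤ 2 + Θ := by linarith only [hΘ]
  have hsq1 : 0 ≤ 6 * (U - 1) ^ 2 + 60 * μP ^ 2 := by positivity
  have hsq2 : 0 ≤ 6 * (V - 1) ^ 2 + 60 * μQ ^ 2 := by positivity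
  have hk1 : 0 ≤ 6 / 5 * e * (2 + Θ) * kP := by positivity
  have hk2 : 0 ≤ 6 / 5 * e * (2 + Θ) * kQ := by positivity
  have hPm : -(U - 1) * φP + 49 / 50 * (6 / 5 * e * (2 + Θ) * kP)
      - 51 / 50 * (6 * (U - 1) ^ 2 + 60 * μP ^ 2) ≤ P * φP := by
    have h1 := mul_le_mul_of_nonneg_right hP (by linarith only [hφP1] : (0 : ℝ) ≤ φP)
    have h2 : 49 / 50 * (6 / 5 * e * (2 + Θ) * kP) ≤ φP * (6 / 5 * e * (2 + Θ) * kP) :=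
      mul_le_mul_of_nonneg_right (by linarith only [hφP1]) hk1
    have h3 : φP * (6 * (U - 1) ^ 2 + 60 * μP ^ 2) ≤ 51 / 50 * (6 * (U - 1) ^ 2 + 60 * μP ^ 2) :=
      mul_le_mul_of_nonneg_right (by linarith only [hφP2]) hsq1
    linarith only [h1, h2, h3]
  have hQm : -(V - 1) * φQ + 49 / 50 * (6 / 5 * e * (2 + Θ) * kQ)
      - 51 / 50 * (6 * (V - 1) ^ 2 + 60 * μQ ^ 2) ≤ Q * φQ := by
    have h1 := mul_le_mul_of_nonneg_right hQ (by linarith only [hφQ1] : (0 : ℝ) ≤ φQ)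
    have h2 : 49 / 50 * (6 / 5 * e * (2 + Θ) * kQ) ≤ φQ * (6 / 5 * e * (2 + Θ) * kQ) :=
      mul_le_mul_of_nonneg_right (by linarith only [hφQ1]) hk2
    have h3 : φQ * (6 * (V - 1) ^ 2 + 60 * μQ ^ 2) ≤ 51 / 50 * (6 * (V - 1) ^ 2 + 60 * μQ ^ 2) :=
      mul_le_mul_of_nonneg_right (by linarith only [hφQ2]) hsq2
    linarith only [h1, h2, h3]
  have hjj : 49 / 50 * (6 / 5 * e * (2 + Θ) * kP) + 49 / 50 * (6 / 5 * e * (2 + Θ) * kQ)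
      = 147 / 125 * ((2 + Θ) * j) := by rw [hj]; ring
  have hm2 : m ^ 2 ≤ s ^ 2 := by
    have := pow_le_pow_left₀ (abs_nonneg m) hm 2
    rwa [sq_abs] at this
  have hμ2 : μP ^ 2 + μQ ^ 2 ≤ s ^ 2 := by
    rw [← hμ]; linarith only [mul_nonneg hμP hμQ]
  have hUV : (U - 1) ^ 2 + (V - 1) ^ 2 = 2 * (j - c) ^ 2 + 2 * m ^ 2 := by
    rw [hU, hV]; ring
  have hz : 0 ≤ 1 + (j - c) := by linarith only [hU, hV, hU0, hV0]
  have hν1 : 0 < 1 + ν := by linarith only [hν0]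
  have hlk0 : 0 ≤ lam / (1 + ν) := div_nonneg hl0 hν1.le
  have hlk1 : lam / (1 + ν) ≤ 1 := by
    rw [div_le_one hν1]; linarith only [hl1, hν0]
  have hL : -(j - c) ^ 2 ≤ -(lam / (1 + ν) * ((j - c) ^ 2 - m ^ 2)) := by
    have h1 : lam / (1 + ν) * (j - c) ^ 2 ≤ 1 * (j - c) ^ 2 :=
      mul_le_mul_of_nonneg_right hlk1 (sq_nonneg _)
    have h2 : 0 ≤ lam / (1 + ν) * m ^ 2 := mul_nonneg hlk0 (sq_nonneg _)
    linarith only [h1, h2]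
  have hh0 : 0 ≤ (g - a) / (1 + ν) := div_nonneg (by linarith only [hag]) hν1.le
  have hh1 : (g - a) / (1 + ν) ≤ 1 / 100 := by
    rw [div_le_iff₀ hν1]; linarith only [ha0, hg, hν0]
  have hmC : -(9 / 4 * s ^ 2) ≤ m * C := by
    have h1 : |m * C| ≤ s * (9 / 4 * s) := by
      rw [abs_mul]
      exact mul_le_mul hm hC (abs_nonneg _) hs0
    have h2 := (abs_le.mp h1).1
    linarith only [h2]
  have hH : -(9 / 200 * s ^ 2)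
      ≤ (g - a) / (1 + ν) * ((1 + (j - c)) * (2 * F) + m * (2 * C)) := by
    have h1 : -(9 / 2 * s ^ 2) ≤ (1 + (j - c)) * (2 * F) + m * (2 * C) := by
      have : 0 ≤ (1 + (j - c)) * (2 * F) := mul_nonneg hz (by linarith only [hF0])
      linarith only [hmC, this]
    have h2 := mul_le_mul_of_nonneg_left h1 hh0
    have h3 : (g - a) / (1 + ν) * (9 / 2 * s ^ 2) ≤ 1 / 100 * (9 / 2 * s ^ 2) :=
      mul_le_mul_of_nonneg_right hh1 (by positivity)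
    linarith only [h2, h3]
  have hG : (1 + g) * (2 * F) ≤ 606 / 125 * c := by
    have h1 : (1 + g) * (2 * F) ≤ (101 / 100) * (2 * F) :=
      mul_le_mul_of_nonneg_right (by linarith only [hg]) (by linarith only [hF0])
    linarith only [h1, hF]
  have hΘ0 : 0 ≤ Θ := by linarith only [hΘ]
  have hzz : (j - c) ^ 2 ≤ j ^ 2 + c ^ 2 := by linarith only [mul_nonneg hj0 hc0]
  have hj2 : j ^ 2 ≤ Θ / 480 * j := by
    have h1 : j * j ≤ (Θ / 480) * j := mul_le_mul_of_nonneg_right (by linarith only [hj1, hν]) hj0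
    linarith only [h1]
  have hc2 : c ^ 2 ≤ Θ / 384 * c := by
    have h1 : c * c ≤ (Θ / 384) * c := mul_le_mul_of_nonneg_right (by linarith only [hc1, hν]) hc0
    linarith only [h1]
  have hs2 : s ^ 2 ≤ 13 / 1920 * Θ * c := by
    have h1 : 13 / 4 * ν * c ≤ 13 / 1920 * Θ * c :=
      mul_le_mul_of_nonneg_right (by linarith only [hν]) hc0
    linarith only [h1, hs]
  have hΘc : 5 * c ≤ Θ * c := mul_le_mul_of_nonneg_right hΘ hc0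
  have hΘj : 5 * j ≤ Θ * j := mul_le_mul_of_nonneg_right hΘ hj0
  have key : (j + c) / 10 ≤ Θ * (2 * c - j) - (j - c) ^ 2
      + (-2 * (j - c) - 1 / 40 * m ^ 2 - 1 / 1000 * (j - c) ^ 2 - 1 / 1000 * c)
      + 147 / 125 * ((2 + Θ) * j)
      - 51 / 50 * (6 * (2 * (j - c) ^ 2 + 2 * m ^ 2) + 60 * s ^ 2)
      - 606 / 125 * c - 9 / 200 * s ^ 2 - 1 / 1000 * m ^ 2
      - (1 / 500 * j + 1 / 1000 * s ^ 2) := by
    linarith only [hzz, hj2, hc2, hs2, hΘc, hΘj, hm2, hj0, hc0]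
  have e1 : 147 / 125 * ((2 + Θ) * j)
      - 51 / 50 * (6 * (2 * (j - c) ^ 2 + 2 * m ^ 2) + 60 * s ^ 2)
      + (-(U - 1) * φP - (V - 1) * φQ) ≤ P * φP + Q * φQ := by
    linarith only [hPm, hQm, hjj, hUV, hμ2]
  linarith only [key, e1, hμ2, hL, hH, hG, hfo, ht1, ht2, ht3]

end

end Pool.Agent.RieszSq
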