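import Pool.Agent.RieszSq.FinB2

set_option autoImplicit false

open Real Finset

namespace Pool.Agent.RieszSq

namespace FinB3Aux

theorem two_le_card {ι : Type*} {H : Finset ι} {p1 p2 : ι} (h1 : p1 ∈ H) (h2 : p2 ∈ H)
    (hne : p1 ≠ p2) : 2 ≤ H.card := by
  have : 1 < H.card := Finset.one_lt_card.mpr ⟨p1, h1, p2, h2, hne⟩
  omega

theorem pair_le {ι : Type*} [DecidableEq ι] {H : Finset ι} {wt : ι → ℝ} {p1 p2 : ι}
    (h1 : p1 ∈ H) (h2 : p2 ∈ H) (hne : p1 ≠ p2) (hw : ∀ i ∈ H, 0 < wt i)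
    (hs : ∑ i ∈ H, wt i = 1) : wt p1 + wt p2 ≤ 1 ∧ (H.card = 2 → wt p1 + wt p2 = 1) := by
  have h3 : ({p1, p2} : Finset ι) ⊆ H := by
    intro z hz
    rcases Finset.mem_insert.mp hz with rfl | hz
    · exact h1
    · rw [Finset.mem_singleton.mp hz]; exact h2
  have h4 : ∑ i ∈ ({p1, p2} : Finset ι), wt i = wt p1 + wt p2 := Finset.sum_pair hne
  constructor
  · rw [← h4, ← hs]
    exact Finset.sum_le_sum_of_subset_of_nonneg h3 (fun i hi _ => (hw i hi).le)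
  · intro hcd
    have h5 : ({p1, p2} : Finset ι) = H := by
      apply Finset.eq_of_subset_of_card_le h3
      rw [hcd, Finset.card_pair hne]
    rw [← h4, h5, hs]

end FinB3Aux

section

variable {ι : Type*} [Fintype ι] [DecidableEq ι]
variable {n : ℕ} {q a g w k B t x U V : ℝ} {HP HQ L : Finset ι} {wt th : ι → ℝ}

/-- MODULE Q20c (the final inequality). `UV_eq`, `sums_eq`, `light_sums`, `mu_sums`, `ph_bd`,
`first_order`, `del_log`, `tiny_side` (twice; for the other side exchange `U`, `V` and `m`, `-m`;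
`w1 + w2 = 1` if the side has only two heavy points, otherwise `j ≥ η`), `SideC.low` (twice),
`final_scalar`. -/
theorem final (h : Est n q a g w k B t x) (hc : Cf n B x HP HQ L wt th U V)
    (hL : ∀ z ∈ L, |sinh (th z)| ≤ 2) {p1 p2 q1 q2 : ι}
    (hP : SideC HP wt U (eta B x) (eta B x * ∑ z ∈ L, max (sinh (th z)) 0) p1 p2)
    (hQ : SideC HQ wt V (eta B x) (eta B x * ∑ z ∈ L, max (-sinh (th z)) 0) q1 q2)
    (hU0 : 1 / (4 * (q + 1)) ≤ U) (hV0 : 1 / (4 * (q + 1)) ≤ V) :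
    (jj n B x L + cc B x L th) / 10
      ≤ Form n q a g w B t x HP HQ L wt th U V (wt p1 * wt p2) (wt q1 * wt q2) := by
  have hpar := h.par
  have hB := hpar.B0
  have hx := hpar.x0
  have hw := hpar.rel.2
  have he : 0 < eta B x := by
    unfold eta
    exact div_pos hx (by linarith)
  obtain ⟨hUe, hVe, hjc, hU1, hV1⟩ := UV_eq hpar hc
  obtain ⟨hcs, hms, hFs, hCs⟩ := sums_eq n B x L th
  have hcP : 2 ≤ HP.card := FinB3Aux.two_le_card hP.m1 hP.m2 hP.ne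
  have hcQ : 2 ≤ HQ.card := FinB3Aux.two_le_card hQ.m1 hQ.m2 hQ.ne
  have hcP' : (2 : ℝ) ≤ HP.card := by exact_mod_cast hcP
  have hcQ' : (2 : ℝ) ≤ HQ.card := by exact_mod_cast hcQ
  have hjdef : jj n B x L = nu n B x - eta B x * L.card := rfl
  have hLc0 : 0 ≤ eta B x * (L.card : ℝ) := mul_nonneg he.le (Nat.cast_nonneg _)
  have hj0 : 0 ≤ jj n B x L := by
    rw [hjc]
    apply mul_nonneg he.le
    linarith
  have hj1 : jj n B x L ≤ nu n B x := by linarith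
  have hN : eta B x * L.card ≤ nu n B x := by linarith
  obtain ⟨hS2, hc54, hc0, hmS, hF0, hF12, hC94⟩ := light_sums he hN hL
  obtain ⟨hμP, hμQ, hμ⟩ := mu_sums (L := L) (th := th) he
  rw [← hcs] at hS2 hc54 hc0 hF12
  rw [← hms] at hmS
  have hν0 : 0 ≤ nu n B x := le_trans hj0 hj1
  have hs0 : 0 ≤ eta B x * ∑ z ∈ L, |sinh (th z)| :=
    mul_nonneg he.le (Finset.sum_nonneg (fun z _ => abs_nonneg _))
  have hF0' : 0 ≤ eta B x * ∑ z ∈ L, th z * sinh (th z) := mul_nonneg he.le hF0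
  have hφP := ph_bd h hU0 hc.V0 hU1 hV1 hw
  have hφQ := ph_bd h hV0 hc.U0 hV1 hU1 hw
  have hfo := first_order h hc0 hj0 hUe hVe hU0 hV0
  have ht1 := del_log h hUe hVe hU0 hV0
  obtain ⟨hP12, hP12'⟩ := FinB3Aux.pair_le hP.m1 hP.m2 hP.ne hc.wP hc.sP
  obtain ⟨hQ12, hQ12'⟩ := FinB3Aux.pair_le hQ.m1 hQ.m2 hQ.ne hc.wQ hc.sQ
  have hTP : wt p1 + wt p2 = 1 ∨ eta B x ≤ jj n B x L := by
    rcases Nat.lt_or_ge 2 HP.card with h3 | h3
    · right
      have h4 : (3 : ℝ) ≤ HP.card := by exact_mod_cast h3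
      rw [hjc]
      nlinarith
    · left
      exact hP12' (le_antisymm h3 hcP)
  have hTQ : wt q1 + wt q2 = 1 ∨ eta B x ≤ jj n B x L := by
    rcases Nat.lt_or_ge 2 HQ.card with h3 | h3
    · right
      have h4 : (3 : ℝ) ≤ HQ.card := by exact_mod_cast h3
      rw [hjc]
      nlinarith
    · left
      exact hQ12' (le_antisymm h3 hcQ)
  have ht2 := tiny_side h hc0 hj0 hj1 hUe hVe hU0 hc.V0 hU1 hV1 (hc.wP _ hP.m1) (hc.wP _ hP.m2)
    hP12 hTP hμP hP.le hP.X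
  have ht3 := tiny_side h hc0 hj0 hj1 (U := V) (V := U) (m := -mm B x L th) (by linarith)
    (by linarith) hV0 hc.U0 hV1 hU1 (hc.wQ _ hQ.m1) (hc.wQ _ hQ.m2) hQ12 hTQ hμQ hQ.le hQ.X
  have hPl := hP.low hc.U0 hc.wP hc.sP he h.th5 h.tp hμP
  have hQl := hQ.low hc.V0 hc.wQ hc.sQ he h.th5 h.tp hμQ
  have hfin := final_scalar h.th5 hν0 h.nth hpar.a0.le h.ag h.g1 h.lam0 h.lam1 hc0 hc54 hj0 hj1
    hs0 hS2 hmS hF0' hF12 hC94 hUe hVe hc.U0 hc.V0 hφP hφQ hμP hμQ hμ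
    (sub_nonneg.mpr hcP') (sub_nonneg.mpr hcQ') he hjc hPl hQl hfo ht1 ht2 ht3
  refine le_trans (le_of_eq (by ring)) (le_trans hfin (le_of_eq ?_))
  unfold Form
  rw [hFs, hCs]
  rw [show 4 * V * U * (wt q1 * wt q2) = 4 * U * V * (wt q1 * wt q2) by ring,
    show V * U = U * V by ring]
  ring

end

end Pool.Agent.RieszSq
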