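import Pool.Agent.RieszSq.Defs

set_option autoImplicit false

open Real Finset

namespace Pool.Agent.RieszSq

section

variable {ι : Type*}

/-- The sum of the lower bounds of the parts of `p ∑ K^(q/p)`;
`wp = ω_{p1} ω_{p2}`, `wq = ω_{q1} ω_{q2}`. -/
noncomputable def Raw (q a g w k B t x : ℝ) (HP HQ L : Finset ι) (wt th : ι → ℝ)
    (U V wp wq : ℝ) : ℝ :=
  8 * k * (1 - w) * U * V * ((q + 1) - log U - log V - hh HP wt - hh HQ wt)
    + 4 * (q + 1) * (ep q * k) * (1 - w) * (4 * U * V * wp) ^ (q / (q + 1))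
    + 4 * (q + 1) * (ep q * k) * (1 - w) * (4 * U * V * wq) ^ (q / (q + 1))
    + 4 * (B * x) * (1 + a) * ((q + 1) * (U * Sf L th + V * Se L th)
        - (U * Sf L th * log U - U * Sft L th + V * Se L th * log V + V * Set' L th)
        - hh HP wt * ((1 - del B t) * (U * Sf L th) + del B t * (V * Se L th))
        - hh HQ wt * ((1 - del B t) * (V * Se L th) + del B t * (U * Sf L th)))
    + x ^ 2 * (1 + g) * ((q + 1) * (Se L th * Sf L th - L.card)
        - (Sf L th * Set' L th - Se L th * Sft L th))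

/-- `j = ν - η |L|` -/
noncomputable def jj (n : ℕ) (B x : ℝ) (L : Finset ι) : ℝ := nu n B x - eta B x * L.card

/-- `c = η ∑ (cosh θ - 1)` -/
noncomputable def cc (B x : ℝ) (L : Finset ι) (th : ι → ℝ) : ℝ :=
  eta B x * (Se L th + Sf L th) / 2 - eta B x * L.card

/-- `m = η ∑ sinh θ` -/
noncomputable def mm (B x : ℝ) (L : Finset ι) (th : ι → ℝ) : ℝ :=
  eta B x * (Se L th - Sf L th) / 2

/-- `φ_P`; `φ_Q` is `ph … V U` -/
noncomputable def ph (n : ℕ) (q a w B t x U V : ℝ) : ℝ :=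
  1 - a * (V - 1) - e2 q * (1 - w) * V / (1 + nu n B x) + (1 + a) * del B t * (V - U) / U

/-- The final expression: `p ∑ K^(q/p) - p S² ≥ 16 B² (1+ν) Form`. -/
noncomputable def Form (n : ℕ) (q a g w B t x : ℝ) (HP HQ L : Finset ι) (wt th : ι → ℝ)
    (U V wp wq : ℝ) : ℝ :=
  Th n q g B x * (2 * cc B x L th - jj n B x L)
    - (q + 1) * (2 * a + w - g) / (1 + nu n B x)
      * ((jj n B x L - cc B x L th) ^ 2 - mm B x L th ^ 2)
    - U * (log U + hh HP wt) * ph n q a w B t x U V
    - V * (log V + hh HQ wt) * ph n q a w B t x V U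
    - (1 + g) * eta B x * (Set' L th - Sft L th)
    + (g - a) / (1 + nu n B x) * eta B x
      * ((1 + (jj n B x L - cc B x L th)) * (Set' L th - Sft L th)
        + mm B x L th * (Set' L th + Sft L th))
    - (1 + a) * del B t * (V - U) * (log V - log U)
    + e2 q * ((q + 1) * (1 - w) / 2) * (((4 * U * V * wp) ^ (q / (q + 1)) - U * V)
      + ((4 * U * V * wq) ^ (q / (q + 1)) - U * V)) / (1 + nu n B x)

end

end Pool.Agent.RieszSq
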