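import Pool.Agent.RieszSq.Defs

set_option autoImplicit false

open Real Finset

namespace Pool.Agent.RieszSq

section

variable {ι : Type*} [Fintype ι] [DecidableEq ι]
variable {n : ℕ} {q a g w k B t x U V : ℝ} {HP HQ L : Finset ι} {wt th : ι → ℝ}

/-- MODULE Q4 (the entries of the certificate matrix). Elementary facts about the parameters:
`B² + t² = k`, `B² - t² = 2^(-p) k`, `0 < 2^(-p) < 1`, `t < B`. -/
theorem Par.ep_pos (h : Par n q a g w k B t x) : 0 < ep q ∧ ep q < 1 := by
  have hq := h.q1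
  unfold ep
  refine ⟨by positivity, ?_⟩
  exact Real.rpow_lt_one_of_one_lt_of_neg (by norm_num) (by linarith)

theorem Par.sum_sq (h : Par n q a g w k B t x) : B ^ 2 + t ^ 2 = k := by
  have h1 := h.eB
  have h2 := h.et
  linarith

theorem Par.dif_sq (h : Par n q a g w k B t x) : B ^ 2 - t ^ 2 = ep q * k := by
  have h1 := h.eB
  have h2 := h.et
  linarith

theorem Par.t_lt (h : Par n q a g w k B t x) : t < B := by
  have h1 := h.dif_sq
  have h2 := h.ep_pos.1
  have h3 := h.k0
  have h4 : 0 < ep q * k := mul_pos h2 h3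
  have h5 : t ^ 2 < B ^ 2 := by linarith
  exact lt_of_pow_lt_pow_left₀ 2 h.B0.le h5

/-- `B + t = 2 B (1 - δ)`, `B - t = 2 B δ`, `0 < δ`, `δ ≤ ε = 2^(-p)/(1+2^(-p))`:
`δ = (1 - t/B)/2` and `t²/B² = 1 - 2 ε`, `t/B ≥ t²/B²`. -/
theorem Par.del_bd (h : Par n q a g w k B t x) :
    0 < del B t ∧ del B t ≤ e2 q ∧ B + t = 2 * B * (1 - del B t) ∧ B - t = 2 * B * del B t := by
  have hB := h.B0
  have ht := h.t0
  have hlt := h.t_lt
  have he := h.ep_pos.1
  have hk := h.k0
  have h1 := h.eB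
  have h2 := h.et
  have hd : B - t = 2 * B * del B t := by
    unfold del
    field_simp
  refine ⟨?_, ?_, ?_, hd⟩
  · unfold del
    apply div_pos <;> linarith
  · unfold del e2
    rw [div_le_div_iff₀ (by linarith) (by linarith)]
    -- (B - t) (1 + e) ≤ e * (2 B)
    -- k (1+e) = 2 B², k (1 - e) = 2 t²
    have h3 : t ^ 2 ≤ t * B := by nlinarith
    have h4 : (B - t) * (2 * B ^ 2) ≤ 2 * B * (B ^ 2 - t ^ 2) := by nlinarith
    have h5 : (B - t) * (k * (1 + ep q)) ≤ 2 * B * (ep q * k) := by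
      rw [← h1, ← h.dif_sq]
      exact h4
    have h6 : k * ((B - t) * (1 + ep q)) ≤ k * (ep q * (2 * B)) := by nlinarith
    exact le_of_mul_le_mul_left h6 hk
  · have : 2 * B * (1 - del B t) = 2 * B - 2 * B * del B t := by ring
    rw [this, ← hd]
    ring

end

end Pool.Agent.RieszSq
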