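import Pool.Agent.RieszSq.KcVal1

set_option autoImplicit false

open Real Finset

namespace Pool.Agent.RieszSq

section

variable {ι : Type*} [Fintype ι] [DecidableEq ι]
variable {n : ℕ} {q a g w k B t x U V : ℝ} {HP HQ L : Finset ι} {wt th : ι → ℝ}

private theorem kv2_uP {i : ι} (hi : i ∈ HP) :
    uu B t x U HP HQ wt th i = 2 * (B + t) * U * wt i := by
  unfold uu; rw [if_pos hi]

private theorem kv2_vP {i : ι} (hi : i ∈ HP) :
    vv B t x V HP HQ wt th i = 2 * (B - t) * V * wt i := by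
  unfold vv; rw [if_pos hi]

private theorem kv2_uQ (hd : Disjoint HP HQ) {i : ι} (hi : i ∈ HQ) :
    uu B t x U HP HQ wt th i = 2 * (B - t) * U * wt i := by
  have h1 : i ∉ HP := fun h => Finset.disjoint_left.mp hd h hi
  unfold uu; rw [if_neg h1, if_pos hi]

private theorem kv2_vQ (hd : Disjoint HP HQ) {i : ι} (hi : i ∈ HQ) :
    vv B t x V HP HQ wt th i = 2 * (B + t) * V * wt i := by
  have h1 : i ∉ HP := fun h => Finset.disjoint_left.mp hd h hi
  unfold vv; rw [if_neg h1, if_pos hi]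

private theorem kv2_uL (hd : Disjoint HP L) (hd' : Disjoint HQ L) {i : ι} (hi : i ∈ L) :
    uu B t x U HP HQ wt th i = x * exp (th i) := by
  have h1 : i ∉ HP := fun h => Finset.disjoint_left.mp hd h hi
  have h2 : i ∉ HQ := fun h => Finset.disjoint_left.mp hd' h hi
  unfold uu; rw [if_neg h1, if_neg h2]

private theorem kv2_vL (hd : Disjoint HP L) (hd' : Disjoint HQ L) {i : ι} (hi : i ∈ L) :
    vv B t x V HP HQ wt th i = x * exp (-th i) := by
  have h1 : i ∉ HP := fun h => Finset.disjoint_left.mp hd h hi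
  have h2 : i ∉ HQ := fun h => Finset.disjoint_left.mp hd' h hi
  unfold vv; rw [if_neg h1, if_neg h2]

theorem Kc_symm (i j : ι) :
    Kc B t x U V HP HQ wt th i j = Kc B t x U V HP HQ wt th j i := by
  unfold Kc; ring

/-- `HP × HQ` -/
theorem Kc_PQ (h : Par n q a g w k B t x) (hc : Cf n B x HP HQ L wt th U V) {i j : ι}
    (hi : i ∈ HP) (hj : j ∈ HQ) :
    Kc B t x U V HP HQ wt th i j = 4 * k * U * V * (wt i * wt j) := by
  have e := h.sum_sq
  unfold Kc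
  rw [kv2_uP hi, kv2_vP hi, kv2_uQ hc.dPQ hj, kv2_vQ hc.dPQ hj, ← e]
  ring

/-- `HP × HP` -/
theorem Kc_PP (h : Par n q a g w k B t x) {i j : ι} (hi : i ∈ HP) (hj : j ∈ HP) :
    Kc B t x U V HP HQ wt th i j = ep q * k * (4 * U * V * (wt i * wt j)) := by
  have e := h.dif_sq
  unfold Kc
  rw [kv2_uP hi, kv2_vP hi, kv2_uP hj, kv2_vP hj, ← e]
  ring

/-- `HQ × HQ` -/
theorem Kc_QQ (h : Par n q a g w k B t x) (hc : Cf n B x HP HQ L wt th U V) {i j : ι}
    (hi : i ∈ HQ) (hj : j ∈ HQ) :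
    Kc B t x U V HP HQ wt th i j = ep q * k * (4 * U * V * (wt i * wt j)) := by
  have e := h.dif_sq
  unfold Kc
  rw [kv2_uQ hc.dPQ hi, kv2_vQ hc.dPQ hi, kv2_uQ hc.dPQ hj, kv2_vQ hc.dPQ hj, ← e]
  ring

/-- `HP × L` -/
theorem Kc_PL (h : Par n q a g w k B t x) (hc : Cf n B x HP HQ L wt th U V) {i z : ι}
    (hi : i ∈ HP) (hz : z ∈ L) :
    Kc B t x U V HP HQ wt th i z
      = 2 * (B * x) * ((1 - del B t) * (U * exp (-th z)) + del B t * (V * exp (th z))) * wt i := by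
  obtain ⟨_, _, e1, e2⟩ := h.del_bd
  unfold Kc
  rw [kv2_uP hi, kv2_vP hi, kv2_uL hc.dPL hc.dQL hz, kv2_vL hc.dPL hc.dQL hz, e1, e2]
  ring

/-- `HQ × L` -/
theorem Kc_QL (h : Par n q a g w k B t x) (hc : Cf n B x HP HQ L wt th U V) {i z : ι}
    (hi : i ∈ HQ) (hz : z ∈ L) :
    Kc B t x U V HP HQ wt th i z
      = 2 * (B * x) * ((1 - del B t) * (V * exp (th z)) + del B t * (U * exp (-th z))) * wt i := by
  obtain ⟨_, _, e1, e2⟩ := h.del_bd
  unfold Kc
  rw [kv2_uQ hc.dPQ hi, kv2_vQ hc.dPQ hi, kv2_uL hc.dPL hc.dQL hz, kv2_vL hc.dPL hc.dQL hz, e1, e2]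
  ring

/-- `L × L` -/
theorem Kc_LL (hc : Cf n B x HP HQ L wt th U V) {y z : ι} (hy : y ∈ L) (hz : z ∈ L) :
    Kc B t x U V HP HQ wt th y z
      = x ^ 2 * ((exp (th y - th z) + exp (-(th y - th z))) / 2) := by
  unfold Kc
  rw [kv2_uL hc.dPL hc.dQL hy, kv2_vL hc.dPL hc.dQL hy, kv2_uL hc.dPL hc.dQL hz,
    kv2_vL hc.dPL hc.dQL hz, show th y - th z = th y + -th z by ring,
    show -(th y + -th z) = -th y + th z by ring, Real.exp_add, Real.exp_add]
  ring

end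

end Pool.Agent.RieszSq
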