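import Pool.Agent.RieszSq.KcVal2

set_option autoImplicit false

open Real Finset

namespace Pool.Agent.RieszSq

section

variable {ι : Type*} [Fintype ι] [DecidableEq ι]
variable {n : ℕ} {q a g w k B t x U V : ℝ} {HP HQ L : Finset ι} {wt th : ι → ℝ}

private theorem uu_pos (h : Par n q a g w k B t x) (hc : Cf n B x HP HQ L wt th U V) (i : ι) :
    0 < uu B t x U HP HQ wt th i := by
  have hB := h.B0
  have ht := h.t0
  have hx := h.x0
  have hU := hc.U0
  have hlt : 0 < B - t := by linarith [h.t_lt]
  unfold uu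
  split_ifs with h1 h2
  · have := hc.wP i h1
    positivity
  · have := hc.wQ i h2
    positivity
  · positivity

private theorem vv_pos (h : Par n q a g w k B t x) (hc : Cf n B x HP HQ L wt th U V) (i : ι) :
    0 < vv B t x V HP HQ wt th i := by
  have hB := h.B0
  have ht := h.t0
  have hx := h.x0
  have hV := hc.V0
  have hlt : 0 < B - t := by linarith [h.t_lt]
  unfold vv
  split_ifs with h1 h2
  · have := hc.wP i h1
    positivity
  · have := hc.wQ i h2
    positivity
  · positivity

/-- all entries are positive -/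
theorem Kc_pos (h : Par n q a g w k B t x) (hc : Cf n B x HP HQ L wt th U V) (i j : ι) :
    0 < Kc B t x U V HP HQ wt th i j := by
  have h1 := uu_pos h hc i
  have h2 := uu_pos h hc j
  have h3 := vv_pos h hc i
  have h4 := vv_pos h hc j
  unfold Kc
  positivity

private theorem sum_parts (hc : Cf n B x HP HQ L wt th U V) (c d y : ℝ) (e : ι → ℝ) :
    ∑ i, (if i ∈ HP then c * wt i else if i ∈ HQ then d * wt i else y * e i)
      = c + d + y * ∑ z ∈ L, e z := by
  rw [← hc.un, Finset.sum_union (Finset.disjoint_union_left.2 ⟨hc.dPL, hc.dQL⟩),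
    Finset.sum_union hc.dPQ]
  have e1 : ∑ i ∈ HP, (if i ∈ HP then c * wt i else if i ∈ HQ then d * wt i else y * e i)
      = c := by
    rw [Finset.sum_congr rfl (g := fun i => c * wt i) (fun i hi => by rw [if_pos hi]),
      ← Finset.mul_sum, hc.sP, mul_one]
  have e2 : ∑ i ∈ HQ, (if i ∈ HP then c * wt i else if i ∈ HQ then d * wt i else y * e i)
      = d := by
    rw [Finset.sum_congr rfl (g := fun i => d * wt i)
      (fun i hi => by rw [if_neg (Finset.disjoint_right.1 hc.dPQ hi), if_pos hi]),
      ← Finset.mul_sum, hc.sQ, mul_one]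
  have e3 : ∑ i ∈ L, (if i ∈ HP then c * wt i else if i ∈ HQ then d * wt i else y * e i)
      = y * ∑ z ∈ L, e z := by
    rw [Finset.sum_congr rfl (g := fun i => y * e i)
      (fun i hi => by rw [if_neg (Finset.disjoint_right.1 hc.dPL hi),
        if_neg (Finset.disjoint_right.1 hc.dQL hi)]),
      ← Finset.mul_sum]
  rw [e1, e2, e3]

/-- `∑ u = 4 B + n x`: `∑_{HP} = 2 (B+t) U`, `∑_{HQ} = 2 (B-t) U`, `∑_L = x ∑ exp θ`,
`4 B (U + η ∑ exp θ) = 4 B (1 + ν)`. -/
theorem sum_uu (h : Par n q a g w k B t x) (hc : Cf n B x HP HQ L wt th U V) :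
    ∑ i, uu B t x U HP HQ wt th i = 4 * B + n * x := by
  have hB := h.B0
  have e := sum_parts hc (2 * (B + t) * U) (2 * (B - t) * U) x (fun i => exp (th i))
  have he : 4 * B * eta B x = x := by
    unfold eta; field_simp
  have h1 := hc.eU
  unfold nu at h1
  unfold uu
  rw [e]
  have h2 : 4 * B * (U + eta B x * Se L th) = 4 * B * (1 + n * eta B x) := by rw [h1]
  have h3 : 4 * B * (U + eta B x * Se L th) = 4 * B * U + (4 * B * eta B x) * Se L th := by ring
  have h4 : 4 * B * (1 + n * eta B x) = 4 * B + n * (4 * B * eta B x) := by ring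
  rw [h3, h4, he] at h2
  have h5 : (∑ z ∈ L, exp (th z)) = Se L th := rfl
  rw [h5]
  linarith

theorem sum_vv (h : Par n q a g w k B t x) (hc : Cf n B x HP HQ L wt th U V) :
    ∑ i, vv B t x V HP HQ wt th i = 4 * B + n * x := by
  have hB := h.B0
  have e := sum_parts hc (2 * (B - t) * V) (2 * (B + t) * V) x (fun i => exp (-th i))
  have he : 4 * B * eta B x = x := by
    unfold eta; field_simp
  have h1 := hc.eV
  unfold nu at h1
  unfold vv
  rw [e]
  have h2 : 4 * B * (V + eta B x * Sf L th) = 4 * B * (1 + n * eta B x) := by rw [h1]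
  have h3 : 4 * B * (V + eta B x * Sf L th) = 4 * B * V + (4 * B * eta B x) * Sf L th := by ring
  have h4 : 4 * B * (1 + n * eta B x) = 4 * B + n * (4 * B * eta B x) := by ring
  rw [h3, h4, he] at h2
  have h5 : (∑ z ∈ L, exp (-th z)) = Sf L th := rfl
  rw [h5]
  linarith

end

end Pool.Agent.RieszSq
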