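import Pool.Agent.RieszSq.Form

set_option autoImplicit false

open Real Finset

namespace Pool.Agent.RieszSq

namespace LightB1Aux

theorem self_le {y : ℝ} (h : 0 ≤ y) : y ≤ sinh y := Real.self_le_sinh_iff.mpr h

/-- `sinh t ≤ t cosh t` for `t ≥ 0`. -/
theorem sinh_le_mul_cosh {t : ℝ} (ht : 0 ≤ t) : sinh t ≤ t * cosh t := by
  have hm : MonotoneOn (fun x : ℝ => x * cosh x - sinh x) (Set.Ici 0) := by
    apply monotoneOn_of_deriv_nonneg (convex_Ici 0)
    · fun_prop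
    · fun_prop
    · intro x hx
      rw [interior_Ici] at hx
      have hx0 : (0:ℝ) ≤ x := le_of_lt hx
      have hd : HasDerivAt (fun x : ℝ => x * cosh x - sinh x)
          (1 * cosh x + x * sinh x - cosh x) x :=
        ((hasDerivAt_id x).mul (Real.hasDerivAt_cosh x)).sub (Real.hasDerivAt_sinh x)
      rw [hd.deriv]
      have : 0 ≤ x * sinh x := mul_nonneg hx0 (Real.sinh_nonneg_iff.mpr hx0)
      linarith
  have := hm (Set.self_mem_Ici) (Set.mem_Ici.mpr ht) ht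
  simp only [zero_mul, Real.sinh_zero, sub_zero] at this
  linarith

/-- `t cosh t ≤ (1 + t²/3) sinh t` for `t ≥ 0`. -/
theorem mul_cosh_le {t : ℝ} (ht : 0 ≤ t) : t * cosh t ≤ (1 + t ^ 2 / 3) * sinh t := by
  have hm : MonotoneOn (fun x : ℝ => (1 + x ^ 2 / 3) * sinh x - x * cosh x) (Set.Ici 0) := by
    apply monotoneOn_of_deriv_nonneg (convex_Ici 0)
    · fun_prop
    · fun_prop
    · intro x hx
      rw [interior_Ici] at hx
      have hx0 : (0:ℝ) ≤ x := le_of_lt hx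
      have hp : HasDerivAt (fun x : ℝ => 1 + x ^ 2 / 3) (2 * x / 3) x := by
        have h1 : HasDerivAt (fun x : ℝ => x ^ 2) (2 * x) x := by
          simpa using hasDerivAt_pow 2 x
        exact (h1.div_const 3).const_add 1
      have hd : HasDerivAt (fun x : ℝ => (1 + x ^ 2 / 3) * sinh x - x * cosh x)
          ((2 * x / 3 * sinh x + (1 + x ^ 2 / 3) * cosh x) - (1 * cosh x + x * sinh x)) x :=
        (hp.mul (Real.hasDerivAt_sinh x)).sub ((hasDerivAt_id x).mul (Real.hasDerivAt_cosh x))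
      rw [hd.deriv]
      have h1 := sinh_le_mul_cosh hx0
      nlinarith [mul_nonneg hx0 (sub_nonneg.mpr h1)]
  have := hm (Set.self_mem_Ici) (Set.mem_Ici.mpr ht) ht
  simp only [Real.sinh_zero, mul_zero, zero_mul, sub_zero] at this
  linarith

/-- `sinh (3/2) > 2`. -/
theorem two_lt_sinh : (2:ℝ) < sinh (3 / 2) := by
  have h1 : (4.4:ℝ) < exp (3 / 2) := by
    have e1 : (2.7182818283:ℝ) < exp 1 := Real.exp_one_gt_d9
    have e2 : (1.625:ℝ) ≤ exp (1 / 2) := by
      have := Real.quadratic_le_exp_of_nonneg (x := 1 / 2) (by norm_num)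
      norm_num at this ⊢
      linarith
    have e3 : exp (3 / 2) = exp 1 * exp (1 / 2) := by
      rw [← Real.exp_add]; norm_num
    rw [e3]
    have : (2.7182818283:ℝ) * 1.625 ≤ exp 1 * exp (1 / 2) :=
      mul_le_mul e1.le e2 (by norm_num) (Real.exp_pos 1).le
    norm_num at this ⊢
    linarith
  have h2 : exp (-(3 / 2)) < (0.25:ℝ) := by
    rw [Real.exp_neg]
    have h3 : (4:ℝ) < exp (3 / 2) := by norm_num at h1 ⊢; linarith
    have h4 : (exp (3 / 2))⁻¹ < (4:ℝ)⁻¹ := by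
      apply inv_strictAnti₀ (by norm_num) h3
    norm_num at h4 ⊢
    linarith
  rw [Real.sinh_eq]
  norm_num at h1 h2 ⊢
  linarith

theorem le_three_halves {y : ℝ} (h : sinh y ≤ 2) : y ≤ 3 / 2 := by
  by_contra hc
  have h1 : sinh (3 / 2) < sinh y := Real.sinh_lt_sinh.mpr (not_le.mp hc)
  have := two_lt_sinh
  linarith

theorem th_sinh_nonneg {y : ℝ} (hy : 0 ≤ y) (h : sinh y ≤ 2) :
    y * sinh y ≤ 12 / 5 * (cosh y - 1) := by
  have hy2 := le_three_halves h
  obtain ⟨t, rfl⟩ : ∃ t, y = 2 * t := ⟨y / 2, by ring⟩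
  have ht : 0 ≤ t := by linarith
  have ht2 : t ≤ 3 / 4 := by linarith
  rw [Real.sinh_two_mul, Real.cosh_two_mul, Real.cosh_sq]
  have h1 := mul_cosh_le ht
  have hs : 0 ≤ sinh t := Real.sinh_nonneg_iff.mpr ht
  have h2 : t * cosh t ≤ 6 / 5 * sinh t := by
    have : (1 + t ^ 2 / 3) * sinh t ≤ 6 / 5 * sinh t := by
      apply mul_le_mul_of_nonneg_right _ hs
      nlinarith
    linarith
  have h3 : (t * cosh t) * sinh t ≤ (6 / 5 * sinh t) * sinh t :=
    mul_le_mul_of_nonneg_right h2 hs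
  nlinarith

end LightB1Aux

open LightB1Aux in
/-- MODULE Q18a. By symmetry `θ ≥ 0`. `|sinh θ| ≤ 2` gives `θ ≤ 1.45` (`sinh 1.45 > 2`). With
`y = θ/2 ≤ 0.725`: `sinh θ = 2 sinh y cosh y`, `cosh θ - 1 = 2 sinh² y`, so the claim is
`y cosh y ≤ (6/5) sinh y`; `y cosh y ≤ (1 + y²/3) sinh y` for `y ≥ 0` (derivatives or series) and
`1 + y²/3 ≤ 1.176`. -/
theorem th_sinh {y : ℝ} (h : |sinh y| ≤ 2) : y * sinh y ≤ 12 / 5 * (cosh y - 1) := by
  rcases le_total 0 y with hy | hy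
  · exact th_sinh_nonneg hy (le_trans (le_abs_self _) h)
  · have h1 : sinh (-y) ≤ 2 := by
      rw [Real.sinh_neg]
      exact le_trans (neg_le_abs _) h
    have h2 := th_sinh_nonneg (y := -y) (by linarith) h1
    rw [Real.sinh_neg, Real.cosh_neg] at h2
    linarith

open LightB1Aux in
/-- MODULE Q18b. `cosh² = 1 + sinh² ≤ 5`, `cosh ≤ 9/4`; `sinh² = (cosh - 1)(cosh + 1)`. -/
theorem cosh_bd {y : ℝ} (h : |sinh y| ≤ 2) :
    cosh y ≤ 9 / 4 ∧ sinh y ^ 2 ≤ 13 / 4 * (cosh y - 1) ∧ |y| * cosh y ≤ 9 / 4 * |sinh y| := by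
  have hc : 1 ≤ cosh y := Real.one_le_cosh y
  have hsq : cosh y ^ 2 = sinh y ^ 2 + 1 := Real.cosh_sq y
  have hs : sinh y ^ 2 ≤ 4 := by
    have := abs_le.mp h
    nlinarith [this.1, this.2]
  have h1 : cosh y ≤ 9 / 4 := by
    by_contra hcon
    have := not_le.mp hcon
    nlinarith
  refine ⟨h1, ?_, ?_⟩
  · nlinarith
  · have h2 : |y| ≤ |sinh y| := by
      rcases le_total 0 y with hy | hy
      · rw [abs_of_nonneg hy, abs_of_nonneg (Real.sinh_nonneg_iff.mpr hy)]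
        exact self_le hy
      · rw [abs_of_nonpos hy, abs_of_nonpos (Real.sinh_nonpos_iff.mpr hy), ← Real.sinh_neg]
        exact self_le (by linarith)
    have h3 : |y| * cosh y ≤ |sinh y| * (9 / 4) :=
      mul_le_mul h2 h1 (by linarith) (abs_nonneg _)
    linarith

end Pool.Agent.RieszSq
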