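import Pool.Agent.RieszSq.LightB1

set_option autoImplicit false

open Real Finset

namespace Pool.Agent.RieszSq

section

variable {ι : Type*}

/-- MODULE Q18c (translation of the sums): `exp θ + exp (-θ) = 2 cosh θ` and so on. -/
theorem sums_eq (n : ℕ) (B x : ℝ) (L : Finset ι) (th : ι → ℝ) :
    cc B x L th = eta B x * ∑ z ∈ L, (cosh (th z) - 1) ∧
    mm B x L th = eta B x * ∑ z ∈ L, sinh (th z) ∧
    Set' L th - Sft L th = 2 * ∑ z ∈ L, th z * sinh (th z) ∧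
    Set' L th + Sft L th = 2 * ∑ z ∈ L, th z * cosh (th z) := by
  have h1 : ∀ y : ℝ, exp y = cosh y + sinh y := fun y => (cosh_add_sinh y).symm
  have h2 : ∀ y : ℝ, exp (-y) = cosh y - sinh y := fun y => (cosh_sub_sinh y).symm
  refine ⟨?_, ?_, ?_, ?_⟩
  · unfold cc Se Sf
    rw [← sum_add_distrib, sum_sub_distrib, sum_const, nsmul_eq_mul, mul_one, mul_sub]
    have h3 : ∑ z ∈ L, (exp (th z) + exp (-th z)) = 2 * ∑ z ∈ L, cosh (th z) := by
      rw [mul_sum]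
      apply sum_congr rfl
      intro z _
      rw [h1, h2]
      ring
    rw [h3]
    ring
  · unfold mm Se Sf
    rw [← sum_sub_distrib]
    have h3 : ∑ z ∈ L, (exp (th z) - exp (-th z)) = 2 * ∑ z ∈ L, sinh (th z) := by
      rw [mul_sum]
      apply sum_congr rfl
      intro z _
      rw [h1, h2]
      ring
    rw [h3]
    ring
  · unfold Set' Sft
    rw [← sum_sub_distrib, mul_sum]
    apply sum_congr rfl
    intro z _
    rw [h1, h2]
    ring
  · unfold Set' Sft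
    rw [← sum_add_distrib, mul_sum]
    apply sum_congr rfl
    intro z _
    rw [h1, h2]
    ring

/-- MODULE Q18d. `e = η`, `N ≥ e |L|`. Cauchy–Schwarz:
`(e ∑ |sinh|)² ≤ e |L| · e ∑ sinh² ≤ N (13/4) e ∑ (cosh - 1)`. -/
theorem light_sums {L : Finset ι} {th : ι → ℝ} {e N : ℝ} (he : 0 < e) (hN : e * L.card ≤ N)
    (hL : ∀ z ∈ L, |sinh (th z)| ≤ 2) :
    (e * ∑ z ∈ L, |sinh (th z)|) ^ 2 ≤ 13 / 4 * N * (e * ∑ z ∈ L, (cosh (th z) - 1)) ∧
    e * ∑ z ∈ L, (cosh (th z) - 1) ≤ 5 / 4 * N ∧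
    0 ≤ e * ∑ z ∈ L, (cosh (th z) - 1) ∧
    |e * ∑ z ∈ L, sinh (th z)| ≤ e * ∑ z ∈ L, |sinh (th z)| ∧
    0 ≤ ∑ z ∈ L, th z * sinh (th z) ∧
    e * ∑ z ∈ L, th z * sinh (th z) ≤ 12 / 5 * (e * ∑ z ∈ L, (cosh (th z) - 1)) ∧
    |e * ∑ z ∈ L, th z * cosh (th z)| ≤ 9 / 4 * (e * ∑ z ∈ L, |sinh (th z)|) := by
  have hc1 : ∀ z ∈ L, 0 ≤ cosh (th z) - 1 := fun z _ => sub_nonneg.2 (one_le_cosh _)
  have hc0 : 0 ≤ ∑ z ∈ L, (cosh (th z) - 1) := sum_nonneg hc1
  have hts : ∀ y : ℝ, 0 ≤ y * sinh y := by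
    intro y
    rcases le_total 0 y with h | h
    · exact mul_nonneg h (sinh_nonneg_iff.2 h)
    · exact mul_nonneg_of_nonpos_of_nonpos h (sinh_nonpos_iff.2 h)
  refine ⟨?_, ?_, mul_nonneg he.le hc0, ?_, sum_nonneg fun z _ => hts _, ?_, ?_⟩
  · have h1 : (∑ z ∈ L, |sinh (th z)|) ^ 2 ≤ L.card * ∑ z ∈ L, |sinh (th z)| ^ 2 :=
      sq_sum_le_card_mul_sum_sq
    have h2 : ∑ z ∈ L, |sinh (th z)| ^ 2 ≤ 13 / 4 * ∑ z ∈ L, (cosh (th z) - 1) := by
      rw [mul_sum]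
      apply sum_le_sum
      intro z hz
      rw [sq_abs]
      exact (cosh_bd (hL z hz)).2.1
    have h3 : (0 : ℝ) ≤ L.card := Nat.cast_nonneg _
    calc (e * ∑ z ∈ L, |sinh (th z)|) ^ 2 = e ^ 2 * (∑ z ∈ L, |sinh (th z)|) ^ 2 := by ring
      _ ≤ e ^ 2 * (L.card * (13 / 4 * ∑ z ∈ L, (cosh (th z) - 1))) := by
          apply mul_le_mul_of_nonneg_left _ (sq_nonneg e)
          exact h1.trans (mul_le_mul_of_nonneg_left h2 h3)
      _ = e * L.card * (13 / 4 * (e * ∑ z ∈ L, (cosh (th z) - 1))) := by ring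
      _ ≤ N * (13 / 4 * (e * ∑ z ∈ L, (cosh (th z) - 1))) := by
          apply mul_le_mul_of_nonneg_right hN
          have := mul_nonneg he.le hc0
          linarith
      _ = _ := by ring
  · have h1 : ∑ z ∈ L, (cosh (th z) - 1) ≤ ∑ _z ∈ L, (5 / 4 : ℝ) := by
      apply sum_le_sum
      intro z hz
      have := (cosh_bd (hL z hz)).1
      linarith
    rw [sum_const, nsmul_eq_mul] at h1
    have h2 := mul_le_mul_of_nonneg_left h1 he.le
    have h3 : e * (L.card * (5 / 4 : ℝ)) = 5 / 4 * (e * L.card) := by ring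
    rw [h3] at h2
    linarith
  · rw [abs_mul, abs_of_pos he]
    exact mul_le_mul_of_nonneg_left (abs_sum_le_sum_abs _ _) he.le
  · have h1 : ∑ z ∈ L, th z * sinh (th z) ≤ 12 / 5 * ∑ z ∈ L, (cosh (th z) - 1) := by
      rw [mul_sum]
      exact sum_le_sum fun z hz => th_sinh (hL z hz)
    have h2 := mul_le_mul_of_nonneg_left h1 he.le
    linarith
  · rw [abs_mul, abs_of_pos he]
    have h1 : |∑ z ∈ L, th z * cosh (th z)| ≤ 9 / 4 * ∑ z ∈ L, |sinh (th z)| := by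
      refine (abs_sum_le_sum_abs _ _).trans ?_
      rw [mul_sum]
      apply sum_le_sum
      intro z hz
      rw [abs_mul, abs_of_pos (cosh_pos _)]
      exact (cosh_bd (hL z hz)).2.2
    have h2 := mul_le_mul_of_nonneg_left h1 he.le
    linarith

/-- MODULE Q18e. `|s| = max s 0 + max (-s) 0`. -/
theorem mu_sums {L : Finset ι} {th : ι → ℝ} {e : ℝ} (he : 0 < e) :
    0 ≤ e * ∑ z ∈ L, max (sinh (th z)) 0 ∧ 0 ≤ e * ∑ z ∈ L, max (-sinh (th z)) 0 ∧
    e * ∑ z ∈ L, max (sinh (th z)) 0 + e * ∑ z ∈ L, max (-sinh (th z)) 0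
      = e * ∑ z ∈ L, |sinh (th z)| := by
  refine ⟨mul_nonneg he.le (sum_nonneg fun z _ => le_max_right _ _),
    mul_nonneg he.le (sum_nonneg fun z _ => le_max_right _ _), ?_⟩
  rw [← mul_add, ← sum_add_distrib]
  congr 1
  apply sum_congr rfl
  intro z _
  rcases le_total 0 (sinh (th z)) with h | h
  · rw [max_eq_left h, max_eq_right (by linarith), abs_of_nonneg h, add_zero]
  · rw [max_eq_right h, max_eq_left (by linarith), abs_of_nonpos h, zero_add]

/-- MODULE Q18f. -/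
theorem pow_low {q Y X : ℝ} (hq : 1 ≤ q) (hY : 0 < Y) (hX : 0 < X) (hX1 : X ≤ 1) :
    -(Y * (1 - X)) - Y * max (Y - 1) 0 / (q + 1) ≤ (Y * X) ^ (q / (q + 1)) - Y := by
  have hZ : 0 < Y * X := mul_pos hY hX
  have hZY : Y * X ≤ Y := by nlinarith
  have hq1 : 0 < q + 1 := by linarith
  suffices h : Y * X - Y * max (Y - 1) 0 / (q + 1) ≤ (Y * X) ^ (q / (q + 1)) by linarith
  have hm : 0 ≤ Y * max (Y - 1) 0 / (q + 1) :=
    div_nonneg (mul_nonneg hY.le (le_max_right _ _)) hq1.le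
  rcases le_total (Y * X) 1 with h1 | h1
  · have h2 : Y * X ≤ (Y * X) ^ (q / (q + 1)) := by
      have h3 : q / (q + 1) ≤ 1 := by
        rw [div_le_one hq1]
        linarith
      calc Y * X = (Y * X) ^ (1 : ℝ) := (rpow_one _).symm
        _ ≤ _ := rpow_le_rpow_of_exponent_ge hZ h1 h3
    linarith
  · have h2 : (Y * X) ^ (q / (q + 1)) = Y * X * (Y * X) ^ (-(1 / (q + 1))) := by
      have h3 : q / (q + 1) = 1 + -(1 / (q + 1)) := by
        field_simp
        ring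
      rw [h3, rpow_add hZ, rpow_one]
    have h4 : 1 - (Y * X - 1) / (q + 1) ≤ (Y * X) ^ (-(1 / (q + 1))) := by
      rw [rpow_def_of_pos hZ]
      have h5 := add_one_le_exp (log (Y * X) * -(1 / (q + 1)))
      have h6 : log (Y * X) ≤ Y * X - 1 := log_le_sub_one_of_pos hZ
      have h7 : log (Y * X) / (q + 1) ≤ (Y * X - 1) / (q + 1) := by gcongr
      have h8 : log (Y * X) * -(1 / (q + 1)) = -(log (Y * X) / (q + 1)) := by ring
      rw [h8] at h5 ⊢
      linarith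
    have h9 : Y * X * ((Y * X - 1) / (q + 1)) ≤ Y * max (Y - 1) 0 / (q + 1) := by
      rw [← mul_div_assoc]
      have h12 : Y * X - 1 ≤ max (Y - 1) 0 := le_trans (by linarith) (le_max_left _ _)
      gcongr
    rw [h2]
    have h10 := mul_le_mul_of_nonneg_left h4 hZ.le
    have h11 : Y * X * (1 - (Y * X - 1) / (q + 1)) = Y * X - Y * X * ((Y * X - 1) / (q + 1)) := by ring
    rw [h11] at h10
    linarith

end

end Pool.Agent.RieszSq
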