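import Pool.Agent.RieszSq.Defs

set_option autoImplicit false

open Real Finset

namespace Pool.Agent.RieszSq

section

variable {ι : Type*} [Fintype ι] [DecidableEq ι]

/-- MODULE Q5a. -/
theorem offS_eq (S : Finset ι) (f : ι → ι → ℝ) :
    offS S f = ∑ i ∈ S, ∑ j ∈ S, f i j - ∑ i ∈ S, f i i := by
  unfold offS
  rw [← Finset.sum_sub_distrib]
  refine Finset.sum_congr rfl fun i hi => ?_
  have h1 : ∑ j ∈ S, f i j = ∑ j ∈ S, (if i = j then 0 else f i j) + f i i := by
    have h2 : ∀ j ∈ S, f i j = (if i = j then 0 else f i j) + (if i = j then f i i else 0) := by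
      intro j _
      by_cases h : i = j
      · subst h; simp
      · simp [h]
    rw [Finset.sum_congr rfl h2, Finset.sum_add_distrib, Finset.sum_ite_eq]
    simp [hi]
  rw [h1]
  ring

/-- MODULE Q5b. -/
theorem offS_le {S : Finset ι} {f g : ι → ι → ℝ}
    (h : ∀ i ∈ S, ∀ j ∈ S, i ≠ j → f i j ≤ g i j) : offS S f ≤ offS S g := by
  unfold offS
  refine Finset.sum_le_sum fun i hi => Finset.sum_le_sum fun j hj => ?_
  by_cases hij : i = j
  · simp [hij]
  · simp only [hij, if_false]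
    exact h i hi j hj hij

/-- MODULE Q5c. -/
theorem offS_mul (S : Finset ι) (c : ℝ) (f : ι → ι → ℝ) :
    offS S (fun i j => c * f i j) = c * offS S f := by
  unfold offS
  rw [Finset.mul_sum]
  refine Finset.sum_congr rfl fun i _ => ?_
  rw [Finset.mul_sum]
  refine Finset.sum_congr rfl fun j _ => ?_
  by_cases hij : i = j
  · simp [hij]
  · simp [hij]

/-- MODULE Q5d. two terms of a nonnegative symmetric sum -/
theorem offS_ge_pair {S : Finset ι} {f : ι → ι → ℝ} (hf : ∀ i ∈ S, ∀ j ∈ S, 0 ≤ f i j)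
    {i j : ι} (hi : i ∈ S) (hj : j ∈ S) (hij : i ≠ j) (hs : f i j = f j i) :
    2 * f i j ≤ offS S f := by
  have h0 : ∀ a ∈ S, ∀ b ∈ S, 0 ≤ (if a = b then 0 else f a b) := by
    intro a ha b hb
    split_ifs
    · exact le_rfl
    · exact hf a ha b hb
  have h1 : ∀ a ∈ S, 0 ≤ ∑ b ∈ S, (if a = b then 0 else f a b) := fun a ha =>
    Finset.sum_nonneg (h0 a ha)
  have h2 : f i j ≤ ∑ b ∈ S, (if i = b then 0 else f i b) := by
    have := Finset.single_le_sum (f := fun b => if i = b then 0 else f i b) (h0 i hi) hj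
    simpa [hij] using this
  have h3 : f j i ≤ ∑ b ∈ S, (if j = b then 0 else f j b) := by
    have := Finset.single_le_sum (f := fun b => if j = b then 0 else f j b) (h0 j hj) hi
    simpa [hij.symm] using this
  have h4 : ∑ a ∈ ({i, j} : Finset ι), ∑ b ∈ S, (if a = b then 0 else f a b) ≤
      ∑ a ∈ S, ∑ b ∈ S, (if a = b then 0 else f a b) := by
    refine Finset.sum_le_sum_of_subset_of_nonneg ?_ fun a ha _ => h1 a ha
    intro a ha
    simp only [Finset.mem_insert, Finset.mem_singleton] at ha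
    rcases ha with rfl | rfl <;> assumption
  rw [Finset.sum_pair hij] at h4
  unfold offS
  linarith

/-- MODULE Q5e (splitting over the partition). -/
theorem offs_split {HP HQ L : Finset ι} (h1 : Disjoint HP HQ) (h2 : Disjoint HP L)
    (h3 : Disjoint HQ L) (hun : HP ∪ HQ ∪ L = univ) {f : ι → ι → ℝ} (hf : ∀ i j, f i j = f j i) :
    offs f = offS HP f + offS HQ f + offS L f + 2 * ∑ i ∈ HP, ∑ j ∈ HQ, f i j
      + 2 * ∑ i ∈ HP, ∑ z ∈ L, f i z + 2 * ∑ i ∈ HQ, ∑ z ∈ L, f i z := by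
  have hu : ∀ g : ι → ℝ, ∑ i, g i = ∑ i ∈ HP, g i + ∑ i ∈ HQ, g i + ∑ i ∈ L, g i := by
    intro g
    rw [← hun, Finset.sum_union, Finset.sum_union h1]
    rw [Finset.disjoint_union_left]
    exact ⟨h2, h3⟩
  have h0 : offs f = ∑ i, ∑ j, f i j - ∑ i, f i i := offS_eq univ f
  rw [h0, offS_eq, offS_eq, offS_eq]
  simp only [hu, Finset.sum_add_distrib]
  have e1 : ∑ i ∈ HQ, ∑ j ∈ HP, f i j = ∑ i ∈ HP, ∑ j ∈ HQ, f i j := by
    rw [Finset.sum_comm]
    exact Finset.sum_congr rfl fun i _ => Finset.sum_congr rfl fun j _ => hf _ _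
  have e2 : ∑ i ∈ L, ∑ j ∈ HP, f i j = ∑ i ∈ HP, ∑ j ∈ L, f i j := by
    rw [Finset.sum_comm]
    exact Finset.sum_congr rfl fun i _ => Finset.sum_congr rfl fun j _ => hf _ _
  have e3 : ∑ i ∈ L, ∑ j ∈ HQ, f i j = ∑ i ∈ HQ, ∑ j ∈ L, f i j := by
    rw [Finset.sum_comm]
    exact Finset.sum_congr rfl fun i _ => Finset.sum_congr rfl fun j _ => hf _ _
  rw [e1, e2, e3]
  ring

end

end Pool.Agent.RieszSq
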