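import Pool.Agent.RieszSq.SumW
import Pool.Agent.RieszSq.KcVal
import Pool.Agent.RieszSq.SplitS

set_option autoImplicit false

open Real Finset

namespace Pool.Agent.RieszSq

namespace SumLLAux

/-- one pair of light points -/
theorem pair_LL {q g x d : ℝ} (hq : 0 < q) (hg : 0 < g) (hx : 0 < x)
    (ex : x ^ 2 = (1 + g) ^ (-(q + 1))) :
    x ^ 2 * (1 + g) * ((q + 1) * ((exp d + exp (-d)) / 2) - (d * exp d - d * exp (-d)) / 2)
      ≤ (q + 1) * (x ^ 2 * ((exp d + exp (-d)) / 2)) ^ (q / (q + 1)) := by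
  have hX : 0 < (exp d + exp (-d)) / 2 := by positivity
  have hx2 : 0 < x ^ 2 := by positivity
  have hD : 0 < 1 + g := by linarith
  have h1 := tanK hq (mul_pos hx2 hX) hD
  have hl : log (x ^ 2 * ((exp d + exp (-d)) / 2))
      = -(q + 1) * log (1 + g) + log ((exp d + exp (-d)) / 2) := by
    rw [log_mul hx2.ne' hX.ne', ex, log_rpow hD]
  rw [hl] at h1
  have h2 := ent_avg (exp_pos d) (exp_pos (-d))
  rw [log_exp, log_exp] at h2
  have h3 : 0 < x ^ 2 * (1 + g) := mul_pos hx2 hD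
  have h4 := mul_le_mul_of_nonneg_left h2 h3.le
  nlinarith [h1, h4]

/-- the double sum of `X` -/
theorem sum_X {ι : Type*} (L : Finset ι) (th : ι → ℝ) :
    ∑ y ∈ L, ∑ z ∈ L, (exp (th y - th z) + exp (-(th y - th z))) / 2 = Se L th * Sf L th := by
  have e1 : ∀ y z : ι, exp (th y - th z) = exp (th y) * exp (-th z) := by
    intro y z
    rw [← exp_add]; ring_nf
  have e2 : ∀ y z : ι, exp (-(th y - th z)) = exp (th z) * exp (-th y) := by
    intro y z
    rw [← exp_add]; ring_nf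
  have e3 : ∑ y ∈ L, ∑ z ∈ L, exp (th y) * exp (-th z) = Se L th * Sf L th := by
    rw [Se, Sf, Finset.sum_mul_sum]
  have e4 : ∑ y ∈ L, ∑ z ∈ L, exp (th z) * exp (-th y) = Se L th * Sf L th := by
    rw [Finset.sum_comm, e3]
  calc ∑ y ∈ L, ∑ z ∈ L, (exp (th y - th z) + exp (-(th y - th z))) / 2
      = (∑ y ∈ L, ∑ z ∈ L, exp (th y) * exp (-th z)
          + ∑ y ∈ L, ∑ z ∈ L, exp (th z) * exp (-th y)) / 2 := by
        rw [← Finset.sum_add_distrib, Finset.sum_div]
        refine Finset.sum_congr rfl fun y _ => ?_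
        rw [← Finset.sum_add_distrib, Finset.sum_div]
        refine Finset.sum_congr rfl fun z _ => ?_
        rw [e1, e2]
    _ = Se L th * Sf L th := by rw [e3, e4]; ring

/-- the double sum of `Δ e^Δ` -/
theorem sum_D {ι : Type*} (L : Finset ι) (th : ι → ℝ) :
    ∑ y ∈ L, ∑ z ∈ L, ((th y - th z) * exp (th y - th z)
        - (th y - th z) * exp (-(th y - th z))) / 2
      = Sf L th * Set' L th - Se L th * Sft L th := by
  have e1 : ∀ y z : ι, exp (th y - th z) = exp (th y) * exp (-th z) := by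
    intro y z
    rw [← exp_add]; ring_nf
  have e2 : ∀ y z : ι, exp (-(th y - th z)) = exp (th z) * exp (-th y) := by
    intro y z
    rw [← exp_add]; ring_nf
  have e3 : ∑ y ∈ L, ∑ z ∈ L, (th y * exp (th y)) * exp (-th z) = Set' L th * Sf L th := by
    rw [Set', Sf, Finset.sum_mul_sum]
  have e4 : ∑ y ∈ L, ∑ z ∈ L, exp (th y) * (th z * exp (-th z)) = Se L th * Sft L th := by
    rw [Se, Sft, Finset.sum_mul_sum]
  have e5 : ∑ y ∈ L, ∑ z ∈ L, (th z * exp (th z)) * exp (-th y) = Set' L th * Sf L th := by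
    rw [Finset.sum_comm, e3]
  have e6 : ∑ y ∈ L, ∑ z ∈ L, exp (th z) * (th y * exp (-th y)) = Se L th * Sft L th := by
    rw [Finset.sum_comm, e4]
  calc ∑ y ∈ L, ∑ z ∈ L, ((th y - th z) * exp (th y - th z)
        - (th y - th z) * exp (-(th y - th z))) / 2
      = ((∑ y ∈ L, ∑ z ∈ L, (th y * exp (th y)) * exp (-th z)
          - ∑ y ∈ L, ∑ z ∈ L, exp (th y) * (th z * exp (-th z)))
          + (∑ y ∈ L, ∑ z ∈ L, (th z * exp (th z)) * exp (-th y)
          - ∑ y ∈ L, ∑ z ∈ L, exp (th z) * (th y * exp (-th y)))) / 2 := by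
        rw [← Finset.sum_sub_distrib, ← Finset.sum_sub_distrib, ← Finset.sum_add_distrib,
          Finset.sum_div]
        refine Finset.sum_congr rfl fun y _ => ?_
        rw [← Finset.sum_sub_distrib, ← Finset.sum_sub_distrib, ← Finset.sum_add_distrib,
          Finset.sum_div]
        refine Finset.sum_congr rfl fun z _ => ?_
        rw [e1, e2]
        ring
    _ = Sf L th * Set' L th - Se L th * Sft L th := by rw [e3, e4, e5, e6]; ring

/-- `(2^(-p) k)^(q/p) = 2 (1-w) 2^(-p) k` -/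
theorem epk_rpow {q w k : ℝ} (hq : 0 < q) (hw : w < 1) (ek : k = (1 - w) ^ (-(q + 1))) :
    (ep q * k) ^ (q / (q + 1)) = ep q * k * (2 * (1 - w)) := by
  have h1 : (0 : ℝ) < 1 - w := by linarith
  have h2 : ep q * k = (2 * (1 - w)) ^ (-(q + 1)) := by
    rw [ep, ek, mul_rpow (by norm_num) h1.le]
  have h3 : (0 : ℝ) < 2 * (1 - w) := by linarith
  have h4 : (q + 1) ≠ 0 := by linarith
  rw [h2, ← rpow_mul h3.le]
  have h5 : -(q + 1) * (q / (q + 1)) = -(q + 1) + 1 := by
    field_simp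
    ring
  rw [h5, rpow_add h3, rpow_one]

end SumLLAux

section

variable {ι : Type*} [Fintype ι] [DecidableEq ι]
variable {n : ℕ} {q a g w k B t x U V : ℝ} {HP HQ L : Finset ι} {wt th : ι → ℝ}

/-- MODULE Q7a (light against light). `K = x² X`, `X = (e^Δ + e^(-Δ))/2`, `Δ = θ_y - θ_z`; `tanK`
with `D = 1 + g`, `2 log x = -p log (1+g)` gives `p K^(q/p) ≥ x² (1+g) X (p - log X)`.
`∑_{y≠z} X = Se Sf - |L|`; `X log X ≤ (Δ e^Δ - Δ e^(-Δ))/2` (`ent_avg`), and the sum of the right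
side over all pairs is `∑_{y,z} Δ e^Δ = Set' Sf - Se Sft` (the diagonal vanishes). -/
theorem sum_LL (h : Par n q a g w k B t x) (hc : Cf n B x HP HQ L wt th U V) :
    x ^ 2 * (1 + g) * ((q + 1) * (Se L th * Sf L th - L.card)
        - (Sf L th * Set' L th - Se L th * Sft L th))
      ≤ (q + 1) * offS L (fun y z => Kc B t x U V HP HQ wt th y z ^ (q / (q + 1))) := by
  have hq : 0 < q := lt_of_lt_of_le one_pos h.q1
  rw [← offS_mul]
  have h1 : offS L (fun y z => x ^ 2 * (1 + g) * ((q + 1) *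
        ((exp (th y - th z) + exp (-(th y - th z))) / 2)
        - ((th y - th z) * exp (th y - th z) - (th y - th z) * exp (-(th y - th z))) / 2))
      ≤ offS L (fun y z => (q + 1) * Kc B t x U V HP HQ wt th y z ^ (q / (q + 1))) := by
    refine offS_le fun y hy z hz _ => ?_
    rw [Kc_LL hc hy hz]
    exact SumLLAux.pair_LL hq h.g0 h.x0 h.ex
  refine le_trans (le_of_eq ?_) h1
  rw [offS_eq]
  have h2 : ∑ i ∈ L, (x ^ 2 * (1 + g) * ((q + 1) *
        ((exp (th i - th i) + exp (-(th i - th i))) / 2)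
        - ((th i - th i) * exp (th i - th i) - (th i - th i) * exp (-(th i - th i))) / 2))
      = x ^ 2 * (1 + g) * (q + 1) * L.card := by
    have h3 : ∀ i ∈ L, (x ^ 2 * (1 + g) * ((q + 1) *
        ((exp (th i - th i) + exp (-(th i - th i))) / 2)
        - ((th i - th i) * exp (th i - th i) - (th i - th i) * exp (-(th i - th i))) / 2))
        = x ^ 2 * (1 + g) * (q + 1) := by
      intro i _
      simp
    rw [Finset.sum_congr rfl h3, Finset.sum_const, nsmul_eq_mul]
    ring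
  have h4 : ∑ y ∈ L, ∑ z ∈ L, (x ^ 2 * (1 + g) * ((q + 1) *
        ((exp (th y - th z) + exp (-(th y - th z))) / 2)
        - ((th y - th z) * exp (th y - th z) - (th y - th z) * exp (-(th y - th z))) / 2))
      = x ^ 2 * (1 + g) * ((q + 1) * (Se L th * Sf L th)
          - (Sf L th * Set' L th - Se L th * Sft L th)) := by
    rw [← SumLLAux.sum_X, ← SumLLAux.sum_D, Finset.mul_sum, ← Finset.sum_sub_distrib,
      Finset.mul_sum]
    refine Finset.sum_congr rfl fun y _ => ?_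
    rw [Finset.mul_sum, ← Finset.sum_sub_distrib, Finset.mul_sum]
  rw [h2, h4]
  ring

/-- MODULE Q7b (heavy points of the same side). `offS_ge_pair` and
`(ep k Z)^(q/p) = (ep k)^(q/p) Z^(q/p)`, `(ep k)^(q/p) = ep k · (ep k)^(-1/p) = ep k · 2 (1 - w)`
(`ep k = (2 (1-w))^(-p)`). -/
theorem sum_PP (h : Par n q a g w k B t x) (hc : Cf n B x HP HQ L wt th U V) {p1 p2 : ι}
    (h1 : p1 ∈ HP) (h2 : p2 ∈ HP) (hne : p1 ≠ p2) :
    4 * (q + 1) * (ep q * k) * (1 - w) * (4 * U * V * (wt p1 * wt p2)) ^ (q / (q + 1))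
      ≤ (q + 1) * offS HP (fun y z => Kc B t x U V HP HQ wt th y z ^ (q / (q + 1))) := by
  have hq : 0 < q := lt_of_lt_of_le one_pos h.q1
  have h3 := offS_ge_pair (S := HP)
    (f := fun y z => Kc B t x U V HP HQ wt th y z ^ (q / (q + 1)))
    (fun i _ j _ => (rpow_pos_of_pos (Kc_pos h hc i j) _).le) h1 h2 hne
    (by simp only [Kc_symm (HP := HP) (HQ := HQ) (wt := wt) (th := th) p1 p2])
  have h4 : 0 < ep q * k := mul_pos h.ep_pos.1 h.k0
  have h5 : 0 < 4 * U * V * (wt p1 * wt p2) := by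
    have := hc.U0; have := hc.V0; have := hc.wP p1 h1; have := hc.wP p2 h2
    positivity
  have h6 : Kc B t x U V HP HQ wt th p1 p2 ^ (q / (q + 1))
      = ep q * k * (2 * (1 - w)) * (4 * U * V * (wt p1 * wt p2)) ^ (q / (q + 1)) := by
    rw [Kc_PP h h1 h2, mul_rpow h4.le h5.le, SumLLAux.epk_rpow hq h.w1 h.ek]
  simp only [h6] at h3
  have h7 : 0 < q + 1 := by linarith
  have h8 := mul_le_mul_of_nonneg_left h3 h7.le
  refine le_trans (le_of_eq ?_) h8
  ring

theorem sum_QQ (h : Par n q a g w k B t x) (hc : Cf n B x HP HQ L wt th U V) {q1 q2 : ι}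
    (h1 : q1 ∈ HQ) (h2 : q2 ∈ HQ) (hne : q1 ≠ q2) :
    4 * (q + 1) * (ep q * k) * (1 - w) * (4 * U * V * (wt q1 * wt q2)) ^ (q / (q + 1))
      ≤ (q + 1) * offS HQ (fun y z => Kc B t x U V HP HQ wt th y z ^ (q / (q + 1))) := by
  have hq : 0 < q := lt_of_lt_of_le one_pos h.q1
  have h3 := offS_ge_pair (S := HQ)
    (f := fun y z => Kc B t x U V HP HQ wt th y z ^ (q / (q + 1)))
    (fun i _ j _ => (rpow_pos_of_pos (Kc_pos h hc i j) _).le) h1 h2 hne
    (by simp only [Kc_symm (HP := HP) (HQ := HQ) (wt := wt) (th := th) q1 q2])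
  have h4 : 0 < ep q * k := mul_pos h.ep_pos.1 h.k0
  have h5 : 0 < 4 * U * V * (wt q1 * wt q2) := by
    have := hc.U0; have := hc.V0; have := hc.wQ q1 h1; have := hc.wQ q2 h2
    positivity
  have h6 : Kc B t x U V HP HQ wt th q1 q2 ^ (q / (q + 1))
      = ep q * k * (2 * (1 - w)) * (4 * U * V * (wt q1 * wt q2)) ^ (q / (q + 1)) := by
    rw [Kc_QQ h hc h1 h2, mul_rpow h4.le h5.le, SumLLAux.epk_rpow hq h.w1 h.ek]
  simp only [h6] at h3
  have h7 : 0 < q + 1 := by linarith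
  have h8 := mul_le_mul_of_nonneg_left h3 h7.le
  refine le_trans (le_of_eq ?_) h8
  ring

end

end Pool.Agent.RieszSq
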