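import Pool.Agent.RieszSq.SumW
import Pool.Agent.RieszSq.KcVal

set_option autoImplicit false

open Real Finset

namespace Pool.Agent.RieszSq

section

variable {ι : Type*} [Fintype ι] [DecidableEq ι]
variable {n : ℕ} {q a g w k B t x U V : ℝ} {HP HQ L : Finset ι} {wt th : ι → ℝ}

namespace SumTLAux

omit [Fintype ι] [DecidableEq ι] in
/-- one light point, one side -/
theorem one_side {S : Finset ι} (hw : ∀ i ∈ S, 0 < wt i) (hs : ∑ i ∈ S, wt i = 1)
    (hq : 0 < q) (hBx : 0 < B * x) (ha : 0 < 1 + a)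
    (eY : B * x = (1 + a) ^ (-(q + 1))) {X : ℝ} (hX : 0 < X) {f : ι → ℝ}
    (hf : ∀ i ∈ S, f i = 2 * (B * x) * X * wt i) :
    2 * (B * x) * (1 + a) * ((q + 1) * X - X * log X - hh S wt * X)
      ≤ ∑ i ∈ S, (q + 1) * f i ^ (q / (q + 1)) := by
  have h1 := sum_one hw hs hq (C := 2 * (B * x) * X) (D := 1 + a) (by positivity) ha
  have h2 : log (2 * (B * x) * X) = log 2 - (q + 1) * log (1 + a) + log X := by
    rw [log_mul (by positivity) hX.ne', log_mul (by norm_num) hBx.ne', eY, log_rpow ha]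
    ring
  rw [h2] at h1
  have h3 : ∑ i ∈ S, (q + 1) * f i ^ (q / (q + 1))
      = ∑ i ∈ S, (q + 1) * (2 * (B * x) * X * wt i) ^ (q / (q + 1)) :=
    sum_congr rfl fun i hi => by rw [hf i hi]
  rw [h3]
  refine le_trans (le_of_eq ?_) h1
  ring

end SumTLAux

/-- MODULE Q6a (heavy against heavy of the other side). `sum_two` with `C = 4 k U V`, `D = 1 - w`:
`log C = 2 log 2 + log k + log U + log V`, `log k = -p log (1-w)`. -/
theorem sum_PQ (h : Par n q a g w k B t x) (hc : Cf n B x HP HQ L wt th U V) :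
    4 * k * (1 - w) * U * V * ((q + 1) - log U - log V - hh HP wt - hh HQ wt)
      ≤ ∑ i ∈ HP, ∑ j ∈ HQ, (q + 1) * Kc B t x U V HP HQ wt th i j ^ (q / (q + 1)) := by
  have hk := h.k0
  have hU := hc.U0
  have hV := hc.V0
  have hw1 : 0 < 1 - w := sub_pos.2 h.w1
  have h1 := sum_two hc.wP hc.sP hc.wQ hc.sQ (q := q) (by linarith [h.q1])
    (C := 4 * k * U * V) (D := 1 - w) (by positivity) hw1
  have h2 : log (4 * k * U * V) = 2 * log 2 - (q + 1) * log (1 - w) + log U + log V := by
    rw [log_mul (by positivity) hV.ne', log_mul (by positivity) hU.ne',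
      log_mul (by norm_num) hk.ne', h.ek, log_rpow hw1]
    have h4 : log (4 : ℝ) = 2 * log 2 := by
      rw [show (4 : ℝ) = 2 ^ 2 by norm_num, log_pow]
      push_cast
      ring
    rw [h4]
    ring
  rw [h2] at h1
  have h3 : ∑ i ∈ HP, ∑ j ∈ HQ, (q + 1) * Kc B t x U V HP HQ wt th i j ^ (q / (q + 1))
      = ∑ i ∈ HP, ∑ j ∈ HQ, (q + 1) * (4 * k * U * V * (wt i * wt j)) ^ (q / (q + 1)) :=
    sum_congr rfl fun i hi => sum_congr rfl fun j hj => by rw [Kc_PQ h hc hi hj]
  rw [h3]
  refine le_trans (le_of_eq ?_) h1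
  ring

/-- MODULE Q6b (heavy against light). For `z ∈ L` put `A1 = U exp (-θ)`, `A2 = V exp θ`,
`X = (1-δ) A1 + δ A2`, `X' = (1-δ) A2 + δ A1`. `sum_one` with `C = 2 B x X` (`C = 2 B x X'`),
`D = 1 + a`, `log (B x) = -p log (1+a)` gives
`∑_{HP} ≥ 2 B x (1+a) X (p - log X - hh HP)` and `∑_{HQ} ≥ 2 B x (1+a) X' (p - log X' - hh HQ)`.
`X + X' = A1 + A2`, `X log X + X' log X' ≤ A1 log A1 + A2 log A2` (`ent_mix`),
`log A1 = log U - θ`, `log A2 = log V + θ`. Sum over `z ∈ L`. -/
theorem sum_TL (h : Par n q a g w k B t x) (hc : Cf n B x HP HQ L wt th U V) :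
    2 * (B * x) * (1 + a) * ((q + 1) * (U * Sf L th + V * Se L th)
        - (U * Sf L th * log U - U * Sft L th + V * Se L th * log V + V * Set' L th)
        - hh HP wt * ((1 - del B t) * (U * Sf L th) + del B t * (V * Se L th))
        - hh HQ wt * ((1 - del B t) * (V * Se L th) + del B t * (U * Sf L th)))
      ≤ ∑ i ∈ HP, ∑ z ∈ L, (q + 1) * Kc B t x U V HP HQ wt th i z ^ (q / (q + 1))
        + ∑ i ∈ HQ, ∑ z ∈ L, (q + 1) * Kc B t x U V HP HQ wt th i z ^ (q / (q + 1)) := by
  have hU := hc.U0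
  have hV := hc.V0
  have hq : 0 < q := by linarith [h.q1]
  have hBx : 0 < B * x := mul_pos h.B0 h.x0
  have ha : 0 < 1 + a := by linarith [h.a0]
  obtain ⟨hd0, -, hd1, hd2⟩ := h.del_bd
  have hdlt : del B t < 1 := by
    have h1 : 0 < B + t := add_pos h.B0 h.t0
    rw [hd1] at h1
    by_contra hcon
    push Not at hcon
    have h2 : 2 * B * (1 - del B t) ≤ 0 :=
      mul_nonpos_of_nonneg_of_nonpos (by linarith [h.B0]) (by linarith)
    linarith
  -- one light point
  have key : ∀ z ∈ L,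
      2 * (B * x) * (1 + a) * ((q + 1) * (U * exp (-th z) + V * exp (th z))
        - (U * exp (-th z) * log U - U * (th z * exp (-th z)) + V * exp (th z) * log V
          + V * (th z * exp (th z)))
        - hh HP wt * ((1 - del B t) * (U * exp (-th z)) + del B t * (V * exp (th z)))
        - hh HQ wt * ((1 - del B t) * (V * exp (th z)) + del B t * (U * exp (-th z))))
      ≤ ∑ i ∈ HP, (q + 1) * Kc B t x U V HP HQ wt th i z ^ (q / (q + 1))
        + ∑ i ∈ HQ, (q + 1) * Kc B t x U V HP HQ wt th i z ^ (q / (q + 1)) := by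
    intro z hz
    obtain ⟨A1, hA1⟩ : ∃ A1, A1 = U * exp (-th z) := ⟨_, rfl⟩
    obtain ⟨A2, hA2⟩ : ∃ A2, A2 = V * exp (th z) := ⟨_, rfl⟩
    have hA1p : 0 < A1 := by rw [hA1]; positivity
    have hA2p : 0 < A2 := by rw [hA2]; positivity
    have hd' : 0 < 1 - del B t := by linarith
    have hX : 0 < (1 - del B t) * A1 + del B t * A2 := by positivity
    have hX' : 0 < (1 - del B t) * A2 + del B t * A1 := by positivity
    have h1 := SumTLAux.one_side hc.wP hc.sP hq hBx ha h.eY hX
      (f := fun i => Kc B t x U V HP HQ wt th i z) fun i hi => by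
        rw [Kc_PL h hc hi hz, hA1, hA2]
    have h2 := SumTLAux.one_side hc.wQ hc.sQ hq hBx ha h.eY hX'
      (f := fun i => Kc B t x U V HP HQ wt th i z) fun i hi => by
        rw [Kc_QL h hc hi hz, hA1, hA2]
    have h3 := ent_mix hA1p hA2p hd0.le hdlt.le
    have hl1 : A1 * log A1 = U * exp (-th z) * log U - U * (th z * exp (-th z)) := by
      rw [hA1, log_mul hU.ne' (exp_pos _).ne', log_exp]
      ring
    have hl2 : A2 * log A2 = V * exp (th z) * log V + V * (th z * exp (th z)) := by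
      rw [hA2, log_mul hV.ne' (exp_pos _).ne', log_exp]
      ring
    have hP : 0 < 2 * (B * x) * (1 + a) := by positivity
    have h4 := mul_le_mul_of_nonneg_left h3 hP.le
    rw [hl1, hl2] at h4
    rw [← hA1, ← hA2] at h4 ⊢
    refine le_trans ?_ (add_le_add h1 h2)
    have h5 : 2 * (B * x) * (1 + a) * ((q + 1) * (A1 + A2)
        - (A1 * log U - U * (th z * exp (-th z)) + A2 * log V
          + V * (th z * exp (th z)))
        - hh HP wt * ((1 - del B t) * A1 + del B t * A2)
        - hh HQ wt * ((1 - del B t) * A2 + del B t * A1))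
        = 2 * (B * x) * (1 + a) * ((q + 1) * (A1 + A2)
        - hh HP wt * ((1 - del B t) * A1 + del B t * A2)
        - hh HQ wt * ((1 - del B t) * A2 + del B t * A1))
        - 2 * (B * x) * (1 + a) * (A1 * log U - U * (th z * exp (-th z)) + (A2 * log V
          + V * (th z * exp (th z)))) := by ring
    rw [h5]
    have h6 : 2 * (B * x) * (1 + a) * ((q + 1) * ((1 - del B t) * A1 + del B t * A2)
        - ((1 - del B t) * A1 + del B t * A2) * log ((1 - del B t) * A1 + del B t * A2)
        - hh HP wt * ((1 - del B t) * A1 + del B t * A2))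
        + 2 * (B * x) * (1 + a) * ((q + 1) * ((1 - del B t) * A2 + del B t * A1)
        - ((1 - del B t) * A2 + del B t * A1) * log ((1 - del B t) * A2 + del B t * A1)
        - hh HQ wt * ((1 - del B t) * A2 + del B t * A1))
        = 2 * (B * x) * (1 + a) * ((q + 1) * (A1 + A2)
        - hh HP wt * ((1 - del B t) * A1 + del B t * A2)
        - hh HQ wt * ((1 - del B t) * A2 + del B t * A1))
        - 2 * (B * x) * (1 + a) * (((1 - del B t) * A1 + del B t * A2)
          * log ((1 - del B t) * A1 + del B t * A2)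
          + ((1 - del B t) * A2 + del B t * A1) * log ((1 - del B t) * A2 + del B t * A1)) := by
      ring
    rw [h6]
    linarith
  have h1 := sum_le_sum key
  rw [sum_add_distrib] at h1
  rw [sum_comm (s := HP), sum_comm (s := HQ)]
  refine le_trans (le_of_eq ?_) h1
  unfold Se Sf Set' Sft
  simp only [mul_sub, mul_add, sum_sub_distrib, sum_add_distrib, mul_sum, sum_mul]

end

end Pool.Agent.RieszSq
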