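import Pool.Agent.RieszSq.Alg
import Pool.Agent.RieszSq.SumTL
import Pool.Agent.RieszSq.SumLL

set_option autoImplicit false

open Real Finset

namespace Pool.Agent.RieszSq

section

variable {ι : Type*} [Fintype ι] [DecidableEq ι]
variable {n : ℕ} {q a g w k B t x U V : ℝ} {HP HQ L : Finset ι} {wt th : ι → ℝ}

/-- MODULE Q8. `offs_split` (for `f = K^(q/p)`, symmetric by `Kc_symm`), `sum_PQ`, `sum_TL`,
`sum_LL`, `sum_PP`, `sum_QQ`. -/
theorem raw_le (h : Par n q a g w k B t x) (hc : Cf n B x HP HQ L wt th U V) {p1 p2 q1 q2 : ι}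
    (h1 : p1 ∈ HP) (h2 : p2 ∈ HP) (hne : p1 ≠ p2) (h3 : q1 ∈ HQ) (h4 : q2 ∈ HQ)
    (hne' : q1 ≠ q2) :
    Raw q a g w k B t x HP HQ L wt th U V (wt p1 * wt p2) (wt q1 * wt q2)
      ≤ (q + 1) * offs (fun i j => Kc B t x U V HP HQ wt th i j ^ (q / (q + 1))) := by
  have e := offs_split hc.dPQ hc.dPL hc.dQL hc.un
    (f := fun i j => Kc B t x U V HP HQ wt th i j ^ (q / (q + 1)))
    (fun i j => by show Kc B t x U V HP HQ wt th i j ^ (q / (q + 1))
                        = Kc B t x U V HP HQ wt th j i ^ (q / (q + 1))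
                   rw [Kc_symm])
  have s1 := sum_PQ h hc
  have s2 := sum_TL h hc
  have s3 := sum_LL h hc
  have s4 := sum_PP h hc h1 h2 hne
  have s5 := sum_QQ h hc h3 h4 hne'
  simp only [← Finset.mul_sum] at s1 s2
  rw [e]
  unfold Raw
  linarith

/-- The lower bound of the certificate: `raw_le` and `raw_eq`. -/
theorem cert_le (h : Par n q a g w k B t x) (hc : Cf n B x HP HQ L wt th U V) {p1 p2 q1 q2 : ι}
    (h1 : p1 ∈ HP) (h2 : p2 ∈ HP) (hne : p1 ≠ p2) (h3 : q1 ∈ HQ) (h4 : q2 ∈ HQ)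
    (hne' : q1 ≠ q2) :
    (4 * B + n * x) ^ 2 + 16 * B ^ 2 * (1 + nu n B x)
        * Form n q a g w B t x HP HQ L wt th U V (wt p1 * wt p2) (wt q1 * wt q2)
      ≤ (q + 1) * offs (fun i j => Kc B t x U V HP HQ wt th i j ^ (q / (q + 1)))
        - q * (4 * B + n * x) ^ 2 := by
  have e1 := raw_le h hc h1 h2 hne h3 h4 hne'
  have e2 := raw_eq h hc (wt p1 * wt p2) (wt q1 * wt q2)
  linarith

end

end Pool.Agent.RieszSq
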