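import Pool.Agent.RieszSq.CertM
import Pool.Agent.RieszSq.Dual
import Pool.Agent.RieszSq.RawLe

set_option autoImplicit false

open Real Finset

namespace Pool.Agent.RieszSq

open Pool.Agent.RieszSmall (En)
open Pool.Agent.RieszF (Conf IsMin Splitting)

section

variable {ι : Type*} [Fintype ι] [DecidableEq ι]
variable {n : ℕ} {q a g w k B t x : ℝ} {be : ι → ℝ} {H : Finset ι} {p1 p2 q1 q2 : ι}

/-- MODULE Q28a. Everything together. `exists_Sc` gives the scale and the heavy set, `Sc.cf` the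
certificate data, `Sc.uv` and `Splitting.ax` give `∑ (u - v)_i y_i = 2 lam ∑ α_i y_i = 0`,
`sum_uu`, `sum_vv`, `Kc_pos`, `dual`, `cert_le`:
`(4B+nx)² ≥ En ≥ (q+1) offs K^(q/p) - q (4B+nx)² ≥ (4B+nx)² + 16 B² (1+ν) Form` and
`Form ≥ (j + c)/10` (`final` with `Sc.side`, `Sc.side'`, `split_U` for the splitting and for
`Splitting.neg`, `scale_U`, `Sc.U_ge`, `Sc.sinh_le`). So `j + c ≤ 0`, and because `j + c ≥ 0`
(`j ≥ 0`: `Sc.card_le`; `c ≥ 0`) also `Form ≥ 0` and `dual_eq` applies. -/
theorem cert_main (hE : Est n q a g w k B t x) (hcard : Fintype.card ι = n + 4) {V : Type*}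
    [NormedAddCommGroup V] [InnerProductSpace ℝ V] {y : ι → V} (hy : Conf y) {al b : ι → ℝ}
    (hs : Splitting q y al b) (hle : En q y ≤ (4 * B + n * x) ^ 2) :
    ∃ (be : ι → ℝ) (H : Finset ι) (p1 p2 q1 q2 : ι), Sc n B t x be H p1 p2 q1 q2 ∧
      jj n B x Hᶜ + cc B x Hᶜ (ang x be) ≤ 0 ∧
      SideC (hp H be) (wgt H be) (UU n B x H be) (eta B x)
        (eta B x * ∑ z ∈ Hᶜ, max (sinh (ang x be z)) 0) p1 p2 ∧
      SideC (hn H be) (wgt H be) (VV n B x H be) (eta B x)
        (eta B x * ∑ z ∈ Hᶜ, max (-sinh (ang x be z)) 0) q1 q2 ∧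
      ∀ i j, i ≠ j → (1 - inner ℝ (y i) (y j)) ^ (-(q + 1))
        = Kc B t x (UU n B x H be) (VV n B x H be) (hp H be) (hn H be) (wgt H be) (ang x be)
          i j := by
  have hq : (0 : ℝ) < q := by linarith [hE.q2000]
  have hP := hE.par
  obtain ⟨lam, H, p1, p2, q1, q2, hlam, hSc⟩ := exists_Sc hE hcard hs.asum hs.pos2 hs.neg2
  set be : ι → ℝ := fun z => lam * al z with hbe
  have hD : ∀ i j, i ≠ j → 49 / 50 ≤ 1 - (inner ℝ (y i) (y j) : ℝ) := fun i j hij =>
    dist_ge hq hy hle hE.logE hij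
  -- the U inequalities
  have hp1 : 0 < al p1 := by
    have h1 : 0 < lam * al p2 := hSc.p2pos
    have h2 : lam * al p2 ≤ lam * al p1 := hSc.ple
    exact (mul_pos_iff_of_pos_left hlam).1 (lt_of_lt_of_le h1 h2)
  have hmax : ∀ z, al z ≤ al p1 := by
    intro z
    by_cases hz : z = p1
    · rw [hz]
    · have h1 : lam * al z ≤ lam * al p2 := hSc.maxp z hz
      have h2 : lam * al p2 ≤ lam * al p1 := hSc.ple
      exact le_of_mul_le_mul_left (h1.trans h2) hlam
  have hU1 := scale_U (q := q) hlam (split_U hq hy hs hD hp1 hmax)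
  have hq1 : 0 < -al q1 := by
    have h1 : lam * al q2 < 0 := hSc.q2neg
    have h2 : lam * al q1 ≤ lam * al q2 := hSc.qle
    have h3 : 0 < lam * -al q1 := by linarith
    exact (mul_pos_iff_of_pos_left hlam).1 h3
  have hmaxq : ∀ z, -al z ≤ -al q1 := by
    intro z
    by_cases hz : z = q1
    · rw [hz]
    · have h1 : lam * al q2 ≤ lam * al z := hSc.maxq z hz
      have h2 : lam * al q1 ≤ lam * al q2 := hSc.qle
      have h3 := le_of_mul_le_mul_left (h2.trans h1) hlam
      linarith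
  have hU2 := scale_U (al := fun z => -al z) (q := q) hlam (split_U hq hy hs.neg hD hq1 hmaxq)
  have hside := hSc.side hE hU1
  have hside' := hSc.side' hE (by simpa only [hbe, mul_neg] using hU2)
  obtain ⟨hU0, hV0⟩ := hSc.U_ge hE
  have hcf := hSc.cf hP
  have hfin := final hE hcf (hSc.sinh_le hP.x0) hside hside' hU0 hV0
  have hcert := cert_le hP hcf hside.m1 hside.m2 hside.ne hside'.m1 hside'.m2 hside'.ne
  -- the dual bound
  have huv : ∑ i, (uu B t x (UU n B x H be) (hp H be) (hn H be) (wgt H be) (ang x be) i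
      - vv B t x (VV n B x H be) (hp H be) (hn H be) (wgt H be) (ang x be) i) • y i = 0 := by
    have e : ∀ i, (uu B t x (UU n B x H be) (hp H be) (hn H be) (wgt H be) (ang x be) i
      - vv B t x (VV n B x H be) (hp H be) (hn H be) (wgt H be) (ang x be) i) • y i
      = (2 * lam) • (al i • y i) := by
      intro i
      rw [hSc.uv hP i, smul_smul]
      congr 1
      simp only [hbe]; ring
    rw [Finset.sum_congr rfl (fun i _ => e i), ← Finset.smul_sum, hs.ax, smul_zero]
  have hpos : ∀ i j, i ≠ j → 0 < (uu B t x (UU n B x H be) (hp H be) (hn H be) (wgt H be)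
      (ang x be) i * vv B t x (VV n B x H be) (hp H be) (hn H be) (wgt H be) (ang x be) j
      + vv B t x (VV n B x H be) (hp H be) (hn H be) (wgt H be) (ang x be) i
        * uu B t x (UU n B x H be) (hp H be) (hn H be) (wgt H be) (ang x be) j) / 2 :=
    fun i j _ => Kc_pos hP hcf i j
  have hdual := dual hy hq (sum_uu hP hcf) (sum_vv hP hcf) huv hpos
  have hsub : 0 < 16 * B ^ 2 * (1 + nu n B x) := by
    have h1 : 0 ≤ nu n B x := by
      unfold nu eta
      have := hP.x0; have := hP.B0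
      positivity
    have := hP.B0
    positivity
  have hdual' : (q + 1) * offs (fun i j => Kc B t x (UU n B x H be) (VV n B x H be) (hp H be)
      (hn H be) (wgt H be) (ang x be) i j ^ (q / (q + 1))) - q * (4 * B + n * x) ^ 2
      ≤ En q y := hdual
  have hF : Form n q a g w B t x (hp H be) (hn H be) Hᶜ (wgt H be) (ang x be) (UU n B x H be)
      (VV n B x H be) (wgt H be p1 * wgt H be p2) (wgt H be q1 * wgt H be q2) ≤ 0 := by
    by_contra hcon
    push Not at hcon
    have := mul_pos hsub hcon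
    linarith
  have hjc : jj n B x Hᶜ + cc B x Hᶜ (ang x be) ≤ 0 := by linarith
  have hj0 : 0 ≤ jj n B x Hᶜ := by
    have h1 := hSc.card_le
    have h2 : ((Hᶜ).card : ℝ) ≤ n := by exact_mod_cast h1
    have h3 : 0 < eta B x := div_pos hP.x0 (by linarith [hP.B0])
    unfold jj nu
    nlinarith
  have hc0 : 0 ≤ cc B x Hᶜ (ang x be) := by
    have h3 : 0 < eta B x := div_pos hP.x0 (by linarith [hP.B0])
    rw [(sums_eq n B x Hᶜ (ang x be)).1]
    exact mul_nonneg h3.le (Finset.sum_nonneg fun z _ => by linarith [one_le_cosh (ang x be z)])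
  have hF0 : 0 ≤ Form n q a g w B t x (hp H be) (hn H be) Hᶜ (wgt H be) (ang x be) (UU n B x H be)
      (VV n B x H be) (wgt H be p1 * wgt H be p2) (wgt H be q1 * wgt H be q2) := by linarith
  have hge := mul_nonneg hsub.le hF0
  refine ⟨be, H, p1, p2, q1, q2, hSc, hjc, hside, hside', ?_⟩
  have heq := dual_eq hy hq (sum_uu hP hcf) (sum_vv hP hcf) huv hpos (by
    change En q y ≤ (q + 1) * offs (fun i j => Kc B t x (UU n B x H be) (VV n B x H be) (hp H be)
      (hn H be) (wgt H be) (ang x be) i j ^ (q / (q + 1))) - q * (4 * B + n * x) ^ 2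
    linarith)
  exact heq

end

end Pool.Agent.RieszSq
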