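import Pool.Agent.RieszSq.MainC1

set_option autoImplicit false

open Real Finset

namespace Pool.Agent.RieszSq

open Pool.Agent.RieszSmall (En)
open Pool.Agent.RieszF (Conf IsMin Splitting)

section

variable {ι : Type*} [Fintype ι] [DecidableEq ι]
variable {n : ℕ} {q a g w k B t x : ℝ} {be : ι → ℝ} {H : Finset ι} {p1 p2 q1 q2 : ι}

namespace MainC2Aux

omit [Fintype ι] [DecidableEq ι] in
theorem cc_eq (B x : ℝ) (L : Finset ι) (th : ι → ℝ) :
    cc B x L th = eta B x * ∑ z ∈ L, (cosh (th z) - 1) := by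
  unfold cc Se Sf
  rw [Finset.sum_sub_distrib, ← Finset.sum_add_distrib]
  have : ∑ z ∈ L, cosh (th z) = (∑ z ∈ L, (exp (th z) + exp (-th z))) / 2 := by
    rw [Finset.sum_div]
    exact Finset.sum_congr rfl fun z _ => Real.cosh_eq (th z)
  rw [this]
  simp only [Finset.sum_const, nsmul_eq_mul, mul_one]
  ring

end MainC2Aux

/-- MODULE Q28b. `jj = η (n - |Hᶜ|) ≥ 0` (`Sc.card_le`), `cc = η ∑ (cosh θ - 1) ≥ 0`; so `|H| = 4`,
`H` consists of the four tops (pairwise different by the signs) and all `θ = 0`, i.e. `be = 0`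
outside `H`. Then `UU = 1 + ν - η n = 1`. -/
theorem Sc.zero (h : Sc n B t x be H p1 p2 q1 q2) (hB : 0 < B) (hx : 0 < x)
    (hjc : jj n B x Hᶜ + cc B x Hᶜ (ang x be) ≤ 0) :
    H = {p1, p2, q1, q2} ∧ hp H be = {p1, p2} ∧ hn H be = {q1, q2} ∧
      (∀ z, z ∉ H → ang x be z = 0) ∧ UU n B x H be = 1 ∧ VV n B x H be = 1 := by
  have he : 0 < eta B x := by unfold eta; positivity
  have hc := h.card_le
  have hcR : ((Hᶜ).card : ℝ) ≤ n := by exact_mod_cast hc
  have hj : jj n B x Hᶜ = eta B x * ((n : ℝ) - (Hᶜ).card) := by unfold jj nu; ring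
  have hj0 : 0 ≤ eta B x * ((n : ℝ) - (Hᶜ).card) := mul_nonneg he.le (by linarith)
  have hterm : ∀ z ∈ Hᶜ, 0 ≤ cosh (ang x be z) - 1 := fun z _ => by
    linarith [Real.one_le_cosh (ang x be z)]
  have hc0 : 0 ≤ eta B x * ∑ z ∈ Hᶜ, (cosh (ang x be z) - 1) :=
    mul_nonneg he.le (Finset.sum_nonneg hterm)
  rw [hj, MainC2Aux.cc_eq] at hjc
  have e1 : eta B x * ((n : ℝ) - (Hᶜ).card) = 0 := by linarith
  have e2 : eta B x * ∑ z ∈ Hᶜ, (cosh (ang x be z) - 1) = 0 := by linarith
  have e3 : ((Hᶜ).card : ℝ) = n := by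
    rcases mul_eq_zero.1 e1 with h1 | h1
    · exact absurd h1 he.ne'
    · linarith
  have e4 : (Hᶜ).card = n := by exact_mod_cast e3
  have e5 : ∑ z ∈ Hᶜ, (cosh (ang x be z) - 1) = 0 := by
    rcases mul_eq_zero.1 e2 with h1 | h1
    · exact absurd h1 he.ne'
    · exact h1
  have hang : ∀ z, z ∉ H → ang x be z = 0 := by
    intro z hz
    have h1 := (Finset.sum_eq_zero_iff_of_nonneg hterm).1 e5 z (by simpa using hz)
    have h2 : ¬ (1 < cosh (ang x be z)) := by linarith
    rw [Real.one_lt_cosh] at h2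
    exact not_not.1 h2
  have hH4 : H.card = 4 := by
    have h1 := Finset.card_compl H
    have h2 := Finset.card_le_univ H
    rw [h.card] at h1 h2
    omega
  have hp1 : 0 < be p1 := lt_of_lt_of_le h.p2pos h.ple
  have hq1 : be q1 < 0 := lt_of_le_of_lt h.qle h.q2neg
  have n1 : p1 ≠ q1 := fun h1 => by rw [h1] at hp1; linarith
  have n2 : p1 ≠ q2 := fun h1 => by rw [h1] at hp1; linarith [h.q2neg]
  have n3 : p2 ≠ q1 := fun h1 => by have := h.p2pos; rw [h1] at this; linarith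
  have n4 : p2 ≠ q2 := fun h1 => by have := h.p2pos; rw [h1] at this; linarith [h.q2neg]
  have hT4 : ({p1, p2, q1, q2} : Finset ι).card = 4 := by
    rw [Finset.card_insert_of_notMem (by simp [h.pne, n1, n2]),
      Finset.card_insert_of_notMem (by simp [n3, n4]),
      Finset.card_insert_of_notMem (by simp [h.qne]), Finset.card_singleton]
  have hsub : ({p1, p2, q1, q2} : Finset ι) ⊆ H := by
    intro z hz
    simp only [Finset.mem_insert, Finset.mem_singleton] at hz
    rcases hz with rfl | rfl | rfl | rfl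
    · exact h.mp1
    · exact h.mp2
    · exact h.mq1
    · exact h.mq2
  have hHe : H = {p1, p2, q1, q2} :=
    (Finset.eq_of_subset_of_card_le hsub (by rw [hH4, hT4])).symm
  have hSe : Se Hᶜ (ang x be) = n := by
    unfold Se
    rw [Finset.sum_congr rfl (fun z hz => by
      rw [hang z (by simpa using hz), Real.exp_zero] : ∀ z ∈ Hᶜ, exp (ang x be z) = 1)]
    simp [e3]
  have hSf : Sf Hᶜ (ang x be) = n := by
    unfold Sf
    rw [Finset.sum_congr rfl (fun z hz => by
      rw [hang z (by simpa using hz), neg_zero, Real.exp_zero] :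
        ∀ z ∈ Hᶜ, exp (-ang x be z) = 1)]
    simp [e3]
  refine ⟨hHe, ?_, ?_, hang, ?_, ?_⟩
  · ext z
    simp only [hp, hHe, Finset.mem_filter, Finset.mem_insert, Finset.mem_singleton]
    constructor
    · rintro ⟨h1 | h1 | h1 | h1, h2⟩
      · exact Or.inl h1
      · exact Or.inr h1
      · rw [h1] at h2; linarith
      · rw [h1] at h2; linarith [h.q2neg]
    · rintro (h1 | h1)
      · exact ⟨Or.inl h1, by rw [h1]; exact hp1⟩
      · exact ⟨Or.inr (Or.inl h1), by rw [h1]; exact h.p2pos⟩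
  · ext z
    simp only [hn, hHe, Finset.mem_filter, Finset.mem_insert, Finset.mem_singleton]
    constructor
    · rintro ⟨h1 | h1 | h1 | h1, h2⟩
      · rw [h1] at h2; linarith
      · rw [h1] at h2; linarith [h.p2pos]
      · exact Or.inl h1
      · exact Or.inr h1
    · rintro (h1 | h1)
      · exact ⟨Or.inr (Or.inr (Or.inl h1)), by rw [h1]; exact hq1⟩
      · exact ⟨Or.inr (Or.inr (Or.inr h1)), by rw [h1]; exact h.q2neg⟩
  · unfold UU nu
    rw [hSe]; ring
  · unfold VV nu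
    rw [hSf]; ring

/-- MODULE Q28c. `SideC.X` with `∑ ω = 1` over two elements and `μ = 0`. -/
theorem half {S : Finset ι} {wt : ι → ℝ} {e : ℝ} {p1 p2 : ι} (hS : S = {p1, p2})
    (hs : ∑ i ∈ S, wt i = 1) (h : SideC S wt 1 e 0 p1 p2) : wt p1 = 1 / 2 ∧ wt p2 = 1 / 2 := by
  subst hS
  rw [Finset.sum_pair h.ne] at hs
  have h1 := h.X
  have h2 := h.le
  constructor <;> linarith

/-- MODULE Q28d. `y^(-p)` is injective for `y > 0`. -/
theorem inv_pow {q y z : ℝ} (hq : 0 < q) (hy : 0 < y) (hz : 0 < z)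
    (h : y ^ (-(q + 1)) = z ^ (-(q + 1))) : y = z :=
  Real.rpow_left_injOn (x := -(q + 1)) (by linarith) (Set.mem_setOf.2 hy.le)
    (Set.mem_setOf.2 hz.le) h

end

end Pool.Agent.RieszSq
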