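import Pool.Agent.Riesz.Main
import Pool.Agent.RieszSq.MainC2

set_option autoImplicit false

open Real Finset

namespace Pool.Agent.RieszSq

open Pool.Agent.RieszSmall (En)
open Pool.Agent.RieszF (Conf IsMin Splitting)

namespace MainC3Aux

section

variable {ι : Type*} [Fintype ι] [DecidableEq ι]
variable {n : ℕ} {q a g w k B t x : ℝ} {HP HQ L : Finset ι} {wt th : ι → ℝ}

theorem in_PQ (h : Par n q a g w k B t x) {r s : ℝ} (hr : 0 < 1 - r) {U V : ℝ} {i j : ι}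
    (hc : Cf n B x HP HQ L wt th U V) (hU : U = 1) (hV : V = 1) (hi : i ∈ HP) (hj : j ∈ HQ)
    (wi : wt i = 1 / 2) (wj : wt j = 1 / 2)
    (hK : (1 - r) ^ (-(q + 1)) = s) (hs : s = Kc B t x U V HP HQ wt th i j) : r = w := by
  subst hU hV
  have h1 := Kc_PQ h hc hi hj
  rw [wi, wj] at h1
  have h2 : (1 - r) ^ (-(q + 1)) = (1 - w) ^ (-(q + 1)) := by
    rw [hK, hs, h1, ← h.ek]; ring
  have hq : 0 < q := lt_of_lt_of_le one_pos h.q1
  have := inv_pow hq hr (by linarith [h.w1]) h2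
  linarith

theorem ep_mul (h : Par n q a g w k B t x) : ep q * k = (2 * (1 - w)) ^ (-(q + 1)) := by
  rw [Real.mul_rpow (by norm_num) (by linarith [h.w1]), h.ek, ep]

theorem in_PP (h : Par n q a g w k B t x) {r s : ℝ} (hr : 0 < 1 - r) {U V : ℝ} {i j : ι}
    (hU : U = 1) (hV : V = 1) (hi : i ∈ HP) (hj : j ∈ HP)
    (wi : wt i = 1 / 2) (wj : wt j = 1 / 2)
    (hK : (1 - r) ^ (-(q + 1)) = s) (hs : s = Kc B t x U V HP HQ wt th i j) :
    r = 2 * w - 1 := by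
  subst hU hV
  have h1 := Kc_PP (U := 1) (V := 1) (HQ := HQ) (wt := wt) (th := th) h hi hj
  rw [wi, wj] at h1
  have h2 : (1 - r) ^ (-(q + 1)) = (2 * (1 - w)) ^ (-(q + 1)) := by
    rw [hK, hs, h1, ← ep_mul h]; ring
  have hq : 0 < q := lt_of_lt_of_le one_pos h.q1
  have := inv_pow hq hr (by linarith [h.w1]) h2
  linarith

theorem in_QQ (h : Par n q a g w k B t x) {r s : ℝ} (hr : 0 < 1 - r) {U V : ℝ} {i j : ι}
    (hc : Cf n B x HP HQ L wt th U V) (hU : U = 1) (hV : V = 1) (hi : i ∈ HQ) (hj : j ∈ HQ)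
    (wi : wt i = 1 / 2) (wj : wt j = 1 / 2)
    (hK : (1 - r) ^ (-(q + 1)) = s) (hs : s = Kc B t x U V HP HQ wt th i j) :
    r = 2 * w - 1 := by
  subst hU hV
  have h1 := Kc_QQ h hc hi hj
  rw [wi, wj] at h1
  have h2 : (1 - r) ^ (-(q + 1)) = (2 * (1 - w)) ^ (-(q + 1)) := by
    rw [hK, hs, h1, ← ep_mul h]; ring
  have hq : 0 < q := lt_of_lt_of_le one_pos h.q1
  have := inv_pow hq hr (by linarith [h.w1]) h2
  linarith

theorem in_PL (h : Par n q a g w k B t x) {r s : ℝ} (hr : 0 < 1 - r) {U V : ℝ} {i z : ι}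
    (hc : Cf n B x HP HQ L wt th U V) (hU : U = 1) (hV : V = 1) (hi : i ∈ HP) (hz : z ∈ L)
    (wi : wt i = 1 / 2) (tz : th z = 0)
    (hK : (1 - r) ^ (-(q + 1)) = s) (hs : s = Kc B t x U V HP HQ wt th i z) : r = -a := by
  subst hU hV
  have h1 := Kc_PL h hc hi hz
  rw [wi, tz] at h1
  have h2 : (1 - r) ^ (-(q + 1)) = (1 + a) ^ (-(q + 1)) := by
    rw [hK, hs, h1, ← h.eY]; simp only [neg_zero, Real.exp_zero]; ring
  have hq : 0 < q := lt_of_lt_of_le one_pos h.q1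
  have := inv_pow hq hr (by linarith [h.a0]) h2
  linarith

theorem in_QL (h : Par n q a g w k B t x) {r s : ℝ} (hr : 0 < 1 - r) {U V : ℝ} {i z : ι}
    (hc : Cf n B x HP HQ L wt th U V) (hU : U = 1) (hV : V = 1) (hi : i ∈ HQ) (hz : z ∈ L)
    (wi : wt i = 1 / 2) (tz : th z = 0)
    (hK : (1 - r) ^ (-(q + 1)) = s) (hs : s = Kc B t x U V HP HQ wt th i z) : r = -a := by
  subst hU hV
  have h1 := Kc_QL h hc hi hz
  rw [wi, tz] at h1
  have h2 : (1 - r) ^ (-(q + 1)) = (1 + a) ^ (-(q + 1)) := by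
    rw [hK, hs, h1, ← h.eY]; simp only [neg_zero, Real.exp_zero]; ring
  have hq : 0 < q := lt_of_lt_of_le one_pos h.q1
  have := inv_pow hq hr (by linarith [h.a0]) h2
  linarith

theorem in_LL (h : Par n q a g w k B t x) {r s : ℝ} (hr : 0 < 1 - r) {U V : ℝ} {y z : ι}
    (hc : Cf n B x HP HQ L wt th U V) (hy : y ∈ L) (hz : z ∈ L)
    (ty : th y = 0) (tz : th z = 0)
    (hK : (1 - r) ^ (-(q + 1)) = s) (hs : s = Kc B t x U V HP HQ wt th y z) : r = -g := by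
  have h1 := Kc_LL (t := t) hc hy hz
  rw [ty, tz] at h1
  have h2 : (1 - r) ^ (-(q + 1)) = (1 + g) ^ (-(q + 1)) := by
    rw [hK, hs, h1, ← h.ex]; simp only [sub_zero, neg_zero, Real.exp_zero]; ring
  have hq : 0 < q := lt_of_lt_of_le one_pos h.q1
  have := inv_pow hq hr (by linarith [h.g0]) h2
  linarith

end

end MainC3Aux

section

variable {ι : Type*} [Fintype ι] [DecidableEq ι]
variable {n : ℕ} {q a g w k B t x : ℝ} {be : ι → ℝ} {H : Finset ι} {p1 p2 q1 q2 : ι}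

/-- MODULE Q28e (the square). `cert_main`, `Sc.zero`, `half` (`∑_{hp} wgt = 1` by `Sc.cf`),
`Kc_PQ`: `K = 4 k (1/4) = k = (1-w)^(-p)`, `Kc_PP`: `K = ep k = (2(1-w))^(-p)`,
`Kc_PL`: `K = 2 B x (1/2) = (1+a)^(-p)`, `Kc_LL`: `K = x² = (1+g)^(-p)`; `inv_pow` gives the
inner products `w`, `2w - 1`, `-a`, `-g`; `w = om n a g` (`Par.om_eq`). Labelling:
`Pool.Agent.Riesz.exists_relabel` with `p1, q1, p2, q2`. -/
theorem sq_of_splitting (hE : Est n q a g w k B t x) (hcard : Fintype.card ι = n + 4) {V : Type*}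
    [NormedAddCommGroup V] [InnerProductSpace ℝ V] {y : ι → V} (hy : Conf y) {al b : ι → ℝ}
    (hs : Splitting q y al b) (hle : En q y ≤ (4 * B + n * x) ^ 2) :
    ∃ e : Fin 4 ⊕ Fin n ≃ ι, Pool.Agent.Riesz.IsSym a g (y (e (Sum.inl 0))) (y (e (Sum.inl 1)))
      (y (e (Sum.inl 2))) (y (e (Sum.inl 3))) (fun k => y (e (Sum.inr k))) := by
  have hP := hE.par
  obtain ⟨be, H, p1, p2, q1, q2, hSc, hjc, hSP, hSQ, hK⟩ := cert_main hE hcard hy hs hle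
  obtain ⟨hH, hhp, hhn, hz, hU, hV⟩ := hSc.zero hP.B0 hP.x0 hjc
  have hcf := hSc.cf hP
  have hmu1 : eta B x * ∑ z ∈ Hᶜ, max (sinh (ang x be z)) 0 = 0 := by
    rw [Finset.sum_eq_zero, mul_zero]
    intro z hzH
    rw [hz z (Finset.mem_compl.1 hzH), Real.sinh_zero, max_self]
  have hmu2 : eta B x * ∑ z ∈ Hᶜ, max (-sinh (ang x be z)) 0 = 0 := by
    rw [Finset.sum_eq_zero, mul_zero]
    intro z hzH
    rw [hz z (Finset.mem_compl.1 hzH), Real.sinh_zero, neg_zero, max_self]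
  rw [hmu1, hU] at hSP
  rw [hmu2, hV] at hSQ
  obtain ⟨wp1, wp2⟩ := half hhp hcf.sP hSP
  obtain ⟨wq1, wq2⟩ := half hhn hcf.sQ hSQ
  have mp1 : p1 ∈ hp H be := hSP.m1
  have mp2 : p2 ∈ hp H be := hSP.m2
  have mq1 : q1 ∈ hn H be := hSQ.m1
  have mq2 : q2 ∈ hn H be := hSQ.m2
  have hpq : ∀ i ∈ hp H be, ∀ j ∈ hn H be, i ≠ j := fun i hi j hj hij =>
    (Finset.disjoint_left.1 hcf.dPQ) hi (hij ▸ hj)
  obtain ⟨e, e0, e1, e2, e3⟩ := Pool.Agent.Riesz.exists_relabel (κ := Fin n)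
    (by rw [hcard, Fintype.card_fin]) (hpq _ mp1 _ mq1) hSc.pne (hpq _ mp1 _ mq2)
    (hpq _ mp2 _ mq1).symm hSc.qne (hpq _ mp2 _ mq2)
  have hom : Pool.Agent.Riesz.om (Fintype.card (Fin n)) a g = w := by
    rw [Fintype.card_fin]; exact hP.om_eq
  have hL : ∀ k : Fin n, e (Sum.inr k) ∈ Hᶜ := by
    intro k
    rw [Finset.mem_compl, hH]
    simp only [Finset.mem_insert, Finset.mem_singleton, not_or]
    refine ⟨?_, ?_, ?_, ?_⟩
    · rw [← e0]; exact fun h => by simpa using e.injective h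
    · rw [← e2]; exact fun h => by simpa using e.injective h
    · rw [← e1]; exact fun h => by simpa using e.injective h
    · rw [← e3]; exact fun h => by simpa using e.injective h
  have hth : ∀ k : Fin n, ang x be (e (Sum.inr k)) = 0 := fun k =>
    hz _ (Finset.mem_compl.1 (hL k))
  have hPL : ∀ i ∈ hp H be, ∀ k : Fin n, i ≠ e (Sum.inr k) := fun i hi k hik =>
    (Finset.disjoint_left.1 hcf.dPL) hi (hik ▸ hL k)
  have hQL : ∀ i ∈ hn H be, ∀ k : Fin n, i ≠ e (Sum.inr k) := fun i hi k hik =>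
    (Finset.disjoint_left.1 hcf.dQL) hi (hik ▸ hL k)
  have kPL : ∀ i ∈ hp H be, wgt H be i = 1 / 2 → ∀ k : Fin n,
      (inner ℝ (y i) (y (e (Sum.inr k))) : ℝ) = -a := fun i hi wi k =>
    MainC3Aux.in_PL hP (hy.dd_pos (hPL i hi k)) hcf hU hV hi (hL k) wi (hth k) rfl
      (hK _ _ (hPL i hi k))
  have kQL : ∀ i ∈ hn H be, wgt H be i = 1 / 2 → ∀ k : Fin n,
      (inner ℝ (y i) (y (e (Sum.inr k))) : ℝ) = -a := fun i hi wi k =>
    MainC3Aux.in_QL hP (hy.dd_pos (hQL i hi k)) hcf hU hV hi (hL k) wi (hth k) rfl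
      (hK _ _ (hQL i hi k))
  have kPQ : ∀ i ∈ hp H be, wgt H be i = 1 / 2 → ∀ j ∈ hn H be, wgt H be j = 1 / 2 →
      (inner ℝ (y i) (y j) : ℝ) = w := fun i hi wi j hj wj =>
    MainC3Aux.in_PQ hP (hy.dd_pos (hpq i hi j hj)) hcf hU hV hi hj wi wj rfl
      (hK _ _ (hpq i hi j hj))
  refine ⟨e, ?_, ?_, ?_, ?_, ?_, ?_, ?_, ?_, ?_, ?_, ?_⟩
  · intro k; rw [e0]; exact kPL _ mp1 wp1 k
  · intro k; rw [e1]; exact kQL _ mq1 wq1 k
  · intro k; rw [e2]; exact kPL _ mp2 wp2 k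
  · intro k; rw [e3]; exact kQL _ mq2 wq2 k
  · intro k l hkl
    have hne : e (Sum.inr k) ≠ e (Sum.inr l) := fun h => hkl (by simpa using e.injective h)
    exact MainC3Aux.in_LL hP (hy.dd_pos hne) hcf (hL k) (hL l) (hth k) (hth l) rfl (hK _ _ hne)
  · rw [hom, e0, e1]; exact kPQ _ mp1 wp1 _ mq1 wq1
  · rw [hom, e0, e3]; exact kPQ _ mp1 wp1 _ mq2 wq2
  · rw [hom, e2, e1]; exact kPQ _ mp2 wp2 _ mq1 wq1
  · rw [hom, e2, e3]; exact kPQ _ mp2 wp2 _ mq2 wq2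
  · rw [hom, e0, e2]
    exact MainC3Aux.in_PP hP (hy.dd_pos hSc.pne) hU hV mp1 mp2 wp1 wp2 rfl (hK _ _ hSc.pne)
  · rw [hom, e1, e3]
    exact MainC3Aux.in_QQ hP (hy.dd_pos hSc.qne) hcf hU hV mq1 mq2 wq1 wq2 rfl
      (hK _ _ hSc.qne)

end

end Pool.Agent.RieszSq
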