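import Pool.Agent.RieszSq.ParVal
import Pool.Agent.RieszSq.KcVal

set_option autoImplicit false

open Real Finset

namespace Pool.Agent.RieszSq

section

variable {n : ℕ} {q a g w k B t x : ℝ}

/-- MODULE Q13a (logarithms). `p = q + 1`, `T = -log (2 η) = log 2 + log B - log x`;
`-p log (1+a) = log B + log x`, `-p log (1+g) = 2 log x`, `-p log (1-w) = log k`,
`log k = 2 log B + log 2 - log (1+ep)`. -/
theorem Par.logs (h : Par n q a g w k B t x) :
    -log (2 * eta B x) = (q + 1) * log (1 + a) - (q + 1) * log (1 - w) + log (1 + ep q) ∧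
    (q + 1) * log (1 + g)
      = 2 * ((q + 1) * log (1 + a)) - (q + 1) * log (1 - w) - log 2 + log (1 + ep q) := by
  have hB := h.B0
  have hx := h.x0
  have hk := h.k0
  have hep : 0 < ep q := Real.rpow_pos_of_pos (by norm_num) _
  have e1 : log B + log x = -(q + 1) * log (1 + a) := by
    rw [← Real.log_mul hB.ne' hx.ne', h.eY, Real.log_rpow (by linarith [h.a0])]
  have e2 : 2 * log x = -(q + 1) * log (1 + g) := by
    have := congrArg Real.log h.ex
    rw [Real.log_pow, Real.log_rpow (by linarith [h.g0])] at this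
    exact_mod_cast this
  have e3 : log k = -(q + 1) * log (1 - w) := by
    rw [h.ek, Real.log_rpow (by linarith [h.w1])]
  have e4 : log 2 + 2 * log B = log k + log (1 + ep q) := by
    have := congrArg Real.log h.eB
    rw [Real.log_mul (by norm_num) (by positivity), Real.log_pow,
      Real.log_mul hk.ne' (by positivity)] at this
    exact_mod_cast this
  have e5 : log (2 * eta B x) = log x - log 2 - log B := by
    have : 2 * eta B x = x / (2 * B) := by
      unfold eta
      field_simp
      ring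
    rw [this, Real.log_div hx.ne' (by positivity), Real.log_mul (by norm_num) hB.ne']
    ring
  constructor
  · rw [e5]
    linarith
  · linarith

/-- MODULE Q13b. `k ≥ 1`, `B² ≥ 1/2`, `x ≤ 1`, `η ≤ 1/2`, `a ≤ η` (`rel`: `a + ν g = η + η g`,
`ν ≥ η`). -/
theorem Par.basic (h : Par n q a g w k B t x) :
    1 ≤ k ∧ 1 / 2 ≤ B ^ 2 ∧ x ≤ 1 ∧ 0 < eta B x ∧ eta B x ≤ 1 / 2 ∧ a ≤ eta B x := by
  have hB := h.B0
  have hx := h.x0
  have hep : 0 < ep q := Real.rpow_pos_of_pos (by norm_num) _
  have hq := h.q1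
  have k1 : 1 ≤ k := by
    rw [h.ek]
    exact Real.one_le_rpow_of_pos_of_le_one_of_nonpos (by linarith [h.w1]) (by linarith [h.w0])
      (by linarith)
  have B2 : 1 / 2 ≤ B ^ 2 := by
    have := h.eB
    nlinarith
  have x1 : x ≤ 1 := by
    have h1 : x ^ 2 ≤ 1 := by
      rw [h.ex]
      exact Real.rpow_le_one_of_one_le_of_nonpos (by linarith [h.g0]) (by linarith)
    nlinarith
  have Bh : 1 / 2 ≤ B := by nlinarith
  have e0 : 0 < eta B x := by
    unfold eta
    positivity
  have e1 : eta B x ≤ 1 / 2 := by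
    unfold eta
    rw [div_le_iff₀ (by positivity)]
    linarith
  refine ⟨k1, B2, x1, e0, e1, ?_⟩
  have h1 := h.rel.1
  have hn : (2 : ℝ) ≤ n := by exact_mod_cast h.n2
  unfold nu at h1
  have hg := h.g0
  have h2 : 0 ≤ ((n : ℝ) - 1) * (eta B x * g) :=
    mul_nonneg (by linarith) (mul_pos e0 hg).le
  nlinarith

end

end Pool.Agent.RieszSq
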