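import Pool.Agent.RieszSq.ParE1

set_option autoImplicit false

open Real Finset

namespace Pool.Agent.RieszSq

section

variable {n : ℕ} {q a g w k B t x : ℝ}

private theorem ParE2_log_ge {y : ℝ} (hy : 0 < y) : 1 - 1 / y ≤ log y := by
  have h := Real.log_le_sub_one_of_pos (inv_pos.2 hy)
  rw [Real.log_inv] at h
  rw [one_div]
  linarith

private theorem ParE2_log2001 : log 2001 ≤ 7602 / 1000 ∧ 7 ≤ log 2001 := by
  have h2 : log 2 < 0.6931471808 := Real.log_two_lt_d9
  have h2' : 0.6931471803 < log 2 := Real.log_two_gt_d9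
  constructor
  · have e : (2001 : ℝ) = 2 ^ 11 * (2001 / 2048) := by norm_num
    have h3 : log (2001 / 2048) ≤ 2001 / 2048 - 1 :=
      Real.log_le_sub_one_of_pos (by norm_num)
    rw [e, Real.log_mul (by norm_num) (by norm_num), Real.log_pow]
    norm_num at h2 h3 ⊢
    linarith
  · have e : (2001 : ℝ) = 2 ^ 10 * (2001 / 1024) := by norm_num
    have h3 := ParE2_log_ge (y := 2001 / 1024) (by norm_num)
    rw [e, Real.log_mul (by norm_num) (by norm_num), Real.log_pow]
    norm_num at h2' h3 ⊢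
    linarith

/-- MODULE Q13c. `(log p)² ≤ (289/10000) p` for `p ≥ 2001`: put `s = √(p/2001) ≥ 1`,
`log p = log 2001 + 2 log s ≤ 7.602 + 2 (s - 1) ≤ 7.602 s`, and `7.602² = 57.79.. ≤ 0.0289 · 2001`. -/
theorem log_sq_le {p : ℝ} (hp : 2001 ≤ p) : log p ≤ 17 / 100 * √p ∧ 7 ≤ log p := by
  obtain ⟨h1, h2⟩ := ParE2_log2001
  constructor
  · set s := √(p / 2001) with hs
    have hs1 : 1 ≤ s := by
      rw [hs, Real.one_le_sqrt, le_div_iff₀ (by norm_num)]
      linarith
    have hs2 : s ^ 2 = p / 2001 := Real.sq_sqrt (by positivity)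
    have hp2 : p = 2001 * s ^ 2 := by rw [hs2]; field_simp
    have hlog : log p = log 2001 + 2 * log s := by
      rw [hp2, Real.log_mul (by norm_num) (by positivity), Real.log_pow]
      norm_num
    have hls : log s ≤ s - 1 := Real.log_le_sub_one_of_pos (by linarith)
    have hsq : √p = √2001 * s := by
      rw [hs, ← Real.sqrt_mul (by norm_num)]
      congr 1
      field_simp
    have h45 : (44.72 : ℝ) ≤ √2001 := by
      apply Real.le_sqrt_of_sq_le
      norm_num
    rw [hlog, hsq]
    nlinarith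
  · exact h2.trans (Real.log_le_log (by norm_num) hp)

/-- MODULE Q13d (`T ≤ log p`). Let `T = -log (2η)`, so `η = exp(-T)/2`.
1. `a < 1/100`: otherwise `p log (1+a) ≥ 2001 · 0.00995 ≥ 19`, `T ≥ 19` (`logs`, `w > 0`),
   `a ≤ η ≤ exp(-19)/2`, a contradiction.
2. `w ≤ 1/2`: otherwise `T ≥ p log 2 - 1`, `ν = n η ≤ p exp(1 - p log 2)/2 < 1/2`, and
   `w = ν a < 1/2`.
3. `-log (1-w) ≤ 2 w = 2 n η a ≤ 2 n η²`, `log (1+a) ≤ a ≤ η`, `log (1+ep) ≤ ep ≤ 1/100`: so
   `T ≤ p η + 2 p n η² + 1/100`; if `T > log p` then `η < 1/(2p)`, `p η < 1/2`,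
   `2 p n η² < n/(2p) ≤ 1/2`, so `T < 1.01 < log p`, a contradiction.
(`ep q = 2^(-(q+1)) ≤ 1/100`.) -/
theorem Par.T_le (h : Par n q a g w k B t x) (hq : 2000 ≤ q) (hn : (n : ℝ) + 4 ≤ q + 1) :
    -log (2 * eta B x) ≤ log (q + 1) ∧ a ≤ 1 / 100 := by
  obtain ⟨hT, -⟩ := h.logs
  obtain ⟨-, -, -, he0, he1, hae⟩ := h.basic
  have ha0 := h.a0
  have hw0 := h.w0
  have hw1 := h.w1
  have hB0 := h.B0
  have hn0 : (0 : ℝ) ≤ n := Nat.cast_nonneg n
  set p := q + 1 with hp
  have hp0 : 2001 ≤ p := by linarith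
  set e := eta B x with he
  set T := -log (2 * e) with hTd
  have hep0 : 0 < ep q := by unfold ep; positivity
  have hep1 : ep q ≤ 1 / 100 := by
    have : ep q ≤ 2 ^ (-(7 : ℝ)) := by
      unfold ep
      exact Real.rpow_le_rpow_of_exponent_le (by norm_num) (by linarith)
    have h2 : (2 : ℝ) ^ (-(7 : ℝ)) = 1 / 128 := by
      rw [Real.rpow_neg (by norm_num)]
      norm_num
    rw [h2] at this
    linarith
  have heT : 2 * e = exp (-T) := by
    rw [hTd, neg_neg, Real.exp_log (by linarith)]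
  have hl1 : 0 ≤ log (1 + ep q) := Real.log_nonneg (by linarith)
  have hl1' : log (1 + ep q) ≤ ep q := by
    have := Real.log_le_sub_one_of_pos (show 0 < 1 + ep q by linarith)
    linarith
  have hl2 : 0 ≤ -log (1 - w) := by
    have := Real.log_le_sub_one_of_pos (show 0 < 1 - w by linarith)
    linarith
  have hl3 : 0 ≤ log (1 + a) := Real.log_nonneg (by linarith)
  have hl3' : log (1 + a) ≤ a := by
    have := Real.log_le_sub_one_of_pos (show 0 < 1 + a by linarith)
    linarith
  have hprod2 : 0 ≤ p * (-log (1 - w)) := mul_nonneg (by linarith) hl2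
  have hprod3 : 0 ≤ p * log (1 + a) := mul_nonneg (by linarith) hl3
  have hexpT : 2 * e * exp T = 1 := by
    rw [heT, ← Real.exp_add]
    simp
  -- step 1
  have ha : a ≤ 1 / 100 := by
    by_contra hc
    push Not at hc
    have h1 : (99 : ℝ) / 10000 ≤ log (1 + a) := by
      have h1 : log (1 + 1 / 100) ≤ log (1 + a) := Real.log_le_log (by norm_num) (by linarith)
      have h2 := ParE2_log_ge (y := 1 + 1 / 100) (by norm_num)
      norm_num at h2 h1 ⊢
      linarith
    have hT19 : 19 ≤ T := by nlinarith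
    have h4 : exp T ≥ (19 / 2 + 1) ^ 2 := by
      have h5 : exp T ≥ exp 19 := Real.exp_le_exp.2 hT19
      have h6 : exp (19 : ℝ) = exp (19 / 2) ^ 2 := by
        rw [← Real.exp_nat_mul]
        norm_num
      have h7 := Real.add_one_le_exp (19 / 2 : ℝ)
      have h8 : (19 / 2 + 1 : ℝ) ^ 2 ≤ exp (19 / 2) ^ 2 :=
        pow_le_pow_left₀ (by norm_num) h7 2
      linarith
    nlinarith
  refine ⟨?_, ha⟩
  have hwnu : w = n * e * a := by
    have h4 := h.r2
    have : w = n * x * a / (4 * B) := by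
      field_simp
      linarith
    rw [this, he]
    unfold eta
    field_simp
  -- step 2
  have hw2 : w ≤ 1 / 2 := by
    by_contra hc
    push Not at hc
    have h1 : (69 : ℝ) / 100 ≤ -log (1 - w) := by
      have h2 : log (1 - w) ≤ log (1 / 2) := Real.log_le_log (by linarith) (by linarith)
      have h3 : log (1 / 2 : ℝ) = -log 2 := by rw [one_div, Real.log_inv]
      have h4 := Real.log_two_gt_d9
      norm_num at h4
      linarith
    have hT69 : 69 / 100 * p ≤ T := by nlinarith
    have h5 := Real.add_one_le_exp T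
    have h6 : 2 * e * (69 / 100 * p) ≤ 1 := by
      calc 2 * e * (69 / 100 * p) ≤ 2 * e * exp T := by
            apply mul_le_mul_of_nonneg_left _ (by linarith)
            linarith
        _ = 1 := hexpT
    have h7 : n * e ≤ 1 := by nlinarith
    have h8 : w ≤ 1 * (1 / 100) := by
      rw [hwnu]
      exact mul_le_mul h7 ha ha0.le (by norm_num)
    linarith
  -- step 3
  by_contra hc
  push Not at hc
  have h7 := (log_sq_le hp0).2
  have hpe : p * (2 * e) ≤ 1 := by
    have h1 : p ≤ exp T := by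
      rw [← Real.exp_log (show 0 < p by linarith)]
      exact Real.exp_le_exp.2 hc.le
    calc p * (2 * e) ≤ exp T * (2 * e) := mul_le_mul_of_nonneg_right h1 (by linarith)
      _ = 1 := by rw [mul_comm]; exact hexpT
  have hlw : -log (1 - w) ≤ 2 * w := by
    have h1 := ParE2_log_ge (y := 1 - w) (by linarith)
    have h2 : 1 / (1 - w) ≤ 1 + 2 * w := by
      rw [div_le_iff₀ (by linarith)]
      nlinarith
    linarith
  have hwe : w ≤ n * e * e := by
    rw [hwnu]
    exact mul_le_mul_of_nonneg_left hae (mul_nonneg hn0 (by linarith))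
  have hA : p * log (1 + a) ≤ 1 / 2 := by
    have : p * log (1 + a) ≤ p * e := mul_le_mul_of_nonneg_left (by linarith) (by linarith)
    linarith
  have hB : p * (-log (1 - w)) ≤ 1 / 2 := by
    have h1 : p * (-log (1 - w)) ≤ p * (2 * (n * e * e)) :=
      mul_le_mul_of_nonneg_left (by linarith) (by linarith)
    have h2 : p * (2 * (n * e * e)) = (p * (2 * e)) * (n * e) := by ring
    have h3 : n * e ≤ 1 / 2 := by nlinarith
    have h4 : (p * (2 * e)) * (n * e) ≤ 1 * (1 / 2) :=
      mul_le_mul hpe h3 (mul_nonneg hn0 (by linarith)) (by norm_num)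
    linarith
  linarith

end

end Pool.Agent.RieszSq
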