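import Pool.Agent.RieszSq.ParE2

set_option autoImplicit false

open Real Finset

namespace Pool.Agent.RieszSq

section

variable {n : ℕ} {q a g w k B t x : ℝ}

theorem ParE3Aux.log_ge {y : ℝ} (hy : 0 ≤ y) (hy1 : y ≤ 1 / 100) : y ≤ 101 / 100 * log (1 + y) := by
  have h1 : 1 - (1 + y)⁻¹ ≤ log (1 + y) := Real.one_sub_inv_le_log_of_pos (by linarith)
  have h2 : 1 - (1 + y)⁻¹ = y / (1 + y) := by
    field_simp
    ring
  rw [h2] at h1
  have h3 : y / (1 + y) * (101 / 100) ≥ y := by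
    rw [div_mul_eq_mul_div, ge_iff_le, le_div_iff₀ (by linarith)]
    nlinarith
  nlinarith

/-- MODULE Q13e. All of `p log (1+a)`, `-p log (1-w)` are `≤ T ≤ log p` and `p log (1+g) ≤ 2 log p`
(`logs`); `log p ≤ 0.17 √p ≤ 0.0039 p` (`log_sq_le`, `√p ≥ 44`). So `a ≤ 1/200`, `w ≤ 1/200`,
`g ≤ 1/100`; moreover `A = p a ≤ 1.01 log p`, `W = p w ≤ log p`, `G = p g ≤ 2.02 log p`
(`log (1+y) ≥ y/(1+y)`, `-log (1-w) ≥ w`). -/
theorem Par.small (h : Par n q a g w k B t x) (hq : 2000 ≤ q) (hn : (n : ℝ) + 4 ≤ q + 1) :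
    a ≤ 1 / 100 ∧ w ≤ 1 / 100 ∧ g ≤ 1 / 100 ∧ (q + 1) * a ≤ 101 / 100 * log (q + 1) ∧
      (q + 1) * w ≤ log (q + 1) ∧ (q + 1) * g ≤ 202 / 100 * log (q + 1) := by
  obtain ⟨hT, ha1⟩ := h.T_le hq hn
  obtain ⟨h1, h2⟩ := h.logs
  have hp : (2001 : ℝ) ≤ q + 1 := by linarith
  obtain ⟨hL, hL7⟩ := log_sq_le hp
  have hp0 : (0 : ℝ) < q + 1 := by linarith
  have hep : 0 < ep q := by unfold ep; positivity
  have hle : 0 ≤ log (1 + ep q) := Real.log_nonneg (by linarith)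
  have hla : 0 ≤ log (1 + a) := Real.log_nonneg (by linarith [h.a0])
  have hlw : w ≤ -log (1 - w) := by
    have := Real.log_le_sub_one_of_pos (show 0 < 1 - w by linarith [h.w1])
    linarith
  have hw0 := h.w0
  have hg0 := h.g0
  have hpa : 0 ≤ (q + 1) * log (1 + a) := by positivity
  have hpw : (q + 1) * w ≤ -((q + 1) * log (1 - w)) := by
    have := mul_le_mul_of_nonneg_left hlw hp0.le
    linarith
  have hpw0 : 0 ≤ (q + 1) * w := by positivity
  have hl2 : 0 ≤ log 2 := Real.log_nonneg (by norm_num)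
  set Lp := log (q + 1) with hLp
  -- bound of `log p`
  have hs : (44 : ℝ) ≤ √(q + 1) := by
    apply Real.le_sqrt_of_sq_le
    linarith
  have hss : √(q + 1) * √(q + 1) = q + 1 := Real.mul_self_sqrt hp0.le
  have hLp2 : Lp ≤ 39 / 10000 * (q + 1) := by
    have h3 : 17 / 100 * √(q + 1) ≤ 39 / 10000 * (√(q + 1) * √(q + 1)) := by nlinarith
    rw [hss] at h3
    linarith
  have hA : (q + 1) * log (1 + a) ≤ Lp := by linarith
  have hW : (q + 1) * w ≤ Lp := by linarith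
  have hG : (q + 1) * log (1 + g) ≤ 2 * Lp := by linarith
  have hg1 : g ≤ 1 / 100 := by
    by_contra hg
    push Not at hg
    have h3 : 1 - (1 + g)⁻¹ ≤ log (1 + g) := Real.one_sub_inv_le_log_of_pos (by linarith)
    have h4 : (1 + g)⁻¹ ≤ (101 / 100 : ℝ)⁻¹ := by
      apply inv_anti₀ (by norm_num)
      linarith
    have h5 : (98 / 10000 : ℝ) ≤ log (1 + g) := by
      have : (101 / 100 : ℝ)⁻¹ ≤ 1 - 98 / 10000 := by norm_num
      linarith
    nlinarith
  have hw1 : w ≤ 1 / 100 := by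
    by_contra hw
    push Not at hw
    nlinarith
  refine ⟨ha1, hw1, hg1, ?_, hW, ?_⟩
  · have h3 := ParE3Aux.log_ge h.a0.le ha1
    have h4 := mul_le_mul_of_nonneg_left h3 hp0.le
    nlinarith
  · have h3 := ParE3Aux.log_ge h.g0.le hg1
    have h4 := mul_le_mul_of_nonneg_left h3 hp0.le
    nlinarith

end

end Pool.Agent.RieszSq
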