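import Pool.Agent.RieszSq.ParE3

set_option autoImplicit false

open Real Finset

namespace Pool.Agent.RieszSq

section

variable {n : ℕ} {q a g w k B t x : ℝ}

namespace ParE4Aux

theorem log_lower {y : ℝ} (hy : 0 ≤ y) : y - y ^ 2 / 2 ≤ log (1 + y) := by
  have h1 := Real.le_log_one_add_of_nonneg hy
  refine le_trans ?_ h1
  rw [le_div_iff₀ (by linarith)]
  nlinarith [pow_nonneg hy 3]

theorem log_upper {y : ℝ} (hy : 0 ≤ y) : log (1 + y) ≤ y := by
  have := Real.log_le_sub_one_of_pos (x := 1 + y) (by linarith)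
  linarith

theorem neg_log_lower {y : ℝ} (hy1 : y < 1) : y ≤ -log (1 - y) := by
  have := Real.log_le_sub_one_of_pos (x := 1 - y) (by linarith)
  linarith

theorem neg_log_upper {y : ℝ} (hy0 : 0 ≤ y) (hy : y ≤ 1 / 100) :
    -log (1 - y) ≤ y + 102 / 100 * y ^ 2 := by
  have h1 := Real.one_sub_inv_le_log_of_pos (x := 1 - y) (by linarith)
  have h2 : (1 - y)⁻¹ ≤ 1 + y + 102 / 100 * y ^ 2 := by
    rw [inv_le_iff_one_le_mul₀ (by linarith)]
    nlinarith [pow_nonneg hy0 2, pow_nonneg hy0 3, mul_nonneg (pow_nonneg hy0 2) (sub_nonneg.2 hy)]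
  linarith

theorem sq_bd {p y c : ℝ} (hp : 2001 ≤ p) (hy : 0 ≤ y) (hc : 0 ≤ c) (h : p * y ≤ c * log p) :
    p * y ^ 2 ≤ c ^ 2 * (289 / 10000) := by
  obtain ⟨h1, h2⟩ := log_sq_le hp
  have hp0 : 0 < p := by linarith
  have h3 : p * y ≤ c * (17 / 100 * √p) := h.trans (mul_le_mul_of_nonneg_left h1 hc)
  have h4 : (p * y) ^ 2 ≤ (c * (17 / 100 * √p)) ^ 2 :=
    pow_le_pow_left₀ (by positivity) h3 2
  have h5 : (c * (17 / 100 * √p)) ^ 2 = c ^ 2 * (289 / 10000) * p := by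
    rw [mul_pow, mul_pow, Real.sq_sqrt hp0.le]; ring
  rw [h5] at h4
  have h6 : p * (p * y ^ 2) ≤ p * (c ^ 2 * (289 / 10000)) := by nlinarith
  exact le_of_mul_le_mul_left h6 hp0

theorem aux_ep_pos (q : ℝ) : 0 < ep q := by unfold ep; positivity

theorem aux_ep_le {q : ℝ} (hq : 2000 ≤ q) : ep q ≤ 1 / 128 := by
  unfold ep
  have h1 : (2 : ℝ) ^ (-(q + 1)) ≤ (2 : ℝ) ^ (-(7 : ℝ)) :=
    Real.rpow_le_rpow_of_exponent_le (by norm_num) (by linarith)
  have h2 : (2 : ℝ) ^ (-(7 : ℝ)) = 1 / 128 := by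
    rw [Real.rpow_neg (by norm_num)]
    norm_num
  exact h1.trans h2.le

end ParE4Aux

open ParE4Aux in
/-- MODULE Q13f. `λ = p (2a + w - g)`: `a - a²/2 ≤ log (1+a) ≤ a`, `w ≤ -log (1-w) ≤ w + w²`,
`g - g²/2 ≤ log (1+g) ≤ g` and `logs` give
`log 2 - log(1+ep) - p w² - p g²/2 ≤ λ ≤ log 2 + p a²`; `p a² = (p a)²/p ≤ 1.0201 · 0.0289 ≤ 0.03`,
`p w² ≤ 0.0289`, `p g²/2 ≤ 4.0804 · 0.0289/2 ≤ 0.06` (`log_sq_le`). -/
theorem Par.lam_bd (h : Par n q a g w k B t x) (hq : 2000 ≤ q) (hn : (n : ℝ) + 4 ≤ q + 1) :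
    1 / 2 ≤ (q + 1) * (2 * a + w - g) ∧ (q + 1) * (2 * a + w - g) ≤ 3 / 4 := by
  obtain ⟨s1, s2, s3, s4, s5, s6⟩ := h.small hq hn
  obtain ⟨L1, L2⟩ := h.logs
  have hp : 2001 ≤ q + 1 := by linarith
  have ha := h.a0.le
  have hg := h.g0.le
  have hw := h.w0.le
  have e0 := aux_ep_pos q
  have e1 := aux_ep_le hq
  have e2 := log_upper e0.le
  have e3 : 0 ≤ log (1 + ep q) := Real.log_nonneg (by linarith)
  have q1 := sq_bd hp ha (by norm_num) s4
  have q2 := sq_bd hp hw (c := 1) (by norm_num) (by linarith)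
  have q3 := sq_bd hp hg (by norm_num) s6
  have hp0 : 0 ≤ q + 1 := by linarith
  have a1 := mul_le_mul_of_nonneg_left (log_lower ha) hp0
  have a2 := mul_le_mul_of_nonneg_left (log_upper ha) hp0
  have w1 := mul_le_mul_of_nonneg_left (neg_log_lower h.w1) hp0
  have w2 := mul_le_mul_of_nonneg_left (neg_log_upper hw s2) hp0
  have g1 := mul_le_mul_of_nonneg_left (log_lower hg) hp0
  have g2 := mul_le_mul_of_nonneg_left (log_upper hg) hp0
  have l2 := Real.log_two_lt_d9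
  have l2' := Real.log_two_gt_d9
  constructor
  · nlinarith
  · nlinarith

open ParE4Aux in
/-- MODULE Q13g. `(1+ν) Θ = p η (1+g) = p (a + ν g)` (`rel`), and with `λ = p(2a+w-g)`, `w = ν a`:
`p (a + ν g) = p a + ν (2 p a + p w - λ) = (1+ν)² p a - ν λ`, so `Θ = p a + p w - ν λ/(1+ν)`.
With `T = -log (2η)`: `T = p log (1+a) - p log (1-w) + log (1+ep)`
`≥ p a - p a²/2 + p w ≥ Θ - 0.015`, and
`T ≤ p a + p w + p w² + ep ≤ Θ + ν λ/(1+ν) + 0.03`. -/
theorem Par.Th_bd (h : Par n q a g w k B t x) (hq : 2000 ≤ q) (hn : (n : ℝ) + 4 ≤ q + 1) :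
    Th n q g B x - 1 / 50 ≤ -log (2 * eta B x) ∧
      -log (2 * eta B x) ≤ Th n q g B x + 3 / 4 * (nu n B x / (1 + nu n B x)) + 1 / 25 := by
  obtain ⟨s1, s2, s3, s4, s5, s6⟩ := h.small hq hn
  obtain ⟨L1, L2⟩ := h.logs
  obtain ⟨m1, m2⟩ := h.lam_bd hq hn
  obtain ⟨r1, r2⟩ := h.rel
  obtain ⟨-, -, -, b1, b2, b3⟩ := h.basic
  have hp : 2001 ≤ q + 1 := by linarith
  have ha := h.a0.le
  have hg := h.g0.le
  have hw := h.w0.le
  have e0 := aux_ep_pos q
  have e1 := aux_ep_le hq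
  have e2 := log_upper e0.le
  have e3 : 0 ≤ log (1 + ep q) := Real.log_nonneg (by linarith)
  have q1 := sq_bd hp ha (by norm_num) s4
  have q2 := sq_bd hp hw (c := 1) (by norm_num) (by linarith)
  have hp0 : 0 ≤ q + 1 := by linarith
  have a1 := mul_le_mul_of_nonneg_left (log_lower ha) hp0
  have a2 := mul_le_mul_of_nonneg_left (log_upper ha) hp0
  have w1 := mul_le_mul_of_nonneg_left (neg_log_lower h.w1) hp0
  have w2 := mul_le_mul_of_nonneg_left (neg_log_upper hw s2) hp0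
  have hnu : 0 ≤ nu n B x := by unfold nu; positivity
  have h1nu : 0 < 1 + nu n B x := by linarith
  set lam : ℝ := (q + 1) * (2 * a + w - g) with hlam
  have key : Th n q g B x = (q + 1) * a + (q + 1) * w - lam * (nu n B x / (1 + nu n B x)) := by
    unfold Th
    rw [div_eq_iff h1nu.ne']
    have h3 : lam * (nu n B x / (1 + nu n B x)) * (1 + nu n B x) = lam * nu n B x := by
      field_simp
    have h4 : eta B x * (q + 1) * (1 + g) = (q + 1) * (a + nu n B x * g) := by rw [r1]; ring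
    rw [h4, sub_mul, h3, hlam, r2]
    ring
  have f0 : 0 ≤ nu n B x / (1 + nu n B x) := by positivity
  have f1 : 1 / 2 * (nu n B x / (1 + nu n B x)) ≤ lam * (nu n B x / (1 + nu n B x)) :=
    mul_le_mul_of_nonneg_right m1 f0
  have f2 : lam * (nu n B x / (1 + nu n B x)) ≤ 3 / 4 * (nu n B x / (1 + nu n B x)) :=
    mul_le_mul_of_nonneg_right m2 f0
  constructor
  · rw [key, L1]; nlinarith
  · rw [key, L1]; nlinarith

end

end Pool.Agent.RieszSq
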