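import Pool.Agent.RieszSq.ParEst1

set_option autoImplicit false

open Real Finset

namespace Pool.Agent.RieszSq

section

variable {n : ℕ} {q a g w k B t x : ℝ}

/-- MODULE Q14a. `m = n + 2 ≥ 4`, `log m ≥ log 4 ≥ 1.386`: `q ≥ 4 · 501.38 = 2005`, and
`q ≥ 500 m`, so `n + 4 ≤ q + 1`. -/
theorem range_basic {n : ℕ} (hn : 2 ≤ n) {q : ℝ}
    (hq : ((n : ℝ) + 2) * (log ((n : ℝ) + 2) + 500) ≤ q) :
    2000 ≤ q ∧ (n : ℝ) + 4 ≤ q + 1 ∧ ((n : ℝ) + 2) * 501 ≤ q := by
  have hn' : (2 : ℝ) ≤ n := by exact_mod_cast hn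
  have hlog : (1 : ℝ) ≤ log ((n : ℝ) + 2) := by
    rw [Real.le_log_iff_exp_le (by linarith)]
    have := Real.exp_one_lt_d9
    linarith
  have h1 : ((n : ℝ) + 2) * 501 ≤ ((n : ℝ) + 2) * (log ((n : ℝ) + 2) + 500) :=
    mul_le_mul_of_nonneg_left (by linarith) (by linarith)
  refine ⟨by linarith, by linarith, by linarith⟩

/-- MODULE Q14b (`T ≥ 5.1`). `T = -log (2η)`, `1/η = 2 e^T`. From `rel`: `η = a + (n-1) g η +
…`, precisely `a = η (1 - (n-1) g)`, so `1 = (n-1) g + a/η` and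
`p = (n-1) p g + (p a) 2 e^T`. Here `p g ≤ (1+g) p log (1+g) ≤ 1.01 · 2 T` and
`p a ≤ 1.01 p log (1+a) ≤ 1.01 T` (`logs`, `small`). If `T < 5.1` then (`e^5.1 ≤ 164.1`)
`p ≤ 10.31 (n-1) + 1.01 · 5.1 · 2 · 164.1 ≤ 10.31 (n-1) + 1691`, but
`p > 501 (n+2) ≥ 501 (n-1) + 1503`, `n ≥ 2` gives `p ≥ 490 (n-1) + 10.31(n-1) + 1503 ≥ …+ 1993`. -/
theorem Par.T_ge (h : Par n q a g w k B t x)
    (hq : ((n : ℝ) + 2) * (log ((n : ℝ) + 2) + 500) ≤ q) : 51 / 10 ≤ -log (2 * eta B x) := by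
  obtain ⟨hq1, hn4, h501⟩ := range_basic h.n2 hq
  obtain ⟨l1, l2⟩ := h.logs
  obtain ⟨ha1, -, hg1, -, -, -⟩ := h.small hq1 hn4
  have hn' : (2 : ℝ) ≤ n := by exact_mod_cast h.n2
  have hη : 0 < eta B x := h.basic.2.2.2.1
  have hep : 0 ≤ log (1 + ep q) := by
    apply Real.log_nonneg
    have : 0 < ep q := by unfold ep; positivity
    linarith
  have hW : 0 ≤ -((q + 1) * log (1 - w)) := by
    have h1 : log (1 - w) ≤ 0 := Real.log_nonpos (by linarith [h.w1]) (by linarith [h.w0])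
    have h2 : 0 ≤ q + 1 := by linarith
    nlinarith
  have hl2 : 0 ≤ log 2 := Real.log_nonneg (by norm_num)
  by_contra hT
  push Not at hT
  have hpos : ∀ y : ℝ, 0 < y → y ≤ 1 / 100 → (q + 1) * y ≤ 101 / 100 * ((q + 1) * log (1 + y)) := by
    intro y hy hy1
    have h1 : 1 - (1 + y)⁻¹ ≤ log (1 + y) := by
      have := Real.one_sub_inv_le_log_of_pos (show 0 < 1 + y by linarith)
      exact this
    have h2 : 1 - (1 + y)⁻¹ = y / (1 + y) := by
      field_simp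
      ring
    have h3 : y * (100 / 101) ≤ y / (1 + y) := by
      rw [le_div_iff₀ (by linarith)]
      nlinarith
    have h4 : y * (100 / 101) ≤ log (1 + y) := by linarith
    have h5 : 0 ≤ q + 1 := by linarith
    nlinarith
  have hpa : (q + 1) * a ≤ 101 / 100 * (51 / 10) := by
    have := hpos a h.a0 ha1
    linarith
  have hpg : (q + 1) * g ≤ 202 / 100 * (51 / 10) := by
    have := hpos g h.g0 hg1
    linarith
  -- the exponential
  have hexp : exp (51 / 10) ≤ 165 := by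
    have e1 : exp (1 : ℝ) < 2.7182818286 := Real.exp_one_lt_d9
    have e2 : exp (51 / 10 : ℝ) = exp 1 ^ 5 * exp (1 / 10) := by
      rw [← Real.exp_nat_mul, ← Real.exp_add]
      norm_num
    have e3 : exp (1 / 10 : ℝ) ≤ 10 / 9 := by
      have h1 : (9 / 10 : ℝ) ≤ exp (-(1 / 10)) := by
        have := Real.add_one_le_exp (-(1 / 10 : ℝ))
        linarith
      have h2 : exp (1 / 10 : ℝ) * exp (-(1 / 10)) = 1 := by
        rw [← Real.exp_add]
        simp
      have h3 : 0 < exp (1 / 10 : ℝ) := Real.exp_pos _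
      nlinarith
    have e4 : exp (1 : ℝ) ^ 5 ≤ 2.7182818286 ^ 5 :=
      pow_le_pow_left₀ (Real.exp_pos _).le e1.le 5
    rw [e2]
    calc exp (1 : ℝ) ^ 5 * exp (1 / 10) ≤ 2.7182818286 ^ 5 * (10 / 9) :=
          mul_le_mul e4 e3 (Real.exp_pos _).le (by norm_num)
      _ ≤ 165 := by norm_num
  -- `1 ≤ 330 η`
  have hη' : 1 ≤ 330 * eta B x := by
    have h1 : -(51 / 10) < log (2 * eta B x) := by linarith
    have h2 : exp (-(51 / 10)) < 2 * eta B x := by
      rw [← Real.lt_log_iff_exp_lt (by linarith)]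
      exact h1
    have h3 : exp (51 / 10 : ℝ) * exp (-(51 / 10)) = 1 := by
      rw [← Real.exp_add]
      simp
    have h4 : 0 < exp (-(51 / 10 : ℝ)) := Real.exp_pos _
    nlinarith
  -- `a = η (1 - (n-1) g)`
  have ha : a = eta B x * (1 - ((n : ℝ) - 1) * g) := by
    have h1 := h.r1
    have hB := h.B0
    unfold eta
    field_simp
    linarith
  have hkey : (q + 1) ≤ ((n : ℝ) - 1) * ((q + 1) * g) + 330 * ((q + 1) * a) := by
    have h1 : 1 - ((n : ℝ) - 1) * g ≤ 330 * a := by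
      have h0 : 0 ≤ 1 - ((n : ℝ) - 1) * g := by
        by_contra hneg
        push Not at hneg
        have := mul_neg_of_pos_of_neg hη hneg
        linarith [h.a0]
      nlinarith
    have h2 : 0 ≤ q + 1 := by linarith
    nlinarith
  have h3 : ((n : ℝ) - 1) * ((q + 1) * g) ≤ ((n : ℝ) - 1) * (202 / 100 * (51 / 10)) :=
    mul_le_mul_of_nonneg_left hpg (by linarith)
  linarith

end

end Pool.Agent.RieszSq
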