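import Pool.Agent.RieszSq.ParE5

set_option autoImplicit false

open Real Finset

namespace Pool.Agent.RieszSq

section

variable {n : ℕ} {q a g w k B t x : ℝ}

/-- MODULE Q14c. `a ≤ g`: `x² = (1+g)^(-p)`, `B x = (1+a)^(-p)` and `x ≤ B` (`4 η ≤ 1` because
`T ≥ 5.1`). -/
theorem Par.a_le_g (h : Par n q a g w k B t x)
    (hq : ((n : ℝ) + 2) * (log ((n : ℝ) + 2) + 500) ≤ q) : a ≤ g := by
  have hT := h.T_ge hq
  obtain ⟨l1, l2⟩ := h.logs
  have hp0 : (0 : ℝ) < q + 1 := by linarith [h.q1]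
  have hlog2 := Real.log_two_lt_d9
  have h1 : (q + 1) * log (1 + a) ≤ (q + 1) * log (1 + g) := by linarith
  have h2 : log (1 + a) ≤ log (1 + g) := le_of_mul_le_mul_left h1 hp0
  have h3 := (Real.log_le_log_iff (by linarith [h.a0]) (by linarith [h.g0])).mp h2
  linarith

/-- MODULE Q14d (`Θ ≥ 5`, `480 ν ≤ Θ`). `μ = ν/(1+ν)`, `Θ = μ p (1+g)/n ≥ μ (log m + 500)`.
* If `μ ≤ 1/25` then `Θ ≥ T - 0.04 - 0.03 ≥ 5` (`Th_bd`, `T_ge`); if `μ ≥ 1/25`, `Θ ≥ 20`.
* If `ν ≤ 1/25` then `Θ ≥ 500 ν/(1+ν) ≥ 480 ν`. If `ν ≥ 1/25`: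
  `log m ≥ log n = log ν - log η = log (2ν) + T ≥ log (2ν) + Θ - 0.02` (`Th_bd`), so
  `Θ ≥ μ (Θ + log (2ν) + 499.98)`, `Θ (1-μ) ≥ μ (499.98 + log (2/25))`, `Θ ≥ 497 ν`
  (`log (2/25) ≥ -2.6`; `μ/(1-μ) = ν`). -/
theorem Par.Th_ge (h : Par n q a g w k B t x)
    (hq : ((n : ℝ) + 2) * (log ((n : ℝ) + 2) + 500) ≤ q) :
    5 ≤ Th n q g B x ∧ 480 * nu n B x ≤ Th n q g B x := by
  obtain ⟨h1, h2, _⟩ := range_basic h.n2 hq
  obtain ⟨b1, b2⟩ := h.Th_bd h1 h2
  have hT := h.T_ge hq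
  obtain ⟨_, _, _, he0, he1, _⟩ := h.basic
  have hn2 : (2 : ℝ) ≤ (n : ℝ) := by exact_mod_cast h.n2
  have hg := h.g0
  have hnu : nu n B x = n * eta B x := rfl
  have hnu0 : 0 < nu n B x := by rw [hnu]; exact mul_pos (by linarith) he0
  have hV : 0 < 1 + nu n B x := by linarith
  have hL0 : 0 ≤ log ((n : ℝ) + 2) := Real.log_nonneg (by linarith)
  have hTV : Th n q g B x * (1 + nu n B x) = eta B x * (q + 1) * (1 + g) := by
    unfold Th
    exact div_mul_cancel₀ _ hV.ne'
  have hkey : nu n B x * (log ((n : ℝ) + 2) + 500) ≤ Th n q g B x * (1 + nu n B x) := by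
    rw [hTV, hnu]
    have e1 : (n : ℝ) * (log ((n : ℝ) + 2) + 500) ≤ (q + 1) * (1 + g) := by
      have e2 : (n : ℝ) * (log ((n : ℝ) + 2) + 500)
          ≤ ((n : ℝ) + 2) * (log ((n : ℝ) + 2) + 500) :=
        mul_le_mul_of_nonneg_right (by linarith) (by linarith)
      have e3 : (q + 1) * 1 ≤ (q + 1) * (1 + g) :=
        mul_le_mul_of_nonneg_left (by linarith) (by linarith)
      linarith
    have := mul_le_mul_of_nonneg_left e1 he0.le
    linarith
  constructor
  · rcases le_total (nu n B x / (1 + nu n B x)) (1 / 25) with hm | hm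
    · linarith
    · have hm' : 1 / 25 * (1 + nu n B x) ≤ nu n B x := by
        rwa [le_div_iff₀ hV] at hm
      have h20 : 20 * (1 + nu n B x) ≤ Th n q g B x * (1 + nu n B x) := by
        have : 0 ≤ nu n B x * log ((n : ℝ) + 2) := mul_nonneg hnu0.le hL0
        linarith
      have := le_of_mul_le_mul_right h20 hV
      linarith
  · rcases le_total (nu n B x) (1 / 25) with hm | hm
    · have h3 : 480 * nu n B x * (1 + nu n B x) ≤ Th n q g B x * (1 + nu n B x) := by
        have e1 : 0 ≤ nu n B x * log ((n : ℝ) + 2) := mul_nonneg hnu0.le hL0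
        have e2 : nu n B x * nu n B x ≤ nu n B x * (1 / 25) :=
          mul_le_mul_of_nonneg_left hm hnu0.le
        linarith
      exact le_of_mul_le_mul_right h3 hV
    · have h2e : 0 < 2 * eta B x := by linarith
      have e1 : log (2 * nu n B x) = log n + log (2 * eta B x) := by
        rw [hnu, show 2 * ((n : ℝ) * eta B x) = n * (2 * eta B x) by ring,
          Real.log_mul (by linarith) h2e.ne']
      have e2 : log (n : ℝ) ≤ log ((n : ℝ) + 2) := Real.log_le_log (by linarith) (by linarith)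
      have e3 : -(28 / 10 : ℝ) ≤ log (2 * nu n B x) := by
        have f1 : (1 : ℝ) / 2 ^ 4 ≤ 2 * nu n B x := by norm_num; linarith
        have f2 := Real.log_le_log (by norm_num) f1
        rw [one_div, Real.log_inv, Real.log_pow] at f2
        have := Real.log_two_lt_d9
        push_cast at f2
        linarith
      have e4 : Th n q g B x + 497 ≤ log ((n : ℝ) + 2) + 500 := by linarith
      have e5 := mul_le_mul_of_nonneg_left e4 hnu0.le
      have e6 : 497 * nu n B x ≤ Th n q g B x := by linarith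
      linarith

end

end Pool.Agent.RieszSq
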