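import Pool.Agent.RieszSq.ParE6

set_option autoImplicit false

open Real Finset

namespace Pool.Agent.RieszSq

section

variable {n : ℕ} {q a g w k B t x : ℝ}

/-- MODULE Q14e. `η ≥ 1/(2p)` (`T ≤ log p`), `ν = n η ≤ n/2`, so `1 + ν ≤ p`; hence
`log ((1+ν)/(2η)) ≤ 2 log p ≤ 0.34 √p ≤ p/100` (`√p ≥ 44`);
`ep q · p^8 ≤ 10^(-9)`: `8 log p + 9 log 10 ≤ 1.36 √p + 21 ≤ p log 2` (`p ≥ 2001`);
`log ((4B + n x)²) = log (16 B² (1+ν)²)`, `log (2 B²) = log k + log(1+ep) ≤ log p + 1`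
(`log k = -p log (1-w) ≤ T ≤ log p`), so it is `≤ log 8 + 1 + 3 log p ≤ 4 + 0.51 √p ≤ q/50`. -/
theorem Par.misc (h : Par n q a g w k B t x)
    (hq : ((n : ℝ) + 2) * (log ((n : ℝ) + 2) + 500) ≤ q) :
    log ((1 + nu n B x) / (2 * eta B x)) ≤ (q + 1) / 100 ∧ 1 + nu n B x ≤ q + 1 ∧
      1 ≤ 2 * (q + 1) * eta B x ∧ ep q * (q + 1) ^ 8 ≤ 1 / 10 ^ 9 ∧
      log ((4 * B + n * x) ^ 2) ≤ q / 50 := by
  obtain ⟨h1, h2, _⟩ := range_basic h.n2 hq
  obtain ⟨hT, _⟩ := h.T_le h1 h2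
  obtain ⟨hL, hL7⟩ := log_sq_le (p := q + 1) (by linarith)
  obtain ⟨_, _, _, he0, he1, _⟩ := h.basic
  have hp0 : (0 : ℝ) < q + 1 := by linarith
  have hn0 : (0 : ℝ) ≤ (n : ℝ) := Nat.cast_nonneg n
  have hB := h.B0
  have hx := h.x0
  -- `s = √p`
  have hs2 : √(q + 1) * √(q + 1) = q + 1 := Real.mul_self_sqrt hp0.le
  have hs44 : 44 ≤ √(q + 1) := Real.le_sqrt_of_sq_le (by norm_num; linarith)
  have hnu : nu n B x = n * eta B x := rfl
  have hnu0 : 0 ≤ nu n B x := by rw [hnu]; exact mul_nonneg hn0 he0.le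
  have hnu1 : 1 + nu n B x ≤ q + 1 := by
    rw [hnu]
    have := mul_le_mul_of_nonneg_left he1 hn0
    linarith
  have h1nu : 0 < 1 + nu n B x := by linarith
  have hlnu : log (1 + nu n B x) ≤ log (q + 1) := Real.log_le_log h1nu hnu1
  have h2e : 0 < 2 * eta B x := by linarith
  have hlog2 : (69 : ℝ) / 100 ≤ log 2 := by
    have := Real.log_two_gt_d9
    linarith
  have hlog2' : log 2 ≤ (7 : ℝ) / 10 := by
    have := Real.log_two_lt_d9
    linarith
  refine ⟨?_, hnu1, ?_, ?_, ?_⟩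
  · rw [Real.log_div h1nu.ne' h2e.ne']
    nlinarith
  · have h3 : 0 ≤ log (2 * (q + 1) * eta B x) := by
      have : 2 * (q + 1) * eta B x = (q + 1) * (2 * eta B x) := by ring
      rw [this, Real.log_mul hp0.ne' h2e.ne']
      linarith
    exact (Real.log_nonneg_iff (by positivity)).mp h3
  · have h4 : ep q = Real.exp (-((q + 1) * log 2)) := by
      unfold ep
      rw [Real.rpow_def_of_pos (by norm_num)]
      congr 1
      ring
    have h5 : (q + 1) ^ 8 = Real.exp (8 * log (q + 1)) := by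
      rw [show (8 : ℝ) * log (q + 1) = ((8 : ℕ) : ℝ) * log (q + 1) by norm_num, Real.exp_nat_mul,
        Real.exp_log hp0]
    have h6 : (1 : ℝ) / 2 ^ 30 = Real.exp (-(30 * log 2)) := by
      rw [Real.exp_neg, show (30 : ℝ) * log 2 = ((30 : ℕ) : ℝ) * log 2 by norm_num,
        Real.exp_nat_mul, Real.exp_log (by norm_num), one_div]
    rw [h4, h5, ← Real.exp_add]
    refine le_trans ?_ (show (1 : ℝ) / 2 ^ 30 ≤ 1 / 10 ^ 9 by norm_num)
    rw [h6, Real.exp_le_exp]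
    nlinarith
  · have h7 : (4 * B + n * x) ^ 2 = 8 * ((2 * B ^ 2) * (1 + nu n B x) ^ 2) := by
      unfold nu eta
      field_simp
      ring
    have hep0 : 0 < ep q := Real.rpow_pos_of_pos (by norm_num) _
    have h8 : log (2 * B ^ 2) = -((q + 1) * log (1 - w)) + log (1 + ep q) := by
      rw [h.eB, Real.log_mul h.k0.ne' (by linarith), h.ek,
        Real.log_rpow (by linarith [h.w1])]
      ring
    have h9 : 0 ≤ (q + 1) * log (1 + a) :=
      mul_nonneg hp0.le (Real.log_nonneg (by linarith [h.a0]))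
    have h10 := h.logs.1
    have h11 : log 8 = 3 * log 2 := by
      rw [show (8 : ℝ) = 2 ^ 3 by norm_num, Real.log_pow]
      norm_num
    rw [h7, Real.log_mul (by norm_num) (by positivity),
      Real.log_mul (by positivity) (by positivity), Real.log_pow, h8, h11]
    push_cast
    nlinarith

/-- all estimates together -/
theorem Par.est (h : Par n q a g w k B t x)
    (hq : ((n : ℝ) + 2) * (log ((n : ℝ) + 2) + 500) ≤ q) : Est n q a g w k B t x := by
  obtain ⟨h1, h2, _⟩ := range_basic h.n2 hq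
  obtain ⟨s1, s2, s3, -, -, -⟩ := h.small h1 h2
  obtain ⟨l1, l2⟩ := h.lam_bd h1 h2
  obtain ⟨t1, t2⟩ := h.Th_ge hq
  obtain ⟨m1, m2, m3, m4, m5⟩ := h.misc hq
  exact ⟨h, h1, s1, s3, s2, h.a_le_g hq, by linarith, by linarith, t1, (h.Th_bd h1 h2).1, t2, m1,
    h2, m2, m3, m4, m5⟩

end

end Pool.Agent.RieszSq
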