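import Pool.Agent.RieszSq.Defs
import Pool.Agent.Riesz.PhiProp

set_option autoImplicit false

open Real Finset

namespace Pool.Agent.RieszSq

open Pool.Agent.Riesz (InDom om G)

/-- MODULE Q11a (existence of the minimum). Follow `Pool.Agent.Riesz.Phi_exists`
(Pool/Agent/Riesz/PhiProp.lean) word by word; the only changes: the bound `Phi < 8` is replaced by
`Phi < 4 n + 4` (used to show that the minimum of `Ψ` over the compact set has `α > 0`: if `α = 0`
then `Ψ ≥ 4 n + 4`), and points with `ω > 1/2` have `Phi ≥ 4 G q (1/2) = 4 · 2^q`. -/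
theorem exists_min0 {n : ℕ} (hn : 2 ≤ n) {q α' γ' : ℝ} (hq : 1 ≤ q) (hdom : InDom n α' γ')
    (hle : Pool.Agent.Riesz.Phi n q α' γ' < 4 * n + 4) (hom : om n α' γ' ≤ 1 / 2)
    (hbig : Pool.Agent.Riesz.Phi n q α' γ' ≤ 4 * (2 : ℝ) ^ q) :
    ∃ α γ : ℝ, InDom n α γ ∧
      ∀ a g, InDom n a g → Pool.Agent.Riesz.Phi n q α γ ≤ Pool.Agent.Riesz.Phi n q a g := by
  have hm2 : (2 : ℝ) ≤ n := by exact_mod_cast hn
  have hm' : (1 : ℝ) ≤ n := by linarith
  have hβ0 : 0 < q := by linarith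
  set K : Set (ℝ × ℝ × ℝ) := {p | 0 ≤ p.1 ∧ p.1 ≤ 1 ∧ 0 ≤ p.2.1 ∧ p.2.1 ≤ 1 ∧ 0 ≤ p.2.2 ∧
    p.2.2 ≤ 1 / 2 ∧ ((n : ℝ) - 1) * p.2.1 ≤ 1 ∧
      n * p.1 ^ 2 ≤ p.2.2 * (1 - ((n : ℝ) - 1) * p.2.1)} with hK
  set Ψ : ℝ × ℝ × ℝ → ℝ := fun p => 4 * n * G q (-p.1) + n * ((n : ℝ) - 1) / 2 * G q (-p.2.1)
    + 4 * G q p.2.2 + 2 * G q (2 * p.2.2 - 1) with hΨ
  have hKc : IsCompact K := by
    have hsub : K ⊆ Set.Icc (0 : ℝ) 1 ×ˢ (Set.Icc (0 : ℝ) 1 ×ˢ Set.Icc (0 : ℝ) 1) := by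
      rintro ⟨a, g, w⟩ ⟨h1, h2, h3, h4, h5, h6, -, -⟩
      simp only [Set.mem_prod, Set.mem_Icc]
      dsimp only at h1 h2 h3 h4 h5 h6
      exact ⟨⟨h1, h2⟩, ⟨h3, h4⟩, ⟨h5, by linarith⟩⟩
    refine IsCompact.of_isClosed_subset (isCompact_Icc.prod (isCompact_Icc.prod isCompact_Icc)) ?_ hsub
    rw [hK]
    simp only [Set.ofPred_and]
    refine IsClosed.inter (isClosed_le (by fun_prop) (by fun_prop)) ?_
    refine IsClosed.inter (isClosed_le (by fun_prop) (by fun_prop)) ?_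
    refine IsClosed.inter (isClosed_le (by fun_prop) (by fun_prop)) ?_
    refine IsClosed.inter (isClosed_le (by fun_prop) (by fun_prop)) ?_
    refine IsClosed.inter (isClosed_le (by fun_prop) (by fun_prop)) ?_
    refine IsClosed.inter (isClosed_le (by fun_prop) (by fun_prop)) ?_
    exact IsClosed.inter (isClosed_le (by fun_prop) (by fun_prop))
      (isClosed_le (by fun_prop) (by fun_prop))
  have hcont : ContinuousOn Ψ K := by
    have hG : ∀ f : ℝ × ℝ × ℝ → ℝ, Continuous f → (∀ p ∈ K, f p < 1) →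
        ContinuousOn (fun p => G q (f p)) K := fun f hf h =>
      (Pool.Agent.Riesz.G_continuousOn q).comp hf.continuousOn h
    have c1 := hG (fun p => -p.1) (by fun_prop) (by rintro p ⟨h1, -⟩; linarith)
    have c2 := hG (fun p => -p.2.1) (by fun_prop) (by rintro p ⟨-, -, h3, -⟩; linarith)
    have c3 := hG (fun p => p.2.2) (by fun_prop) (by rintro p ⟨-, -, -, -, -, h6, -⟩; linarith)
    have c4 := hG (fun p => 2 * p.2.2 - 1) (by fun_prop)
      (by rintro p ⟨-, -, -, -, -, h6, -⟩; linarith)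
    exact (((c1.const_mul _).add (c2.const_mul _)).add (c3.const_mul _)).add (c4.const_mul _)
  -- reduction of points of the domain
  have hred : ∀ a g, InDom n a g → om n a g ≤ 1 / 2 →
      ∃ p ∈ K, Ψ p = Pool.Agent.Riesz.Phi n q a g := by
    intro a g ⟨h1, h2, h3, h4⟩ h5
    have hden : 0 < 1 - ((n : ℝ) - 1) * g := by linarith
    have hom0 : 0 ≤ om n a g := by unfold om; positivity
    have hma : n * a ^ 2 = om n a g * (1 - ((n : ℝ) - 1) * g) := by
      unfold om; field_simp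
    have ha1 : a ≤ 1 := by
      have h6 : ((n : ℝ) - 1) * g ≥ 0 := mul_nonneg (by linarith) h2
      by_contra hc
      push Not at hc
      have : 1 < n * a ^ 2 := by nlinarith
      have : om n a g * (1 - ((n : ℝ) - 1) * g) ≤ 1 := by nlinarith
      linarith
    refine ⟨(a, g, om n a g), ?_, rfl⟩
    refine ⟨h1.le, ha1, h2, ?_, hom0, h5, h3.le, ?_⟩
    · dsimp only; nlinarith
    · dsimp only; rw [hma]
  obtain ⟨p0, hp0, hp0'⟩ := hred α' γ' hdom hom
  obtain ⟨⟨a, g, w⟩, hpK, hmin⟩ := hKc.exists_isMinOn ⟨p0, hp0⟩ hcont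
  have hmin' : ∀ r ∈ K, Ψ (a, g, w) ≤ Ψ r := fun r hr => hmin hr
  have hlt : Ψ (a, g, w) < 4 * n + 4 := lt_of_le_of_lt (hmin' p0 hp0) (by rw [hp0']; exact hle)
  have hbg : Ψ (a, g, w) ≤ 4 * (2 : ℝ) ^ q := (hmin' p0 hp0).trans (by rw [hp0']; exact hbig)
  obtain ⟨k1, k2, k3, k4, k5, k6, k7, k8⟩ := hpK
  dsimp only at k1 k2 k3 k4 k5 k6 k7 k8
  have hGw : 1 ≤ G q w := by
    rw [← Pool.Agent.Riesz.G_zero q]; exact Pool.Agent.Riesz.G_mono hβ0 k5 (by linarith)
  have hcoef : 0 ≤ (n : ℝ) * (n - 1) / 2 := by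
    have := mul_nonneg (show (0 : ℝ) ≤ n by linarith) (show 0 ≤ (n : ℝ) - 1 by linarith)
    linarith
  have hapos : 0 < a := by
    rcases k1.eq_or_lt with h | h
    · exfalso
      have : Ψ (a, g, w) ≥ 4 * n + 4 := by
        simp only [hΨ]
        rw [← h, neg_zero, Pool.Agent.Riesz.G_zero]
        have h1 := mul_nonneg hcoef (Pool.Agent.Riesz.G_pos q (-g)).le
        have h2 := Pool.Agent.Riesz.G_pos q (2 * w - 1)
        linarith
      linarith
    · exact h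
  have hden : 0 < 1 - ((n : ℝ) - 1) * g := by
    have h1 : 0 < n * a ^ 2 := by positivity
    by_contra hc
    push Not at hc
    have : w * (1 - ((n : ℝ) - 1) * g) ≤ 0 := mul_nonpos_of_nonneg_of_nonpos k5 hc
    linarith
  have homw : om n a g ≤ w := by
    unfold om
    rw [div_le_iff₀ hden]; exact k8
  have hdomag : InDom n a g := ⟨hapos, k3, by linarith, by linarith⟩
  have hPhiΨ : Pool.Agent.Riesz.Phi n q a g ≤ Ψ (a, g, w) := by
    simp only [hΨ]
    unfold Pool.Agent.Riesz.Phi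
    have h1 := Pool.Agent.Riesz.G_mono hβ0 homw (by linarith)
    have h2 := Pool.Agent.Riesz.G_mono hβ0 (show 2 * om n a g - 1 ≤ 2 * w - 1 by linarith)
      (by linarith)
    linarith
  refine ⟨a, g, hdomag, fun b h hb => ?_⟩
  by_cases hbo : om n b h ≤ 1 / 2
  · obtain ⟨r, hr, hr'⟩ := hred b h hb hbo
    rw [← hr']
    exact hPhiΨ.trans (hmin' r hr)
  · push Not at hbo
    have h1 : G q (1 / 2) ≤ G q (om n b h) :=
      Pool.Agent.Riesz.G_mono hβ0 hbo.le hb.2.2.2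
    have h2 : G q (1 / 2) = 2 ^ q := by
      rw [Pool.Agent.Riesz.G_eq (by norm_num)]
      rw [show (1 - 1 / 2 : ℝ) = (2 : ℝ)⁻¹ by norm_num, Real.inv_rpow (by norm_num),
          Real.rpow_neg (by norm_num), inv_inv]
    have h3 : 4 * (2 : ℝ) ^ q ≤ Pool.Agent.Riesz.Phi n q b h := by
      unfold Pool.Agent.Riesz.Phi
      have h4 := mul_nonneg hcoef (Pool.Agent.Riesz.G_pos q (-h)).le
      have h5 := Pool.Agent.Riesz.G_pos q (2 * om n b h - 1)
      have h6 : 0 ≤ 4 * (n : ℝ) * G q (-b) := by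
        have := Pool.Agent.Riesz.G_pos q (-b)
        positivity
      linarith
    linarith

end Pool.Agent.RieszSq
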