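import Pool.Agent.RieszSq.ParEx1

set_option autoImplicit false

open Real Finset

namespace Pool.Agent.RieszSq

open Pool.Agent.Riesz (InDom om G)

/-- MODULE Q11b (a test point). `m = n + 2`, `θ = 250/(log m + 500) ∈ (0, 1/2]`,
`γ' = (1-θ)/(n-1)`, `α' = 1/q`. Then `1 - (n-1) γ' = θ`, `ω = n/(q² θ) ≤ 1/(250 q)`
(`q θ ≥ 250 m`). `4 n (1+α')^(-q) ≤ 4 n · 2/5` (`q log (1 + 1/q) ≥ 1 - 1/(2q)`);
`q log (1+γ') ≥ q γ'/(1+γ') ≥ q (1-θ)/n ≥ (1-θ)(log m + 500) = log m + 250`, so
`n(n-1)/2 (1+γ')^(-q) ≤ n exp(-250)`; `4 (1-ω)^(-q) ≤ 4.1` (`q ω/(1-ω) ≤ 1/200`);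
`2 (2-2ω)^(-q) ≤ 2 · 1.9^(-q) ≤ 0.1`. In total `Phi ≤ 1.7 n + 4.3 < 4 n + 4 ≤ 4 · 2^q`. -/
theorem test_point {n : ℕ} (hn : 2 ≤ n) {q : ℝ}
    (hq : ((n : ℝ) + 2) * (log ((n : ℝ) + 2) + 500) ≤ q) :
    ∃ α' γ' : ℝ, InDom n α' γ' ∧ Pool.Agent.Riesz.Phi n q α' γ' < 4 * n + 4 ∧
      om n α' γ' ≤ 1 / 2 ∧ Pool.Agent.Riesz.Phi n q α' γ' ≤ 4 * (2 : ℝ) ^ q := by
  have hn2 : (2 : ℝ) ≤ (n : ℝ) := by exact_mod_cast hn
  set N : ℝ := (n : ℝ) with hN
  have hm : (4 : ℝ) ≤ N + 2 := by linarith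
  set Lg : ℝ := log (N + 2) with hLg
  have hL0 : 0 < Lg := log_pos (by linarith)
  have hq0 : 500 * (N + 2) ≤ q := by
    nlinarith [mul_pos (show (0 : ℝ) < N + 2 by linarith) hL0]
  have hq2 : 2000 ≤ q := by linarith
  have hqp : 0 < q := by linarith
  set th : ℝ := 250 / (Lg + 500) with hth
  have hth0 : 0 < th := by positivity
  have hthm : th * (Lg + 500) = 250 := by
    rw [hth]; field_simp
  have hth1 : th ≤ 1 / 2 := by
    rw [hth, div_le_iff₀ (by linarith)]; linarith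
  have hn1 : 0 < N - 1 := by linarith
  set ga : ℝ := (1 - th) / (N - 1) with hga
  have hga0 : 0 < ga := div_pos (by linarith) hn1
  have hga1 : (N - 1) * ga = 1 - th := by
    rw [hga]; field_simp
  have hqth : 250 * (N + 2) ≤ q * th := by
    have h1 : (N + 2) * (Lg + 500) * th ≤ q * th := mul_le_mul_of_nonneg_right hq hth0.le
    have h2 : (N + 2) * (Lg + 500) * th = 250 * (N + 2) := by
      calc (N + 2) * (Lg + 500) * th = (N + 2) * (th * (Lg + 500)) := by ring
        _ = _ := by rw [hthm]; ring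
    linarith
  have hom : om N (1 / q) ga = N / (q * (q * th)) := by
    unfold om
    have h0 : 1 - (N - 1) * ga = th := by rw [hga1]; ring
    rw [h0]
    field_simp
  set w : ℝ := om N (1 / q) ga with hw
  have hqth0 : 0 < q * th := mul_pos hqp hth0
  have hqw : q * w ≤ 1 / 250 := by
    rw [hom]
    have h1 : q * (N / (q * (q * th))) = N / (q * th) := by field_simp
    rw [h1, div_le_iff₀ hqth0]
    linarith
  have hw0 : 0 < w := by
    rw [hom]; positivity
  have hw1 : w ≤ 1 / 250 := by nlinarith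
  refine ⟨1 / q, ga, ⟨by positivity, hga0.le, by rw [hga1]; linarith, by rw [← hw]; linarith⟩, ?_⟩
  -- the four estimates
  have hlog : ∀ x : ℝ, 0 < x → 1 - x⁻¹ ≤ log x := fun x hx => Real.one_sub_inv_le_log_of_pos hx
  have hexp : ∀ y : ℝ, 0 < y → exp (-y) ≤ 1 / (y + 1) := by
    intro y hy
    rw [exp_neg, ← one_div]
    exact one_div_le_one_div_of_le (by linarith) (add_one_le_exp y)
  have e1 : G q (-(1 / q)) ≤ 2 / 5 := by
    unfold G Pool.Agent.Riesz.LL
    have h1 : 1 - (1 + 1 / q)⁻¹ ≤ log (1 - -(1 / q)) := by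
      have := hlog (1 + 1 / q) (by positivity)
      rwa [sub_neg_eq_add]
    have h2 : q * (1 - (1 + 1 / q)⁻¹) = 1 - 1 / (q + 1) := by
      field_simp
      ring
    have h3 : 1 / (q + 1) ≤ 1 / 2000 :=
      one_div_le_one_div_of_le (by norm_num) (by linarith)
    have h4 : -q * log (1 - -(1 / q)) ≤ -(1999 / 2000) := by
      have h5 := mul_le_mul_of_nonneg_left h1 hqp.le
      linarith
    have h6 : exp (-q * log (1 - -(1 / q))) ≤ exp (-(1999 / 2000)) := exp_le_exp.2 h4
    have h7 : exp (-(1999 / 2000) : ℝ) ≤ 2 / 5 := by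
      have h8 : (5 / 2 : ℝ) ≤ exp (1999 / 2000) := by
        have h9 : exp (1999 / 2000 : ℝ) = exp 1 * exp (-(1 / 2000)) := by
          rw [← exp_add]; norm_num
        have h10 : (1 - 1 / 2000 : ℝ) ≤ exp (-(1 / 2000)) := by
          have := add_one_le_exp (-(1 / 2000) : ℝ)
          linarith
        have h11 := Real.exp_one_gt_d9
        rw [h9]
        nlinarith
      rw [exp_neg]
      rw [inv_le_comm₀ (exp_pos _) (by norm_num)]
      calc ((2 / 5 : ℝ))⁻¹ = 5 / 2 := by norm_num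
        _ ≤ _ := h8
    exact h6.trans h7
  have e2 : G q (-ga) ≤ 1 / (N + 2) * (1 / 251) := by
    unfold G Pool.Agent.Riesz.LL
    have h1 : 1 - (1 + ga)⁻¹ ≤ log (1 - -ga) := by
      have := hlog (1 + ga) (by positivity)
      rwa [sub_neg_eq_add]
    have h2 : (1 - th) / (N + 2) ≤ 1 - (1 + ga)⁻¹ := by
      have h3 : 1 - (1 + ga)⁻¹ = (1 - th) / (N - th) := by
        have h4 : 0 < N - th := by linarith
        have h5 : 1 + ga = (N - th) / (N - 1) := by
          rw [hga]; field_simp; ring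
        rw [h5, inv_div]
        field_simp
        ring
      rw [h3]
      exact div_le_div_of_nonneg_left (by linarith) (by linarith) (by linarith)
    have h6 : Lg + 250 ≤ q * ((1 - th) / (N + 2)) := by
      rw [mul_div_assoc', le_div_iff₀ (by linarith)]
      have h7 := mul_le_mul_of_nonneg_right hq (show 0 ≤ 1 - th by linarith)
      have h8 : (N + 2) * (Lg + 500) * (1 - th) = (Lg + 250) * (N + 2) := by
        calc (N + 2) * (Lg + 500) * (1 - th) = (N + 2) * ((Lg + 500) - th * (Lg + 500)) := by ring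
          _ = _ := by rw [hthm]; ring
      linarith
    have h9 : -q * log (1 - -ga) ≤ -Lg + -250 := by
      have h10 := mul_le_mul_of_nonneg_left (h2.trans h1) hqp.le
      linarith
    refine (exp_le_exp.2 h9).trans ?_
    rw [exp_add, exp_neg Lg, hLg, exp_log (by linarith), ← one_div]
    refine mul_le_mul_of_nonneg_left ?_ (by positivity)
    have := hexp 250 (by norm_num)
    refine this.trans (by norm_num)
  have e3 : G q w ≤ 125 / 124 := by
    unfold G Pool.Agent.Riesz.LL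
    have h1 : 1 - (1 - w)⁻¹ ≤ log (1 - w) := hlog (1 - w) (by linarith)
    have h2 : 1 - (1 - w)⁻¹ = -(w / (1 - w)) := by
      have : 0 < 1 - w := by linarith
      field_simp
      ring
    have h3 : q * (w / (1 - w)) ≤ 1 / 125 := by
      rw [mul_div_assoc', div_le_iff₀ (by linarith)]
      linarith
    have h4 : -q * log (1 - w) ≤ 1 / 125 := by
      have h5 := mul_le_mul_of_nonneg_left h1 hqp.le
      rw [h2] at h5
      linarith
    refine (exp_le_exp.2 h4).trans ?_
    have h6 : exp (1 / 125 : ℝ) = (exp (-(1 / 125)))⁻¹ := by rw [exp_neg, inv_inv]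
    rw [h6, inv_le_comm₀ (exp_pos _) (by norm_num)]
    have h7 := add_one_le_exp (-(1 / 125) : ℝ)
    refine le_trans (by norm_num) h7
  have e4 : G q (2 * w - 1) ≤ 1 / 600 := by
    unfold G Pool.Agent.Riesz.LL
    have h1 : 1 - (1 - (2 * w - 1))⁻¹ ≤ log (1 - (2 * w - 1)) := hlog _ (by linarith)
    have h2 : (1 - (2 * w - 1))⁻¹ ≤ 2 / 3 := by
      rw [inv_le_comm₀ (by linarith) (by norm_num)]
      linarith
    have h3 : -q * log (1 - (2 * w - 1)) ≤ -600 := by
      have h4 : 1 / 3 ≤ log (1 - (2 * w - 1)) := by linarith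
      have h5 := mul_le_mul_of_nonneg_left h4 hqp.le
      linarith
    refine (exp_le_exp.2 h3).trans ((hexp 600 (by norm_num)).trans (by norm_num))
  have hPhi : Pool.Agent.Riesz.Phi N q (1 / q) ga < 4 * N + 4 := by
    unfold Pool.Agent.Riesz.Phi
    rw [← hw]
    have h1 : 4 * N * G q (-(1 / q)) ≤ 4 * N * (2 / 5) :=
      mul_le_mul_of_nonneg_left e1 (by positivity)
    have h2 : N * (N - 1) / 2 * G q (-ga) ≤ N * (N - 1) / 2 * (1 / (N + 2) * (1 / 251)) :=
      mul_le_mul_of_nonneg_left e2 (by positivity)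
    have h3 : N * (N - 1) / 2 * (1 / (N + 2) * (1 / 251)) ≤ N * (1 / 2) := by
      have h4 : (N - 1) * (1 / (N + 2)) ≤ 1 := by
        rw [mul_one_div, div_le_one (by linarith)]; linarith
      have h5 : N * (N - 1) / 2 * (1 / (N + 2) * (1 / 251))
          = N * (1 / 2) * (1 / 251) * ((N - 1) * (1 / (N + 2))) := by ring
      rw [h5]
      have h6 : N * (1 / 2) * (1 / 251) * ((N - 1) * (1 / (N + 2)))
          ≤ N * (1 / 2) * (1 / 251) * 1 := mul_le_mul_of_nonneg_left h4 (by positivity)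
      linarith
    linarith
  refine ⟨hPhi, by rw [← hw]; linarith, hPhi.le.trans ?_⟩
  have h1 : (2 : ℝ) ^ q = exp (log 2 * q) := by rw [rpow_def_of_pos (by norm_num)]
  have h2 := add_one_le_exp (log 2 * q)
  have h3 := Real.log_two_gt_d9
  rw [h1]
  nlinarith

end Pool.Agent.RieszSq
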