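import Pool.Agent.RieszSq.Defs
import Pool.Agent.Riesz.PhiProp

set_option autoImplicit false

open Real Finset

namespace Pool.Agent.RieszSq

open Pool.Agent.Riesz (InDom om G)

namespace ParS1Aux

open Pool.Agent.Riesz (LL)

lemma hasDerivAt_G {β g : ℝ} (hg : g < 1) :
    HasDerivAt (G β) (β * (1 - g) ^ (-(β + 1))) g := by
  have h1 : HasDerivAt (fun x : ℝ => 1 - x) (-1) g := by
    have := (hasDerivAt_id g).const_sub 1
    simpa using this
  have hpos : (0 : ℝ) < 1 - g := by linarith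
  have h2 : HasDerivAt (fun x : ℝ => (1 - x) ^ (-β)) ((-1) * (-β) * (1 - g) ^ (-β - 1)) g :=
    h1.rpow_const (Or.inl hpos.ne')
  have h3 : HasDerivAt (G β) ((-1) * (-β) * (1 - g) ^ (-β - 1)) g := by
    refine h2.congr_of_eventuallyEq ?_
    have : ∀ᶠ x in nhds g, x < 1 := Iio_mem_nhds hg
    filter_upwards [this] with x hx
    exact Pool.Agent.Riesz.G_eq hx
  have e : (-1) * (-β) * (1 - g) ^ (-β - 1) = β * (1 - g) ^ (-(β + 1)) := by
    rw [show -β - 1 = -(β + 1) by ring]; ring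
  rw [e] at h3
  exact h3

lemma hasDerivAt_Gc {β x f' : ℝ} {f : ℝ → ℝ} (hf : HasDerivAt f f' x) (hg : f x < 1) :
    HasDerivAt (fun a => G β (f a)) (β * (1 - f x) ^ (-(β + 1)) * f') x :=
  (hasDerivAt_G (β := β) hg).comp x hf

lemma two_mul_pow {q w : ℝ} (hw : w < 1) :
    (1 - (2 * w - 1)) ^ (-(q + 1)) = ep q * (1 - w) ^ (-(q + 1)) := by
  unfold ep
  rw [show 1 - (2 * w - 1) = 2 * (1 - w) by ring]
  exact Real.mul_rpow (by norm_num) (by linarith)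

lemma stat_a {n q α γ : ℝ} (hn : 2 ≤ n) (hq : 0 < q) (hd : InDom n α γ)
    (hmin : ∀ a g, InDom n a g → Pool.Agent.Riesz.Phi n q α γ ≤ Pool.Agent.Riesz.Phi n q a g) :
    n * (1 + α) ^ (-(q + 1)) * α
        = 2 * ((1 + ep q) * (1 - om n α γ) ^ (-(q + 1))) * om n α γ := by
  obtain ⟨h1, h2, h3, h4⟩ := hd
  have hx : 0 < 1 - (n - 1) * γ := by linarith
  have hω : HasDerivAt (fun a : ℝ => om n a γ) (n * (2 * α) / (1 - (n - 1) * γ)) α := by
    have k1 : HasDerivAt (fun a : ℝ => a ^ 2) (2 * α) α := by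
      simpa using hasDerivAt_pow 2 α
    exact (k1.const_mul n).div_const _
  have d1 : HasDerivAt (fun a : ℝ => G q (-a)) (q * (1 - (-α)) ^ (-(q + 1)) * (-1)) α := by
    exact hasDerivAt_Gc (hasDerivAt_neg α) (by linarith)
  have d2 : HasDerivAt (fun a : ℝ => G q (om n a γ))
      (q * (1 - om n α γ) ^ (-(q + 1)) * (n * (2 * α) / (1 - (n - 1) * γ))) α :=
    hasDerivAt_Gc hω h4
  have d3 : HasDerivAt (fun a : ℝ => G q (2 * om n a γ - 1))
      (q * (1 - (2 * om n α γ - 1)) ^ (-(q + 1)) * (2 * (n * (2 * α) / (1 - (n - 1) * γ)))) α :=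
    hasDerivAt_Gc ((hω.const_mul 2).sub_const 1) (by linarith)
  have d : HasDerivAt (fun a : ℝ => Pool.Agent.Riesz.Phi n q a γ)
      (4 * n * (q * (1 - (-α)) ^ (-(q + 1)) * (-1)) + 0
        + 4 * (q * (1 - om n α γ) ^ (-(q + 1)) * (n * (2 * α) / (1 - (n - 1) * γ)))
        + 2 * (q * (1 - (2 * om n α γ - 1)) ^ (-(q + 1))
          * (2 * (n * (2 * α) / (1 - (n - 1) * γ))))) α := by
    exact (((d1.const_mul (4 * n)).add (hasDerivAt_const α _)).add (d2.const_mul 4)).add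
      (d3.const_mul 2)
  have hloc : IsLocalMin (fun a : ℝ => Pool.Agent.Riesz.Phi n q a γ) α := by
    have e1 : ∀ᶠ a in nhds α, 0 < a := Ioi_mem_nhds h1
    have e2 : ∀ᶠ a in nhds α, om n a γ < 1 := hω.continuousAt.eventually (Iio_mem_nhds h4)
    filter_upwards [e1, e2] with a ha1 ha2
    exact hmin a γ ⟨ha1, h2, h3, ha2⟩
  have hz := hloc.hasDerivAt_eq_zero d
  rw [two_mul_pow h4, show 1 - -α = 1 + α by ring] at hz
  set Y := (1 + α) ^ (-(q + 1))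
  set A := (1 - om n α γ) ^ (-(q + 1))
  set c := ep q
  have hωα : n * (2 * α) / (1 - (n - 1) * γ) * α = 2 * om n α γ := by
    unfold om; field_simp
  set D := n * (2 * α) / (1 - (n - 1) * γ)
  have hz2 : 4 * q * (-(n * Y) + (1 + c) * A * D) = 0 := by linear_combination hz
  have hz3 : -(n * Y) + (1 + c) * A * D = 0 := by
    rcases mul_eq_zero.1 hz2 with h | h
    · exfalso; linarith
    · exact h
  linear_combination (-α) * hz3 + (1 + c) * A * hωα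

lemma stat_g {n q α γ : ℝ} (hn : 2 ≤ n) (hq : 0 < q) (hd : InDom n α γ) (hγ : 0 < γ)
    (hmin : ∀ a g, InDom n a g → Pool.Agent.Riesz.Phi n q α γ ≤ Pool.Agent.Riesz.Phi n q a g) :
    n * (1 + γ) ^ (-(q + 1)) * (1 - (n - 1) * γ)
        = 8 * ((1 + ep q) * (1 - om n α γ) ^ (-(q + 1))) * om n α γ := by
  obtain ⟨h1, h2, h3, h4⟩ := hd
  have hx : 0 < 1 - (n - 1) * γ := by linarith
  have hx1 : HasDerivAt (fun g : ℝ => 1 - (n - 1) * g) (-(n - 1)) γ := by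
    have k := ((hasDerivAt_id γ).const_mul (n - 1)).const_sub 1
    simpa using k
  have hω : HasDerivAt (fun g : ℝ => om n α g)
      (n * α ^ 2 * (n - 1) / (1 - (n - 1) * γ) ^ 2) γ := by
    have k := (hasDerivAt_const γ (n * α ^ 2)).div hx1 hx.ne'
    have e : (0 * (1 - (n - 1) * γ) - n * α ^ 2 * -(n - 1)) / (1 - (n - 1) * γ) ^ 2
        = n * α ^ 2 * (n - 1) / (1 - (n - 1) * γ) ^ 2 := by
      congr 1; ring
    rw [e] at k
    exact k
  have d1 : HasDerivAt (fun g : ℝ => G q (-g)) (q * (1 - (-γ)) ^ (-(q + 1)) * (-1)) γ := by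
    exact hasDerivAt_Gc (hasDerivAt_neg γ) (by linarith)
  have d2 : HasDerivAt (fun g : ℝ => G q (om n α g))
      (q * (1 - om n α γ) ^ (-(q + 1)) * (n * α ^ 2 * (n - 1) / (1 - (n - 1) * γ) ^ 2)) γ :=
    hasDerivAt_Gc hω h4
  have d3 : HasDerivAt (fun g : ℝ => G q (2 * om n α g - 1))
      (q * (1 - (2 * om n α γ - 1)) ^ (-(q + 1))
        * (2 * (n * α ^ 2 * (n - 1) / (1 - (n - 1) * γ) ^ 2))) γ :=
    hasDerivAt_Gc ((hω.const_mul 2).sub_const 1) (by linarith)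
  have d : HasDerivAt (fun g : ℝ => Pool.Agent.Riesz.Phi n q α g)
      (0 + n * (n - 1) / 2 * (q * (1 - (-γ)) ^ (-(q + 1)) * (-1))
        + 4 * (q * (1 - om n α γ) ^ (-(q + 1)) * (n * α ^ 2 * (n - 1) / (1 - (n - 1) * γ) ^ 2))
        + 2 * (q * (1 - (2 * om n α γ - 1)) ^ (-(q + 1))
          * (2 * (n * α ^ 2 * (n - 1) / (1 - (n - 1) * γ) ^ 2)))) γ := by
    exact (((hasDerivAt_const γ _).add (d1.const_mul (n * (n - 1) / 2))).add
      (d2.const_mul 4)).add (d3.const_mul 2)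
  have hloc : IsLocalMin (fun g : ℝ => Pool.Agent.Riesz.Phi n q α g) γ := by
    have e1 : ∀ᶠ g in nhds γ, 0 < g := Ioi_mem_nhds hγ
    have e2 : ∀ᶠ g in nhds γ, om n α g < 1 := hω.continuousAt.eventually (Iio_mem_nhds h4)
    have e3 : ∀ᶠ g in nhds γ, 0 < 1 - (n - 1) * g :=
      hx1.continuousAt.eventually (Ioi_mem_nhds hx)
    filter_upwards [e1, e2, e3] with g hg1 hg2 hg3
    exact hmin α g ⟨h1, hg1.le, by linarith, hg2⟩
  have hz := hloc.hasDerivAt_eq_zero d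
  rw [two_mul_pow h4, show 1 - -γ = 1 + γ by ring] at hz
  set κ := (1 + γ) ^ (-(q + 1))
  set A := (1 - om n α γ) ^ (-(q + 1))
  set c := ep q
  have hωα : n * α ^ 2 * (n - 1) / (1 - (n - 1) * γ) ^ 2 * (1 - (n - 1) * γ)
      = (n - 1) * om n α γ := by
    unfold om; field_simp
  set D := n * α ^ 2 * (n - 1) / (1 - (n - 1) * γ) ^ 2
  have hz2 : q * (-(n * (n - 1) / 2 * κ) + 4 * ((1 + c) * A * D)) = 0 := by
    linear_combination hz
  have hz3 : -(n * (n - 1) / 2 * κ) + 4 * ((1 + c) * A * D) = 0 := by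
    rcases mul_eq_zero.1 hz2 with h | h
    · exfalso; linarith
    · exact h
  have hz4 : (n - 1) * (n * κ * (1 - (n - 1) * γ) - 8 * ((1 + c) * A) * om n α γ) = 0 := by
    linear_combination (-2 * (1 - (n - 1) * γ)) * hz3 + 8 * ((1 + c) * A) * hωα
  rcases mul_eq_zero.1 hz4 with h | h
  · exfalso; linarith
  · linarith

end ParS1Aux

/-- MODULE Q12a (stationarity in `α`). `Riesz.Phi n q α γ = 4 n (1+α)^(-q) + n(n-1)/2 (1+γ)^(-q)
+ 4 (1-ω)^(-q) + 2 (2-2ω)^(-q)`, `ω = n α²/(1 - (n-1) γ)`. For fixed `γ` the conditions `0 < α`,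
`ω < 1` are open in `α`, so the partial derivative in `α` vanishes
(`IsLocalMin.hasDerivAt_eq_zero`): `d/dω [4 (1-ω)^(-q) + 2 (2-2ω)^(-q)]
= 4 q (1 + 2^(-(q+1))) (1-ω)^(-(q+1))`, `∂ω/∂α = 2 ω/α`. (`0 ≤ γ` is allowed to be `0` here.) -/
theorem stat_al {n q α γ : ℝ} (hn : 2 ≤ n) (hq : 0 < q) (hd : InDom n α γ)
    (hmin : ∀ a g, InDom n a g → Pool.Agent.Riesz.Phi n q α γ ≤ Pool.Agent.Riesz.Phi n q a g) :
    n * (1 + α) ^ (-(q + 1)) * α
        = 2 * ((1 + ep q) * (1 - om n α γ) ^ (-(q + 1))) * om n α γ :=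
  ParS1Aux.stat_a hn hq hd hmin

/-- MODULE Q12b (stationarity in `γ`). `∂ω/∂γ = (n-1) ω/(1 - (n-1)γ)`; for `γ > 0` the conditions
are open in `γ` as well. -/
theorem stat_ga {n q α γ : ℝ} (hn : 2 ≤ n) (hq : 0 < q) (hd : InDom n α γ) (hγ : 0 < γ)
    (hmin : ∀ a g, InDom n a g → Pool.Agent.Riesz.Phi n q α γ ≤ Pool.Agent.Riesz.Phi n q a g) :
    n * (1 + γ) ^ (-(q + 1)) * (1 - (n - 1) * γ)
        = 8 * ((1 + ep q) * (1 - om n α γ) ^ (-(q + 1))) * om n α γ :=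
  ParS1Aux.stat_g hn hq hd hγ hmin

end Pool.Agent.RieszSq
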