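import Pool.Agent.RieszSq.ParS1

set_option autoImplicit false

open Real Finset

namespace Pool.Agent.RieszSq

open Pool.Agent.Riesz (InDom om G)

namespace ParS2Aux

open Pool.Agent.Riesz (LL)

/-- the derivative of `G` -/
lemma hasDerivAt_G {β g : ℝ} (hg : g < 1) : HasDerivAt (G β) (β * (1 - g) ^ (-(β + 1))) g := by
  have h0 : 0 < 1 - g := by linarith
  have h1 : HasDerivAt (fun y : ℝ => 1 - y) (-1) g := by
    simpa using (hasDerivAt_id g).const_sub 1
  have h2 : HasDerivAt (fun y : ℝ => (1 - y) ^ (-β)) (-1 * (-β) * (1 - g) ^ (-β - 1)) g :=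
    h1.rpow_const (Or.inl h0.ne')
  have h3 : -1 * (-β) * (1 - g) ^ (-β - 1) = β * (1 - g) ^ (-(β + 1)) := by
    rw [show -β - 1 = -(β + 1) by ring]; ring
  rw [h3] at h2
  refine h2.congr_of_eventuallyEq ?_
  filter_upwards [Iio_mem_nhds hg] with y hy
  exact Pool.Agent.Riesz.G_eq hy

lemma hasDerivAt_om {n α : ℝ} : HasDerivAt (fun y => om n α y) (n * α ^ 2 * (n - 1)) 0 := by
  have h1 : HasDerivAt (fun y : ℝ => 1 - (n - 1) * y) (-(n - 1)) 0 := by
    simpa using ((hasDerivAt_id (0 : ℝ)).const_mul (n - 1)).const_sub 1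
  have h2 := (hasDerivAt_const (0 : ℝ) (n * α ^ 2)).div h1 (by simp)
  have h3 : (0 * (1 - (n - 1) * 0) - n * α ^ 2 * -(n - 1)) / (1 - (n - 1) * 0) ^ 2
      = n * α ^ 2 * (n - 1) := by
    rw [mul_zero, sub_zero, one_pow, div_one]; ring
  rw [h3] at h2
  exact h2

lemma hasDerivAt_comp_G {q : ℝ} {f : ℝ → ℝ} {f' : ℝ} (hf : HasDerivAt f f' 0) (h1 : f 0 < 1) :
    HasDerivAt (fun y => G q (f y)) (q * (1 - f 0) ^ (-(q + 1)) * f') 0 :=
  HasDerivAt.comp (h₂ := G q) 0 (hasDerivAt_G h1) hf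

lemma hasDerivAt_Phi {n q α : ℝ} (h1 : om n α 0 < 1) :
    HasDerivAt (fun y => Pool.Agent.Riesz.Phi n q α y)
      (n * (n - 1) / 2 * (-q) + 4 * q * ((1 + ep q) * (1 - om n α 0) ^ (-(q + 1)))
        * (n * α ^ 2 * (n - 1))) 0 := by
  have e1 : HasDerivAt (fun y : ℝ => -y) (-1) 0 := hasDerivAt_neg 0
  have e2 : HasDerivAt (fun y : ℝ => 2 * om n α y - 1) (2 * (n * α ^ 2 * (n - 1))) 0 :=
    (hasDerivAt_om.const_mul 2).sub_const 1
  have d1 := hasDerivAt_comp_G (q := q) e1 (by norm_num)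
  have d2 := hasDerivAt_comp_G (q := q) (hasDerivAt_om (n := n) (α := α)) h1
  have d3 := hasDerivAt_comp_G (q := q) e2 (by linarith)
  have d := ((((hasDerivAt_const (0 : ℝ) (4 * n * G q (-α))).add
    (d1.const_mul (n * (n - 1) / 2))).add (d2.const_mul 4)).add (d3.const_mul 2))
  have hp : (1 - (2 * om n α 0 - 1)) ^ (-(q + 1)) = ep q * (1 - om n α 0) ^ (-(q + 1)) := by
    rw [show 1 - (2 * om n α 0 - 1) = 2 * (1 - om n α 0) by ring,
      Real.mul_rpow (by norm_num) (by linarith)]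
    rfl
  have hone : (1 - (-0 : ℝ)) ^ (-(q + 1)) = 1 := by
    rw [neg_zero, sub_zero, Real.one_rpow]
  rw [hp, hone] at d
  have d' := d.congr_deriv (f' := _) (g' := n * (n - 1) / 2 * (-q)
    + 4 * q * ((1 + ep q) * (1 - om n α 0) ^ (-(q + 1))) * (n * α ^ 2 * (n - 1))) (by ring)
  exact d'

/-- a function with negative derivative at `0` takes smaller values at small positive points -/
lemma exists_lt_of_neg {f : ℝ → ℝ} {f' : ℝ} (hf : HasDerivAt f f' 0) (h : f' < 0) {c : ℝ}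
    (hc : 0 < c) : ∃ y, 0 < y ∧ y < c ∧ f y < f 0 := by
  have h1 := hasDerivAt_iff_tendsto_slope.1 hf
  have h2 : Filter.Tendsto (slope f 0) (nhdsWithin 0 (Set.Ioi 0)) (nhds f') :=
    h1.mono_left (nhdsWithin_mono _ (fun x hx => (ne_of_gt hx)))
  have h3 := (h2.eventually (Iio_mem_nhds h)).and (Ioo_mem_nhdsGT hc)
  obtain ⟨y, hy1, hy2, hy3⟩ := h3.exists
  refine ⟨y, hy2, hy3, ?_⟩
  have h4 : slope f 0 y < 0 := hy1
  rw [slope_def_field, sub_zero] at h4
  have h5 : f y - f 0 < 0 := by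
    by_contra hcon
    push Not at hcon
    have := div_nonneg hcon hy2.le
    linarith
  linarith

lemma ep_pos (q : ℝ) : 0 < ep q := by unfold ep; positivity

lemma ep_lt {q : ℝ} (hq : 1 ≤ q) : ep q < 1 := by
  unfold ep
  exact Real.rpow_lt_one_of_one_lt_of_neg (by norm_num) (by linarith)

end ParS2Aux

open ParS2Aux

/-- MODULE Q12c (`γ = 0` is impossible). At `γ = 0` the one-sided derivative in `γ` is `≥ 0`
(`γ ≥ 0` is the domain near `0`): `-q n(n-1)/2 + 4 q (1+ep) k (n-1) n α² ≥ 0`, `k = (1-ω)^(-p)`,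
`ω = n α²`, i.e. `8 (1+ep) k α² ≥ 1`; with `B = √(k (1+ep)/2)` this is `4 B α ≥ 1`, and `stat_al` is
`(1+α)^(-p) = 2 (1+ep) k α = 4 B² α ≥ B ≥ 1/√2` (`k ≥ 1`). But then `B ≤ 1`, `α ≥ 1/4`,
`(1+α)^(-p) ≤ (4/5)^p < 1/√2` for `p ≥ 2`. -/
theorem ga_pos {n q α γ : ℝ} (hn : 2 ≤ n) (hq : 1 ≤ q) (hd : InDom n α γ)
    (hmin : ∀ a g, InDom n a g → Pool.Agent.Riesz.Phi n q α γ ≤ Pool.Agent.Riesz.Phi n q a g) :
    0 < γ := by
  rcases hd.2.1.eq_or_lt with h0 | h0
  swap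
  · exact h0
  exfalso
  subst h0
  have hsa := stat_al hn (by linarith) hd hmin
  obtain ⟨ha, -, -, hom⟩ := hd
  have home : om n α 0 = n * α ^ 2 := by unfold om; simp
  have hder := hasDerivAt_Phi (q := q) hom
  set k : ℝ := (1 - om n α 0) ^ (-(q + 1)) with hk
  have hk1 : 1 ≤ k := by
    rw [hk]
    apply Real.one_le_rpow_of_pos_of_le_one_of_nonpos (by linarith)
    · rw [home]; have : 0 ≤ n * α ^ 2 := by positivity
      linarith
    · linarith
  have hep := ep_pos q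
  -- the one-sided derivative is nonnegative
  have hder0 : 0 ≤ n * (n - 1) / 2 * (-q) + 4 * q * ((1 + ep q) * k) * (n * α ^ 2 * (n - 1)) := by
    by_contra hcon
    push Not at hcon
    -- small positive points are in the domain
    have hcont : Filter.Tendsto (fun y => om n α y) (nhdsWithin 0 (Set.Ioi 0)) (nhds (om n α 0)) :=
      (hasDerivAt_om (n := n) (α := α)).continuousAt.tendsto.mono_left nhdsWithin_le_nhds
    have hev := hcont.eventually (Iio_mem_nhds hom)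
    rw [eventually_nhdsWithin_iff, Metric.eventually_nhds_iff] at hev
    obtain ⟨c, hc, hc'⟩ := hev
    have hc2 : 0 < min c (1 / n) := lt_min hc (by positivity)
    obtain ⟨y, hy0, hy1, hy2⟩ := exists_lt_of_neg hder hcon hc2
    have hyc : om n α y < 1 := hc' (by
      rw [dist_zero_right, Real.norm_eq_abs, abs_of_pos hy0]
      exact lt_of_lt_of_le hy1 (min_le_left _ _)) hy0
    have hyn : (n - 1) * y < 1 := by
      have h1 : y < 1 / n := lt_of_lt_of_le hy1 (min_le_right _ _)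
      rw [lt_div_iff₀ (by linarith)] at h1
      nlinarith
    have := hmin α y ⟨ha, hy0.le, hyn, hyc⟩
    linarith
  have h8 : 1 ≤ 8 * ((1 + ep q) * k) * α ^ 2 := by
    have hpos : 0 < n * (n - 1) / 2 * q := by
      have : 0 < n - 1 := by linarith
      positivity
    have : n * (n - 1) / 2 * q * 1 ≤ n * (n - 1) / 2 * q * (8 * ((1 + ep q) * k) * α ^ 2) := by
      linarith
    exact le_of_mul_le_mul_left this hpos
  -- stationarity
  have hY : (1 + α) ^ (-(q + 1)) = 2 * ((1 + ep q) * k) * α := by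
    rw [home] at hsa
    have : n * α * (1 + α) ^ (-(q + 1)) = n * α * (2 * ((1 + ep q) * k) * α) := by
      linarith
    exact mul_left_cancel₀ (by positivity) this
  set c : ℝ := (1 + ep q) * k with hc
  have hc1 : 1 ≤ c := by nlinarith
  -- `Y ≤ 16/25` if `α ≥ 1/4`
  have hYle : (1 + α) ^ (-(q + 1)) ≤ (1 + α) ^ (-(2 : ℝ)) :=
    Real.rpow_le_rpow_of_exponent_le (by linarith) (by linarith)
  have hY2 : (1 + α) ^ (-(2 : ℝ)) = ((1 + α) ^ 2)⁻¹ := by
    rw [Real.rpow_neg (by linarith)]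
    norm_cast
  rw [hY2, hY] at hYle
  have hpos2 : 0 < (1 + α) ^ 2 := by positivity
  have h9 : 2 * c * α * (1 + α) ^ 2 ≤ 1 := by
    calc 2 * c * α * (1 + α) ^ 2 ≤ ((1 + α) ^ 2)⁻¹ * (1 + α) ^ 2 :=
          mul_le_mul_of_nonneg_right hYle hpos2.le
      _ = 1 := inv_mul_cancel₀ hpos2.ne'
  -- `8 c α² ≥ 1`, `c ≥ 1`, `2 c α (1+α)² ≤ 1`
  have h10 : (1 + α) ^ 2 ≤ 4 * α := by
    -- `2 c α (1+α)² ≤ 1 ≤ 8 c α²`
    have h11 : 2 * c * α * (1 + α) ^ 2 ≤ 2 * c * α * (4 * α) := by nlinarith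
    exact le_of_mul_le_mul_left h11 (by positivity)
  have h12 : α = 1 := by nlinarith [sq_nonneg (α - 1)]
  subst h12
  nlinarith

/-- MODULE Q12d. `w = ω`, `k = (1-w)^(-p)`, `B = √(k(1+ep)/2)`, `t = √(k (1-ep)/2)`,
`x = (1+γ)^(-p/2)`, `Y = (1+α)^(-p)`, `z = 1 - (n-1) γ > 0`. `stat_al`: `n Y α = 4 B² w`,
`stat_ga`: `n x² z = 16 B² w`, and `w z = n α²`. So `x² z = 4 Y α`, `Y z = 4 B² α` (multiply
`n Y α = 4 B² w` by `z`), `x² z² = 16 B² α²`, `x z = 4 B α` (`r1`), `Y = 4 B² α/z = B x` (`eY`),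
`4 B² w = n B x α` (`r2`). -/
theorem exists_par {n : ℕ} (hn : 2 ≤ n) {q α γ : ℝ} (hq : 1 ≤ q) (hd : InDom n α γ)
    (hmin : ∀ a g, InDom n a g → Pool.Agent.Riesz.Phi n q α γ ≤ Pool.Agent.Riesz.Phi n q a g) :
    ∃ w k B t x : ℝ, Par n q α γ w k B t x := by
  have hn' : (2 : ℝ) ≤ n := by exact_mod_cast hn
  have hγ := ga_pos hn' hq hd hmin
  have hsa := stat_al hn' (by linarith) hd hmin
  have hsg := stat_ga hn' (by linarith) hd hγ hmin
  obtain ⟨ha, -, hz, hom⟩ := hd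
  have hep := ep_pos q
  have hep1 := ep_lt hq
  set w : ℝ := om n α γ with hw
  set z : ℝ := 1 - ((n : ℝ) - 1) * γ with hzdef
  have hz0 : 0 < z := by rw [hzdef]; linarith
  have hwz : w * z = n * α ^ 2 := by
    rw [hw, hzdef]; unfold om
    rw [div_mul_cancel₀ _ (by rw [← hzdef]; exact hz0.ne')]
  have hw0 : 0 < w := by
    rw [hw]; unfold om
    have : 0 < (n : ℝ) := by linarith
    rw [← hzdef]; positivity
  have h1w : 0 < 1 - w := by linarith
  set k : ℝ := (1 - w) ^ (-(q + 1)) with hk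
  have hk0 : 0 < k := Real.rpow_pos_of_pos h1w _
  set B : ℝ := √(k * (1 + ep q) / 2) with hB
  set t : ℝ := √(k * (1 - ep q) / 2) with ht
  have hep2 : 0 < 1 - ep q := by linarith
  have hB0 : 0 < B := Real.sqrt_pos.2 (by positivity)
  have ht0 : 0 < t := Real.sqrt_pos.2 (by positivity)
  have hB2 : B ^ 2 = k * (1 + ep q) / 2 := Real.sq_sqrt (by positivity)
  have ht2 : t ^ 2 = k * (1 - ep q) / 2 := Real.sq_sqrt (by positivity)
  have hg1 : 0 < 1 + γ := by linarith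
  set x : ℝ := (1 + γ) ^ (-(q + 1) / 2) with hx
  have hx0 : 0 < x := Real.rpow_pos_of_pos hg1 _
  have hx2 : x ^ 2 = (1 + γ) ^ (-(q + 1)) := by
    rw [hx, ← Real.rpow_natCast, ← Real.rpow_mul hg1.le]
    congr 1
    push_cast
    ring
  set Y : ℝ := (1 + α) ^ (-(q + 1)) with hY
  have hn0 : (0 : ℝ) < n := by linarith
  -- stationarity in terms of `B`
  have s1 : n * Y * α = 4 * B ^ 2 * w := by rw [hB2]; linarith
  have s2 : n * x ^ 2 * z = 16 * B ^ 2 * w := by rw [hB2, hx2]; linarith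
  have s3 : Y * z = 4 * B ^ 2 * α := by
    have h1 : (n * α) * (Y * z) = (n * α) * (4 * B ^ 2 * α) := by
      calc (n * α) * (Y * z) = (n * Y * α) * z := by ring
        _ = 4 * B ^ 2 * (w * z) := by rw [s1]; ring
        _ = (n * α) * (4 * B ^ 2 * α) := by rw [hwz]; ring
    exact mul_left_cancel₀ (by positivity) h1
  have s4 : (x * z) ^ 2 = (4 * B * α) ^ 2 := by
    have h1 : n * (x * z) ^ 2 = n * (4 * B * α) ^ 2 := by
      calc n * (x * z) ^ 2 = (n * x ^ 2 * z) * z := by ring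
        _ = 16 * B ^ 2 * (w * z) := by rw [s2]; ring
        _ = n * (4 * B * α) ^ 2 := by rw [hwz]; ring
    exact mul_left_cancel₀ hn0.ne' h1
  have s5 : x * z = 4 * B * α := by
    have h1 : 0 ≤ x * z := by positivity
    have h2 : 0 ≤ 4 * B * α := by positivity
    exact (pow_left_inj₀ h1 h2 (by norm_num)).1 s4
  have s6 : B * x = Y := by
    have h1 : z * (B * x) = z * Y := by
      calc z * (B * x) = B * (x * z) := by ring
        _ = 4 * B ^ 2 * α := by rw [s5]; ring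
        _ = z * Y := by rw [← s3]; ring
    exact mul_left_cancel₀ hz0.ne' h1
  have s7 : 4 * B * w = n * x * α := by
    have h1 : B * (4 * B * w) = B * (n * x * α) := by
      calc B * (4 * B * w) = 4 * B ^ 2 * w := by ring
        _ = n * Y * α := s1.symm
        _ = B * (n * x * α) := by rw [← s6]; ring
    exact mul_left_cancel₀ hB0.ne' h1
  refine ⟨w, k, B, t, x, ⟨hn, hq, ha, hγ, hw0, hom, hk0, hB0, ht0, hx0, hk, ?_, ?_, hx2, s6, ?_, s7⟩⟩
  · rw [hB2]; ring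
  · rw [ht2]; ring
  · rw [← hzdef, s5]; ring

end Pool.Agent.RieszSq
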