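import Pool.Agent.RieszSq.Defs

set_option autoImplicit false

open Real Finset

namespace Pool.Agent.RieszSq

/-- MODULE Q16a. Bounds for `R(v) = v log v + 1 - v`: for `0 < v ≤ 1`,
`-log v ≥ 2 (1-v)/(1+v)` (`Real.le_log_one_add_of_nonneg : 2 x/(x+2) ≤ log (1+x)` with
`x = 1/v - 1`), so `R(v) ≤ (1-v)²/(1+v)`. -/
theorem R_le {v : ℝ} (h0 : 0 < v) (h1 : v ≤ 1) :
    2 * (1 - v) / (1 + v) ≤ -log v ∧ v * log v + 1 - v ≤ (1 - v) ^ 2 / (1 + v) := by
  have hx : (0 : ℝ) ≤ 1 / v - 1 := by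
    rw [sub_nonneg, le_div_iff₀ h0]; linarith
  have h2 := Real.le_log_one_add_of_nonneg hx
  have h3 : (1 : ℝ) + (1 / v - 1) = v⁻¹ := by rw [one_div]; ring
  rw [h3, Real.log_inv] at h2
  have hv1 : (0 : ℝ) < 1 + v := by linarith
  have h4 : 2 * (1 / v - 1) / (1 / v - 1 + 2) = 2 * (1 - v) / (1 + v) := by
    have : (1 : ℝ) / v - 1 + 2 = (1 + v) / v := by field_simp; ring
    rw [this]
    field_simp
  rw [h4] at h2
  refine ⟨h2, ?_⟩
  have h5 : v * (2 * (1 - v) / (1 + v)) ≤ v * (-log v) := mul_le_mul_of_nonneg_left h2 h0.le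
  have h6 : (1 - v) ^ 2 / (1 + v) = (1 - v) - v * (2 * (1 - v) / (1 + v)) := by
    field_simp; ring
  rw [h6]; linarith

/-- for `v ≥ 1`, `log v ≤ (v²-1)/(2v)` (the same bound for `1/v` is not sharp enough; use the
derivative of `(v - 1/v)/2 - log v`, or `log v = 2 log √v ≤ √v - 1/√v`…), so `R(v) ≤ (v-1)²/2`. -/
theorem R_le' {v : ℝ} (h1 : 1 ≤ v) : v * log v + 1 - v ≤ (v - 1) ^ 2 / 2 := by
  have h0 : (0 : ℝ) < v := by linarith
  have h2 : log v ≤ Real.sinh (log v) := Real.self_le_sinh_iff.2 (Real.log_nonneg h1)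
  rw [Real.sinh_log h0] at h2
  have h3 : v * log v ≤ v * ((v - v⁻¹) / 2) := mul_le_mul_of_nonneg_left h2 h0.le
  have h4 : v * ((v - v⁻¹) / 2) = (v ^ 2 - 1) / 2 := by field_simp
  rw [h4] at h3
  nlinarith

/-- MODULE Q16b (the `v` part for `v ≤ 1`). `D = 1 - v`, `b = v + T - 1`, `T = D + b`.
Case `v ≥ 1/5` (`D ≤ 4/5`): by `R_le` it is enough that
`D² ≤ T (1/4)(2-D) + (4/5) T D + 2 b² (2-D)`, i.e.
`0 ≤ D (1/2 - 9/20 D) + b (1/2 + 11/20 D) + 2 b² (2 - D)` for `-D ≤ b`. For `b ≥ 0` clear. For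
`b = -β`, `0 ≤ β ≤ D`, `D = β + s` the expression is `β² (3 - 2β) + s (1/2 - 29/20 β - 2β² - 9/20 s)`,
which is `≥ 0` for `β + s ≤ 4/5` (minimum over `b`: `c D - c²/8`, `c = 1/4 + 4D/(5(2-D))`).
Case `v ≤ 1/5`: if `-log v ≥ ℓ` then `v log v + 1 - v ≤ 1 - v - ℓ v` and, with
`c = 1/4 + 2/5 ℓ`, `T c + 2 (T - D)² ≥ c D - c²/8`. Use `ℓ = 1.6` for `1/8 ≤ v ≤ 1/5`, `ℓ = 2` for
`1/20 ≤ v ≤ 1/8` and `ℓ = 2.9` for `v ≤ 1/20` (`exp 1.6 ≤ 5`, `exp 2 ≤ 8`, `exp 2.9 ≤ 20`). -/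
theorem side_v {v T : ℝ} (h0 : 0 < v) (h1 : v ≤ 1) (hT : 0 ≤ T) :
    v * log v + 1 - v ≤ T * (1 / 4 + 2 / 5 * -log v) + 2 * (v + T - 1) ^ 2 := by
  have hkey : ∀ l : ℝ, l ≤ -log v → 1 - v - l * v ≤
      (1 / 4 + 2 / 5 * l) * (1 - v) - (1 / 4 + 2 / 5 * l) ^ 2 / 8 →
      v * log v + 1 - v ≤ T * (1 / 4 + 2 / 5 * -log v) + 2 * (v + T - 1) ^ 2 := by
    intro l hl h
    have h2 : v * l ≤ v * (-log v) := mul_le_mul_of_nonneg_left hl h0.le
    have h3 : T * (1 / 4 + 2 / 5 * l) ≤ T * (1 / 4 + 2 / 5 * -log v) :=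
      mul_le_mul_of_nonneg_left (by linarith) hT
    nlinarith [sq_nonneg (4 * (v + T - 1) + (1 / 4 + 2 / 5 * l))]
  rcases le_total (1 / 5) v with hv | hv
  · obtain ⟨hr1, hr2⟩ := R_le h0 h1
    have hv1 : (0 : ℝ) < 1 + v := by linarith
    have h3 : T * (1 / 4 + 2 / 5 * (2 * (1 - v) / (1 + v))) ≤ T * (1 / 4 + 2 / 5 * -log v) :=
      mul_le_mul_of_nonneg_left (by linarith) hT
    refine hr2.trans (le_trans ?_ (add_le_add_left h3 _))
    rw [div_le_iff₀ hv1]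
    have h4 : (T * (1 / 4 + 2 / 5 * (2 * (1 - v) / (1 + v))) + 2 * (v + T - 1) ^ 2) * (1 + v) =
        T * (1 / 4 * (1 + v) + 4 / 5 * (1 - v)) + 2 * (v + T - 1) ^ 2 * (1 + v) := by
      field_simp
      ring
    rw [h4]
    obtain ⟨D, hD⟩ : ∃ D, D = 1 - v := ⟨_, rfl⟩
    have hvD : v = 1 - D := by linarith
    subst hvD
    have hD0 : 0 ≤ D := by linarith
    have hD1 : D ≤ 4 / 5 := by linarith
    have hgoal : 0 ≤ 2 * (2 - D) * (T - D) ^ 2 + T * (1 / 2 + 11 / 20 * D) - D ^ 2 := by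
      rcases le_total (1 / 25) D with hc | hc
      · have hg : 0 ≤ -(1 / 4) + 149 / 20 * D - 4601 / 400 * D ^ 2 + 18 / 5 * D ^ 3 := by
          nlinarith [mul_nonneg (sub_nonneg.2 hc) (sub_nonneg.2 hD1),
            mul_nonneg (mul_nonneg (sub_nonneg.2 hc) (sub_nonneg.2 hD1)) hD0]
        have h8 : 0 ≤ 8 * (2 - D) *
            (2 * (2 - D) * (T - D) ^ 2 + T * (1 / 2 + 11 / 20 * D) - D ^ 2) := by
          have : 8 * (2 - D) *
            (2 * (2 - D) * (T - D) ^ 2 + T * (1 / 2 + 11 / 20 * D) - D ^ 2) =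
            (4 * (2 - D) * (T - D) + (1 / 2 + 11 / 20 * D)) ^ 2 +
            (-(1 / 4) + 149 / 20 * D - 4601 / 400 * D ^ 2 + 18 / 5 * D ^ 3) := by ring
          rw [this]
          positivity
        exact nonneg_of_mul_nonneg_right h8 (by linarith)
      · rcases le_total D T with hTD | hTD
        · nlinarith [sq_nonneg (T - D), mul_nonneg (sub_nonneg.2 hTD) hD0,
            mul_nonneg (by linarith : (0 : ℝ) ≤ 2 - D) (sq_nonneg (T - D))]
        · obtain ⟨β, hβ⟩ : ∃ β, β = D - T := ⟨_, rfl⟩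
          have hDe : D = β + T := by linarith
          subst hDe
          have hβ0 : 0 ≤ β := by linarith
          have : 2 * (2 - (β + T)) * (T - (β + T)) ^ 2 + T * (1 / 2 + 11 / 20 * (β + T)) -
              (β + T) ^ 2 = β ^ 2 * (3 - 2 * β) +
              T * (1 / 2 - 29 / 20 * β - 2 * β ^ 2 - 9 / 20 * T) := by ring
          rw [this]
          have h5 : 0 ≤ β ^ 2 * (3 - 2 * β) := mul_nonneg (sq_nonneg _) (by linarith)
          have h6 : 0 ≤ T * (1 / 2 - 29 / 20 * β - 2 * β ^ 2 - 9 / 20 * T) :=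
            mul_nonneg hT (by nlinarith)
          linarith
    nlinarith [hgoal]
  · rcases le_total (1 / 8) v with hv2 | hv2
    · refine hkey (8 / 5) ?_ (by nlinarith)
      have h2 : log v ≤ log (1 / 5) := Real.log_le_log h0 hv
      have h3 : (8 : ℝ) / 5 ≤ log 5 := by
        rw [Real.le_log_iff_exp_le (by norm_num)]
        have h4 : Real.exp (8 / 5) ^ 5 ≤ 5 ^ 5 := by
          rw [← Real.exp_nat_mul]
          have h5 : ((5 : ℕ) : ℝ) * (8 / 5) = ((8 : ℕ) : ℝ) * 1 := by norm_num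
          rw [h5, Real.exp_nat_mul]
          have h6 := Real.exp_one_lt_d9.le
          calc Real.exp 1 ^ 8 ≤ 2.7182818286 ^ 8 := pow_le_pow_left₀ (Real.exp_pos _).le h6 8
            _ ≤ 5 ^ 5 := by norm_num
        exact le_of_pow_le_pow_left₀ (by norm_num) (by norm_num) h4
      rw [one_div, Real.log_inv] at h2
      linarith
    · rcases le_total (1 / 20) v with hv3 | hv3
      · refine hkey 2 ?_ (by nlinarith)
        have h2 : log v ≤ log (1 / 8) := Real.log_le_log h0 hv2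
        have h3 : (2 : ℝ) ≤ log 8 := by
          rw [Real.le_log_iff_exp_le (by norm_num)]
          have h5 : (2 : ℝ) = ((2 : ℕ) : ℝ) * 1 := by norm_num
          rw [h5, Real.exp_nat_mul]
          have h6 := Real.exp_one_lt_d9.le
          calc Real.exp 1 ^ 2 ≤ 2.7182818286 ^ 2 := pow_le_pow_left₀ (Real.exp_pos _).le h6 2
            _ ≤ 8 := by norm_num
        rw [one_div, Real.log_inv] at h2
        linarith
      · refine hkey (29 / 10) ?_ (by nlinarith)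
        have h2 : log v ≤ log (1 / 20) := Real.log_le_log h0 hv3
        have h3 : (29 : ℝ) / 10 ≤ log 20 := by
          rw [Real.le_log_iff_exp_le (by norm_num)]
          have h4 : Real.exp (29 / 10) ^ 10 ≤ 20 ^ 10 := by
            rw [← Real.exp_nat_mul]
            have h5 : ((10 : ℕ) : ℝ) * (29 / 10) = ((29 : ℕ) : ℝ) * 1 := by norm_num
            rw [h5, Real.exp_nat_mul]
            have h6 := Real.exp_one_lt_d9.le
            calc Real.exp 1 ^ 29 ≤ 2.7182818286 ^ 29 := pow_le_pow_left₀ (Real.exp_pos _).le h6 29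
              _ ≤ 20 ^ 10 := by norm_num
          exact le_of_pow_le_pow_left₀ (by norm_num) (by norm_num) h4
        rw [one_div, Real.log_inv] at h2
        linarith

end Pool.Agent.RieszSq
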