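import Pool.Agent.RieszSq.SideS1

set_option autoImplicit false

open Real Finset

namespace Pool.Agent.RieszSq

namespace SideS2Aux

theorem neg_log_ge {y : ℝ} (h0 : 0 ≤ y) (h1 : y < 1) : y + y ^ 2 / 2 ≤ -log (1 - y) := by
  have hs := Real.hasSum_pow_div_log_of_abs_lt_one (x := y) (by rw [abs_of_nonneg h0]; exact h1)
  have h := sum_le_hasSum (Finset.range 2) (fun i _ => by positivity) hs
  simp only [Finset.sum_range_succ, Finset.sum_range_zero] at h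
  norm_num at h
  linarith

theorem core {v T y μ : ℝ} (hT : 0 ≤ T) (hy0 : 0 ≤ y) (hy1 : y < 1)
    (hμ : 0 ≤ μ) (hyv : y * v ≤ 51 / 50 * T + 21 / 5 * μ) :
    21 / 5 * μ * y ≤ 27 / 100 * T + 4 * (v + T - 1) ^ 2 + 60 * μ ^ 2 := by
  have hA : 21 / 5 * μ ≤ 735 / 10000 + 60 * μ ^ 2 := by nlinarith [sq_nonneg (μ - 35 / 1000)]
  have hB : 21 / 5 * μ * y ≤ 21 / 5 * μ := by nlinarith [mul_nonneg hμ (sub_nonneg.2 hy1.le)]
  by_cases h1 : 2723 / 10000 ≤ T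
  · nlinarith [sq_nonneg (v + T - 1)]
  by_cases h2 : 184 / 10000 ≤ (v + T - 1) ^ 2
  · nlinarith
  push Not at h1 h2
  have hb : -(1357 / 10000) < v + T - 1 := by
    by_contra h
    push Not at h
    nlinarith
  have hv : 59 / 100 ≤ v := by linarith
  have hy2 : 59 / 100 * y ≤ 51 / 50 * T + 21 / 5 * μ := by nlinarith
  have hm := mul_le_mul_of_nonneg_left hy2 hμ
  have hq : 727 / 100 * (μ * T) ≤ 30 * μ ^ 2 + 45 / 100 * T ^ 2 := by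
    nlinarith [sq_nonneg (μ - 727 / 6000 * T)]
  have hT2 : T ^ 2 ≤ 2723 / 10000 * T := by nlinarith
  nlinarith [sq_nonneg (v + T - 1), mul_nonneg hμ hT, sq_nonneg μ]

end SideS2Aux

/-- MODULE Q16c (the `X` part). `y = X/v ∈ [0,1)`, `-log (1-y) ≥ y + y²/2`;
`X²/v = X y ≤ (1.02 T + 4.2 μ) y`; `T (0.69 + 0.4 y + 0.2 y² - 1.02 y) ≥ 0.27 T`. So it is enough
that `4.2 μ y ≤ 0.27 T + 4 b² + 60 μ²`. As `y ≤ 1` and `4.2 μ ≤ 0.0735 + 60 μ²` this holds if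
`T ≥ 0.2723` or `b² ≥ 0.0184`. Otherwise `v = 1 + b - T ≥ 0.59` and
`4.2 μ y ≤ 4.2 μ (1.02 T + 4.2 μ)/0.59 ≤ 7.27 μ T + 29.9 μ²`,
`7.27 μ T ≤ 30 μ² + 0.45 T² ≤ 30 μ² + 0.13 T`. -/
theorem side_x {v T X μ : ℝ} (h0 : 0 < v) (hT : 0 ≤ T) (hX : 0 ≤ X) (hXv : X < v)
    (hμ : 0 ≤ μ) (hXT : X ≤ 51 / 50 * T + 21 / 5 * μ) :
    X ^ 2 / v ≤ T * (69 / 100 + 2 / 5 * -log (1 - X / v)) + 4 * (v + T - 1) ^ 2 + 60 * μ ^ 2 := by
  set y := X / v with hy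
  have hy0 : 0 ≤ y := div_nonneg hX h0.le
  have hy1 : y < 1 := (div_lt_one h0).2 hXv
  have hXy : y * v = X := by rw [hy]; field_simp
  have e1 : X ^ 2 / v = X * y := by rw [hy]; ring
  have hl := SideS2Aux.neg_log_ge hy0 hy1
  have hc := SideS2Aux.core (v := v) hT hy0 hy1 hμ (by rw [hXy]; exact hXT)
  have h2 : X * y ≤ (51 / 50 * T + 21 / 5 * μ) * y := mul_le_mul_of_nonneg_right hXT hy0
  have h3 : T * (y + y ^ 2 / 2) ≤ T * -log (1 - y) := mul_le_mul_of_nonneg_left hl hT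
  have h4 : 0 ≤ T * ((1 - y) * (42 / 100 - 1 / 5 * y)) :=
    mul_nonneg hT (mul_nonneg (by linarith) (by linarith))
  rw [e1]
  nlinarith

end Pool.Agent.RieszSq
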