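import Pool.Agent.RieszSq.SideS2

set_option autoImplicit false

open Real Finset

namespace Pool.Agent.RieszSq

/-- MODULE Q16d. For `v ≤ 1`: `-log (v - X) = -log v - log (1 - X/v)`, `side_v`, `side_x`.
For `v ≥ 1`, `v - X ≤ 1`: `R_le'` and `b = (v-1) + T` give `R(v) ≤ b²/2`; and
`-log (v - X) ≥ -(v-1) - log(1-X/v)` with `(2/5) T (v-1) ≤ b²/10`, `side_x`. -/
theorem side {v T X μ : ℝ} (h0 : 0 < v) (hT : 0 ≤ T) (hX : 0 ≤ X) (hXv : X < v)
    (hμ : 0 ≤ μ) (hXT : X ≤ 51 / 50 * T + 21 / 5 * μ) (h1 : v - X ≤ 1) :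
    v * log v + 1 - v + X ^ 2 / v
      ≤ T * (94 / 100 + 2 / 5 * -log (v - X)) + 6 * (v + T - 1) ^ 2 + 60 * μ ^ 2 := by
  have hx := side_x h0 hT hX hXv hμ hXT
  have h1v : 0 < 1 - X / v := by
    rw [sub_pos, div_lt_one h0]
    exact hXv
  have hlog : log (v - X) = log v + log (1 - X / v) := by
    rw [← Real.log_mul h0.ne' h1v.ne']
    congr 1
    field_simp
  rw [hlog]
  rcases le_or_gt v 1 with hv | hv
  · have hs := side_v h0 hv hT
    nlinarith [hs, hx]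
  · have hR := R_le' hv.le
    have hl : log v ≤ v - 1 := by
      have := Real.log_le_sub_one_of_pos h0
      exact this
    have hTl : T * log v ≤ T * (v - 1) := mul_le_mul_of_nonneg_left hl hT
    nlinarith [sq_nonneg (v - 1 - T), sq_nonneg (v - 1 + T), mul_nonneg hT (sub_nonneg.2 hv.le)]

/-- MODULE Q16e. The case `v - X ≥ 1` (so `v ≥ 1`, `X ≤ v - 1 ≤ b`): `R(v) ≤ b²/2`,
`X²/v ≤ X² ≤ b²`, `T log (v - X) ≤ T (v - 1) ≤ b²/4`. -/
theorem side' {v T X μ : ℝ} (hT : 0 ≤ T) (hX : 0 ≤ X) (h1 : 1 ≤ v - X) :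
    v * log v + 1 - v + X ^ 2 / v
      ≤ T * (94 / 100 - log (v - X)) + 6 * (v + T - 1) ^ 2 + 60 * μ ^ 2 := by
  have hv : 1 ≤ v := by linarith
  have hR := R_le' hv
  have hl : log (v - X) ≤ v - X - 1 := Real.log_le_sub_one_of_pos (by linarith)
  have hTl : T * log (v - X) ≤ T * (v - 1) :=
    mul_le_mul_of_nonneg_left (by linarith) hT
  have hX2 : X ^ 2 / v ≤ X ^ 2 := div_le_self (sq_nonneg X) hv
  have hXs : X ^ 2 ≤ (v - 1) ^ 2 := pow_le_pow_left₀ hX (by linarith) 2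
  nlinarith [sq_nonneg (v - 1 - T), sq_nonneg (v - 1 + T), mul_nonneg hT (sub_nonneg.2 hv),
    sq_nonneg μ]

end Pool.Agent.RieszSq
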