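import Pool.Agent.RieszF.S5Key

set_option autoImplicit false

open Real Finset

namespace Pool.Agent.RieszSq

open Pool.Agent.RieszSmall (En)
open Pool.Agent.RieszF (Conf IsMin Splitting)

section

variable {ι : Type*} [Fintype ι] [DecidableEq ι] {V : Type*} [NormedAddCommGroup V]
  [InnerProductSpace ℝ V]

private lemma StrL_split (F : ι → ℝ) {i j : ι} (hij : i ≠ j) :
    ∑ k, F k = F i + (F j + ∑ k ∈ (univ.erase i).erase j, F k) := by
  rw [← Finset.add_sum_erase univ F (mem_univ i),
    ← Finset.add_sum_erase (univ.erase i) F (mem_erase.2 ⟨hij.symm, mem_univ j⟩)]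

/-- MODULE Q21a. Write `D i j = 1 - y_i·y_j`, `D i i = 0`. `Splitting.sum_a` for `i` and for `k`
give `∑_{j ≠ i,k} (D i j - D k j) α_j = D i k (α_i - α_k)`, and `Splitting.sum_b` gives
`∑_{j ≠ i,k} (D i j - D k j) b_j = D i k (b_i - b_k)`. For `j ≠ i, k`:
`K i j - K k j = (b_i - b_k) b_j - (α_i - α_k) α_j` (`Splitting.K`) and
`(D i j - D k j) (K i j - K k j) ≤ 0` (`K = D^(-(q+1))` is decreasing in `D > 0`). Sum over `j`:
`D i k ((b_i - b_k)² - (α_i - α_k)²) ≤ 0`, `D i k > 0`. (`i = k` is trivial.) -/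
theorem split_L {q : ℝ} (hq : 0 < q) {y : ι → V} (hy : Conf y) {al b : ι → ℝ}
    (h : Splitting q y al b) (i k : ι) : (b i - b k) ^ 2 ≤ (al i - al k) ^ 2 := by
  rcases eq_or_ne i k with rfl | hik
  · simp
  set D : ι → ι → ℝ := fun k l => 1 - inner ℝ (y k) (y l) with hD
  have hDpos : ∀ k l, k ≠ l → 0 < D k l := fun k l hkl => hy.dd_pos hkl
  have hDself : ∀ k, D k k = 0 := by
    intro k
    simp only [hD]
    rw [hy.inner_self, sub_self]
  have hDsymm : ∀ k l, D k l = D l k := by
    intro k l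
    simp only [hD]
    rw [real_inner_comm]
  have hK : ∀ k l, k ≠ l → D k l ^ (-(q + 1)) = b k * b l - al k * al l :=
    fun k l hkl => h.K k l hkl
  set T : Finset ι := (univ.erase i).erase k with hT
  have hsum : ∀ c : ι → ℝ, ∑ j, D i j * c j = ∑ j, D k j * c j →
      ∑ j ∈ T, (D i j - D k j) * c j = D i k * (c i - c k) := by
    intro c hc
    rw [StrL_split _ hik, StrL_split (fun j => D k j * c j) hik] at hc
    have e : ∑ j ∈ T, (D i j - D k j) * c j
        = ∑ j ∈ T, D i j * c j - ∑ j ∈ T, D k j * c j := by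
      rw [← Finset.sum_sub_distrib]
      refine Finset.sum_congr rfl fun j _ => ?_
      ring
    rw [e]
    simp only [hDself] at hc
    rw [hDsymm k i] at hc
    linarith
  have ha : ∑ j ∈ T, (D i j - D k j) * al j = D i k * (al i - al k) :=
    hsum al ((h.sum_a i).trans (h.sum_a k).symm)
  have hb : ∑ j ∈ T, (D i j - D k j) * b j = D i k * (b i - b k) :=
    hsum b ((h.sum_b i).trans (h.sum_b k).symm)
  have hp : -(q + 1) < 0 := by linarith
  have key : ∑ j ∈ T, (D i j - D k j) * ((b i - b k) * b j - (al i - al k) * al j) ≤ 0 := by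
    refine Finset.sum_nonpos fun j hj => ?_
    obtain ⟨hjk, hj⟩ := mem_erase.1 hj
    obtain ⟨hji, _⟩ := mem_erase.1 hj
    have h1 := hK i j hji.symm
    have h2 := hK k j hjk.symm
    have e : (b i - b k) * b j - (al i - al k) * al j
        = D i j ^ (-(q + 1)) - D k j ^ (-(q + 1)) := by
      rw [h1, h2]; ring
    rw [e]
    have d1 := hDpos i j hji.symm
    have d2 := hDpos k j hjk.symm
    rcases le_total (D i j) (D k j) with hle | hle
    · have := (Real.rpow_le_rpow_iff_of_neg d2 d1 hp).2 hle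
      exact mul_nonpos_of_nonpos_of_nonneg (by linarith) (by linarith)
    · have := (Real.rpow_le_rpow_iff_of_neg d1 d2 hp).2 hle
      exact mul_nonpos_of_nonneg_of_nonpos (by linarith) (by linarith)
  have e2 : ∑ j ∈ T, (D i j - D k j) * ((b i - b k) * b j - (al i - al k) * al j)
      = (b i - b k) * ∑ j ∈ T, (D i j - D k j) * b j
        - (al i - al k) * ∑ j ∈ T, (D i j - D k j) * al j := by
    rw [Finset.mul_sum, Finset.mul_sum, ← Finset.sum_sub_distrib]
    refine Finset.sum_congr rfl fun j _ => ?_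
    ring
  rw [e2, ha, hb] at key
  have hDik := hDpos i k hik
  have key2 : D i k * ((b i - b k) ^ 2 - (al i - al k) ^ 2) ≤ 0 := by nlinarith
  by_contra hcon
  push Not at hcon
  have := mul_pos hDik (sub_pos.2 hcon)
  linarith

/-- MODULE Q21b. `i = k` is trivial. By `split_L`, `b_i - b_k ≤ α_i - α_k`. First `α_k ≤ b_k`:
otherwise `b_i ≤ b_k + α_i - α_k < α_i`, so `b_i b_k < α_i α_k`, but `K i k = b_i b_k - α_i α_k > 0`.
Then `α_i b_k - α_k b_i ≥ α_i b_k - α_k (b_k + α_i - α_k) = (α_i - α_k) (b_k - α_k) ≥ 0`. -/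
theorem split_M {q : ℝ} (hq : 0 < q) {y : ι → V} (hy : Conf y) {al b : ι → ℝ}
    (h : Splitting q y al b) {i k : ι} (hk : 0 < al k) (hik : al k ≤ al i) :
    al k * b i ≤ al i * b k := by
  rcases eq_or_ne i k with rfl | hne
  · exact le_rfl
  have hL := split_L hq hy h i k
  have hd : b i - b k ≤ al i - al k :=
    (le_abs_self _).trans ((sq_le_sq.1 hL).trans (abs_of_nonneg (by linarith)).le)
  have hKp : 0 < b i * b k - al i * al k := by
    rw [← h.K i k hne]
    exact Real.rpow_pos_of_pos (hy.dd_pos hne) _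
  have hbk : al k ≤ b k := by
    by_contra hcon
    push Not at hcon
    have hbi : b i < al i := by linarith
    have := mul_lt_mul'' hbi hcon (h.bpos i).le (h.bpos k).le
    linarith
  have := mul_nonneg (sub_nonneg.2 hik) (sub_nonneg.2 hbk)
  have h2 := mul_le_mul_of_nonneg_left hd hk.le
  nlinarith

end

end Pool.Agent.RieszSq
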