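import Pool.Agent.RieszSq.Tan

set_option autoImplicit false

open Real Finset

namespace Pool.Agent.RieszSq

section

variable {ι : Type*}

private theorem SumW1_hh {S : Finset ι} {wt : ι → ℝ} (hw : ∀ i ∈ S, 0 < wt i)
    (hs : ∑ i ∈ S, wt i = 1) : hh S wt = log 2 + ∑ i ∈ S, wt i * log (wt i) := by
  unfold hh
  calc ∑ i ∈ S, wt i * log (2 * wt i) = ∑ i ∈ S, (log 2 * wt i + wt i * log (wt i)) := by
        refine Finset.sum_congr rfl fun i hi => ?_
        rw [log_mul (by norm_num) (hw i hi).ne']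
        ring
    _ = log 2 + ∑ i ∈ S, wt i * log (wt i) := by
        rw [Finset.sum_add_distrib, ← Finset.mul_sum, hs, mul_one]

/-- MODULE Q3a. Sum `tanK` (with `K = C ω_i`, `log K = log C + log ω_i`) over `i ∈ S`;
`∑ ω_i log ω_i = hh S ω - log 2` since `∑ ω_i = 1` and `log (2 ω) = log 2 + log ω`. -/
theorem sum_one {S : Finset ι} {wt : ι → ℝ} (hw : ∀ i ∈ S, 0 < wt i) (hs : ∑ i ∈ S, wt i = 1)
    {q C D : ℝ} (hq : 0 < q) (hC : 0 < C) (hD : 0 < D) :
    C * D * ((q + 1) - log C - (q + 1) * log D + log 2 - hh S wt)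
      ≤ ∑ i ∈ S, (q + 1) * (C * wt i) ^ (q / (q + 1)) := by
  refine le_trans (le_of_eq ?_)
    (Finset.sum_le_sum fun i hi => tanK hq (mul_pos hC (hw i hi)) hD)
  rw [SumW1_hh hw hs]
  calc C * D * ((q + 1) - log C - (q + 1) * log D + log 2
        - (log 2 + ∑ i ∈ S, wt i * log (wt i)))
      = C * D * ((q + 1) - log C - (q + 1) * log D) * ∑ i ∈ S, wt i
        - C * D * ∑ i ∈ S, wt i * log (wt i) := by rw [hs]; ring
    _ = ∑ i ∈ S, (C * D * ((q + 1) - log C - (q + 1) * log D) * wt i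
        - C * D * (wt i * log (wt i))) := by
        rw [Finset.sum_sub_distrib, ← Finset.mul_sum, ← Finset.mul_sum]
    _ = _ := by
        refine Finset.sum_congr rfl fun i hi => ?_
        rw [log_mul hC.ne' (hw i hi).ne']
        ring

/-- MODULE Q3b. The same for pairs, `K = C ω_i ω_j`. -/
theorem sum_two {S S' : Finset ι} {wt : ι → ℝ} (hw : ∀ i ∈ S, 0 < wt i)
    (hs : ∑ i ∈ S, wt i = 1) (hw' : ∀ i ∈ S', 0 < wt i) (hs' : ∑ i ∈ S', wt i = 1)
    {q C D : ℝ} (hq : 0 < q) (hC : 0 < C) (hD : 0 < D) :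
    C * D * ((q + 1) - log C - (q + 1) * log D + 2 * log 2 - hh S wt - hh S' wt)
      ≤ ∑ i ∈ S, ∑ j ∈ S', (q + 1) * (C * (wt i * wt j)) ^ (q / (q + 1)) := by
  have key : ∀ i ∈ S, C * wt i * D * ((q + 1) - log (C * wt i) - (q + 1) * log D + log 2 - hh S' wt)
      ≤ ∑ j ∈ S', (q + 1) * (C * (wt i * wt j)) ^ (q / (q + 1)) := by
    intro i hi
    have h := sum_one hw' hs' hq (mul_pos hC (hw i hi)) hD
    refine h.trans (le_of_eq ?_)
    refine Finset.sum_congr rfl fun j _ => ?_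
    rw [mul_assoc C (wt i) (wt j)]
  refine le_trans (le_of_eq ?_) (Finset.sum_le_sum key)
  rw [SumW1_hh hw hs]
  calc C * D * ((q + 1) - log C - (q + 1) * log D + 2 * log 2
        - (log 2 + ∑ i ∈ S, wt i * log (wt i)) - hh S' wt)
      = C * D * ((q + 1) - log C - (q + 1) * log D + log 2 - hh S' wt) * ∑ i ∈ S, wt i
        - C * D * ∑ i ∈ S, wt i * log (wt i) := by rw [hs]; ring
    _ = ∑ i ∈ S, (C * D * ((q + 1) - log C - (q + 1) * log D + log 2 - hh S' wt) * wt i
        - C * D * (wt i * log (wt i))) := by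
        rw [Finset.sum_sub_distrib, ← Finset.mul_sum, ← Finset.mul_sum]
    _ = _ := by
        refine Finset.sum_congr rfl fun i hi => ?_
        rw [log_mul hC.ne' (hw i hi).ne']
        ring

end

end Pool.Agent.RieszSq
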