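import Pool.Agent.RieszSq.SumW1

set_option autoImplicit false

open Real Finset

namespace Pool.Agent.RieszSq

section

variable {ι : Type*}

/-- MODULE Q3c (mixing increases the entropy): `x log x` is convex (`Real.convexOn_mul_log`). -/
theorem ent_mix {A1 A2 d : ℝ} (h1 : 0 < A1) (h2 : 0 < A2) (hd0 : 0 ≤ d) (hd1 : d ≤ 1) :
    ((1 - d) * A1 + d * A2) * log ((1 - d) * A1 + d * A2)
      + ((1 - d) * A2 + d * A1) * log ((1 - d) * A2 + d * A1) ≤ A1 * log A1 + A2 * log A2 := by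
  have hc := Real.convexOn_mul_log
  have e1 := hc.2 (Set.mem_Ici.2 h1.le) (Set.mem_Ici.2 h2.le) (by linarith : (0 : ℝ) ≤ 1 - d) hd0
    (by ring)
  have e2 := hc.2 (Set.mem_Ici.2 h2.le) (Set.mem_Ici.2 h1.le) (by linarith : (0 : ℝ) ≤ 1 - d) hd0
    (by ring)
  simp only [smul_eq_mul] at e1 e2
  nlinarith [e1, e2]

/-- MODULE Q3d. `ent_mix` with `d = 1/2`. -/
theorem ent_avg {X Y : ℝ} (hX : 0 < X) (hY : 0 < Y) :
    (X + Y) / 2 * log ((X + Y) / 2) ≤ (X * log X + Y * log Y) / 2 := by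
  have h := ent_mix hX hY (d := 1 / 2) (by norm_num) (by norm_num)
  have e1 : (1 - 1 / 2) * X + 1 / 2 * Y = (X + Y) / 2 := by ring
  have e2 : (1 - 1 / 2) * Y + 1 / 2 * X = (X + Y) / 2 := by ring
  rw [e1, e2] at h
  linarith

end

end Pool.Agent.RieszSq
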