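import Pool.Agent.RieszSq.Defs
import Pool.Agent.RieszSmall.Energy

set_option autoImplicit false

open Real Finset

namespace Pool.Agent.RieszSq

/-- MODULE Q1a (tangent from below). `K^(q/p) = K · K^(-1/p)`, `p = q+1`, and
`K^(-1/p) = D exp (-(log K + p log D)/p) ≥ D (1 - (log K + p log D)/p)`; multiply by `p K`. -/
theorem tanK {q K D : ℝ} (hq : 0 < q) (hK : 0 < K) (hD : 0 < D) :
    K * D * ((q + 1) - log K - (q + 1) * log D) ≤ (q + 1) * K ^ (q / (q + 1)) := by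
  have hp : (0 : ℝ) < q + 1 := by linarith
  have h1 : K ^ (q / (q + 1)) = K * D * exp (-(log K) / (q + 1) - log D) := by
    rw [Real.rpow_def_of_pos hK]
    have e1 : K * D = exp (log K + log D) := by
      rw [Real.exp_add, Real.exp_log hK, Real.exp_log hD]
    rw [e1, ← Real.exp_add]
    congr 1
    field_simp
    ring
  have h2 := Real.add_one_le_exp (-(log K) / (q + 1) - log D)
  have h3 : 0 < K * D := mul_pos hK hD
  have h4 := mul_le_mul_of_nonneg_left h2 (mul_pos hp h3).le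
  rw [h1]
  have h5 : (q + 1) * (K * D) * (-(log K) / (q + 1) - log D + 1)
      = K * D * ((q + 1) - log K - (q + 1) * log D) := by
    field_simp
    ring
  rw [h5] at h4
  linarith

private theorem tan_aux {q K : ℝ} (hq : 0 < q) (hK : 0 < K) :
    (K ^ (1 / (q + 1))) ^ q = K ^ (q / (q + 1)) ∧ (K ^ (1 / (q + 1))) ^ (q + 1) = K ∧
      0 < K ^ (1 / (q + 1)) := by
  have hp : (0 : ℝ) < q + 1 := by linarith
  refine ⟨?_, ?_, Real.rpow_pos_of_pos hK _⟩
  · rw [← Real.rpow_mul hK.le]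
    congr 1
    ring
  · rw [← Real.rpow_mul hK.le, one_div, inv_mul_cancel₀ hp.ne', Real.rpow_one]

/-- MODULE Q1b. `Pool.Agent.RieszSmall.tangent_ineq` with `t = K^(1/p)` (`t^q = K^(q/p)`,
`t^(q+1) = K`). -/
theorem tanY {q K y : ℝ} (hq : 0 < q) (hK : 0 < K) (hy : 0 < y) :
    (q + 1) * K ^ (q / (q + 1)) - q * K * y ≤ y ^ (-q) := by
  obtain ⟨e1, e2, h0⟩ := tan_aux hq hK
  have h := Pool.Agent.RieszSmall.tangent_ineq hq h0 hy
  rw [e1, e2] at h
  linarith

/-- equality only for `K = y^(-p)`: `Pool.Agent.RieszSmall.tangent_eq` gives `K^(1/p) y = 1`. -/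
theorem tanY_eq {q K y : ℝ} (hq : 0 < q) (hK : 0 < K) (hy : 0 < y)
    (h : y ^ (-q) ≤ (q + 1) * K ^ (q / (q + 1)) - q * K * y) : y ^ (-(q + 1)) = K := by
  obtain ⟨e1, e2, h0⟩ := tan_aux hq hK
  have h1 := Pool.Agent.RieszSmall.tangent_ineq hq h0 hy
  have h2 : (1 + q) * (K ^ (1 / (q + 1))) ^ q - q * (K ^ (1 / (q + 1))) ^ (q + 1) * y
      = y ^ (-q) := by
    refine le_antisymm h1 ?_
    rw [e1, e2]
    linarith
  have h3 := Pool.Agent.RieszSmall.tangent_eq hq h0 hy h2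
  have h4 : y = (K ^ (1 / (q + 1)))⁻¹ := by
    rw [mul_comm] at h3
    exact eq_inv_of_mul_eq_one_left h3
  rw [Real.rpow_neg hy.le, h4, Real.inv_rpow h0.le, inv_inv, e2]

end Pool.Agent.RieszSq
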